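import Pool.Agent.LibBE36E.C1
import Pool.Agent.LibBE35E.B3

/-! BE36, part E: the detection, for general lengths (copy of LibBE35E/B3). -/

open MeasureTheory Set Filter Topology
open scoped ContDiff ENNReal NNReal ComplexConjugate

namespace E36

open BGS (Pl Surface grid per)
open SR85 E35

variable {Γ : Type} [Group Γ] [MulAction Γ Pl] {D : Set Pl} {G : Dat Γ}
variable {a b r : ℝ} {Λ : ℕ}

theorem detect (D : Set Pl) (a b r : ℝ) (Λ q L0 : ℕ)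
    (hL : ∀ z ∈ closure D, |z.1| ≤ (L0 : ℝ) - 1 ∧ |z.2| ≤ (L0 : ℝ) - 1) {Λ1 : ℝ}
    (hΛ : 1 ≤ Λ1) : ∃ (N : ℕ) (R0 : ℝ), 1 ≤ R0 ∧
    ∀ G : Dat Γ, UC D a b r Λ G → ∀ (M : Cl G) (R : ℕ) (ℓ : ℝ), R0 ≤ R → 0 ≤ ℓ →
      N * (1 + ℓ) ^ N * (R : ℝ) ^ (-(1 / 2) : ℝ) ≤ 1 / 4 →
      ∀ c : Fin q → ConjClasses Γ, (∀ i, c i ≠ 1 ∧ M.l (c i) ≤ ℓ) →
      ∀ lam : Fin q → ℝ, (∀ i, 1 / Λ1 ≤ |lam i|) →
      (∀ p ∈ grid L0 R, |∑ i, lam i * xi M R p (c i)| ≤ (R : ℝ) ^ (-(3 / 2) : ℝ)) →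
      (∀ i, 0 < lam i → Par M (rh b Λ R) (imf c fun j => lam j < 0) (c i)) ∧
      ∀ i, lam i < 0 → Par M (rh b Λ R) (imf c fun j => 0 < lam j) (c i) := by
  obtain ⟨N, R1, hR1, hg⟩ := good (Γ := Γ) D a b r Λ q
  refine ⟨N, R1 + 3 * Λ + |1 / r| + (Λ1 * Λ) ^ 2, ?_, ?_⟩
  · have h1 : (0 : ℝ) ≤ 3 * Λ := by positivity
    have h2 := abs_nonneg (1 / r)
    have h3 := sq_nonneg (Λ1 * Λ)
    linarith
  intro G hU M R ℓ hR hℓ hsm c hc lam hl hs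
  have h1 : (0 : ℝ) ≤ 3 * Λ := by positivity
  have h2 := abs_nonneg (1 / r)
  have h3 := sq_nonneg (Λ1 * Λ)
  have hR1' : R1 ≤ R := by linarith
  have hRone : (1 : ℝ) ≤ R := by linarith
  have hRn : 1 ≤ R := by exact_mod_cast hRone
  have hR3 : 3 * Λ ≤ R := by
    have : (3 * Λ : ℝ) ≤ R := by linarith
    exact_mod_cast this
  have hΛ0 : (1 : ℝ) ≤ Λ := by exact_mod_cast hU.L_one
  have hRr : 1 ≤ Λ * R * r := by
    have h4 : 1 / r ≤ R := by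
      have := le_abs_self (1 / r)
      linarith
    rw [div_le_iff₀ hU.r_pos] at h4
    have h5 : 0 ≤ (R : ℝ) * r := by linarith
    nlinarith
  have hRA : (Λ1 * Λ) ^ 2 + 1 ≤ (R : ℝ) := by linarith
  have hg' := hg G hU M R ℓ hR1' hℓ hsm c hc
  refine ⟨fun i hi => B3_side hU hL M hΛ hRn hR3 hRr hRA (fun i => (hc i).1) hg' hl hs hi, ?_⟩
  intro i hi
  have h4 := B3_side hU hL M hΛ hRn hR3 hRr hRA (fun i => (hc i).1) hg'
    (lam := fun j => -lam j) (fun i => by rw [abs_neg]; exact hl i) (fun p hp => by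
      have h5 : ∑ i, -lam i * xi M R p (c i) = -∑ i, lam i * xi M R p (c i) := by
        rw [← Finset.sum_neg_distrib]
        exact Finset.sum_congr rfl fun _ _ => by ring
      rw [h5, abs_neg]
      exact hs p hp) (i := i) (by linarith)
  have h5 : (imf c fun j => -lam j < 0) = imf c fun j => 0 < lam j := by
    congr 1
    funext j
    rw [neg_lt_zero]
  rw [h5] at h4
  exact h4

end E36
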