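import Pool.Agent.LibBE36E.C2
import Pool.Agent.LibBE35E.B5

/-! BE36, part E: the cancellation, for general lengths (copy of LibBE35E/B5). -/

open MeasureTheory Set Filter Topology
open scoped ContDiff ENNReal NNReal ComplexConjugate

namespace E36

open BGS (Pl Surface grid per)
open SR85 E35

variable {Γ : Type} [Group Γ] [MulAction Γ Pl] {D : Set Pl} {G : Dat Γ}
variable {a b r : ℝ} {Λ : ℕ}

open Classical in
theorem cancel (D : Set Pl) (a b r : ℝ) (Λ q L0 : ℕ)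
    (hL : ∀ z ∈ closure D, |z.1| ≤ (L0 : ℝ) - 1 ∧ |z.2| ≤ (L0 : ℝ) - 1) {Λ1 : ℝ}
    (hΛ : 1 ≤ Λ1) : ∃ (N : ℕ) (R0 : ℝ), 1 ≤ R0 ∧
    ∀ G : Dat Γ, UC D a b r Λ G → ∀ (M : Cl G) (R : ℕ) (ℓ : ℝ), R0 ≤ R → 0 ≤ ℓ →
      N * (1 + ℓ) ^ N * (R : ℝ) ^ (-(1 / 2) : ℝ) ≤ 1 / 4 →
      ∀ c : Fin q → ConjClasses Γ, (∀ i, c i ≠ 1 ∧ M.l (c i) ≤ ℓ) →
      ∀ lam : Fin q → ℝ, (∀ i, 1 / Λ1 ≤ |lam i|) →
      (∀ p ∈ grid L0 R, |∑ i, lam i * xi M R p (c i)| ≤ (R : ℝ) ^ (-(3 / 2) : ℝ)) →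
      ¬ Enc M (rh' b Λ R) (imf c fun i => 0 < lam i) →
      ∀ i, |∑ j, if Rel M (c i) (c j) then lam j * M.n (c j) else 0| ≤
        Λ * (R : ℝ) ^ (-(1 / 2) : ℝ) := by
  obtain ⟨N1, R1, hR1, hg⟩ := good (Γ := Γ) D a b r Λ q
  obtain ⟨N2, R2, hR2, hdet⟩ := detect (Γ := Γ) D a b r Λ q L0 hL hΛ
  refine ⟨N1 + N2, R1 + R2 + 3 * Λ + |1 / r| + (8 * (|cx b| * (3 * Λ) * Real.exp b)) ^ 2, ?_, ?_⟩
  · have h1 : (0 : ℝ) ≤ 3 * Λ := by positivity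
    have h2 := abs_nonneg (1 / r)
    have h3 := sq_nonneg (8 * (|cx b| * (3 * Λ) * Real.exp b))
    linarith
  intro G hU M R ℓ hR hℓ hsm c hc lam hl hs he i
  have hmono : ∀ N : ℕ, N ≤ N1 + N2 →
      (N : ℝ) * (1 + ℓ) ^ N * (R : ℝ) ^ (-(1 / 2) : ℝ) ≤ 1 / 4 := by
    intro N hN
    refine le_trans ?_ hsm
    have e1 : (N : ℝ) ≤ ((N1 + N2 : ℕ) : ℝ) := by exact_mod_cast hN
    have e2 : (1 + ℓ) ^ N ≤ (1 + ℓ) ^ (N1 + N2) := pow_le_pow_right₀ (by linarith) hN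
    gcongr
  have hb : 0 < b := by
    rw [← hU.eb]
    exact lt_of_lt_of_le hU.hg.a_pos hU.hg.ab
  have h1 : (0 : ℝ) ≤ 3 * Λ := by positivity
  have h2 := abs_nonneg (1 / r)
  have h3 := sq_nonneg (8 * (|cx b| * (3 * Λ) * Real.exp b))
  have hR1' : R1 ≤ R := by linarith
  have hR2' : R2 ≤ R := by linarith
  have hRone : (1 : ℝ) ≤ R := by linarith
  have hRn : 1 ≤ R := by exact_mod_cast hRone
  have hR3 : 3 * Λ ≤ R := by
    have : (3 * Λ : ℝ) ≤ R := by linarith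
    exact_mod_cast this
  have hΛ0 : (1 : ℝ) ≤ Λ := by exact_mod_cast hU.L_one
  have hRr : 1 ≤ Λ * R * r := by
    have h4 : 1 / r ≤ R := by
      have := le_abs_self (1 / r)
      linarith
    rw [div_le_iff₀ hU.r_pos] at h4
    have h5 : 0 ≤ (R : ℝ) * r := by linarith
    nlinarith
  have hρ : rh b Λ R ≤ 1 / 8 := B5_rh_le hb Λ hRone (by linarith)
  have hne : ∀ i, lam i ≠ 0 := by
    intro i h0
    have h4 := hl i
    rw [h0, abs_zero] at h4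
    have h5 : 0 < 1 / Λ1 := by positivity
    linarith
  have hA := B5_claimA hU M (fun i => (hc i).1) hne hρ (hdet G hU M R ℓ hR2' hℓ (hmono N2 (by omega)) c hc lam hl hs).2 he
  obtain ⟨k, hk, γ, hγ⟩ := hA i
  have hik : Rel M (c i) (c k) := (same_root hU M (hc i).1 (hc k).1 hγ).2
  refine B5_pos hU hL M hRn hR3 hRr (fun i => (hc i).1) (hg G hU M R ℓ hR1' hℓ (hmono N1 (by omega)) c hc) hA hs he hk ?_
  intro x hx hx'
  refine Finset.sum_congr rfl fun j _ => ?_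
  by_cases hj : Rel M (c i) (c j)
  · rw [if_pos hj]
    exact hx j ((rel_equiv M).trans ((rel_equiv M).symm hik) hj)
  · rw [if_neg hj]
    exact hx' j fun h => hj ((rel_equiv M).trans hik h)

end E36
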