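import Pool.Agent.LibBE35E.D11

/-! BE36, part E: the classes which follow a given class, for general lengths (copy of LibBE35E/D11). -/

open MeasureTheory Set Filter Topology
open scoped ContDiff ENNReal NNReal ComplexConjugate

namespace E36

open BGS (Pl Surface grid per)
open SR85 E35

variable {Γ : Type} [Group Γ] [MulAction Γ Pl] {D : Set Pl} {G : Dat Γ}
variable {a b r : ℝ} {Λ : ℕ}

private theorem D11_cx {b : ℝ} (hb : 0 < b) : 0 < cx b := by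
  unfold cx
  positivity

private theorem D11_ev {a b c5 : ℝ} (ha : 0 < a) (hc5 : 0 < c5) :
    ∃ R0 : ℝ, 1 ≤ R0 ∧ ∀ R : ℝ, R0 ≤ R → 8 ≤ c5 * Real.log R ∧ 8 ≤ R ^ (1 / 4 : ℝ) ∧
      4 * Real.exp (4 * a) ≤ R ^ (a * c5 / 4) ∧
      2 * (cx b * Real.exp (2 * b)) ≤ R ^ (1 / 8 : ℝ) := by
  have h1 : ∀ᶠ R : ℝ in atTop, 8 ≤ c5 * Real.log R :=
    (Real.tendsto_log_atTop.const_mul_atTop hc5).eventually_ge_atTop 8
  have h2 : ∀ᶠ R : ℝ in atTop, 8 ≤ R ^ (1 / 4 : ℝ) :=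
    (tendsto_rpow_atTop (by norm_num)).eventually_ge_atTop 8
  have h3 : ∀ᶠ R : ℝ in atTop, 4 * Real.exp (4 * a) ≤ R ^ (a * c5 / 4) :=
    (tendsto_rpow_atTop (by positivity)).eventually_ge_atTop _
  have h4 : ∀ᶠ R : ℝ in atTop, 2 * (cx b * Real.exp (2 * b)) ≤ R ^ (1 / 8 : ℝ) :=
    (tendsto_rpow_atTop (by norm_num)).eventually_ge_atTop _
  obtain ⟨R0, hR0⟩ := Filter.eventually_atTop.1 ((h1.and h2).and (h3.and h4))
  refine ⟨max R0 1, le_max_right _ _, fun R hR => ?_⟩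
  obtain ⟨⟨e1, e2⟩, e3, e4⟩ := hR0 R ((le_max_left _ _).trans hR)
  exact ⟨e1, e2, e3, e4⟩

private theorem D11_near (hU : UC D a b r Λ G) (M : Cl G) {c c' : ConjClasses Γ} (hc : c ≠ 1)
    (hc' : c' ≠ 1) {γ κ : Γ} {s ρ δ m t ϱ : ℝ} {p : Pl × ℂ} (hρ : ρ ≤ 1 / 8) (hρδ : ρ ≤ δ)
    (hδ0 : 0 ≤ δ) (hF : Fl G ρ (tv M c) (act G γ (tv M c')) s) (hl : 8 ≤ M.l c)
    (hp : ‖p.2‖ = 1) (ht : 0 < t) (hm : 0 < m) (hm1 : m ≤ 1)
    (h1 : G.d p.1 (κ • pt G (tv M c) (s - M.l c / 2)) ≤ m)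
    (h2 : G.d (pt G p t) (κ • pt G (tv M c) (s - M.l c / 2 + M.l c)) ≤ m) (hϱ : 0 < ϱ)
    (e1 : 2 * Real.exp (4 * a) * Real.exp (-(a * (M.l c / 2))) ≤ ϱ / 2)
    (e2 : cx b * δ * Real.exp (2 * b) ≤ ϱ / 2) :
    phi G ((⌈M.l c / 2⌉₊ : ℕ) : ℝ) p ∈ Nb M c' ϱ := by
  have h := hU.hg
  have ha : 0 < a := by rw [← hU.ea]; exact h.a_pos
  have hb : 0 < b := by
    rw [← hU.eb]
    exact h.a_pos.trans_le h.ab
  have hq : ‖(act G κ (tv M c)).2‖ = 1 := act_unit h κ (tv_unit M hc)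
  have hl4 : (4 : ℝ) ≤ M.l c := by linarith
  obtain ⟨η, hη, hc1⟩ := tube_ax h hp hq (τ := s - M.l c / 2) (l := M.l c) hm hm1 ht hl4
    (by rw [pt_act h]; exact h1) (by rw [pt_act h]; exact h2)
  obtain ⟨u, e, -, hs⟩ := sync h (tv_unit M hc) (act_unit h γ (tv_unit M hc')) hρ hF
  have hn1 : M.l c / 2 ≤ ((⌈M.l c / 2⌉₊ : ℕ) : ℝ) := Nat.le_ceil _
  have hn2 : ((⌈M.l c / 2⌉₊ : ℕ) : ℝ) < M.l c / 2 + 1 := Nat.ceil_lt_add_one (by linarith)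
  generalize ⌈M.l c / 2⌉₊ = n at hn1 hn2 ⊢
  have hc2 := hc1 n (by linarith) (by linarith)
  have h3 : G.d (pt G p n) (κ • pt G (tv M c) (s + (n - M.l c / 2 + η))) ≤ ϱ / 2 := by
    rw [← pt_act h]
    have e3 : s - M.l c / 2 + (n : ℝ) + η = s + (n - M.l c / 2 + η) := by ring
    rw [e3, hU.ea] at hc2
    refine hc2.trans (le_trans ?_ e1)
    have e4 : Real.exp (-(a * n)) ≤ Real.exp (-(a * (M.l c / 2))) :=
      Real.exp_le_exp.2 (by nlinarith)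
    have e5 : Real.exp (-(a * (M.l c - 2 - n))) ≤
        Real.exp (3 * a) * Real.exp (-(a * (M.l c / 2))) := by
      rw [← Real.exp_add]
      exact Real.exp_le_exp.2 (by nlinarith)
    have e6 : Real.exp (4 * a) = Real.exp a * Real.exp (3 * a) := by
      rw [← Real.exp_add]
      congr 1
      ring
    have e7 : 1 ≤ Real.exp (3 * a) := Real.one_le_exp (by positivity)
    have e8 : 0 < Real.exp (-(a * (M.l c / 2))) := Real.exp_pos _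
    calc Real.exp a * (Real.exp (-(a * n)) + Real.exp (-(a * (M.l c - 2 - n))))
        ≤ Real.exp a * (Real.exp (3 * a) * Real.exp (-(a * (M.l c / 2))) +
          Real.exp (3 * a) * Real.exp (-(a * (M.l c / 2)))) := by
          refine mul_le_mul_of_nonneg_left (add_le_add (e4.trans ?_) e5) (Real.exp_pos _).le
          nlinarith
      _ = 2 * Real.exp (4 * a) * Real.exp (-(a * (M.l c / 2))) := by
          rw [e6]
          ring
  have h4 : G.d (κ • pt G (tv M c) (s + (n - M.l c / 2 + η)))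
      ((κ * γ) • pt G (tv M c') (u + e * (n - M.l c / 2 + η))) ≤ ϱ / 2 := by
    rw [mul_smul, d_smul h]
    have h5 := hs (n - M.l c / 2 + η)
    rw [pt_act h, hU.eb] at h5
    refine h5.trans (le_trans ?_ e2)
    have h6 : |(n : ℝ) - M.l c / 2 + η| ≤ 2 := by
      have h7 := abs_le.1 hη
      rw [abs_le]
      constructor <;> linarith [h7.1, h7.2]
    have h7 := D11_cx hb
    calc cx b * ρ * Real.exp (b * |(n : ℝ) - M.l c / 2 + η|)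
        ≤ cx b * δ * Real.exp (b * |(n : ℝ) - M.l c / 2 + η|) := by
          refine mul_le_mul_of_nonneg_right ?_ (Real.exp_pos _).le
          exact mul_le_mul_of_nonneg_left hρδ h7.le
      _ ≤ cx b * δ * Real.exp (2 * b) := by
          refine mul_le_mul_of_nonneg_left ?_ (by positivity)
          refine Real.exp_le_exp.2 ?_
          nlinarith
  obtain ⟨w, hw⟩ : ∃ w, w = u + e * (n - M.l c / 2 + η) := ⟨_, rfl⟩
  rw [← hw] at h4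
  refine ⟨κ * γ, ⌊w / ϱ⌋, ?_⟩
  show G.d (pt G p n) ((κ * γ) • pt G (tv M c') (⌊w / ϱ⌋ * ϱ)) ≤ 2 * ϱ
  have h8 : G.d ((κ * γ) • pt G (tv M c') w) ((κ * γ) • pt G (tv M c') (⌊w / ϱ⌋ * ϱ)) ≤ ϱ := by
    rw [d_smul h, d_pt h (tv_unit M hc')]
    have h9 := Int.floor_le (w / ϱ)
    have h10 := Int.lt_floor_add_one (w / ϱ)
    have h11 : w / ϱ * ϱ = w := div_mul_cancel₀ _ hϱ.ne'
    rw [abs_le]
    constructor <;> nlinarith
  have t1 := h.d_tri (pt G p n) (κ • pt G (tv M c) (s + (n - M.l c / 2 + η)))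
    ((κ * γ) • pt G (tv M c') w)
  have t2 := h.d_tri (pt G p n) ((κ * γ) • pt G (tv M c') w)
    ((κ * γ) • pt G (tv M c') (⌊w / ϱ⌋ * ϱ))
  linarith

theorem mutf (D : Set Pl) (a b r : ℝ) (Λ : ℕ) {c5 : ℝ} (hc5 : 0 < c5) :
    ∃ (N : ℕ) (κ R0 : ℝ), 0 < κ ∧ 1 ≤ R0 ∧ ∀ G : Dat Γ, UC D a b r Λ G →
      ∀ (M : Cl G) (R ρ L : ℝ), R0 ≤ R → 0 ≤ L → ρ ≤ R ^ (-(1 / 4) : ℝ) → ∀ c' : ConjClasses Γ,
      c' ≠ 1 → M.l c' ≤ L → ∀ S : Finset (ConjClasses Γ),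
      (∀ c ∈ S, c ≠ 1 ∧ c5 * Real.log R ≤ M.l c ∧ M.l c ≤ L ∧
        ∃ (γ : Γ) (s : ℝ), Fl G ρ (tv M c) (act G γ (tv M c')) s) →
      ∑ c ∈ S, wt M c ^ 2 ≤ N * (1 + L) ^ N * R ^ (-κ) := by
  by_cases hab : 0 < a ∧ 0 < b
  swap
  · refine ⟨1, 1, 1, one_pos, le_rfl, fun G hU => ?_⟩
    exfalso
    apply hab
    rw [← hU.ea, ← hU.eb]
    exact ⟨hU.hg.a_pos, hU.hg.a_pos.trans_le hU.hg.ab⟩
  obtain ⟨ha, hb⟩ := hab
  obtain ⟨N1, hN1⟩ := tube (Γ := Γ) D a b r Λ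
  obtain ⟨N3, hN3⟩ := flow_nbd (Γ := Γ) D a b r Λ
  obtain ⟨C, hC1, hC⟩ := nb_mu (Γ := Γ) D a b r Λ
  obtain ⟨R0, hR01, hR0⟩ := D11_ev (b := b) ha hc5
  have hC0 : 0 < C := by linarith
  obtain ⟨κ, hκ⟩ : ∃ κ, κ = min (a * c5 / 4) (1 / 8) := ⟨_, rfl⟩
  have hκ0 : 0 < κ := by
    rw [hκ]
    positivity
  have hκ1 : κ ≤ a * c5 / 4 := by rw [hκ]; exact min_le_left _ _
  have hκ2 : κ ≤ 1 / 8 := by rw [hκ]; exact min_le_right _ _
  obtain ⟨A, hA⟩ : ∃ A : ℝ, A = N1 * (3 * (N3 * C)) * 2 ^ (N1 + 2) := ⟨_, rfl⟩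
  refine ⟨⌈A⌉₊ + (N1 + 2), κ, R0, hκ0, hR01, ?_⟩
  intro G hU M R ρ L hR hell hρ c' hc' hlc' S hS
  obtain ⟨r1, r2, r3, r4⟩ := hR0 R hR
  have hR1 : 1 ≤ R := hR01.trans hR
  have hRp : 0 < R := by linarith
  have h := hU.hg
  -- the scale
  obtain ⟨ϱ, hϱ⟩ : ∃ ϱ, ϱ = R ^ (-κ) := ⟨_, rfl⟩
  have hϱ0 : 0 < ϱ := by rw [hϱ]; exact Real.rpow_pos_of_pos hRp _
  have hϱ1 : ϱ ≤ 1 := by rw [hϱ]; exact Real.rpow_le_one_of_one_le_of_nonpos hR1 (by linarith)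
  have hδ : R ^ (-(1 / 4) : ℝ) ≤ 1 / 8 := by
    rw [Real.rpow_neg hRp.le, inv_eq_one_div]
    exact one_div_le_one_div_of_le (by norm_num) r2
  obtain ⟨ℓ, hℓ⟩ : ∃ ℓ, ℓ = max 1 (L) := ⟨_, rfl⟩
  have hℓ1 : 1 ≤ ℓ := by rw [hℓ]; exact le_max_left _ _
  have hℓ2 : L ≤ ℓ := by rw [hℓ]; exact le_max_right _ _
  have hℓ3 : ℓ ≤ 1 + L := by rw [hℓ]; exact max_le (by linarith) (by linarith)
  have hrad : 0 < rad r Λ ℓ := by
    unfold rad
    have h1 := hU.r_pos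
    have h2 : (0 : ℝ) < Λ := by exact_mod_cast hU.L_one
    positivity
  have hrad1 : rad r Λ ℓ ≤ 1 := by
    unfold rad
    have h1 := hU.r_le
    have h2 : (1 : ℝ) ≤ Λ := by exact_mod_cast hU.L_one
    have h3 : (1 : ℝ) ≤ (2 + ℓ) ^ Λ := one_le_pow₀ (by linarith)
    rw [div_le_one (by positivity)]
    nlinarith
  -- the data
  have hex : ∀ c ∈ S, ∃ (γ : Γ) (s : ℝ), Fl G ρ (tv M c) (act G γ (tv M c')) s :=
    fun c hc => (hS c hc).2.2.2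
  choose! γ s hF using hex
  obtain ⟨κ0, hκ0'⟩ := to_D hU (0 : Pl)
  obtain ⟨o, ho⟩ : ∃ o : Pl, o ∈ D := ⟨_, hκ0'⟩
  obtain ⟨nbm, nbi⟩ := nb_meas hU M c' ϱ
  let W1 : ℕ → Set (Pl × ℂ) := fun n => {p | G.d o p.1 ≤ Λ + 1 ∧ phi G n p ∈ Nb M c' ϱ}
  have hW1 : ∀ n, MeasurableSet (W1 n) := by
    intro n
    have m1 : MeasurableSet {p : Pl × ℂ | G.d o p.1 ≤ Λ + 1} :=
      (isClosed_le ((d_cont h).comp (continuous_const.prodMk continuous_fst))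
        continuous_const).measurableSet
    have m2 : Measurable (phi G (n : ℝ)) :=
      ((phi_cont h).comp (continuous_const.prodMk continuous_id)).measurable
    exact m1.inter (m2 nbm)
  have hW2 : ∀ n, muS G (W1 n) ≤ ENNReal.ofReal (N3 * (C * (1 + ℓ) * ϱ)) := by
    intro n
    refine (hN3 G hU o n _ nbm nbi).trans ?_
    have h1 := hC G hU M c' ϱ hc' hϱ0 hϱ1
    have h2 : ENNReal.ofReal (C * (1 + M.l c') * ϱ) ≤ ENNReal.ofReal (C * (1 + ℓ) * ϱ) := by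
      refine ENNReal.ofReal_le_ofReal ?_
      refine mul_le_mul_of_nonneg_right ?_ hϱ0.le
      exact mul_le_mul_of_nonneg_left (by linarith) hC0.le
    calc (N3 : ℝ≥0∞) * muD D G (Nb M c' ϱ) ≤ (N3 : ℝ≥0∞) * ENNReal.ofReal (C * (1 + ℓ) * ϱ) :=
          mul_le_mul_right (h1.trans h2) _
      _ = ENNReal.ofReal (N3 * (C * (1 + ℓ) * ϱ)) := by
          rw [← ENNReal.ofReal_natCast N3, ← ENNReal.ofReal_mul (Nat.cast_nonneg _)]
  let W : Set (Pl × ℂ) := ⋃ n ∈ Finset.range (⌈ℓ⌉₊ + 2), W1 n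
  have hWm : MeasurableSet W := Finset.measurableSet_biUnion _ fun n _ => hW1 n
  have hWmu : muS G W ≤ ENNReal.ofReal ((⌈ℓ⌉₊ + 2 : ℕ) * (N3 * (C * (1 + ℓ) * ϱ))) := by
    refine (measure_biUnion_finset_le _ _).trans ?_
    refine (Finset.sum_le_sum fun n _ => hW2 n).trans ?_
    rw [Finset.sum_const, Finset.card_range, nsmul_eq_mul,
      ← ENNReal.ofReal_natCast (⌈ℓ⌉₊ + 2), ← ENNReal.ofReal_mul (Nat.cast_nonneg _)]
  have hT := hN1 G hU M ℓ hℓ1 S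
    (fun c hc => ⟨(hS c hc).1, by linarith [(hS c hc).2.1], (hS c hc).2.2.1.trans hℓ2⟩)
    (fun c => s c - M.l c / 2) W hWm ?_
  · have h1 : ENNReal.ofReal (∑ c ∈ S, wt M c ^ 2) ≤ ENNReal.ofReal
        (N1 * (1 + ℓ) ^ N1 * ((⌈ℓ⌉₊ + 2 : ℕ) * (N3 * (C * (1 + ℓ) * ϱ)))) := by
      refine (hT.trans (mul_le_mul_right hWmu _)).trans_eq ?_
      rw [← ENNReal.ofReal_mul (by positivity)]
    have h2 := (ENNReal.ofReal_le_ofReal_iff (by positivity)).1 h1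
    refine h2.trans ?_
    have h3 : ((⌈ℓ⌉₊ + 2 : ℕ) : ℝ) ≤ 3 * (1 + ℓ) := by
      push_cast
      linarith [Nat.ceil_lt_add_one (by linarith : (0 : ℝ) ≤ ℓ)]
    have h4 : 1 + ℓ ≤ 2 * (1 + L) := by linarith
    have h5 : 1 ≤ 1 + L := by linarith
    calc N1 * (1 + ℓ) ^ N1 * (((⌈ℓ⌉₊ + 2 : ℕ) : ℝ) * (N3 * (C * (1 + ℓ) * ϱ)))
        ≤ N1 * (1 + ℓ) ^ N1 * (3 * (1 + ℓ) * (N3 * (C * (1 + ℓ) * ϱ))) := by
          refine mul_le_mul_of_nonneg_left ?_ (by positivity)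
          exact mul_le_mul_of_nonneg_right h3 (by positivity)
      _ = N1 * (3 * (N3 * C)) * (1 + ℓ) ^ (N1 + 2) * ϱ := by ring
      _ ≤ N1 * (3 * (N3 * C)) * (2 * (1 + L)) ^ (N1 + 2) * ϱ := by
          refine mul_le_mul_of_nonneg_right ?_ hϱ0.le
          refine mul_le_mul_of_nonneg_left ?_ (by positivity)
          exact pow_le_pow_left₀ (by linarith) h4 _
      _ = A * (1 + L) ^ (N1 + 2) * ϱ := by
          rw [hA, mul_pow]
          ring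
      _ ≤ ((⌈A⌉₊ + (N1 + 2) : ℕ) : ℝ) * (1 + L) ^ (⌈A⌉₊ + (N1 + 2)) * ϱ := by
          refine mul_le_mul_of_nonneg_right ?_ hϱ0.le
          refine mul_le_mul ?_ ?_ (by positivity) (by positivity)
          · push_cast
            have := Nat.le_ceil A
            have h6 : (0 : ℝ) ≤ N1 := Nat.cast_nonneg _
            linarith
          · exact pow_le_pow_right₀ h5 (by omega)
      _ = _ := by rw [hϱ]
  · intro c hc κ1 t p hp ht hD h1 h2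
    obtain ⟨q1, q2, q3, -⟩ := hS c hc
    have hl8 : 8 ≤ M.l c := by linarith
    have e1 : 2 * Real.exp (4 * a) * Real.exp (-(a * (M.l c / 2))) ≤ ϱ / 2 := by
      have e3 : Real.exp (-(a * (M.l c / 2))) ≤ R ^ (-(a * c5 / 2)) := by
        rw [Real.rpow_def_of_pos hRp]
        refine Real.exp_le_exp.2 ?_
        nlinarith
      have e4 : R ^ (-(a * c5 / 2)) = R ^ (-(a * c5 / 4)) * (R ^ (a * c5 / 4))⁻¹ := by
        rw [← Real.rpow_neg hRp.le, ← Real.rpow_add hRp]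
        congr 1
        ring
      have e5 : R ^ (-(a * c5 / 4)) ≤ ϱ := by
        rw [hϱ]
        exact Real.rpow_le_rpow_of_exponent_le hR1 (by linarith)
      have e6 : 0 < R ^ (a * c5 / 4) := Real.rpow_pos_of_pos hRp _
      have e7 : 2 * Real.exp (4 * a) * (R ^ (a * c5 / 4))⁻¹ ≤ 1 / 2 := by
        rw [← div_eq_mul_inv, div_le_iff₀ e6]
        linarith
      calc 2 * Real.exp (4 * a) * Real.exp (-(a * (M.l c / 2)))
          ≤ 2 * Real.exp (4 * a) * (R ^ (-(a * c5 / 4)) * (R ^ (a * c5 / 4))⁻¹) := by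
            rw [← e4]
            exact mul_le_mul_of_nonneg_left e3 (by positivity)
        _ = R ^ (-(a * c5 / 4)) * (2 * Real.exp (4 * a) * (R ^ (a * c5 / 4))⁻¹) := by ring
        _ ≤ ϱ * (1 / 2) := mul_le_mul e5 e7 (by positivity) hϱ0.le
        _ = ϱ / 2 := by ring
    have e2 : cx b * R ^ (-(1 / 4) : ℝ) * Real.exp (2 * b) ≤ ϱ / 2 := by
      have e4 : R ^ (-(1 / 4) : ℝ) = R ^ (-(1 / 8) : ℝ) * (R ^ (1 / 8 : ℝ))⁻¹ := by
        rw [← Real.rpow_neg hRp.le, ← Real.rpow_add hRp]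
        congr 1
        norm_num
      have e5 : R ^ (-(1 / 8) : ℝ) ≤ ϱ := by
        rw [hϱ]
        exact Real.rpow_le_rpow_of_exponent_le hR1 (by linarith)
      have e6 : 0 < R ^ (1 / 8 : ℝ) := Real.rpow_pos_of_pos hRp _
      have e7 : cx b * Real.exp (2 * b) * (R ^ (1 / 8 : ℝ))⁻¹ ≤ 1 / 2 := by
        rw [← div_eq_mul_inv, div_le_iff₀ e6]
        linarith
      have e8 := D11_cx hb
      calc cx b * R ^ (-(1 / 4) : ℝ) * Real.exp (2 * b)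
          = R ^ (-(1 / 8) : ℝ) * (cx b * Real.exp (2 * b) * (R ^ (1 / 8 : ℝ))⁻¹) := by
            rw [e4]
            ring
        _ ≤ ϱ * (1 / 2) := mul_le_mul e5 e7 (by positivity) hϱ0.le
        _ = ϱ / 2 := by ring
    have hnear := D11_near hU M q1 hc' (κ := κ1) (hρ.trans hδ) hρ (by positivity) (hF c hc) hl8 hp
      ht hrad hrad1 h1 h2 hϱ0 e1 e2
    refine mem_iUnion₂.2 ⟨⌈M.l c / 2⌉₊, ?_, ?_, hnear⟩
    · rw [Finset.mem_range]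
      have h3 : ⌈M.l c / 2⌉₊ ≤ ⌈ℓ⌉₊ := Nat.ceil_mono (by linarith)
      omega
    · show G.d o p.1 ≤ Λ + 1
      have h3 := hU.diam o (subset_closure ho) _ (subset_closure hD)
      have h4 := h.d_tri o (κ1 • pt G (tv M c) (s c - M.l c / 2)) p.1
      have h5 := h.d_symm p.1 (κ1 • pt G (tv M c) (s c - M.l c / 2))
      rw [h5] at h1
      linarith

end E36
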