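import Pool.Agent.LibBE35E.D12

/-! BE36, part E: the classes which follow themselves, for general lengths (copy of LibBE35E/D12). -/

open MeasureTheory Set Filter Topology
open scoped ContDiff ENNReal NNReal ComplexConjugate

namespace E36

open BGS (Pl Surface grid per)
open SR85 E35

variable {Γ : Type} [Group Γ] [MulAction Γ Pl] {D : Set Pl} {G : Dat Γ}
variable {a b r : ℝ} {Λ : ℕ}

private theorem D12_data (hU : UC D a b r Λ G) (M : Cl G) {c : ConjClasses Γ} (hc : c ≠ 1) {ρ : ℝ}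
    (hρ : ρ ≤ 1 / 8) (hf : ∃ (γ : Γ) (s : ℝ), Fl G ρ (tv M c) (act G γ (tv M c)) s ∧
      ¬ Same G (tv M c) (act G γ (tv M c))) :
    ∃ (γ : Γ) (s s' e : ℝ), γ ≠ 1 ∧ |s' - s| ≤ M.l c / 2 ∧ (e = 1 ∨ e = -1) ∧ ∀ t : ℝ,
      G.d (pt G (tv M c) (s + t)) (γ • pt G (tv M c) (s' + e * t)) ≤
        cx b * ρ * Real.exp (b * |t|) := by
  have h := hU.hg
  obtain ⟨γ, s, h1, h2⟩ := hf
  have hp := tv_unit M hc
  obtain ⟨u, e, he, h3⟩ := sync h hp (act_unit h γ hp) hρ h1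
  rw [hU.eb] at h3
  have hl := l_pos M hc
  set k : ℤ := round ((u - s) / M.l c) with hk
  have hk1 := abs_sub_round ((u - s) / M.l c)
  have h4 : ∀ t : ℝ, pt G (tv M c) (u + e * t) =
      M.rep c ^ k • pt G (tv M c) (u - k * M.l c + e * t) := by
    intro t
    rw [rep_zpow M hc]
    congr 1
    ring
  refine ⟨γ * M.rep c ^ k, s, u - k * M.l c, e, ?_, ?_, he, fun t => ?_⟩
  · intro h5
    apply h2
    have h6 : γ = M.rep c ^ (-k) := by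
      rw [zpow_neg]
      exact eq_inv_of_mul_eq_one_left h5
    intro t
    refine ⟨t + k * M.l c, ?_⟩
    rw [pt_act h, h6, rep_zpow M hc]
    congr 1
    push_cast
    ring
  · have h5 : u - k * M.l c - s = ((u - s) / M.l c - k) * M.l c := by field_simp; ring
    rw [h5, abs_mul, abs_of_pos hl]
    have h6 : |(u - s) / M.l c - k| * M.l c ≤ 1 / 2 * M.l c := by
      gcongr
    linarith
  · rw [mul_smul, ← h4, ← pt_act h]
    exact h3 t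

private theorem D12_W (hU : UC D a b r Λ G) (M : Cl G) {c : ConjClasses Γ} (hc : c ≠ 1) {ρ : ℝ}
    (hρ0 : 0 ≤ cx b * ρ) (hl : 20 ≤ M.l c) {γ : Γ} {s s' e : ℝ} (hγ : γ ≠ 1)
    (hs : |s' - s| ≤ M.l c / 2) (he : e = 1 ∨ e = -1)
    (hsy : ∀ t : ℝ, G.d (pt G (tv M c) (s + t)) (γ • pt G (tv M c) (s' + e * t)) ≤
        cx b * ρ * Real.exp (b * |t|)) {T ϱ : ℝ} (hϱ : 0 < ϱ) (hϱ1 : ϱ ≤ 1)
    (hT : M.l c / 2 + 5 ≤ T)
    (hsm : 4 * (Real.exp (5 * a) * Real.exp (-(a * M.l c / 4))) + cx b * ρ * Real.exp b ≤ ϱ)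
    {m : ℝ} (hm : 0 < m) (hm1 : m ≤ 1) (κ : Γ) {t : ℝ} {p : Pl × ℂ} (hp : ‖p.2‖ = 1) (ht : 0 < t)
    (h1 : G.d p.1 (κ • pt G (tv M c) ((s + s') / 2 - M.l c / 2)) ≤ m)
    (h2 : G.d (pt G p t) (κ • pt G (tv M c) ((s + s') / 2 - M.l c / 2 + M.l c)) ≤ m) :
    ∃ n : ℕ, (n : ℝ) ≤ M.l c + 2 ∧ phi G n p ∈ Rt G T ϱ := by
  have h := hU.hg
  have hb0 : 0 ≤ b := by
    rw [← hU.eb]
    exact h.a_pos.le.trans h.ab
  have ha0 : 0 < a := by
    rw [← hU.ea]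
    exact h.a_pos
  set l := M.l c with hldef
  set τ := (s + s') / 2 - l / 2 with hτ
  have hq : ‖(act G κ (tv M c)).2‖ = 1 := act_unit h κ (tv_unit M hc)
  rw [← pt_act h] at h1 h2
  obtain ⟨η, hη, hax⟩ := tube_ax h hp hq hm hm1 ht (by linarith : 4 ≤ l) h1 h2
  rw [hU.ea] at hax
  obtain ⟨hs1, hs2⟩ := abs_le.1 hs
  obtain ⟨hη1, hη2⟩ := abs_le.1 hη
  set n : ℕ := ⌈s - τ - η⌉₊ with hn
  have hpos : 0 ≤ s - τ - η := by rw [hτ]; linarith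
  have hn1 : s - τ - η ≤ n := Nat.le_ceil _
  have hn2 : (n : ℝ) < s - τ - η + 1 := Nat.ceil_lt_add_one hpos
  set t1 : ℝ := n + τ + η - s with ht1
  have ht10 : 0 ≤ t1 := by rw [ht1]; linarith
  have ht11 : t1 ≤ 1 := by rw [ht1]; linarith
  have het : |e * t1| ≤ 1 := by
    rw [abs_mul, abs_of_nonneg ht10]
    rcases he with he | he
    · rw [he]; norm_num; exact ht11
    · rw [he]; norm_num; exact ht11
  obtain ⟨het1, het2⟩ := abs_le.1 het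
  set t' : ℝ := s' + e * t1 - τ - η with ht'
  have hnl : l / 4 - 2 ≤ n := by rw [hτ] at hn1; linarith
  have hnu : (n : ℝ) ≤ 3 * l / 4 + 2 := by rw [hτ] at hn2; linarith
  have htl : l / 4 - 2 ≤ t' := by rw [ht', hτ]; linarith
  have htu : t' ≤ 3 * l / 4 + 2 := by rw [ht', hτ]; linarith
  have hE : ∀ σ : ℝ, l / 4 - 2 ≤ σ → σ ≤ 3 * l / 4 + 2 →
      G.d (pt G p σ) (pt G (act G κ (tv M c)) (τ + σ + η)) ≤
        2 * (Real.exp (5 * a) * Real.exp (-(a * l / 4))) := by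
    intro σ h3 h4
    refine (hax σ (by linarith) (by linarith)).trans ?_
    have e1 : Real.exp (-(a * σ)) ≤ Real.exp (4 * a) * Real.exp (-(a * l / 4)) := by
      rw [← Real.exp_add]
      apply Real.exp_le_exp.2
      nlinarith
    have e2 : Real.exp (-(a * (l - 2 - σ))) ≤ Real.exp (4 * a) * Real.exp (-(a * l / 4)) := by
      rw [← Real.exp_add]
      apply Real.exp_le_exp.2
      nlinarith
    have e3 : Real.exp (5 * a) = Real.exp a * Real.exp (4 * a) := by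
      rw [← Real.exp_add]; congr 1; ring
    have e4 : 0 < Real.exp a := Real.exp_pos _
    rw [e3]
    nlinarith
  -- the three steps
  have k1 : G.d (pt G p n) (pt G (act G κ (tv M c)) (s + t1)) ≤
      2 * (Real.exp (5 * a) * Real.exp (-(a * l / 4))) := by
    have := hE n hnl hnu
    rwa [show τ + (n : ℝ) + η = s + t1 by rw [ht1]; ring] at this
  have k2 : G.d (pt G p t') (pt G (act G κ (tv M c)) (s' + e * t1)) ≤
      2 * (Real.exp (5 * a) * Real.exp (-(a * l / 4))) := by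
    have := hE t' htl htu
    rwa [show τ + t' + η = s' + e * t1 by rw [ht']; ring] at this
  set g : Γ := κ * γ * κ⁻¹ with hg
  have hg1 : g⁻¹ ≠ 1 := by
    intro h5
    apply hγ
    have h6 : g = 1 := inv_eq_one.1 h5
    have h7 : γ = κ⁻¹ * g * κ := by rw [hg]; group
    rw [h7, h6]
    group
  have k3 : G.d (pt G (act G κ (tv M c)) (s + t1)) (g • pt G (act G κ (tv M c)) (s' + e * t1)) ≤
      cx b * ρ * Real.exp b := by
    rw [pt_act h, pt_act h, hg, mul_smul, mul_smul, inv_smul_smul, d_smul h]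
    refine (hsy t1).trans ?_
    apply mul_le_mul_of_nonneg_left _ hρ0
    apply Real.exp_le_exp.2
    rw [abs_of_nonneg ht10]
    nlinarith
  have k4 : G.d (pt G p n) (g • pt G p t') ≤ ϱ := by
    have f1 := h.d_tri (pt G p n) (pt G (act G κ (tv M c)) (s + t1)) (g • pt G p t')
    have f2 := h.d_tri (pt G (act G κ (tv M c)) (s + t1))
      (g • pt G (act G κ (tv M c)) (s' + e * t1)) (g • pt G p t')
    have f3 : G.d (g • pt G (act G κ (tv M c)) (s' + e * t1)) (g • pt G p t') ≤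
        2 * (Real.exp (5 * a) * Real.exp (-(a * l / 4))) := by
      rw [d_smul h, h.d_symm]
      exact k2
    linarith
  refine ⟨n, by linarith, g⁻¹, hg1, ⌊(t' - n) / ϱ⌋, ?_, ?_⟩
  · have f1 : |t' - n| ≤ l / 2 + 4 := by
      rw [abs_le]
      constructor <;> linarith
    obtain ⟨f3, f4⟩ := abs_le.1 f1
    have f5 : (⌊(t' - n) / ϱ⌋ : ℝ) * ϱ ≤ t' - n := by
      rw [← le_div_iff₀ hϱ]
      exact Int.floor_le _
    have f6 : t' - n < ((⌊(t' - n) / ϱ⌋ : ℝ) + 1) * ϱ := by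
      rw [← div_lt_iff₀ hϱ]
      exact Int.lt_floor_add_one _
    rw [abs_le]
    constructor
    · linarith
    · linarith
  · have f5 : (⌊(t' - n) / ϱ⌋ : ℝ) * ϱ ≤ t' - n := by
      rw [← le_div_iff₀ hϱ]
      exact Int.floor_le _
    have f6 : t' - n < ((⌊(t' - n) / ϱ⌋ : ℝ) + 1) * ϱ := by
      rw [← div_lt_iff₀ hϱ]
      exact Int.lt_floor_add_one _
    have f7 : (phi G n p).1 = pt G p n := rfl
    have f8 : pt G (phi G n p) ((⌊(t' - n) / ϱ⌋ : ℝ) * ϱ) =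
        pt G p (n + (⌊(t' - n) / ϱ⌋ : ℝ) * ϱ) := pt_phi h hp _ _
    rw [f7, f8]
    have f9 := h.d_tri (pt G p (n + (⌊(t' - n) / ϱ⌋ : ℝ) * ϱ)) (pt G p t') (g⁻¹ • pt G p n)
    have f10 : G.d (pt G p (n + (⌊(t' - n) / ϱ⌋ : ℝ) * ϱ)) (pt G p t') ≤ ϱ := by
      rw [d_pt h hp, abs_le]
      constructor <;> linarith
    have f11 : G.d (pt G p t') (g⁻¹ • pt G p n) ≤ ϱ := by
      rw [← d_smul h g, smul_inv_smul, h.d_symm]
      exact k4
    linarith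

private theorem D12_const {a b c5 : ℝ} (ha : 0 < a) (hb : 0 < b) (hc5 : 0 < c5) :
    ∃ R0 : ℝ, 1 ≤ R0 ∧ ∀ R : ℝ, R0 ≤ R → 20 ≤ c5 * Real.log R ∧ R ^ (-(1 / 4) : ℝ) ≤ 1 / 8 ∧
      R ^ (-(min (a * c5 / 8) (1 / 8))) ≤ 1 ∧
      ∀ l ρ : ℝ, c5 * Real.log R ≤ l → ρ ≤ R ^ (-(1 / 4) : ℝ) →
        4 * (Real.exp (5 * a) * Real.exp (-(a * l / 4))) + cx b * ρ * Real.exp b ≤
          R ^ (-(min (a * c5 / 8) (1 / 8))) := by
  have hcx : 0 < cx b := by unfold cx; positivity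
  have h1 : Tendsto (fun R : ℝ => R ^ (-(1 / 4) : ℝ)) atTop (𝓝 0) :=
    tendsto_rpow_neg_atTop (by norm_num)
  have h2 : Tendsto (fun R : ℝ => R ^ (-(1 / 8) : ℝ)) atTop (𝓝 0) :=
    tendsto_rpow_neg_atTop (by norm_num)
  have h3 : Tendsto (fun R : ℝ => R ^ (-(a * c5 / 8) : ℝ)) atTop (𝓝 0) :=
    tendsto_rpow_neg_atTop (by positivity)
  have h4 : Tendsto (fun R : ℝ => 4 * Real.exp (5 * a) * R ^ (-(a * c5 / 8) : ℝ) +
      cx b * Real.exp b * R ^ (-(1 / 8) : ℝ)) atTop (𝓝 0) := by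
    have := (h3.const_mul (4 * Real.exp (5 * a))).add (h2.const_mul (cx b * Real.exp b))
    simpa using this
  have h5 : Tendsto (fun R : ℝ => c5 * Real.log R) atTop atTop :=
    Real.tendsto_log_atTop.const_mul_atTop hc5
  obtain ⟨R0, hR0⟩ := eventually_atTop.1 (((h1.eventually_lt_const
    (show (0 : ℝ) < 1 / 8 by norm_num)).and (h4.eventually_lt_const one_pos)).and
      (h5.eventually_ge_atTop 20))
  refine ⟨max R0 1, le_max_right _ _, fun R hR => ?_⟩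
  obtain ⟨⟨e1, e2⟩, e3⟩ := hR0 R ((le_max_left _ _).trans hR)
  have hR1 : 1 ≤ R := (le_max_right _ _).trans hR
  have hRp : 0 < R := by linarith
  set κ' := min (a * c5 / 8) (1 / 8) with hκ'
  have hκ0 : 0 < κ' := lt_min (by positivity) (by norm_num)
  refine ⟨e3, e1.le, ?_, fun l ρ hl hρ => ?_⟩
  · exact Real.rpow_le_one_of_one_le_of_nonpos hR1 (by linarith)
  · have f1 : Real.exp (-(a * l / 4)) ≤ R ^ (-κ') * R ^ (-(a * c5 / 8) : ℝ) := by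
      rw [← Real.rpow_add hRp, Real.rpow_def_of_pos hRp]
      apply Real.exp_le_exp.2
      have f2 : κ' ≤ a * c5 / 8 := min_le_left _ _
      have f3 : 0 ≤ Real.log R := Real.log_nonneg hR1
      have f4 : a * (c5 * Real.log R) ≤ a * l := by gcongr
      nlinarith
    have f5 : ρ ≤ R ^ (-κ') * R ^ (-(1 / 8) : ℝ) := by
      refine hρ.trans ?_
      rw [← Real.rpow_add hRp]
      apply Real.rpow_le_rpow_of_exponent_le hR1
      have f2 : κ' ≤ 1 / 8 := min_le_right _ _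
      linarith
    have f6 : 0 < R ^ (-κ') := Real.rpow_pos_of_pos hRp _
    calc 4 * (Real.exp (5 * a) * Real.exp (-(a * l / 4))) + cx b * ρ * Real.exp b
        ≤ 4 * (Real.exp (5 * a) * (R ^ (-κ') * R ^ (-(a * c5 / 8) : ℝ))) +
          cx b * (R ^ (-κ') * R ^ (-(1 / 8) : ℝ)) * Real.exp b := by gcongr
      _ = R ^ (-κ') * (4 * Real.exp (5 * a) * R ^ (-(a * c5 / 8) : ℝ) +
          cx b * Real.exp b * R ^ (-(1 / 8) : ℝ)) := by ring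
      _ ≤ R ^ (-κ') * 1 := by gcongr
      _ = R ^ (-κ') := mul_one _

theorem selff (D : Set Pl) (a b r : ℝ) (Λ : ℕ) {c5 : ℝ} (hc5 : 0 < c5) :
    ∃ (N : ℕ) (κ R0 : ℝ), 0 < κ ∧ 1 ≤ R0 ∧ ∀ G : Dat Γ, UC D a b r Λ G →
      ∀ (M : Cl G) (R ρ L : ℝ), R0 ≤ R → 0 ≤ L → N * (1 + L) ^ N * R ^ (-κ) ≤ 1 →
      ρ ≤ R ^ (-(1 / 4) : ℝ) →
      ∀ S : Finset (ConjClasses Γ),
      (∀ c ∈ S, c ≠ 1 ∧ c5 * Real.log R ≤ M.l c ∧ M.l c ≤ L ∧
        ∃ (γ : Γ) (s : ℝ), Fl G ρ (tv M c) (act G γ (tv M c)) s ∧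
          ¬ Same G (tv M c) (act G γ (tv M c))) →
      ∑ c ∈ S, wt M c ^ 2 ≤ N * (1 + L) ^ N * R ^ (-κ) := by
  by_cases hab : 0 < a ∧ 0 < b
  swap
  · refine ⟨0, 1, 1, one_pos, le_rfl, fun G hU => ?_⟩
    exfalso
    apply hab
    rw [← hU.ea, ← hU.eb]
    exact ⟨hU.hg.a_pos, lt_of_lt_of_le hU.hg.a_pos hU.hg.ab⟩
  obtain ⟨ha, hb⟩ := hab
  obtain ⟨N₁, hN₁⟩ := tube (Γ := Γ) D a b r Λ
  obtain ⟨N₂, hN₂⟩ := rt_mu (Γ := Γ) D a b r Λ
  obtain ⟨N₃, hN₃⟩ := flow_nbd (Γ := Γ) D a b r Λ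
  set κ' : ℝ := min (a * c5 / 8) (1 / 8) with hκ'
  have hκ0 : 0 < κ' := lt_min (by positivity) (by norm_num)
  set N : ℕ := N₁ * 2 ^ N₁ * 6 * N₃ * N₂ * 8 ^ N₂ + N₂ * 8 ^ N₂ + N₁ + N₂ + 1 with hN
  obtain ⟨R1, hR11, hR1⟩ := D12_const ha hb hc5
  refine ⟨N, κ', R1, hκ0, hR11, ?_⟩
  intro G hU M R ρ L hR hL0 cN hρ S hS
  have h := hU.hg
  have hX := hU.hX
  obtain ⟨c20, c8, cϱ1, csm⟩ := hR1 R hR
  have hRone : 1 ≤ R := hR11.trans hR
  have hRp : 0 < R := by linarith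
  have hcx : 0 < cx b := by unfold cx; positivity
  set ϱ : ℝ := R ^ (-κ') with hϱ
  have hϱ0 : 0 < ϱ := Real.rpow_pos_of_pos hRp _
  set ℓ : ℝ := max 1 L with hℓ
  have hℓ1 : 1 ≤ ℓ := le_max_left _ _
  have hℓL : ℓ ≤ 1 + L := max_le (by linarith) (by linarith)
  have hΛ : (1 : ℝ) ≤ Λ := by exact_mod_cast hU.L_one
  have hrad0 : 0 < rad r Λ ℓ := by
    unfold rad
    have := hU.r_pos
    positivity
  have hrad1 : rad r Λ ℓ ≤ 1 := by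
    unfold rad
    have h1 : (1 : ℝ) ≤ (2 + ℓ) ^ Λ := one_le_pow₀ (by linarith)
    rw [div_le_one (by positivity)]
    have := hU.r_le
    nlinarith
  -- the data
  have hdat : ∀ c : ConjClasses Γ, ∃ (γ : Γ) (s s' e : ℝ), c ∈ S → γ ≠ 1 ∧
      |s' - s| ≤ M.l c / 2 ∧ (e = 1 ∨ e = -1) ∧ ∀ t : ℝ,
      G.d (pt G (tv M c) (s + t)) (γ • pt G (tv M c) (s' + e * t)) ≤
        cx b * ρ * Real.exp (b * |t|) := by
    intro c
    by_cases hc : c ∈ S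
    · obtain ⟨h1, -, -, h2⟩ := hS c hc
      obtain ⟨γ, s, s', e, h3⟩ := D12_data hU M h1 (hρ.trans c8) h2
      exact ⟨γ, s, s', e, fun _ => h3⟩
    · exact ⟨1, 0, 0, 0, fun h1 => absurd h1 hc⟩
  choose γ s s' e hdat using hdat
  have hρ0 : ∀ c ∈ S, 0 ≤ cx b * ρ := by
    intro c hc
    obtain ⟨-, -, -, h2⟩ := hdat c hc
    have h3 := h2 0
    simp only [abs_zero, mul_zero, Real.exp_zero, mul_one] at h3
    exact le_trans (norm_nonneg _) h3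
  -- the set
  obtain ⟨κ₀, ho⟩ := to_D hU (0 : Pl)
  set o : Pl := κ₀ • (0 : Pl) with hodef
  set Y : Set (Pl × ℂ) := Rt G (ℓ + 6) ϱ with hY
  obtain ⟨hYm, hYi⟩ := rt_meas hU (ℓ + 6) ϱ
  set W : Set (Pl × ℂ) := ⋃ n ∈ Finset.range (⌈ℓ⌉₊ + 4),
    {p : Pl × ℂ | G.d o p.1 ≤ Λ + 1 ∧ phi G n p ∈ Y} with hWdef
  have hWm : MeasurableSet W := by
    refine Finset.measurableSet_biUnion _ fun n _ => ?_
    refine MeasurableSet.inter ?_ ?_
    · have hc : Continuous fun p : Pl × ℂ => G.d o p.1 :=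
        (d_cont h).comp (continuous_const.prodMk continuous_fst)
      exact (isClosed_le hc continuous_const).measurableSet
    · have hc : Continuous fun p : Pl × ℂ => phi G (n : ℝ) p :=
        (phi_cont h).comp (continuous_const.prodMk continuous_id)
      exact hc.measurable hYm
  have hlS : ∀ c ∈ S, 20 ≤ M.l c ∧ M.l c ≤ ℓ := by
    intro c hc
    obtain ⟨-, h1, h2, -⟩ := hS c hc
    exact ⟨c20.trans h1, h2.trans (le_max_right _ _)⟩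
  have hmain := hN₁ G hU M ℓ hℓ1 S (fun c hc => ⟨(hS c hc).1, by linarith [(hlS c hc).1],
    (hlS c hc).2⟩) (fun c => (s c + s' c) / 2 - M.l c / 2) W hWm (by
    intro c hc κ t p hp ht hD h1 h2
    obtain ⟨d1, d2, d3, d4⟩ := hdat c hc
    obtain ⟨l1, l2⟩ := hlS c hc
    obtain ⟨n, hn1, hn2⟩ := D12_W hU M (hS c hc).1 (hρ0 c hc) l1 d1 d2 d3 d4 hϱ0 cϱ1
      (show M.l c / 2 + 5 ≤ ℓ + 6 by linarith) (csm (M.l c) ρ (hS c hc).2.1 hρ) hrad0 hrad1 κ hp ht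
      h1 h2
    rw [hWdef, Set.mem_iUnion₂]
    refine ⟨n, ?_, ?_, hn2⟩
    · rw [Finset.mem_range]
      have h3 : (n : ℝ) < (⌈ℓ⌉₊ + 4 : ℕ) := by
        push_cast
        have := Nat.le_ceil ℓ
        linarith
      exact_mod_cast h3
    · have h3 := h.d_tri o (κ • pt G (tv M c) ((s c + s' c) / 2 - M.l c / 2)) p.1
      have h4 := hU.diam o (subset_closure ho) _ (subset_closure hD)
      rw [h.d_symm (κ • pt G (tv M c) ((s c + s' c) / 2 - M.l c / 2)) p.1] at h3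
      linarith)
  -- the measure
  have hmu : muS G W ≤ ENNReal.ofReal ((ℓ + 5) * (N₃ * (N₂ * (1 + (ℓ + 6)) ^ N₂ * ϱ))) := by
    have h87 : (1 + (ℓ + 6)) ^ N₂ ≤ 8 ^ N₂ * (1 + L) ^ N₂ := by
      rw [← mul_pow]
      exact pow_le_pow_left₀ (by linarith) (by linarith) _
    have hcond : N₂ * (1 + (ℓ + 6)) ^ N₂ * ϱ ≤ 1 := by
      refine le_trans ?_ cN
      have e1 : (N₂ : ℝ) * 8 ^ N₂ ≤ N := by
        have : N₂ * 8 ^ N₂ ≤ N := by rw [hN]; omega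
        exact_mod_cast this
      have e2 : (1 + L) ^ N₂ ≤ (1 + L) ^ N := pow_le_pow_right₀ (by linarith) (by rw [hN]; omega)
      calc N₂ * (1 + (ℓ + 6)) ^ N₂ * ϱ ≤ N₂ * (8 ^ N₂ * (1 + L) ^ N₂) * ϱ := by gcongr
        _ = (N₂ * 8 ^ N₂) * (1 + L) ^ N₂ * ϱ := by ring
        _ ≤ N * (1 + L) ^ N * ϱ := by gcongr
    have h1 : ∀ n : ℕ, muS G {p : Pl × ℂ | G.d o p.1 ≤ Λ + 1 ∧ phi G n p ∈ Y} ≤
        ENNReal.ofReal (N₃ * (N₂ * (1 + (ℓ + 6)) ^ N₂ * ϱ)) := by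
      intro n
      refine (hN₃ G hU o n Y hYm hYi).trans ?_
      rw [ENNReal.ofReal_mul (Nat.cast_nonneg _), ENNReal.ofReal_natCast]
      gcongr
      exact hN₂ G hU (ℓ + 6) ϱ (by linarith) hϱ0 hcond
    calc muS G W ≤ ∑ n ∈ Finset.range (⌈ℓ⌉₊ + 4),
          muS G {p : Pl × ℂ | G.d o p.1 ≤ Λ + 1 ∧ phi G n p ∈ Y} := measure_biUnion_finset_le _ _
      _ ≤ ∑ n ∈ Finset.range (⌈ℓ⌉₊ + 4), ENNReal.ofReal (N₃ * (N₂ * (1 + (ℓ + 6)) ^ N₂ * ϱ)) :=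
          Finset.sum_le_sum fun n _ => h1 n
      _ = ((⌈ℓ⌉₊ + 4 : ℕ) : ℝ≥0∞) * ENNReal.ofReal (N₃ * (N₂ * (1 + (ℓ + 6)) ^ N₂ * ϱ)) := by
          rw [Finset.sum_const, Finset.card_range, nsmul_eq_mul]
      _ = ENNReal.ofReal (((⌈ℓ⌉₊ + 4 : ℕ) : ℝ) * (N₃ * (N₂ * (1 + (ℓ + 6)) ^ N₂ * ϱ))) := by
          rw [ENNReal.ofReal_mul (p := ((⌈ℓ⌉₊ + 4 : ℕ) : ℝ)) (Nat.cast_nonneg _),
            ENNReal.ofReal_natCast]
      _ ≤ _ := by
          apply ENNReal.ofReal_le_ofReal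
          have h2 := Nat.ceil_lt_add_one (show (0 : ℝ) ≤ ℓ by linarith)
          push_cast
          exact mul_le_mul_of_nonneg_right (by linarith) (by positivity)
  have hfin : ENNReal.ofReal (∑ c ∈ S, wt M c ^ 2) ≤ ENNReal.ofReal (N₁ * (1 + ℓ) ^ N₁ *
      ((ℓ + 5) * (N₃ * (N₂ * (1 + (ℓ + 6)) ^ N₂ * ϱ)))) := by
    refine hmain.trans ?_
    rw [ENNReal.ofReal_mul (p := N₁ * (1 + ℓ) ^ N₁) (by positivity)]
    exact mul_le_mul_right hmu _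
  rw [ENNReal.ofReal_le_ofReal_iff (by positivity)] at hfin
  refine hfin.trans ?_
  have g1 : (1 + ℓ) ^ N₁ ≤ 2 ^ N₁ * (1 + L) ^ N₁ := by
    rw [← mul_pow]
    exact pow_le_pow_left₀ (by linarith) (by linarith) _
  have g2 : (1 + (ℓ + 6)) ^ N₂ ≤ 8 ^ N₂ * (1 + L) ^ N₂ := by
    rw [← mul_pow]
    exact pow_le_pow_left₀ (by linarith) (by linarith) _
  have g3 : ℓ + 5 ≤ 6 * (1 + L) := by linarith
  have g4 : ((N₁ * 2 ^ N₁ * 6 * N₃ * N₂ * 8 ^ N₂ : ℕ) : ℝ) ≤ N := by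
    have : N₁ * 2 ^ N₁ * 6 * N₃ * N₂ * 8 ^ N₂ ≤ N := by rw [hN]; omega
    exact_mod_cast this
  have g5 : (1 + L) ^ (N₁ + N₂ + 1) ≤ (1 + L) ^ N :=
    pow_le_pow_right₀ (by linarith) (by rw [hN]; omega)
  calc N₁ * (1 + ℓ) ^ N₁ * ((ℓ + 5) * (N₃ * (N₂ * (1 + (ℓ + 6)) ^ N₂ * ϱ)))
      ≤ N₁ * (2 ^ N₁ * (1 + L) ^ N₁) * ((6 * (1 + L)) * (N₃ * (N₂ * (8 ^ N₂ * (1 + L) ^ N₂) * ϱ))) := by
        gcongr
    _ = ((N₁ * 2 ^ N₁ * 6 * N₃ * N₂ * 8 ^ N₂ : ℕ) : ℝ) * (1 + L) ^ (N₁ + N₂ + 1) * ϱ := by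
        push_cast
        ring
    _ ≤ N * (1 + L) ^ N * ϱ := by gcongr

end E36
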