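import Pool.Agent.LibBE35E.F2

/-! BE36, part E: closed geodesics with many encounters. Definitions. -/

open MeasureTheory Set Filter Topology
open scoped ContDiff ENNReal NNReal ComplexConjugate

namespace E36

open BGS (Pl Surface grid per)
open SR85 E35

variable {Γ : Type} [Group Γ] [MulAction Γ Pl] {D : Set Pl} {G : Dat Γ}

/-- A datum of an encounter: at the time `t` the geodesic of a unit vector `p` follows, from the
time `u` on and with the direction `e`, a translate of the geodesic of the known vector `q`, or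
of `p` itself if `q = none`. -/
structure Dt where
  t : ℝ
  q : Option (Pl × ℂ)
  u : ℝ
  e : ℝ

/-- The vector whose geodesic is followed. -/
def src (d : Dt) (p : Pl × ℂ) : Pl × ℂ := d.q.getD p

/-- The encounter of the datum `d` takes place for `p`, up to `ρ`, with an error `μ` of the
time `u`. -/
def Hit (G : Dat Γ) (ρ μ : ℝ) (d : Dt) (p : Pl × ℂ) : Prop :=
  ∃ g : Γ, ∃ u ∈ Icc d.u (d.u + μ), ∀ v ∈ Icc (0 : ℝ) 1,
    G.d (pt G p (d.t + v)) (g • pt G (src d p) (u + d.e * v)) ≤ ρ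

/-- The admissible data, with the delay `h` and the largest time `T`. -/
def Ok (h T : ℝ) (d : Dt) : Prop :=
  (d.e = 1 ∨ d.e = -1) ∧ 3 ≤ d.t ∧ d.t ≤ T ∧ (∀ q, d.q = some q → ‖q.2‖ = 1) ∧
    (d.q = none → 1 ≤ d.u ∧ d.u + 2 + h ≤ d.t)

/-- The vectors with `n` encounters, with data in `S`, at times with the distances `h`. -/
def Wd (G : Dat Γ) (ρ μ h : ℝ) (S : Finset Dt) (n : ℕ) : Set (Pl × ℂ) :=
  {p | ∃ l : List Dt, l.length = n ∧ (∀ d ∈ l, d ∈ S) ∧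
    l.Pairwise (fun d d' => d.t + h ≤ d'.t) ∧ ∀ d ∈ l, Hit G ρ μ d p}

/-- At the integral time `m` the axis of `c` is followed by another line of a class of `F`. -/
def Rc (M : Cl G) (ρ : ℝ) (F : Finset (ConjClasses Γ)) (c : ConjClasses Γ) (m : ℕ) : Prop :=
  (m : ℝ) ≤ M.l c ∧ ∃ c' ∈ F, ∃ γ : Γ, Fl G ρ (tv M c) (act G γ (tv M c')) m ∧
    ¬ Same G (tv M c) (act G γ (tv M c'))

/-- `n` integral times of this kind, at distances at least `τ`. -/
def Many (M : Cl G) (ρ τ : ℝ) (F : Finset (ConjClasses Γ)) (c : ConjClasses Γ) (n : ℕ) : Prop :=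
  ∃ A : Finset ℕ, n ≤ A.card ∧ (∀ m ∈ A, Rc M ρ F c m) ∧
    ∀ m ∈ A, ∀ m' ∈ A, m ≠ m' → τ ≤ |(m : ℝ) - m'|

/-- At the time `m` the geodesic of `p` is followed by two different lines of classes of `F`. -/
def Db (M : Cl G) (ρ : ℝ) (F : Finset (ConjClasses Γ)) (p : Pl × ℂ) (m : ℝ) : Prop :=
  ∃ c' ∈ F, ∃ c'' ∈ F, ∃ γ' γ'' : Γ, Fl G ρ p (act G γ' (tv M c')) m ∧
    Fl G ρ p (act G γ'' (tv M c'')) m ∧ ¬ Same G (act G γ' (tv M c')) (act G γ'' (tv M c''))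

/-- From the time `s` to the time `s'` the geodesic of `p` follows at most `k` lines, one after
the other. -/
def Brk (M : Cl G) (η : ℝ) (F : Finset (ConjClasses Γ)) (p : Pl × ℂ) : ℕ → ℝ → ℝ → Prop
  | 0, s, s' => s' ≤ s
  | k + 1, s, s' => ∃ s1, s ≤ s1 ∧ (∃ c' ∈ F, ∃ γ : Γ,
      ∀ t ∈ Icc s s1, ∃ u : ℝ, G.d (pt G p t) (γ • pt G (tv M c') u) ≤ η) ∧
      Brk M η F p k s1 s'

/-- The distance of the encounters. -/
noncomputable def tau (b R : ℝ) : ℝ := 1 / (16 * b) * Real.log R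

/-- The smallest delay. -/
noncomputable def hh (b R : ℝ) : ℝ := 1 / (128 * b) * Real.log R

/-- The distance of the encounters from the base time. -/
noncomputable def zz (a R : ℝ) : ℝ := 1 / (4 * a) * Real.log R

/-- The set `S` contains the data of all encounters with the lines of `F` and of the vector
itself. -/
def DS (M : Cl G) (F : Finset (ConjClasses Γ)) (r T h : ℝ) (S : Finset Dt) : Prop :=
  (∀ d ∈ S, Ok h T d) ∧
    ∀ (p : Pl × ℂ) (t' u e ρ : ℝ) (g : Γ) (o : Option (Pl × ℂ)),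
      (e = 1 ∨ e = -1) → 3 ≤ t' → t' ≤ T - 1 →
      ((o = none ∧ 3 ≤ u ∧ u + h + 5 ≤ t') ∨ ∃ c' ∈ F, o = some (tv M c') ∧ -1 ≤ u ∧ u ≤ T) →
      (∀ v ∈ Icc (0 : ℝ) 2, G.d (pt G p (t' + v)) (g • pt G (o.getD p) (u + e * v)) ≤ ρ) →
      ∃ d ∈ S, d.t = ⌈t'⌉₊ ∧ Hit G ρ (r / 16) d p

/-- At the time `x` the axis of `c`, seen from the time `τ`, has an encounter with a line of `F`
or with itself; `X` is the allowed interval of times, `δ` the distance. -/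
def En (M : Cl G) (b : ℝ) (F : Finset (ConjClasses Γ)) (c : ConjClasses Γ) (τ δ : ℝ)
    (X : Set ℝ) (x : ℝ) : Prop :=
  (∃ c' ∈ F, ∃ (g : Γ) (u e : ℝ), (e = 1 ∨ e = -1) ∧ 0 ≤ u ∧ u ≤ M.l c' ∧
    ∀ v : ℝ, G.d (pt G (tv M c) (τ + x + v)) (g • pt G (tv M c') (u + e * v)) ≤
      cx b * δ * Real.exp (b * |v|)) ∨
  ∃ y ∈ X, ∃ (g : Γ) (e : ℝ), g ≠ 1 ∧ (e = 1 ∨ e = -1) ∧
    ∀ v : ℝ, G.d (pt G (tv M c) (τ + x + v)) (g • pt G (tv M c) (τ + y + e * v)) ≤
      cx b * δ * Real.exp (b * |v|)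

/-- The bad tuples: one side. `P` is the set of the indices of the side; `k` bounds the number
of the lines which the other side follows. -/
def Side (M : Cl G) {q : ℕ} (b η ρ' R : ℝ) (A : ℕ) (P : Fin q → Prop)
    (c : Fin q → ConjClasses Γ) : Prop :=
  Enc M ρ' (imf c P) ∧ ∃ n : ℕ, (n = 0 ∨ ∃ i, P i ∧ Many M (R ^ (-(1 / 7) : ℝ)) (tau b R)
      (imf c P) (c i) n) ∧
    ∀ i, ¬ P i → Brk M η (imf c P) (tv M (c i)) (A * (n + 1)) 0 (M.l (c i))

/-- The bad tuples. -/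
def Bd (M : Cl G) {q : ℕ} (b η ρ' R ℓ : ℝ) (A : ℕ) (ε : Fin q → ℝ) :
    Set (Fin q → ConjClasses Γ) :=
  {c | (∀ i, c i ≠ 1 ∧ M.l (c i) ≤ ℓ) ∧ Side M b η ρ' R A (fun i => 0 < ε i) c ∧
    Side M b η ρ' R A (fun i => ε i < 0) c}

end E36
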