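import Pool.Agent.LibBE36E.Defs

/-! BE36, part E: one side with an encounter, explicit (copy of LibBE35E/F1, `side1`, with a general relation `Rq` for the other side). -/

open MeasureTheory Set Filter Topology
open scoped ContDiff ENNReal NNReal ComplexConjugate

namespace E36

open BGS (Pl Surface grid per)
open SR85 E35

variable {Γ : Type} [Group Γ] [MulAction Γ Pl] {D : Set Pl} {G : Dat Γ}
variable {a b r : ℝ} {Λ : ℕ}

open scoped Classical in
/-- One side, explicit. -/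
theorem sideA (M : Cl G) {q : ℕ} {ρ' ℓ ls : ℝ} (Rq : Finset (ConjClasses Γ) → ConjClasses Γ → Prop) (P : Fin q → Prop)
    (T : Finset (ConjClasses Γ)) (hT : ∀ c, c ∈ T ↔ c ≠ 1 ∧ M.l c ≤ ℓ) {Z Y δ : ℝ} (hZ : 1 ≤ Z)
    (hY : 1 ≤ Y) (hδ : 0 ≤ δ) (hTZ : ∑ c ∈ T, wt M c ^ 2 ≤ Z)
    (hself : ∀ S : Finset (ConjClasses Γ), (∀ c ∈ S, c ≠ 1 ∧ ls ≤ M.l c ∧ M.l c ≤ ℓ ∧
      ∃ (γ : Γ) (s : ℝ), Fl G ρ' (tv M c) (act G γ (tv M c)) s ∧
        ¬ Same G (tv M c) (act G γ (tv M c))) → ∑ c ∈ S, wt M c ^ 2 ≤ δ)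
    (hmut : ∀ c' ∈ T, ∀ S : Finset (ConjClasses Γ), (∀ c ∈ S, c ≠ 1 ∧ ls ≤ M.l c ∧ M.l c ≤ ℓ ∧
      ∃ (γ : Γ) (s : ℝ), Fl G ρ' (tv M c) (act G γ (tv M c')) s) → ∑ c ∈ S, wt M c ^ 2 ≤ δ)
    (hpar : ∀ F : Finset (ConjClasses Γ), F.card ≤ q → F ⊆ T →
      ((T.filter fun c => Rq F c).card : ℝ) ≤ Y)
    (B : Finset (Fin q → ConjClasses Γ)) (hB : ∀ c ∈ B, (∀ i, c i ∈ T) ∧
      ((∃ c₁ ∈ imf c P, ls ≤ M.l c₁ ∧ ∃ (γ : Γ) (s : ℝ),
        Fl G ρ' (tv M c₁) (act G γ (tv M c₁)) s ∧ ¬ Same G (tv M c₁) (act G γ (tv M c₁))) ∨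
      ∃ c₁ ∈ imf c P, ∃ c₂ ∈ imf c P, c₁ ≠ c₂ ∧ ls ≤ M.l c₁ ∧ ∃ (γ : Γ) (s : ℝ),
        Fl G ρ' (tv M c₁) (act G γ (tv M c₂)) s) ∧
      ∀ i, ¬ P i → Rq (imf c P) (c i)) :
    ∑ c ∈ B, ∏ i, (if P i then wt M (c i) ^ 2 else 1) ≤
      Y ^ q * ((q + q * q) * (δ * Z ^ q)) := by
  obtain ⟨f, hf⟩ : ∃ f : Fin q → ConjClasses Γ → ℝ, f = fun i c => if P i then wt M c ^ 2 else 1 :=
    ⟨_, rfl⟩
  have hf0 : ∀ i c, 0 ≤ f i c := by
    intro i c
    rw [hf]
    show 0 ≤ if P i then wt M c ^ 2 else 1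
    split_ifs
    · positivity
    · exact zero_le_one
  obtain ⟨g, hg⟩ : ∃ g : (Fin q → ConjClasses Γ) → ℝ, g = fun u => ∏ i, f i (u i) := ⟨_, rfl⟩
  have hg0 : ∀ u, 0 ≤ g u := by
    intro u
    rw [hg]
    exact Finset.prod_nonneg fun i _ => hf0 i _
  have hgc : ∀ c : Fin q → ConjClasses Γ, ∏ i, (if P i then wt M (c i) ^ 2 else 1) =
      g (fun k => if P k then c k else 1) := by
    intro c
    rw [hg, hf]
    apply Finset.prod_congr rfl
    intro i _
    show (if P i then wt M (c i) ^ 2 else 1) = if P i then wt M (if P i then c i else 1) ^ 2 else 1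
    by_cases hi : P i
    · simp only [if_pos hi]
    · simp only [if_neg hi]
  have himf : ∀ c : Fin q → ConjClasses Γ, imf (fun k => if P k then c k else 1) P = imf c P :=
    fun c => imf_congr fun i hi => by simp only [if_pos hi]
  have hfib := F1_fib P B g hg0 1 hY (fun u => T.filter fun c => Rq (imf u P) c)
    (fun c hc i hi => by
      rw [Finset.mem_filter, himf]
      exact ⟨(hB c hc).1 i, (hB c hc).2.2 i hi⟩)
    (fun c hc => by
      simp only [himf]
      apply hpar _ (imf_card P c)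
      intro x hx
      obtain ⟨i, -, rfl⟩ := imf_mem.1 hx
      exact (hB c hc).1 i)
  rw [Finset.sum_congr rfl fun c _ => hgc c]
  refine hfib.trans ?_
  apply mul_le_mul_of_nonneg_left _ (by positivity)
  -- the coordinates
  obtain ⟨T', hT'⟩ : ∃ T' : Fin q → Finset (ConjClasses Γ), T' = fun i => if P i then T else {1} :=
    ⟨_, rfl⟩
  have hT'Z : ∀ k, ∑ c ∈ T' k, f k c ≤ Z := by
    intro k
    rw [hT', hf]
    show ∑ c ∈ (if P k then T else {1}), (if P k then wt M c ^ 2 else 1) ≤ Z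
    by_cases hk : P k
    · simp only [if_pos hk]; exact hTZ
    · simp only [if_neg hk, Finset.sum_singleton]; exact hZ
  obtain ⟨S₁, hS₁⟩ : ∃ S₁ : Finset (ConjClasses Γ), S₁ = T.filter fun c => ls ≤ M.l c ∧
    ∃ (γ : Γ) (s : ℝ), Fl G ρ' (tv M c) (act G γ (tv M c)) s ∧
      ¬ Same G (tv M c) (act G γ (tv M c)) := ⟨_, rfl⟩
  obtain ⟨S₂, hS₂⟩ : ∃ S₂ : ConjClasses Γ → Finset (ConjClasses Γ), S₂ = fun c' =>
    if c' ∈ T then (T.filter fun c => ls ≤ M.l c ∧
      ∃ (γ : Γ) (s : ℝ), Fl G ρ' (tv M c) (act G γ (tv M c')) s) else ∅ := ⟨_, rfl⟩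
  have hS₁δ : ∀ i, P i → ∑ c ∈ (T' i).filter (· ∈ S₁), f i c ≤ δ := by
    intro i hi
    have e1 : ∀ c ∈ (T' i).filter (· ∈ S₁), f i c = wt M c ^ 2 := by
      intro c _
      rw [hf]
      simp only [if_pos hi]
    rw [Finset.sum_congr rfl e1]
    apply hself
    intro c hc
    rw [Finset.mem_filter] at hc
    have h2 := hc.2
    rw [hS₁, Finset.mem_filter] at h2
    have h3 := (hT c).1 h2.1
    exact ⟨h3.1, h2.2.1, h3.2, h2.2.2⟩
  have hS₂δ : ∀ c', ∀ i, P i → ∑ c ∈ (T' i).filter (· ∈ S₂ c'), f i c ≤ δ := by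
    intro c' i hi
    by_cases hc' : c' ∈ T
    · have e1 : ∀ c ∈ (T' i).filter (· ∈ S₂ c'), f i c = wt M c ^ 2 := by
        intro c _
        rw [hf]
        simp only [if_pos hi]
      rw [Finset.sum_congr rfl e1]
      apply hmut c' hc'
      intro c hc
      rw [Finset.mem_filter] at hc
      have h2 := hc.2
      rw [hS₂] at h2
      simp only [if_pos hc', Finset.mem_filter] at h2
      have h3 := (hT c).1 h2.1
      exact ⟨h3.1, h2.2.1, h3.2, h2.2.2⟩
    · have e1 : (T' i).filter (· ∈ S₂ c') = ∅ := by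
        apply Finset.filter_eq_empty_iff.2
        intro c _ hc
        rw [hS₂] at hc
        simp only [if_neg hc'] at hc
        simp at hc
      rw [e1, Finset.sum_empty]
      exact hδ
  have hb1 : ∀ i, P i → ∑ u ∈ (Fintype.piFinset T').filter (fun u => u i ∈ S₁), g u ≤ δ * Z ^ q := by
    intro i hi
    have := F1_one T' f hf0 hZ hT'Z i (fun _ => S₁) (fun _ _ => rfl) hδ (fun _ _ => by
      convert hS₁δ i hi)
    rw [Fintype.card_fin] at this
    rw [hg]
    exact this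
  have hb2 : ∀ i j, P i → i ≠ j →
      ∑ u ∈ (Fintype.piFinset T').filter (fun u => u i ∈ S₂ (u j)), g u ≤ δ * Z ^ q := by
    intro i j hi hij
    have := F1_one T' f hf0 hZ hT'Z i (fun u => S₂ (u j))
      (fun u a => by
        show S₂ (Function.update u i a j) = S₂ (u j)
        rw [Function.update_of_ne hij.symm]) hδ (fun u _ => by convert hS₂δ (u j) i hi)
    rw [Fintype.card_fin] at this
    rw [hg]
    exact this
  -- the union
  have hsub : B.image (fun c k => if P k then c k else 1) ⊆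
      ((Finset.univ.filter P).biUnion fun i => (Fintype.piFinset T').filter (fun u => u i ∈ S₁)) ∪
      (((Finset.univ.filter P) ×ˢ (Finset.univ : Finset (Fin q))).filter
        (fun o => o.1 ≠ o.2)).biUnion fun o =>
        (Fintype.piFinset T').filter (fun u => u o.1 ∈ S₂ (u o.2)) := by
    intro u hu
    rw [Finset.mem_image] at hu
    obtain ⟨c, hc, hu⟩ := hu
    obtain ⟨hcT, hcE, -⟩ := hB c hc
    have huT : u ∈ Fintype.piFinset T' := by
      rw [Fintype.mem_piFinset]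
      intro i
      rw [hT', ← hu]
      show (if P i then c i else 1) ∈ (if P i then T else {1} : Finset (ConjClasses Γ))
      by_cases hi : P i
      · simp only [if_pos hi]; exact hcT i
      · simp only [if_neg hi, Finset.mem_singleton]
    have hui : ∀ i, P i → u i = c i := by
      intro i hi
      rw [← hu]
      simp only [if_pos hi]
    rw [Finset.mem_union]
    rcases hcE with ⟨c₁, hc₁, hl, γ, s, hfl, hns⟩ | ⟨c₁, hc₁, c₂, hc₂, hne, hl, γ, s, hfl⟩
    · left
      obtain ⟨i, hi, rfl⟩ := imf_mem.1 hc₁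
      rw [Finset.mem_biUnion]
      refine ⟨i, by simp [hi], ?_⟩
      rw [Finset.mem_filter]
      refine ⟨huT, ?_⟩
      rw [hui i hi, hS₁, Finset.mem_filter]
      exact ⟨hcT i, hl, γ, s, hfl, hns⟩
    · right
      obtain ⟨i, hi, rfl⟩ := imf_mem.1 hc₁
      obtain ⟨j, hj, rfl⟩ := imf_mem.1 hc₂
      have hij : i ≠ j := by
        rintro rfl
        exact hne rfl
      rw [Finset.mem_biUnion]
      refine ⟨(i, j), by simp [hi, hij], ?_⟩
      rw [Finset.mem_filter]
      refine ⟨huT, ?_⟩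
      show u i ∈ S₂ (u j)
      rw [hui i hi, hui j hj, hS₂]
      simp only [if_pos (hcT j), Finset.mem_filter]
      exact ⟨hcT i, hl, γ, s, hfl⟩
  have hZq : 0 ≤ δ * Z ^ q := by positivity
  refine (Finset.sum_le_sum_of_subset_of_nonneg hsub fun u _ _ => hg0 u).trans ?_
  have hu1 : ∀ (A₁ A₂ : Finset (Fin q → ConjClasses Γ)),
      ∑ u ∈ A₁ ∪ A₂, g u ≤ ∑ u ∈ A₁, g u + ∑ u ∈ A₂, g u := by
    intro A₁ A₂
    have := Finset.sum_union_inter (s₁ := A₁) (s₂ := A₂) (f := g)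
    have h2 : 0 ≤ ∑ u ∈ A₁ ∩ A₂, g u := Finset.sum_nonneg fun u _ => hg0 u
    linarith
  have hbU : ∀ {κ : Type} (I : Finset κ) (A : κ → Finset (Fin q → ConjClasses Γ)),
      ∑ u ∈ I.biUnion A, g u ≤ ∑ i ∈ I, ∑ u ∈ A i, g u := by
    intro κ I A
    induction I using Finset.induction_on with
    | empty => simp
    | insert i I hi ih =>
      rw [Finset.biUnion_insert, Finset.sum_insert hi]
      refine (hu1 _ _).trans ?_
      linarith
  refine (hu1 _ _).trans ?_
  have g1 : ∑ u ∈ (Finset.univ.filter P).biUnion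
      (fun i => (Fintype.piFinset T').filter (fun u => u i ∈ S₁)), g u ≤ q * (δ * Z ^ q) := by
    refine (hbU _ _).trans ?_
    refine (Finset.sum_le_sum fun i hi => hb1 i (Finset.mem_filter.1 hi).2).trans ?_
    rw [Finset.sum_const, nsmul_eq_mul]
    apply mul_le_mul_of_nonneg_right _ hZq
    have : (Finset.univ.filter P).card ≤ q :=
      (Finset.card_filter_le _ _).trans (by rw [Finset.card_univ, Fintype.card_fin])
    exact_mod_cast this
  have g2 : ∑ u ∈ (((Finset.univ.filter P) ×ˢ (Finset.univ : Finset (Fin q))).filter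
        (fun o => o.1 ≠ o.2)).biUnion (fun o =>
        (Fintype.piFinset T').filter (fun u => u o.1 ∈ S₂ (u o.2))), g u ≤
      (q * q) * (δ * Z ^ q) := by
    refine (hbU _ _).trans ?_
    have hb3 : ∀ o ∈ (((Finset.univ.filter P) ×ˢ (Finset.univ : Finset (Fin q))).filter
        (fun o => o.1 ≠ o.2)), ∑ u ∈ (Fintype.piFinset T').filter (fun u => u o.1 ∈ S₂ (u o.2)),
          g u ≤ δ * Z ^ q := by
      intro o ho
      rw [Finset.mem_filter, Finset.mem_product, Finset.mem_filter] at ho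
      exact hb2 o.1 o.2 ho.1.1.2 ho.2
    refine (Finset.sum_le_sum hb3).trans ?_
    rw [Finset.sum_const, nsmul_eq_mul]
    apply mul_le_mul_of_nonneg_right _ hZq
    have : (((Finset.univ.filter P) ×ˢ (Finset.univ : Finset (Fin q))).filter
      (fun o => o.1 ≠ o.2)).card ≤ q * q := by
      refine (Finset.card_filter_le _ _).trans ?_
      rw [Finset.card_product, Finset.card_univ, Fintype.card_fin]
      apply Nat.mul_le_mul_right
      exact (Finset.card_filter_le _ _).trans (by rw [Finset.card_univ, Fintype.card_fin])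
    exact_mod_cast this
  linarith

end E36
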