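import Pool.Agent.LibBE36E.F1

/-! Row F2 of BE36E (BE36, part E; architect helper85). One side with many encounters, explicit. MEDIUM, 60 min. TEMPLATE: `sideA` (LibBE36E/F1.lean, proved; copy its proof).
Plan. As `sideA`, with one kind of sets only: `S₁ i u` := `T.filter fun c => ∃ F', (∀ c' ∈ F', c' = c ∨ c' ∈ image of u on {j | P j ∧ j ≠ i}) ∧ Many M ρ₁ τ F' c n` (independent of `u i`: `Function.update_of_ne`), `F1_one` for each `i` with `P i`: the hypothesis `hSδ` is `hmany` with `F` = this image (card `≤ q`, in `T` because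
`u k ∈ T' k` for `k ≠ i` and `P k`), so `∑ ≤ δ * Z ^ q`; the image `B.image ..` is contained in the union over the `i` with `P i`: if `P i` and `Many M ρ₁ τ (imf c P) (c i) n` take `F' = imf c P` (`imf_mem`: `c' = c j` with `P j`: `j = i` or `j ≠ i`). The number of the `i` is at most `q`. -/

open MeasureTheory Set Filter Topology
open scoped ContDiff ENNReal NNReal ComplexConjugate

namespace E36

open BGS (Pl Surface grid per)
open SR85 E35

variable {Γ : Type} [Group Γ] [MulAction Γ Pl] {D : Set Pl} {G : Dat Γ}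
variable {a b r : ℝ} {Λ : ℕ}

open scoped Classical in
/-- One side with many encounters, explicit. -/
theorem sideB (M : Cl G) {q : ℕ} {ρ₁ τ ℓ : ℝ}
    (Rq : Finset (ConjClasses Γ) → ConjClasses Γ → Prop) (P : Fin q → Prop)
    (T : Finset (ConjClasses Γ)) (hT : ∀ c, c ∈ T ↔ c ≠ 1 ∧ M.l c ≤ ℓ) {Z Y δ : ℝ} (hZ : 1 ≤ Z)
    (hY : 1 ≤ Y) (hδ : 0 ≤ δ) (hTZ : ∑ c ∈ T, wt M c ^ 2 ≤ Z) (n : ℕ)
    (hmany : ∀ F : Finset (ConjClasses Γ), F.card ≤ q → F ⊆ T →
      ∀ S : Finset (ConjClasses Γ), (∀ c ∈ S, c ≠ 1 ∧ M.l c ≤ ℓ ∧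
        ∃ F' : Finset (ConjClasses Γ), (∀ c' ∈ F', c' = c ∨ c' ∈ F) ∧ Many M ρ₁ τ F' c n) →
      ∑ c ∈ S, wt M c ^ 2 ≤ δ)
    (hpar : ∀ F : Finset (ConjClasses Γ), F.card ≤ q → F ⊆ T →
      ((T.filter fun c => Rq F c).card : ℝ) ≤ Y)
    (B : Finset (Fin q → ConjClasses Γ)) (hB : ∀ c ∈ B, (∀ i, c i ∈ T) ∧
      (∃ i, P i ∧ Many M ρ₁ τ (imf c P) (c i) n) ∧ ∀ i, ¬ P i → Rq (imf c P) (c i)) :
    ∑ c ∈ B, ∏ i, (if P i then wt M (c i) ^ 2 else 1) ≤ Y ^ q * (q * (δ * Z ^ q)) := by
  obtain ⟨f, hf⟩ : ∃ f : Fin q → ConjClasses Γ → ℝ, f = fun i c => if P i then wt M c ^ 2 else 1 :=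
    ⟨_, rfl⟩
  have hf0 : ∀ i c, 0 ≤ f i c := by
    intro i c
    rw [hf]
    show 0 ≤ if P i then wt M c ^ 2 else 1
    split_ifs
    · positivity
    · exact zero_le_one
  obtain ⟨g, hg⟩ : ∃ g : (Fin q → ConjClasses Γ) → ℝ, g = fun u => ∏ i, f i (u i) := ⟨_, rfl⟩
  have hg0 : ∀ u, 0 ≤ g u := by
    intro u
    rw [hg]
    exact Finset.prod_nonneg fun i _ => hf0 i _
  have hgc : ∀ c : Fin q → ConjClasses Γ, ∏ i, (if P i then wt M (c i) ^ 2 else 1) =
      g (fun k => if P k then c k else 1) := by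
    intro c
    rw [hg, hf]
    apply Finset.prod_congr rfl
    intro i _
    show (if P i then wt M (c i) ^ 2 else 1) = if P i then wt M (if P i then c i else 1) ^ 2 else 1
    by_cases hi : P i
    · simp only [if_pos hi]
    · simp only [if_neg hi]
  have himf : ∀ c : Fin q → ConjClasses Γ, imf (fun k => if P k then c k else 1) P = imf c P :=
    fun c => imf_congr fun i hi => by simp only [if_pos hi]
  have hfib := F1_fib P B g hg0 1 hY (fun u => T.filter fun c => Rq (imf u P) c)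
    (fun c hc i hi => by
      rw [Finset.mem_filter, himf]
      exact ⟨(hB c hc).1 i, (hB c hc).2.2 i hi⟩)
    (fun c hc => by
      simp only [himf]
      apply hpar _ (imf_card P c)
      intro x hx
      obtain ⟨i, -, rfl⟩ := imf_mem.1 hx
      exact (hB c hc).1 i)
  rw [Finset.sum_congr rfl fun c _ => hgc c]
  refine hfib.trans ?_
  apply mul_le_mul_of_nonneg_left _ (by positivity)
  -- the coordinates
  obtain ⟨T', hT'⟩ : ∃ T' : Fin q → Finset (ConjClasses Γ), T' = fun i => if P i then T else {1} :=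
    ⟨_, rfl⟩
  have hT'Z : ∀ k, ∑ c ∈ T' k, f k c ≤ Z := by
    intro k
    rw [hT', hf]
    show ∑ c ∈ (if P k then T else {1}), (if P k then wt M c ^ 2 else 1) ≤ Z
    by_cases hk : P k
    · simp only [if_pos hk]; exact hTZ
    · simp only [if_neg hk, Finset.sum_singleton]; exact hZ
  -- the other lines of the side
  obtain ⟨J, hJ⟩ : ∃ J : Fin q → (Fin q → ConjClasses Γ) → Finset (ConjClasses Γ),
    J = fun i u => (Finset.univ.filter fun j => P j ∧ j ≠ i).image u := ⟨_, rfl⟩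
  have hJcard : ∀ i u, (J i u).card ≤ q := by
    intro i u
    rw [hJ]
    refine Finset.card_image_le.trans ?_
    refine (Finset.card_filter_le _ _).trans ?_
    rw [Finset.card_univ, Fintype.card_fin]
  have hJmem : ∀ i u x, x ∈ J i u ↔ ∃ j, (P j ∧ j ≠ i) ∧ u j = x := by
    intro i u x
    rw [hJ]
    simp only [Finset.mem_image, Finset.mem_filter, Finset.mem_univ, true_and]
  obtain ⟨S₁, hS₁⟩ : ∃ S₁ : Fin q → (Fin q → ConjClasses Γ) → Finset (ConjClasses Γ),
    S₁ = fun i u => T.filter fun c => ∃ F' : Finset (ConjClasses Γ),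
      (∀ c' ∈ F', c' = c ∨ c' ∈ J i u) ∧ Many M ρ₁ τ F' c n := ⟨_, rfl⟩
  have hS₁u : ∀ i u a, S₁ i (Function.update u i a) = S₁ i u := by
    intro i u a
    have e1 : J i (Function.update u i a) = J i u := by
      ext x
      rw [hJmem, hJmem]
      constructor
      · rintro ⟨j, hj, hx⟩
        refine ⟨j, hj, ?_⟩
        rwa [Function.update_of_ne hj.2] at hx
      · rintro ⟨j, hj, hx⟩
        refine ⟨j, hj, ?_⟩
        rwa [Function.update_of_ne hj.2]
    rw [hS₁]
    show (T.filter fun c => ∃ F' : Finset (ConjClasses Γ),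
      (∀ c' ∈ F', c' = c ∨ c' ∈ J i (Function.update u i a)) ∧ Many M ρ₁ τ F' c n) = _
    rw [e1]
  have hS₁δ : ∀ i, P i → ∀ u : Fin q → ConjClasses Γ, (∀ k, k ≠ i → u k ∈ T' k) →
      ∑ c ∈ (T' i).filter (· ∈ S₁ i u), f i c ≤ δ := by
    intro i hi u hu
    have e1 : ∀ c ∈ (T' i).filter (· ∈ S₁ i u), f i c = wt M c ^ 2 := by
      intro c _
      rw [hf]
      simp only [if_pos hi]
    rw [Finset.sum_congr rfl e1]
    refine hmany (J i u) (hJcard i u) (fun x hx => ?_) _ (fun c hc => ?_)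
    · obtain ⟨j, ⟨hj, hji⟩, rfl⟩ := (hJmem i u x).1 hx
      have h1 := hu j hji
      rw [hT'] at h1
      simp only [if_pos hj] at h1
      exact h1
    · rw [Finset.mem_filter] at hc
      have h2 := hc.2
      rw [hS₁] at h2
      have h2' := Finset.mem_filter.1 h2
      have h3 := (hT c).1 h2'.1
      exact ⟨h3.1, h3.2, h2'.2⟩
  have hb1 : ∀ i, P i →
      ∑ u ∈ (Fintype.piFinset T').filter (fun u => u i ∈ S₁ i u), g u ≤ δ * Z ^ q := by
    intro i hi
    have := F1_one T' f hf0 hZ hT'Z i (S₁ i) (hS₁u i) hδ (fun u hu =>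
      (le_of_eq (Finset.sum_congr (by
        ext x
        simp only [Finset.mem_filter]) fun _ _ => rfl)).trans (hS₁δ i hi u hu))
    rw [Fintype.card_fin] at this
    rw [hg]
    exact this
  -- the union
  have hsub : B.image (fun c k => if P k then c k else 1) ⊆
      (Finset.univ.filter P).biUnion fun i =>
        (Fintype.piFinset T').filter (fun u => u i ∈ S₁ i u) := by
    intro u hu
    rw [Finset.mem_image] at hu
    obtain ⟨c, hc, hu⟩ := hu
    obtain ⟨hcT, ⟨i, hi, hmn⟩, -⟩ := hB c hc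
    have huT : u ∈ Fintype.piFinset T' := by
      rw [Fintype.mem_piFinset]
      intro i
      rw [hT', ← hu]
      show (if P i then c i else 1) ∈ (if P i then T else {1} : Finset (ConjClasses Γ))
      by_cases hi : P i
      · simp only [if_pos hi]; exact hcT i
      · simp only [if_neg hi, Finset.mem_singleton]
    have hui : ∀ i, P i → u i = c i := by
      intro i hi
      rw [← hu]
      simp only [if_pos hi]
    rw [Finset.mem_biUnion]
    refine ⟨i, by simp [hi], ?_⟩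
    rw [Finset.mem_filter]
    refine ⟨huT, ?_⟩
    rw [hui i hi, hS₁]
    refine Finset.mem_filter.2 ⟨hcT i, imf c P, fun c' hc' => ?_, hmn⟩
    obtain ⟨j, hj, rfl⟩ := imf_mem.1 hc'
    by_cases hji : j = i
    · left
      rw [hji]
    · right
      rw [hJmem]
      exact ⟨j, ⟨hj, hji⟩, hui j hj⟩
  have hZq : 0 ≤ δ * Z ^ q := by positivity
  refine (Finset.sum_le_sum_of_subset_of_nonneg hsub fun u _ _ => hg0 u).trans ?_
  have hu1 : ∀ (A₁ A₂ : Finset (Fin q → ConjClasses Γ)),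
      ∑ u ∈ A₁ ∪ A₂, g u ≤ ∑ u ∈ A₁, g u + ∑ u ∈ A₂, g u := by
    intro A₁ A₂
    have := Finset.sum_union_inter (s₁ := A₁) (s₂ := A₂) (f := g)
    have h2 : 0 ≤ ∑ u ∈ A₁ ∩ A₂, g u := Finset.sum_nonneg fun u _ => hg0 u
    linarith
  have hbU : ∀ {κ : Type} (I : Finset κ) (A : κ → Finset (Fin q → ConjClasses Γ)),
      ∑ u ∈ I.biUnion A, g u ≤ ∑ i ∈ I, ∑ u ∈ A i, g u := by
    intro κ I A
    induction I using Finset.induction_on with
    | empty => simp
    | insert i I hi ih =>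
      rw [Finset.biUnion_insert, Finset.sum_insert hi]
      refine (hu1 _ _).trans ?_
      linarith
  refine (hbU _ _).trans ?_
  refine (Finset.sum_le_sum fun i hi => hb1 i (Finset.mem_filter.1 hi).2).trans ?_
  rw [Finset.sum_const, nsmul_eq_mul]
  apply mul_le_mul_of_nonneg_right _ hZq
  have : (Finset.univ.filter P).card ≤ q :=
    (Finset.card_filter_le _ _).trans (by rw [Finset.card_univ, Fintype.card_fin])
  exact_mod_cast this

end E36
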