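import Mathlib

/-! Row F3 of BE36E (BE36, part E; architect helper85). The numbers. ONLY MATHLIB, MEDIUM/STRONG, 75 min.
Plan. Let `C0, N5 ≥ 1` (the cases `C0 = 0` is harmless: replace by `C0 + 1` or treat the base `C0 * (1 + ℓ) ≤ X := (C0 + 1) * (1 + ℓ)`), `κ = min κ1 κ5`, `n0 = 4 * N5`. Choose `κ0 = κ / (64 * (C0 + 1) * N5 * (n0 + 1))` or smaller (`≤ κ / 64`) and `R0` so large that `2 * (C0 + 1) ≤ R ^ κ0`, `3 ≤ R ^ κ0`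
(`tendsto_rpow_atTop`). Then for `ℓ ≤ R ^ κ0`: `X ≤ 2 (C0 + 1) R ^ κ0 ≤ R ^ (2 κ0)`. (a) for `n < n0`: `X ^ (C0 (n + 1)) ≤ R ^ (2 κ0 C0 (n0 + 1)) ≤ R ^ (κ / 32)`, times `R ^ (-κ1)`: `≤ R ^ (-κ / 2)`. (b) for `n ≥ n0`: `n / N5 ≥ 4` and the natural number `n / N5 - 1` is `≥ (n + 1) / (2 N5)` as a real number
(`n / N5 ≥ (n + 1) / N5 - 1`, `(n + 1) / N5 ≥ 4`), so `(R ^ (-κ5)) ^ (n / N5 - 1) ≤ R ^ (-(κ (n + 1) / (2 N5)))`; `X ^ (C0 (n + 1)) ≤ R ^ (2 κ0 C0 (n + 1)) ≤ R ^ (κ (n + 1) / (32 N5))`; the product is `≤ R ^ (-(κ (n + 1) / (4 N5))) ≤ R ^ (-κ)` since `n + 1 ≥ 4 N5`. So `κ' = κ / 2` works.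
(c) `(ℓ + 3) ≤ 4 R ^ κ0 ≤ R ^ (3 κ0) ≤ R ^ (κ / 4)`. (d) `(C0 (1 + ℓ)) ^ C0 * R ^ (-κ1) ≤ 1` as (a) with exponent `C0`. (Work with real exponents: `← Real.rpow_natCast`, `← Real.rpow_mul`, `← Real.rpow_add`.) -/

open Filter Topology

namespace E36

theorem numF (C0 N5 : ℕ) {κ1 κ5 : ℝ} (hN : 1 ≤ N5) (h1 : 0 < κ1) (h5 : 0 < κ5) :
    ∃ (κ' κ0 R0 : ℝ) (n0 : ℕ), 0 < κ' ∧ 0 < κ0 ∧ 1 ≤ R0 ∧ N5 ≤ n0 ∧
      ∀ R ℓ : ℝ, R0 ≤ R → 1 ≤ ℓ → ℓ ≤ R ^ κ0 →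
      (∀ n : ℕ, n < n0 → (C0 * (1 + ℓ)) ^ (C0 * (n + 1)) * R ^ (-κ1) ≤ R ^ (-κ')) ∧
      (∀ n : ℕ, n0 ≤ n →
        (C0 * (1 + ℓ)) ^ (C0 * (n + 1)) * (R ^ (-κ5)) ^ (n / N5 - 1) ≤ R ^ (-κ')) ∧
      (ℓ + 3) * R ^ (-κ') ≤ R ^ (-(κ' / 2)) ∧
      (C0 * (1 + ℓ)) ^ C0 * R ^ (-κ1) ≤ 1 ∧ (C0 * (1 + ℓ)) ^ C0 * R ^ (-κ5) ≤ 1 := by
  set κ : ℝ := min κ1 κ5 with hκ
  have hκ0 : 0 < κ := lt_min h1 h5
  have hκ1 : κ ≤ κ1 := min_le_left _ _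
  have hκ5 : κ ≤ κ5 := min_le_right _ _
  have hNr : (1 : ℝ) ≤ N5 := by exact_mod_cast hN
  have hC0 : (0 : ℝ) ≤ C0 := Nat.cast_nonneg _
  set D : ℝ := 64 * (C0 + 1) * N5 * (4 * N5 + 1) with hD
  have hD0 : 0 < D := by positivity
  set κ0 : ℝ := κ / D with hκ0'
  have hκ00 : 0 < κ0 := div_pos hκ0 hD0
  have hκD : κ0 * D = κ := div_mul_cancel₀ _ hD0.ne'
  have hD64 : 64 ≤ D := by
    have e1 : (1 : ℝ) ≤ C0 + 1 := by linarith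
    have e2 : (1 : ℝ) ≤ 4 * N5 + 1 := by linarith
    have e3 : (1 : ℝ) ≤ (C0 + 1) * N5 := one_le_mul_of_one_le_of_one_le e1 hNr
    have e4 : (1 : ℝ) ≤ (C0 + 1) * N5 * (4 * N5 + 1) := one_le_mul_of_one_le_of_one_le e3 e2
    rw [hD]
    nlinarith
  have hk64 : 64 * κ0 ≤ κ := by
    rw [← hκD]
    nlinarith
  -- `2 κ0 C0 * (4 N5) ≤ κ / 4`
  have hkN : 2 * κ0 * C0 * (4 * N5) ≤ κ / 4 := by
    have e1 : 8 * C0 * (4 * N5) ≤ D := by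
      have e2 : (C0 : ℝ) * (4 * N5) ≤ (C0 + 1) * (4 * N5 + 1) := by nlinarith
      have e3 : (C0 + 1 : ℝ) * (4 * N5 + 1) ≤ (C0 + 1) * (4 * N5 + 1) * N5 := by
        have : (0 : ℝ) ≤ (C0 + 1) * (4 * N5 + 1) := by positivity
        nlinarith
      have e4 : D = 64 * ((C0 + 1) * (4 * N5 + 1) * N5) := by rw [hD]; ring
      rw [e4]
      have : (0 : ℝ) ≤ (C0 + 1) * (4 * N5 + 1) * N5 := by positivity
      nlinarith
    have e2 := mul_le_mul_of_nonneg_left e1 hκ00.le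
    rw [hκD] at e2
    nlinarith
  set B : ℝ := 2 * (C0 + 1) with hB
  have hB1 : 2 ≤ B := by rw [hB]; linarith
  have hB0 : 0 < B := by linarith
  refine ⟨κ / 2, κ0, B ^ (1 / κ0), 4 * N5, by positivity, hκ00,
    Real.one_le_rpow (by linarith) (by positivity), by omega, ?_⟩
  intro R ℓ hR hl1 hl
  have hR1 : 1 ≤ R := le_trans (Real.one_le_rpow (by linarith) (by positivity)) hR
  have hR0 : 0 < R := by linarith
  have hθ : B ≤ R ^ κ0 := by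
    have e1 : (B ^ (1 / κ0)) ^ κ0 ≤ R ^ κ0 :=
      Real.rpow_le_rpow (Real.rpow_nonneg hB0.le _) hR hκ00.le
    rwa [← Real.rpow_mul hB0.le, one_div, inv_mul_cancel₀ hκ00.ne', Real.rpow_one] at e1
  have hX : (C0 : ℝ) * (1 + ℓ) ≤ R ^ (2 * κ0) := by
    have e1 : R ^ (2 * κ0) = R ^ κ0 * R ^ κ0 := by
      rw [← Real.rpow_add hR0]
      ring_nf
    rw [e1]
    have e2 : (C0 : ℝ) * (1 + ℓ) ≤ B * ℓ := by
      rw [hB]
      nlinarith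
    exact e2.trans (mul_le_mul hθ hl (by linarith) (by positivity))
  have hX0 : 0 ≤ (C0 : ℝ) * (1 + ℓ) := by positivity
  have hXp : ∀ p : ℕ, ((C0 : ℝ) * (1 + ℓ)) ^ p ≤ R ^ (2 * κ0 * p) := by
    intro p
    rw [Real.rpow_mul hR0.le, Real.rpow_natCast]
    exact pow_le_pow_left₀ hX0 hX p
  have key : ∀ (p : ℕ) (s t : ℝ), 2 * κ0 * p - s ≤ t →
      ((C0 : ℝ) * (1 + ℓ)) ^ p * R ^ (-s) ≤ R ^ t := by
    intro p s t hst
    refine (mul_le_mul_of_nonneg_right (hXp p) (Real.rpow_nonneg hR0.le _)).trans ?_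
    rw [← Real.rpow_add hR0]
    exact Real.rpow_le_rpow_of_exponent_le hR1 (by linarith)
  have hcN : (C0 : ℝ) ≤ C0 * (4 * N5) := by nlinarith
  have hk0C : 0 ≤ κ0 * C0 := by positivity
  have hkC : 2 * κ0 * C0 ≤ κ / 4 := by
    have := mul_le_mul_of_nonneg_left hcN hκ00.le
    nlinarith
  refine ⟨?_, ?_, ?_, ?_, ?_⟩
  · intro n hn
    refine key _ _ _ ?_
    have e1 : ((n : ℝ) + 1) ≤ 4 * N5 := by exact_mod_cast hn
    push_cast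
    have e2 : 2 * κ0 * (C0 * ((n : ℝ) + 1)) ≤ 2 * κ0 * C0 * (4 * N5) := by
      have := mul_le_mul_of_nonneg_left e1 hk0C
      nlinarith
    linarith
  · intro n hn
    have e0 : (R ^ (-κ5)) ^ (n / N5 - 1) = R ^ (-(κ5 * ((n / N5 - 1 : ℕ) : ℝ))) := by
      rw [← Real.rpow_natCast, ← Real.rpow_mul hR0.le]
      ring_nf
    rw [e0]
    refine key _ _ _ ?_
    have hNpos : 0 < N5 := by omega
    have e1 : n < N5 * (n / N5 + 1) := by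
      have := Nat.lt_mul_div_succ n hNpos
      simpa using this
    have e2 : 4 ≤ n / N5 := by
      rw [Nat.le_div_iff_mul_le hNpos]
      exact hn
    have e3 : ((n / N5 - 1 : ℕ) : ℝ) = ((n / N5 : ℕ) : ℝ) - 1 := by
      rw [Nat.cast_sub (by omega)]
      norm_num
    have e4 : ((n : ℝ) + 1) ≤ N5 * (((n / N5 : ℕ) : ℝ) + 1) := by
      exact_mod_cast e1
    have e5 : (4 : ℝ) * N5 ≤ n := by exact_mod_cast hn
    obtain ⟨q, hq⟩ : ∃ q : ℝ, q = ((n / N5 : ℕ) : ℝ) := ⟨_, rfl⟩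
    rw [e3, ← hq]
    rw [← hq] at e4
    have hq4 : 4 ≤ q := by rw [hq]; exact_mod_cast e2
    push_cast
    -- 2 κ0 C0 (n+1) ≤ κ (q + 1) / 16
    have e6 : 2 * κ0 * (C0 * ((n : ℝ) + 1)) ≤ κ / 16 * (q + 1) := by
      have e7 := mul_le_mul_of_nonneg_left e4 hk0C
      have e8 : 2 * (κ0 * C0 * (N5 * (q + 1))) = (2 * κ0 * C0 * (4 * N5)) * ((q + 1) / 4) := by
        ring
      have e9 := mul_le_mul_of_nonneg_right hkN (show (0 : ℝ) ≤ (q + 1) / 4 by linarith)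
      nlinarith
    have e7 : κ * (q - 1) ≤ κ5 * (q - 1) := mul_le_mul_of_nonneg_right hκ5 (by linarith)
    nlinarith
  · have e1 : R ^ (-(κ / 2 / 2)) = R ^ (κ / 4) * R ^ (-(κ / 2)) := by
      rw [← Real.rpow_add hR0]
      ring_nf
    rw [e1]
    refine mul_le_mul_of_nonneg_right ?_ (Real.rpow_nonneg hR0.le _)
    have e2 : ℓ + 3 ≤ R ^ (3 * κ0) := by
      have e3 : R ^ (3 * κ0) = R ^ κ0 * R ^ κ0 * R ^ κ0 := by
        rw [← Real.rpow_add hR0, ← Real.rpow_add hR0]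
        ring_nf
      rw [e3]
      have e4 : (4 : ℝ) ≤ R ^ κ0 * R ^ κ0 := by nlinarith
      have e5 : ℓ + 3 ≤ 4 * ℓ := by linarith
      exact e5.trans (mul_le_mul e4 hl (by linarith) (by positivity))
    exact e2.trans (Real.rpow_le_rpow_of_exponent_le hR1 (by linarith))
  · have := key C0 κ1 0 (by linarith)
    rwa [Real.rpow_zero] at this
  · have := key C0 κ5 0 (by linarith)
    rwa [Real.rpow_zero] at this

end E36
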