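import Pool.Agent.LibBE36E.Defs

/-! BE36, part E: the number of the classes which follow at most `k` lines (helper86). -/

open MeasureTheory Set Filter Topology
open scoped ContDiff ENNReal NNReal ComplexConjugate

namespace E36

open BGS (Pl Surface grid per)
open SR85 E35

variable {Γ : Type} [Group Γ] [MulAction Γ Pl] {D : Set Pl} {G : Dat Γ}
variable {a b r : ℝ} {Λ : ℕ}

/-- The next net points. -/
theorem S10_next (hU : UC D a b r Λ G) (M : Cl G) {F : Finset (ConjClasses Γ)} {q N : ℕ}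
    (hF : F.card ≤ q) (hF1 : ∀ c ∈ F, c ≠ 1) (hN : (Λ : ℝ) * Real.exp (Λ * 3) ≤ N) {L W : ℕ}
    (hL : ∀ c ∈ F, M.l c < L) {η : ℝ} (hη : 0 < η) (hη1 : η ≤ 1 / 4)
    (hW : (3 * (L : ℝ) + 2) / η + 3 ≤ W) (z : Pl) :
    ∃ P : Finset Pl, P.card ≤ q * (L * N) * W ∧ ∀ p : Pl × ℂ, ‖p.2‖ = 1 → ∀ s s1 : ℝ,
      (∃ c ∈ F, ∃ γ : Γ, ∀ t ∈ Icc s s1, ∃ u : ℝ,
        G.d (pt G p t) (γ • pt G (tv M c) u) ≤ η) → G.d (pt G p s) z ≤ 2 * η →
      ∀ t ∈ Icc s s1, t ≤ s + L → ∃ w ∈ P, G.d (pt G p t) w ≤ 2 * η := by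
  classical
  have h := hU.hg
  obtain ⟨hS, hSc⟩ := St_fin hU M hF hN L z
  obtain ⟨A, hA⟩ : ∃ A : ℤ, A = ⌊-((L : ℝ) + 1) / η⌋ := ⟨_, rfl⟩
  refine ⟨(hS.toFinset ×ˢ Finset.Ico A (A + W)).image
    fun o => o.1.2 • pt G (tv M o.1.1) (η * o.2), ?_, ?_⟩
  · refine Finset.card_image_le.trans ?_
    rw [Finset.card_product, ← Set.ncard_eq_toFinset_card _ hS, Int.card_Ico]
    have : (A + (W : ℤ) - A).toNat = W := by simp
    rw [this]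
    exact Nat.mul_le_mul_right _ hSc
  · rintro p hp s s1 ⟨c, hc, γ, hf⟩ hz t ht htL
    have hc1 := hF1 c hc
    have hl := l_pos M hc1
    have hlL := hL c hc
    obtain ⟨u0, hu0⟩ := hf s ⟨le_rfl, ht.1.trans ht.2⟩
    obtain ⟨u1, hu1⟩ := hf t ht
    obtain ⟨k, hk⟩ : ∃ k : ℤ, k = ⌊u0 / M.l c⌋ := ⟨_, rfl⟩
    have hk1 : (k : ℝ) * M.l c ≤ u0 := by
      rw [← le_div_iff₀ hl, hk]; exact Int.floor_le _
    have hk2 : u0 < (k + 1) * M.l c := by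
      rw [← div_lt_iff₀ hl, hk]; exact Int.lt_floor_add_one _
    obtain ⟨v0, hv0⟩ : ∃ v0 : ℝ, v0 = u0 - k * M.l c := ⟨_, rfl⟩
    obtain ⟨v1, hv1⟩ : ∃ v1 : ℝ, v1 = u1 - k * M.l c := ⟨_, rfl⟩
    have hv00 : 0 ≤ v0 := by rw [hv0]; linarith
    have hv01 : v0 < M.l c := by rw [hv0]; linarith
    obtain ⟨γ', hγ'⟩ : ∃ γ' : Γ, γ' = γ * M.rep c ^ k := ⟨_, rfl⟩
    have hmove : ∀ τ : ℝ, γ' • pt G (tv M c) (τ - k * M.l c) = γ • pt G (tv M c) τ := by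
      intro τ
      rw [hγ', mul_smul, rep_zpow M hc1]
      congr 2
      ring
    rw [← hmove, ← hv0] at hu0
    rw [← hmove, ← hv1] at hu1
    have hd : |v1 - v0| ≤ (L : ℝ) + 1 / 2 := by
      have e1 : G.d (γ' • pt G (tv M c) v0) (γ' • pt G (tv M c) v1) = |v1 - v0| := by
        rw [d_smul h, d_pt h (tv_unit M hc1)]
      have t1 := h.d_tri (γ' • pt G (tv M c) v0) (pt G p s) (γ' • pt G (tv M c) v1)
      have t2 := h.d_tri (pt G p s) (pt G p t) (γ' • pt G (tv M c) v1)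
      have t3 : G.d (pt G p s) (pt G p t) = t - s := by
        rw [d_pt h hp, abs_of_nonneg (by linarith [ht.1])]
      rw [h.d_symm (γ' • pt G (tv M c) v0) (pt G p s)] at t1
      linarith
    rw [abs_le] at hd
    obtain ⟨n, hn⟩ : ∃ n : ℤ, n = ⌊v1 / η⌋ := ⟨_, rfl⟩
    have hn1 : (n : ℝ) ≤ v1 / η := by rw [hn]; exact Int.floor_le _
    have hn2 : v1 / η < n + 1 := by rw [hn]; exact Int.lt_floor_add_one _
    have hA2 : -((L : ℝ) + 1) / η < A + 1 := by rw [hA]; exact Int.lt_floor_add_one _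
    refine ⟨γ' • pt G (tv M c) (η * n), ?_, ?_⟩
    · rw [Finset.mem_image]
      refine ⟨((c, γ'), n), ?_, rfl⟩
      rw [Finset.mem_product, Set.Finite.mem_toFinset, Finset.mem_Ico]
      refine ⟨⟨hc, ⌊v0⌋₊, ?_, ?_⟩, ?_, ?_⟩
      · have h1 : ((⌊v0⌋₊ : ℕ) : ℝ) ≤ v0 := Nat.floor_le hv00
        have h2 : ((⌊v0⌋₊ : ℕ) : ℝ) < L := by linarith
        exact_mod_cast h2
      · show G.d z (γ' • pt G (tv M c) (⌊v0⌋₊ : ℕ)) ≤ 3
        have h1 : ((⌊v0⌋₊ : ℕ) : ℝ) ≤ v0 := Nat.floor_le hv00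
        have h2 : v0 < (⌊v0⌋₊ : ℕ) + 1 := Nat.lt_floor_add_one _
        have t1 := h.d_tri z (pt G p s) (γ' • pt G (tv M c) (⌊v0⌋₊ : ℕ))
        have t2 := h.d_tri (pt G p s) (γ' • pt G (tv M c) v0) (γ' • pt G (tv M c) (⌊v0⌋₊ : ℕ))
        have t3 : G.d (γ' • pt G (tv M c) v0) (γ' • pt G (tv M c) (⌊v0⌋₊ : ℕ)) ≤ 1 := by
          rw [d_smul h, d_pt h (tv_unit M hc1), abs_sub_comm, abs_of_nonneg (by linarith)]
          linarith
        have t4 : G.d z (pt G p s) ≤ 2 * η := by rw [h.d_symm]; exact hz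
        linarith
      · show A ≤ n
        rw [hA, hn]
        apply Int.floor_le_floor
        exact div_le_div_of_nonneg_right (by linarith) hη.le
      · show n < A + W
        have h1 : v1 / η ≤ (2 * (L : ℝ) + 1) / η := div_le_div_of_nonneg_right (by linarith) hη.le
        have h2 : (3 * (L : ℝ) + 2) / η = (2 * (L : ℝ) + 1) / η - (-((L : ℝ) + 1) / η) := by
          field_simp
          ring
        have h3 : (n : ℝ) < A + W := by linarith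
        exact_mod_cast h3
    · have t1 := h.d_tri (pt G p t) (γ' • pt G (tv M c) v1) (γ' • pt G (tv M c) (η * n))
      have e1 : G.d (γ' • pt G (tv M c) v1) (γ' • pt G (tv M c) (η * n)) ≤ η := by
        rw [d_smul h, d_pt h (tv_unit M hc1)]
        rw [le_div_iff₀ hη] at hn1
        rw [div_lt_iff₀ hη] at hn2
        rw [abs_sub_comm, abs_of_nonneg (by linarith)]
        linarith
      linarith

/-- The nets. -/
theorem S10_net (hU : UC D a b r Λ G) (M : Cl G) {F : Finset (ConjClasses Γ)} {q N : ℕ}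
    (hF : F.card ≤ q) (hF1 : ∀ c ∈ F, c ≠ 1) (hN : (Λ : ℝ) * Real.exp (Λ * 3) ≤ N) {L W : ℕ}
    (hL : ∀ c ∈ F, M.l c < L) {η : ℝ} (hη : 0 < η) (hη1 : η ≤ 1 / 4)
    (hW : (3 * (L : ℝ) + 2) / η + 3 ≤ W) (k : ℕ) : ∀ X : Finset Pl,
    ∃ R : Finset Pl, X ⊆ R ∧ R.card ≤ X.card * (1 + q * (L * N) * W) ^ k ∧ ∀ p : Pl × ℂ,
      ‖p.2‖ = 1 → ∀ s s' : ℝ, s ≤ s' → s' ≤ s + L → Brk M η F p k s s' →
      (∃ z ∈ X, G.d (pt G p s) z ≤ 2 * η) → ∃ z ∈ R, G.d (pt G p s') z ≤ 2 * η := by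
  classical
  choose P hPc hP using fun z => S10_next hU M hF hF1 hN hL hη hη1 hW z
  induction k with
  | zero =>
    refine fun X => ⟨X, subset_rfl, by simp, fun p hp s s' hs hsL hb hX => ?_⟩
    have hb' : s' ≤ s := hb
    have : s' = s := le_antisymm hb' hs
    rw [this]
    exact hX
  | succ k ih =>
    intro X
    obtain ⟨R, hXR, hRc, hR⟩ := ih (X.biUnion P)
    have hcard : (X.biUnion P).card ≤ X.card * (q * (L * N) * W) :=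
      Finset.card_biUnion_le_card_mul _ _ _ fun z _ => hPc z
    refine ⟨X ∪ R, Finset.subset_union_left, ?_, fun p hp s s' hs hsL hb hX => ?_⟩
    · obtain ⟨Y, hY⟩ : ∃ Y : ℕ, Y = q * (L * N) * W := ⟨_, rfl⟩
      rw [← hY] at hcard hRc ⊢
      have h1 : 1 ≤ (1 + Y) ^ k := Nat.one_le_pow _ _ (by omega)
      calc (X ∪ R).card ≤ X.card + R.card := Finset.card_union_le _ _
        _ ≤ X.card + X.card * Y * (1 + Y) ^ k :=
            Nat.add_le_add_left (hRc.trans (Nat.mul_le_mul_right _ hcard)) _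
        _ ≤ X.card * (1 + Y) ^ k + X.card * Y * (1 + Y) ^ k :=
            Nat.add_le_add_right (Nat.le_mul_of_pos_right _ h1) _
        _ = X.card * (1 + Y) ^ (k + 1) := by rw [pow_succ]; ring
    · obtain ⟨s1, hs1, hline, hrest⟩ := hb
      obtain ⟨z, hz, hd⟩ := hX
      rcases le_or_gt s' s1 with h1 | h1
      · obtain ⟨w, hw, hwd⟩ := hP z p hp s s1 hline hd s' ⟨hs, h1⟩ hsL
        exact ⟨w, Finset.mem_union_right _ (hXR (Finset.mem_biUnion.2 ⟨z, hz, hw⟩)), hwd⟩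
      · obtain ⟨w, hw, hwd⟩ := hP z p hp s s1 hline hd s1 ⟨hs1, le_rfl⟩ (by linarith)
        obtain ⟨w', hw', hd'⟩ := hR p hp s1 s' h1.le (by linarith) hrest
          ⟨w, Finset.mem_biUnion.2 ⟨z, hz, hw⟩, hwd⟩
        exact ⟨w', Finset.mem_union_right _ hw', hd'⟩

/-- The number of the classes, explicit. -/
theorem S10_count (hU : UC D a b r Λ G) (M : Cl G) {F : Finset (ConjClasses Γ)} {q N : ℕ}
    (hF : F.card ≤ q) (hF1 : ∀ c ∈ F, c ≠ 1) (hN : (Λ : ℝ) * Real.exp (Λ * 3) ≤ N) {L W : ℕ}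
    (hL : ∀ c ∈ F, M.l c < L) {η : ℝ} (hη : 0 < η) (hη1 : η ≤ 1 / 4) (hηr : 8 * η < r)
    (hW : (3 * (L : ℝ) + 2) / η + 3 ≤ W) {X : Finset Pl}
    (hX : ∀ x ∈ closure D, ∃ z ∈ X, G.d x z ≤ 2 * η) {k : ℕ} {ℓ : ℝ} (hℓ : ℓ ≤ L) :
    {c : ConjClasses Γ | c ≠ 1 ∧ M.l c ≤ ℓ ∧ Brk M η F (tv M c) k 0 (M.l c)}.Finite ∧
      {c : ConjClasses Γ | c ≠ 1 ∧ M.l c ≤ ℓ ∧ Brk M η F (tv M c) k 0 (M.l c)}.ncard ≤
        X.card * (X.card * (1 + q * (L * N) * W) ^ k) := by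
  classical
  have h := hU.hg
  obtain ⟨R, -, hRc, hR⟩ := S10_net hU M hF hF1 hN hL hη hη1 hW k X
  obtain ⟨S, hS⟩ : ∃ S : Set (ConjClasses Γ),
    S = {c : ConjClasses Γ | c ≠ 1 ∧ M.l c ≤ ℓ ∧ Brk M η F (tv M c) k 0 (M.l c)} := ⟨_, rfl⟩
  rw [← hS]
  have hpt : ∀ c : ConjClasses Γ, ∃ (g : Γ) (x : Pl) (o : Pl × Pl), c ∈ S →
      ConjClasses.mk g = c ∧ o.1 ∈ X ∧ o.2 ∈ R ∧ G.d x o.1 ≤ 2 * η ∧
        G.d (g • x) o.2 ≤ 2 * η := by
    intro c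
    by_cases hc : c ∈ S
    · have hc' := hc
      rw [hS] at hc'
      obtain ⟨hc1, hcl, hcp⟩ := hc'
      obtain ⟨κ, hκ⟩ := to_D hU (pt G (tv M c) 0)
      obtain ⟨p, hp⟩ : ∃ p : Pl × ℂ, p = act G κ (tv M c) := ⟨_, rfl⟩
      have hpu : ‖p.2‖ = 1 := by rw [hp]; exact act_unit h κ (tv_unit M hc1)
      have hpp : ∀ t, pt G p t = κ • pt G (tv M c) t := fun t => by rw [hp, pt_act h]
      have hb : ∀ (k : ℕ) (s s' : ℝ), Brk M η F (tv M c) k s s' → Brk M η F p k s s' := by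
        intro k
        induction k with
        | zero => exact fun s s' h1 => h1
        | succ k ih =>
          rintro s s' ⟨s1, hs1, ⟨c', hc', γ, hγ⟩, hrest⟩
          refine ⟨s1, hs1, ⟨c', hc', κ * γ, fun t ht => ?_⟩, ih s1 s' hrest⟩
          obtain ⟨u, hu⟩ := hγ t ht
          refine ⟨u, ?_⟩
          rw [hpp, mul_smul, d_smul h]
          exact hu
      have hX0 : ∃ z ∈ X, G.d (pt G p 0) z ≤ 2 * η := by
        apply hX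
        rw [hpp]
        exact subset_closure hκ
      obtain ⟨z, hz, hzd⟩ := hX0
      obtain ⟨w, hw, hwd⟩ := hR p hpu 0 (M.l c) (l_pos M hc1).le (by linarith) (hb k _ _ hcp)
        ⟨z, hz, hzd⟩
      refine ⟨κ * M.rep c * κ⁻¹, pt G p 0, (z, w), fun _ => ⟨cl_mk M c κ, hz, hw, hzd, ?_⟩⟩
      have e1 : (κ * M.rep c * κ⁻¹) • pt G p 0 = pt G p (M.l c) := by
        rw [hpp, hpp, mul_smul, inv_smul_smul, mul_smul, rep_pt M hc1, zero_add]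
      rw [e1]
      exact hwd
    · exact ⟨1, 0, (0, 0), fun h => absurd h hc⟩
  choose g x f hf using hpt
  have hmaps : Set.MapsTo f S ((X ×ˢ R : Finset (Pl × Pl)) : Set (Pl × Pl)) := by
    intro c hc
    have := hf c hc
    rw [Finset.mem_coe, Finset.mem_product]
    exact ⟨this.2.1, this.2.2.1⟩
  have hinj : Set.InjOn f S := by
    intro c hc c' hc' he
    obtain ⟨m1, -, -, d1, d2⟩ := hf c hc
    obtain ⟨m1', -, -, d1', d2'⟩ := hf c' hc'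
    rw [← he] at d1' d2'
    have t1 := h.d_tri (g c • x c) (f c).2 (g c' • x c')
    rw [h.d_symm (f c).2 (g c' • x c')] at t1
    have t2 := h.d_tri (x c') (f c).1 (x c)
    rw [h.d_symm (f c).1 (x c)] at t2
    have t3 := h.d_tri (g c • x c) (g c' • x c') (g c' • x c)
    rw [d_smul h (g c') (x c') (x c)] at t3
    have hgg : g c = g c' := sys_eq hU (x := x c) (by linarith)
    rw [← m1, ← m1', hgg]
  have hRf : ((X ×ˢ R : Finset (Pl × Pl)) : Set (Pl × Pl)).Finite := (X ×ˢ R).finite_toSet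
  refine ⟨Set.Finite.of_injOn hmaps hinj hRf, ?_⟩
  have h1 := Set.ncard_le_ncard_of_injOn f hmaps hinj hRf
  rw [Set.ncard_coe_finset, Finset.card_product] at h1
  exact h1.trans (Nat.mul_le_mul_left _ hRc)

theorem S10_num {x q N : ℕ} {η ℓ : ℝ} (hη : 0 < η) (hℓ : 1 ≤ ℓ) {L W : ℕ}
    (hL : (L : ℝ) ≤ 1 + ℓ) (hW : (W : ℝ) ≤ (3 * (L : ℝ) + 2) / η + 4) (k : ℕ) {A : ℕ}
    (hA2 : 2 ≤ A) (hAx : x * x ≤ A) (hA : 1 + (q : ℝ) * N * (5 / η + 4) ≤ A) :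
    ((x * (x * (1 + q * (L * N) * W) ^ k) : ℕ) : ℝ) ≤ (A * (1 + ℓ) ^ A) ^ (k + 1) := by
  have hℓ0 : (2 : ℝ) ≤ 1 + ℓ := by linarith
  have hL0 : (0 : ℝ) ≤ L := Nat.cast_nonneg _
  have h1 : (W : ℝ) ≤ (1 + ℓ) * (5 / η + 4) := by
    have e1 : (3 * (L : ℝ) + 2) / η ≤ (5 * (1 + ℓ)) / η :=
      div_le_div_of_nonneg_right (by linarith) hη.le
    have e2 : (5 * (1 + ℓ)) / η = (1 + ℓ) * (5 / η) := by ring
    nlinarith
  have h5 : 0 < 5 / η + 4 := by positivity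
  have h2 : (1 + (q : ℝ) * (L * N) * W) ≤ A * (1 + ℓ) ^ 2 := by
    have e1 : (q : ℝ) * (L * N) * W ≤ q * ((1 + ℓ) * N) * ((1 + ℓ) * (5 / η + 4)) := by gcongr
    have e2 : (q : ℝ) * ((1 + ℓ) * N) * ((1 + ℓ) * (5 / η + 4)) =
      (q : ℝ) * N * (5 / η + 4) * (1 + ℓ) ^ 2 := by ring
    have e3 : (1 : ℝ) ≤ (1 + ℓ) ^ 2 := one_le_pow₀ (by linarith)
    have e4 : (1 + (q : ℝ) * N * (5 / η + 4)) * (1 + ℓ) ^ 2 ≤ A * (1 + ℓ) ^ 2 :=
      mul_le_mul_of_nonneg_right hA (by positivity)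
    linarith
  have h3 : (A : ℝ) * (1 + ℓ) ^ 2 ≤ A * (1 + ℓ) ^ A :=
    mul_le_mul_of_nonneg_left (pow_le_pow_right₀ (by linarith) hA2) (Nat.cast_nonneg _)
  have h4 : (A : ℝ) ≤ A * (1 + ℓ) ^ A :=
    le_mul_of_one_le_right (Nat.cast_nonneg _) (one_le_pow₀ (by linarith))
  have h6 : ((x * x : ℕ) : ℝ) ≤ A := by exact_mod_cast hAx
  have h7 : (0 : ℝ) ≤ 1 + (q : ℝ) * (L * N) * W := by positivity
  push_cast at h6 ⊢
  calc (x : ℝ) * (x * (1 + q * (L * N) * W) ^ k) = (x * x) * (1 + q * (L * N) * W) ^ k := by ring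
    _ ≤ (A * (1 + ℓ) ^ A) * (A * (1 + ℓ) ^ A) ^ k := by
        refine mul_le_mul (h6.trans h4) (pow_le_pow_left₀ h7 (h2.trans h3) k) (by positivity)
          (by positivity)
    _ = _ := by rw [pow_succ]; ring

/-- E3: the number of the classes which follow at most `k` lines. -/
theorem parts (D : Set Pl) (a b r : ℝ) (Λ q : ℕ) : ∃ (η : ℝ) (N : ℕ), 0 < η ∧ 1 ≤ N ∧
    ∀ G : Dat Γ, UC D a b r Λ G → ∀ (M : Cl G) (ℓ : ℝ), 1 ≤ ℓ →
      ∀ F : Finset (ConjClasses Γ), F.card ≤ q → (∀ c ∈ F, c ≠ 1 ∧ M.l c ≤ ℓ) → ∀ k : ℕ,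
      {c : ConjClasses Γ | c ≠ 1 ∧ M.l c ≤ ℓ ∧ Brk M η F (tv M c) k 0 (M.l c)}.Finite ∧
        ({c : ConjClasses Γ | c ≠ 1 ∧ M.l c ≤ ℓ ∧ Brk M η F (tv M c) k 0 (M.l c)}.ncard : ℝ) ≤
          (N * (1 + ℓ) ^ N) ^ (k + 1) := by
  by_cases hex : ∃ G : Dat Γ, UC D a b r Λ G
  swap
  · exact ⟨1, 1, one_pos, le_rfl, fun G hG => absurd ⟨G, hG⟩ hex⟩
  obtain ⟨G₀, hG₀⟩ := hex
  have hr := hG₀.r_pos
  have hr1 := hG₀.r_le
  have hΛ : (1 : ℝ) ≤ Λ := by exact_mod_cast hG₀.L_one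
  have hcl : IsCompact (closure D) := hG₀.hX.bdd.isCompact_closure
  obtain ⟨η, hη⟩ : ∃ η : ℝ, η = r / 9 := ⟨_, rfl⟩
  have hη0 : 0 < η := by rw [hη]; positivity
  have hη1 : η ≤ 1 / 4 := by rw [hη]; linarith
  have hηr : 8 * η < r := by rw [hη]; linarith
  -- the net of the domain
  obtain ⟨X, hX⟩ : ∃ X : Finset Pl, ∀ x ∈ closure D, ∃ z ∈ X, ‖x - z‖ ≤ 2 * η / Λ := by
    have hδ : 0 < 2 * η / Λ := by positivity
    obtain ⟨t, ht⟩ := hcl.elim_nhds_subcover (fun z => Metric.ball z (2 * η / Λ))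
      (fun z _ => Metric.ball_mem_nhds z hδ)
    refine ⟨t, fun x hx => ?_⟩
    have := ht.2 hx
    simp only [mem_iUnion, exists_prop] at this
    obtain ⟨z, hz, hxz⟩ := this
    rw [Metric.mem_ball, dist_eq_norm] at hxz
    exact ⟨z, hz, hxz.le⟩
  obtain ⟨N, hN⟩ : ∃ N : ℕ, N = ⌈(Λ : ℝ) * Real.exp (Λ * 3)⌉₊ := ⟨_, rfl⟩
  have hN1 : (Λ : ℝ) * Real.exp (Λ * 3) ≤ N := by rw [hN]; exact Nat.le_ceil _
  obtain ⟨A, hA⟩ : ∃ A : ℕ, A = 2 + X.card * X.card + ⌈1 + (q : ℝ) * N * (5 / η + 4)⌉₊ := ⟨_, rfl⟩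
  refine ⟨η, A, hη0, by omega, fun G hU M ℓ hℓ F hFc hF k => ?_⟩
  have hXd : ∀ x ∈ closure D, ∃ z ∈ X, G.d x z ≤ 2 * η := by
    intro x hx
    obtain ⟨z, hz, hxz⟩ := hX x hx
    have hΛ0 : (0 : ℝ) < Λ := by linarith
    have h1 : ‖x - z‖ ≤ 1 / Λ := hxz.trans (div_le_div_of_nonneg_right (by linarith) hΛ0.le)
    refine ⟨z, hz, (hU.loc x hx z h1).trans ?_⟩
    have h2 := mul_le_mul_of_nonneg_left hxz hΛ0.le
    have h3 : (Λ : ℝ) * (2 * η / Λ) = 2 * η := by field_simp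
    linarith
  obtain ⟨L, hLd⟩ : ∃ L : ℕ, L = ⌊ℓ⌋₊ + 1 := ⟨_, rfl⟩
  have hL1 : ℓ < L := by rw [hLd]; push_cast; exact Nat.lt_floor_add_one _
  have hL2 : (L : ℝ) ≤ 1 + ℓ := by
    have h1 : ((⌊ℓ⌋₊ : ℕ) : ℝ) ≤ ℓ := Nat.floor_le (by linarith)
    rw [hLd]
    push_cast
    linarith
  obtain ⟨W, hW⟩ : ∃ W : ℕ, W = ⌈(3 * (L : ℝ) + 2) / η + 3⌉₊ := ⟨_, rfl⟩
  have hW1 : (3 * (L : ℝ) + 2) / η + 3 ≤ W := by rw [hW]; exact Nat.le_ceil _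
  have hW3 : (W : ℝ) ≤ (3 * (L : ℝ) + 2) / η + 4 := by
    have h1 := Nat.ceil_lt_add_one (show 0 ≤ (3 * (L : ℝ) + 2) / η + 3 by positivity)
    rw [← hW] at h1
    linarith
  obtain ⟨f1, f2⟩ := S10_count hU M hFc (fun c hc => (hF c hc).1) hN1
    (fun c hc => lt_of_le_of_lt (hF c hc).2 hL1) hη0 hη1 hηr hW1 hXd (k := k) hL1.le
  refine ⟨f1, le_trans (Nat.cast_le.2 f2) ?_⟩
  refine S10_num hη0 hℓ hL2 hW3 k (by omega) (by rw [hA]; omega) ?_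
  rw [hA]
  push_cast
  have h1 := Nat.le_ceil (1 + (q : ℝ) * N * (5 / η + 4))
  have h2 : (0 : ℝ) ≤ (X.card : ℝ) * X.card := by positivity
  linarith

end E36
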