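import Pool.Agent.LibBE36E.Defs
import Pool.Agent.LibSR85.L2

/-! Row X7 of BE36E (BE36, part E; architect helper85). The opposite vector. SHORT, 25 min.
Plan. `rv p = (p.1, -p.2)` is continuous, so measurable. `muD D G` is `muS G` restricted to `D ×ˢ univ` (`muD`, LibSR85/M4), the set is `rv`-invariant. `muS_lint` (LibSR85/M1): `∫⁻ p, F (rv p) ∂(muS G) = ∫⁻ x, (∫⁻ θ in Ioc (-π) π, F (x, -exp(θ I))) ..` and `circ_rot` (LibSR85/L2) with `w = -1`: `-exp(θ I) = (-1) * exp(θ I)`.
Apply it to the indicator of `Y ∩ (D ×ˢ univ)` (`lintegral_indicator_one`). `rv_act`: `act G g (rv p) = rv (act G g p)`: `G.R g p.1 * (-p.2) = -(..)`. -/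

open MeasureTheory Set Filter Topology
open scoped ContDiff ENNReal NNReal ComplexConjugate

namespace E36

open BGS (Pl Surface grid per)
open SR85 E35

variable {Γ : Type} [Group Γ] [MulAction Γ Pl] {D : Set Pl} {G : Dat Γ}

theorem rv_act (g : Γ) (p : Pl × ℂ) : rv (act G g p) = act G g (rv p) := by
  simp only [rv, act, mul_neg]

theorem rv_meas : Measurable (rv : Pl × ℂ → Pl × ℂ) :=
  measurable_fst.prodMk measurable_snd.neg

theorem rv_mu (hX : Surface Γ D) (h : HG D G) {Y : Set (Pl × ℂ)} (hY : MeasurableSet Y) :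
    muD D G {p | rv p ∈ Y} = muD D G Y := by
  have hD : MeasurableSet (D ×ˢ (univ : Set ℂ)) := hX.meas.prod MeasurableSet.univ
  have hpre : MeasurableSet {p : Pl × ℂ | rv p ∈ Y} := rv_meas hY
  unfold muD
  rw [Measure.restrict_apply hpre, Measure.restrict_apply hY]
  have h1 : {p : Pl × ℂ | rv p ∈ Y} ∩ D ×ˢ (univ : Set ℂ) =
      {p : Pl × ℂ | rv p ∈ Y ∩ D ×ˢ (univ : Set ℂ)} := by
    ext p
    simp only [rv, Set.mem_inter_iff, Set.mem_setOf_eq, Set.mem_prod, Set.mem_univ, and_true]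
  rw [h1]
  set Z : Set (Pl × ℂ) := Y ∩ D ×ˢ (univ : Set ℂ) with hZ
  have hZm : MeasurableSet Z := hY.inter hD
  have hZm' : MeasurableSet {p : Pl × ℂ | rv p ∈ Z} := rv_meas hZm
  set F : Pl × ℂ → ℝ≥0∞ := Z.indicator fun _ => 1 with hF
  have hFm : Measurable F := measurable_const.indicator hZm
  have h2 : muS G {p : Pl × ℂ | rv p ∈ Z} = ∫⁻ p, F (rv p) ∂(muS G) := by
    rw [← lintegral_indicator_one hZm']
    refine lintegral_congr fun p => ?_
    by_cases hp : rv p ∈ Z
    · rw [hF, indicator_of_mem (show p ∈ {p : Pl × ℂ | rv p ∈ Z} from hp), indicator_of_mem hp]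
      rfl
    · rw [hF, indicator_of_notMem (show p ∉ {p : Pl × ℂ | rv p ∈ Z} from hp),
        indicator_of_notMem hp]
  have h3 : muS G Z = ∫⁻ p, F p ∂(muS G) := by
    rw [hF, lintegral_indicator_const hZm, one_mul]
  have hFm' : Measurable fun p : Pl × ℂ => F (rv p) := hFm.comp rv_meas
  rw [h2, h3, muS_lint h hFm', muS_lint h hFm]
  refine lintegral_congr fun x => ?_
  congr 1
  have h4 := circ_rot (fun u => F (x, u)) (w := -1) (by rw [norm_neg, norm_one])
  rw [← h4]
  refine lintegral_congr fun θ => ?_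
  simp only [rv, neg_mul, one_mul]

end E36
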