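import Pool.Agent.LibBE36E.Defs

/-! Row Y4 of BE36E (BE36, part E; architect helper85). The finite set of data. MEDIUM, 50 min.
Plan. `μ = r / 16`. `S` = the elements with `Ok h T` of the image of the product of: `t ∈ Finset.range (⌊T⌋₊ + 1)` (as reals), `q ∈ {none} ∪ (F.image fun c' => some (tv M c'))`, `u ∈ (Finset.Icc (-⌈3 / μ⌉) ⌈(T + 3) / μ⌉ : Finset ℤ)` as `μ * j`, `e ∈ {1, -1}` (`classical`; `Finset.image`, `Finset.filter`).
Card: `≤ (T + 1) * (card F + 1) * ((T + 6) / μ + 4) * 2 ≤ N (1 + T) ^ 2` with `N ≥ (q + 1) * (128 / r * 6 + 64)` or so (`Finset.card_image_le`, `Finset.card_product`). Membership: let `n = ⌈t'⌉₊`, `v₀ = n - t' ∈ [0, 1)`, `w = u + e v₀`, `j = ⌊w / μ⌋`, `d = ⟨n, q, μ j, e⟩`.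
`Hit`: the same `g`, the time `w ∈ [μ j, μ j + μ]`, and for `v ∈ [0, 1]`: `n + v = t' + (v₀ + v)`, `w + e v = u + e (v₀ + v)`, `v₀ + v ∈ [0, 2]`. `Ok`: `3 ≤ n ≤ T` as `3 ≤ t' ≤ T - 1`; `q = none`: `μ j ≥ w - μ ≥ u - 1 - 1 / 16 ≥ 1`, `μ j + 2 + h ≤ u + 1 + 2 + h ≤ t' ≤ n`. `μ j ∈` the grid: `-3 ≤ w - μ`, `w ≤ T + 2`. -/

open MeasureTheory Set Filter Topology
open scoped ContDiff ENNReal NNReal ComplexConjugate

namespace E36

open BGS (Pl Surface grid per)
open SR85 E35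

variable {Γ : Type} [Group Γ] [MulAction Γ Pl] {D : Set Pl} {G : Dat Γ}
variable {a b r : ℝ} {Λ : ℕ}

private theorem y4_real {N1 NF NU : ℝ} {T μ q : ℝ} (hμ : 0 < μ) (hT : 3 ≤ T)
    (hq : 0 ≤ q) (h0 : 0 ≤ NF) (h0' : 0 ≤ NU) (h1 : N1 ≤ T + 1) (h2 : NF ≤ q + 1)
    (h3 : NU ≤ (T + 7) / μ + 3) :
    N1 * NF * NU * 2 ≤ 2 * (q + 1) * (3 / μ + 1) * (1 + T) ^ 2 := by
  have hT7 : (T + 7) / μ ≤ 3 / μ * (1 + T) := by
    rw [div_mul_eq_mul_div]
    exact div_le_div_of_nonneg_right (by linarith) hμ.le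
  have h4 : NU ≤ (3 / μ + 1) * (1 + T) := by
    have : (3 / μ + 1) * (1 + T) = 3 / μ * (1 + T) + (1 + T) := by ring
    linarith
  have h5 : N1 * NF ≤ (T + 1) * (q + 1) := mul_le_mul h1 h2 h0 (by linarith)
  have h6 : N1 * NF * NU ≤ (T + 1) * (q + 1) * ((3 / μ + 1) * (1 + T)) :=
    mul_le_mul h5 h4 h0' (by positivity)
  nlinarith

theorem dset (r : ℝ) (hr : 0 < r) (hr1 : r ≤ 1) (q : ℕ) : ∃ N : ℕ, 1 ≤ N ∧
    ∀ (G : Dat Γ) (M : Cl G) (F : Finset (ConjClasses Γ)) (T h : ℝ), F.card ≤ q →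
      (∀ c ∈ F, c ≠ 1) → 3 ≤ T → 0 ≤ h →
      ∃ S : Finset Dt, (S.card : ℝ) ≤ N * (1 + T) ^ 2 ∧ DS M F r T h S := by
  classical
  set μ : ℝ := r / 16 with hμd
  have hμ : 0 < μ := by positivity
  have hμ1 : μ ≤ 1 / 16 := by rw [hμd]; linarith
  refine ⟨⌈2 * ((q : ℝ) + 1) * (3 / μ + 1)⌉₊, ?_, ?_⟩
  · apply Nat.one_le_ceil_iff.2
    positivity
  intro G M F T h hF hF1 hT hh
  set QS : Finset (Option (Pl × ℂ)) := insert none (F.image fun c' => some (tv M c')) with hQS
  set US : Finset ℤ := Finset.Icc (-⌈4 / μ⌉) ⌈(T + 3) / μ⌉ with hUS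
  set ES : Finset ℝ := {1, -1} with hES
  set PS := ((Finset.range (⌊T⌋₊ + 1) ×ˢ QS) ×ˢ US) ×ˢ ES with hPS
  set fn : ((ℕ × Option (Pl × ℂ)) × ℤ) × ℝ → Dt :=
    fun z => ⟨(z.1.1.1 : ℝ), z.1.1.2, μ * (z.1.2 : ℝ), z.2⟩ with hfn
  refine ⟨(PS.image fn).filter fun d => Ok h T d, ?_, ?_, ?_⟩
  · have c1 : (((PS.image fn).filter fun d => Ok h T d).card : ℝ) ≤ (PS.card : ℝ) := by
      exact_mod_cast (Finset.card_filter_le _ _).trans Finset.card_image_le
    have c2 : (PS.card : ℝ) =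
        ((⌊T⌋₊ : ℝ) + 1) * (QS.card : ℝ) * (US.card : ℝ) * (ES.card : ℝ) := by
      rw [hPS, Finset.card_product, Finset.card_product, Finset.card_product, Finset.card_range]
      push_cast
      ring
    have c3 : (ES.card : ℝ) = 2 := by
      rw [hES, Finset.card_pair (by norm_num)]
      norm_num
    have c4 : (QS.card : ℝ) ≤ q + 1 := by
      have : QS.card ≤ q + 1 :=
        (Finset.card_insert_le _ _).trans (Nat.succ_le_succ (Finset.card_image_le.trans hF))
      exact_mod_cast this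
    have c5 : (⌊T⌋₊ : ℝ) + 1 ≤ T + 1 := by
      have := Nat.floor_le (by linarith : (0 : ℝ) ≤ T)
      linarith
    have c6 : (US.card : ℝ) ≤ (T + 7) / μ + 3 := by
      have e1 : 0 ≤ ⌈(T + 3) / μ⌉ := Int.ceil_nonneg (by positivity)
      have e2 : 0 ≤ ⌈4 / μ⌉ := Int.ceil_nonneg (by positivity)
      have e3 : (US.card : ℤ) = ⌈(T + 3) / μ⌉ + 1 - (-⌈4 / μ⌉) := by
        rw [hUS, Int.card_Icc]
        exact Int.toNat_of_nonneg (by omega)
      have e4 : (US.card : ℝ) = (⌈(T + 3) / μ⌉ : ℝ) + 1 + (⌈4 / μ⌉ : ℝ) := by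
        have := congrArg (fun z : ℤ => (z : ℝ)) e3
        push_cast at this
        linarith
      have e5 := (Int.ceil_lt_add_one ((T + 3) / μ)).le
      have e6 := (Int.ceil_lt_add_one (4 / μ)).le
      have e7 : (T + 7) / μ = (T + 3) / μ + 4 / μ := by
        rw [← add_div]
        congr 1
        ring
      rw [e4, e7]
      linarith
    have c7 := y4_real (N1 := (⌊T⌋₊ : ℝ) + 1) hμ hT (Nat.cast_nonneg q)
      (Nat.cast_nonneg QS.card) (Nat.cast_nonneg US.card) c5 c4 c6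
    refine c1.trans ?_
    rw [c2, c3]
    refine c7.trans ?_
    exact mul_le_mul_of_nonneg_right (Nat.le_ceil _) (by positivity)
  · intro d hd
    exact (Finset.mem_filter.1 hd).2
  · intro p t' u e ρ g o he ht' htT ho hd
    have hn1 : t' ≤ (⌈t'⌉₊ : ℝ) := Nat.le_ceil _
    have hn2 : (⌈t'⌉₊ : ℝ) < t' + 1 := Nat.ceil_lt_add_one (by linarith)
    set v0 : ℝ := (⌈t'⌉₊ : ℝ) - t' with hv0
    set w : ℝ := u + e * v0 with hw
    have hv : 0 ≤ v0 := by rw [hv0]; linarith
    have hv1 : v0 ≤ 1 := by rw [hv0]; linarith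
    have hw1 : u - 1 ≤ w ∧ w ≤ u + 1 := by
      rw [hw]
      rcases he with rfl | rfl
      · constructor <;> linarith
      · constructor <;> linarith
    have hj1 : μ * (⌊w / μ⌋ : ℝ) ≤ w := by
      have := Int.floor_le (w / μ)
      rw [le_div_iff₀ hμ] at this
      linarith
    have hj2 : w < μ * (⌊w / μ⌋ : ℝ) + μ := by
      have := Int.lt_floor_add_one (w / μ)
      rw [div_lt_iff₀ hμ] at this
      linarith
    have hou : -1 ≤ u ∧ u ≤ T := by
      rcases ho with ⟨_, h1, h2⟩ | ⟨_, _, _, h1, h2⟩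
      · constructor <;> linarith
      · exact ⟨h1, h2⟩
    refine ⟨⟨(⌈t'⌉₊ : ℝ), o, μ * (⌊w / μ⌋ : ℝ), e⟩, ?_, rfl, ?_⟩
    · rw [Finset.mem_filter]
      refine ⟨?_, he, ?_, ?_, ?_, ?_⟩
      · rw [Finset.mem_image]
        refine ⟨(((⌈t'⌉₊, o), ⌊w / μ⌋), e), ?_, rfl⟩
        rw [hPS, Finset.mem_product, Finset.mem_product, Finset.mem_product]
        refine ⟨⟨⟨?_, ?_⟩, ?_⟩, ?_⟩
        · rw [Finset.mem_range]
          exact Nat.lt_succ_of_le (Nat.le_floor (by linarith))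
        · rw [hQS]
          rcases ho with ⟨rfl, _, _⟩ | ⟨c', hc', rfl, _, _⟩
          · exact Finset.mem_insert_self _ _
          · exact Finset.mem_insert_of_mem (Finset.mem_image_of_mem _ hc')
        · rw [hUS, Finset.mem_Icc]
          constructor
          · have e1 : -(4 / μ) ≤ w / μ - 1 := by
              have : 1 ≤ 1 / μ := by
                rw [le_div_iff₀ hμ]
                linarith
              have h2 : -(3 / μ) ≤ w / μ := by
                rw [← neg_div]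
                exact div_le_div_of_nonneg_right (by linarith) hμ.le
              have h3 : 4 / μ = 3 / μ + 1 / μ := by
                rw [← add_div]
                norm_num
              linarith
            have e2 := Int.sub_one_lt_floor (w / μ)
            have e3 := Int.le_ceil (4 / μ)
            have e4 : ((-⌈4 / μ⌉ : ℤ) : ℝ) ≤ (⌊w / μ⌋ : ℝ) := by
              push_cast
              linarith
            exact_mod_cast e4
          · have e2 := Int.floor_le (w / μ)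
            have e3 := Int.le_ceil ((T + 3) / μ)
            have e4 : w / μ ≤ (T + 3) / μ := div_le_div_of_nonneg_right (by linarith) hμ.le
            exact_mod_cast e2.trans (e4.trans e3)
        · rw [hES]
          rcases he with rfl | rfl
          · exact Finset.mem_insert_self _ _
          · exact Finset.mem_insert_of_mem (Finset.mem_singleton_self _)
      · change 3 ≤ (⌈t'⌉₊ : ℝ)
        linarith
      · change (⌈t'⌉₊ : ℝ) ≤ T
        linarith
      · intro q' hq'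
        rcases ho with ⟨h1, _, _⟩ | ⟨c', hc', h1, _, _⟩
        · have h2 : o = some q' := hq'
          rw [h1] at h2
          exact absurd h2 (by simp)
        · have h2 : o = some q' := hq'
          rw [h1] at h2
          have h3 : tv M c' = q' := Option.some.inj h2
          rw [← h3]
          exact (M.ax c' (hF1 c' hc')).nu
      · intro hq'
        have hq : o = none := hq'
        change 1 ≤ μ * (⌊w / μ⌋ : ℝ) ∧ μ * (⌊w / μ⌋ : ℝ) + 2 + h ≤ (⌈t'⌉₊ : ℝ)
        rcases ho with ⟨_, h1, h2⟩ | ⟨c', hc', h1, _, _⟩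
        · constructor <;> linarith
        · rw [h1] at hq
          exact absurd hq (by simp)
    · refine ⟨g, w, ⟨hj1, hj2.le⟩, fun v hvv => ?_⟩
      have h1 := hd (v0 + v) ⟨by linarith [hvv.1], by linarith [hvv.2]⟩
      have h2 : t' + (v0 + v) = (⌈t'⌉₊ : ℝ) + v := by rw [hv0]; ring
      have h3 : u + e * (v0 + v) = w + e * v := by rw [hw]; ring
      rw [h2, h3] at h1
      exact h1

end E36
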