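import Pool.Agent.LibBE36E.Y1

import Pool.Agent.LibBE36E.Defs

/-! Row Y5 of BE36E (BE36, part E; architect helper85). The encounters of a closed geodesic, seen from a good base time. MEDIUM/STRONG, 75 min.
Plan. Let `A` be the finset of `Many`, `l = M.l c`, `A' = A.filter (· ≤ l - τ)`; two elements of `A` in `(l - τ, l]` differ by less than `τ`, so `n ≤ A'.card + 1`. For `m ∈ A'` let `c'`, `γ` be as in `Rc`; `sync` (LibBE35E/A3, `δ ≤ 1 / 8`) gives `u, e` with `d (pt c (m + v)) (γ • pt c' (u + e v)) ≤ cx b δ exp (b |v|)` for all `v`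
(`pt_act`; `UC.eb`). If `c' ∈ F`: by `rep_zpow` change `γ` to `γ * rep c' ^ k` so that `0 ≤ u ≤ M.l c'`. (`choose` functions.) `base` (row Y1) with `S = A'`, `x m = m`, `y m = u m` (or `m` if `c' ∈ F`), gives `τ0`, `I` with `A'.card ≤ 2 I.card`. Put `X m = m + k l - τ0` (`k = k m`).
Separation: for `m ≠ m'` in `I`: `X m - X m' = (m - m') + (k - k') l` with `τ ≤ |m - m'| ≤ l - τ`: `k = k'`: fine; otherwise `≥ l - (l - τ)`. `En`: `pt c (τ0 + X m + v) = rep c ^ k • pt c (m + v)` (`rep_zpow`), so with `g = rep c ^ k * γ` the first alternative; if `c' = c ∉ F`: `pt c (u + e v) = rep c ^ (-k') • pt c (τ0 + y + e v)`,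
`y = u + k' l - τ0`, `g = rep c ^ k * γ * rep c ^ (-k')`; `g = 1` would give `γ = rep c ^ (k' - k)` and `Same G (tv M c) (act G γ (tv M c))` (`rep_zpow`), against `Rc`. -/

open MeasureTheory Set Filter Topology
open scoped ContDiff ENNReal NNReal ComplexConjugate

namespace E36

open BGS (Pl Surface grid per)
open SR85 E35

variable {Γ : Type} [Group Γ] [MulAction Γ Pl] {D : Set Pl} {G : Dat Γ}
variable {a b r : ℝ} {Λ : ℕ}

/-- An encounter at the time `m`, the second line seen at the time `y` if it is the axis of `c`. -/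
private def Y5_Q (M : Cl G) (b : ℝ) (F : Finset (ConjClasses Γ)) (c : ConjClasses Γ) (δ m y : ℝ) :
    Prop :=
  (∃ c' ∈ F, ∃ (g : Γ) (u e : ℝ), (e = 1 ∨ e = -1) ∧ 0 ≤ u ∧ u ≤ M.l c' ∧
    ∀ v : ℝ, G.d (pt G (tv M c) (m + v)) (g • pt G (tv M c') (u + e * v)) ≤
      cx b * δ * Real.exp (b * |v|)) ∨
  ∃ (g : Γ) (e : ℝ), (e = 1 ∨ e = -1) ∧ ¬ Same G (tv M c) (act G g (tv M c)) ∧
    ∀ v : ℝ, G.d (pt G (tv M c) (m + v)) (g • pt G (tv M c) (y + e * v)) ≤
      cx b * δ * Real.exp (b * |v|)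

private theorem Y5_shift {l : ℝ} (hl : 0 < l) (u : ℝ) : ∃ k : ℤ, 0 ≤ u + k * l ∧ u + k * l ≤ l := by
  refine ⟨-⌊u / l⌋, ?_, ?_⟩
  · have h1 := Int.floor_le (u / l)
    rw [le_div_iff₀ hl] at h1
    push_cast
    linarith
  · have h1 := Int.lt_floor_add_one (u / l)
    rw [div_lt_iff₀ hl] at h1
    push_cast
    linarith

private theorem Y5_data (hU : UC D a b r Λ G) (M : Cl G) {c : ConjClasses Γ} (hc : c ≠ 1)
    {F F' : Finset (ConjClasses Γ)} (hF : ∀ c' ∈ F, c' ≠ 1) (hF' : ∀ c' ∈ F', c' = c ∨ c' ∈ F)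
    {δ : ℝ} (hδ : δ ≤ 1 / 8) {m : ℕ} (hR : Rc M δ F' c m) : ∃ y : ℝ, Y5_Q M b F c δ m y := by
  have h := hU.hg
  obtain ⟨-, c', hc', γ, hfl, hns⟩ := hR
  have hc1 : c' ≠ 1 := by
    rcases hF' c' hc' with h1 | h1
    · rw [h1]
      exact hc
    · exact hF c' h1
  obtain ⟨u, e, he, h1⟩ := sync h (tv_unit M hc) (act_unit h γ (tv_unit M hc1)) hδ hfl
  simp only [pt_act h, hU.eb] at h1
  by_cases hcF : c' ∈ F
  · obtain ⟨k, hk0, hk1⟩ := Y5_shift (l_pos M hc1) u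
    refine ⟨0, Or.inl ⟨c', hcF, γ * M.rep c' ^ (-k), u + k * M.l c', e, he, hk0, hk1,
      fun v => ?_⟩⟩
    have h2 : (γ * M.rep c' ^ (-k)) • pt G (tv M c') (u + k * M.l c' + e * v) =
        γ • pt G (tv M c') (u + e * v) := by
      rw [mul_smul, rep_zpow M hc1]
      congr 2
      push_cast
      ring
    rw [h2]
    exact h1 v
  · have h2 : c' = c := by
      rcases hF' c' hc' with h3 | h3
      · exact h3
      · exact absurd h3 hcF
    subst h2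
    exact ⟨u, Or.inr ⟨γ, e, he, hns, h1⟩⟩

private theorem Y5_En (hU : UC D a b r Λ G) (M : Cl G) {c : ConjClasses Γ} (hc : c ≠ 1)
    {F : Finset (ConjClasses Γ)} {δ m y τ0 : ℝ} {X : Set ℝ} {k k' : ℤ}
    (hQ : Y5_Q M b F c δ m y) (hy : y + k' * M.l c - τ0 ∈ X) :
    En M b F c τ0 δ X (m + k * M.l c - τ0) := by
  have h := hU.hg
  have hpt : ∀ v : ℝ, pt G (tv M c) (τ0 + (m + k * M.l c - τ0) + v) =
      M.rep c ^ k • pt G (tv M c) (m + v) := by
    intro v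
    rw [rep_zpow M hc]
    congr 1
    ring
  rcases hQ with ⟨c', hc', g, u, e, he, hu0, hu1, h1⟩ | ⟨g, e, he, hns, h1⟩
  · refine Or.inl ⟨c', hc', M.rep c ^ k * g, u, e, he, hu0, hu1, fun v => ?_⟩
    rw [hpt, mul_smul, d_smul h]
    exact h1 v
  · refine Or.inr ⟨y + k' * M.l c - τ0, hy, M.rep c ^ k * g * M.rep c ^ (-k'), e, ?_, he,
      fun v => ?_⟩
    · intro hg1
      have h2 : g = M.rep c ^ (k' - k) := by
        have h3 : g = M.rep c ^ (-k) * (M.rep c ^ k * g * M.rep c ^ (-k')) * M.rep c ^ k' := by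
          group
        rw [h3, hg1, mul_one, ← zpow_add]
        congr 1
        ring
      apply hns
      intro t
      refine ⟨t - ((k' - k : ℤ) : ℝ) * M.l c, ?_⟩
      rw [pt_act h, h2, rep_zpow M hc]
      congr 1
      ring
    · have h2 : (M.rep c ^ k * g * M.rep c ^ (-k')) •
          pt G (tv M c) (τ0 + (y + k' * M.l c - τ0) + e * v) =
          M.rep c ^ k • g • pt G (tv M c) (y + e * v) := by
        rw [mul_smul, mul_smul, rep_zpow M hc]
        congr 3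
        push_cast
        ring
      rw [hpt, h2, d_smul h]
      exact h1 v

private theorem Y5_card {A : Finset ℕ} {l τ : ℝ} (hA : ∀ m ∈ A, (m : ℝ) ≤ l)
    (hs : ∀ m ∈ A, ∀ m' ∈ A, m ≠ m' → τ ≤ |(m : ℝ) - m'|) :
    A.card ≤ (A.filter fun m : ℕ => (m : ℝ) ≤ l - τ).card + 1 := by
  classical
  have h1 : (A.filter fun m : ℕ => ¬ (m : ℝ) ≤ l - τ).card ≤ 1 := by
    rw [Finset.card_le_one]
    intro m hm m' hm'
    rw [Finset.mem_filter] at hm hm'
    by_contra hne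
    have h2 := hs m hm.1 m' hm'.1 hne
    have h3 := hA m hm.1
    have h4 := hA m' hm'.1
    have h5 := hm.2
    have h6 := hm'.2
    push Not at h5 h6
    have h7 : |(m : ℝ) - m'| < τ := by
      rw [abs_lt]
      constructor <;> linarith
    linarith
  have h2 := Finset.card_filter_add_card_filter_not (s := A) (fun m : ℕ => (m : ℝ) ≤ l - τ)
  omega

private theorem Y5_sep {l τ Z x x' : ℝ} {k k' : ℤ} (hl : 0 < l) (hτ : 0 < τ) (hx : 0 ≤ x) (hx' : 0 ≤ x')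
    (hxl : x ≤ l - τ) (hxl' : x' ≤ l - τ) (hs : τ ≤ |x - x'|) :
    τ ≤ |x + k * l - Z - (x' + k' * l - Z)| := by
  by_cases hk : k = k'
  · rw [hk]
    have h1 : x + k' * l - Z - (x' + k' * l - Z) = x - x' := by ring
    rwa [h1]
  · have h1 : x + k * l - Z - (x' + k' * l - Z) = (x - x') + ((k - k' : ℤ) : ℝ) * l := by
      push_cast
      ring
    rw [h1]
    rcases lt_or_gt_of_ne hk with h2 | h2
    · have h3 : ((k - k' : ℤ) : ℝ) ≤ -1 := by
        have h4 : k - k' ≤ -1 := by omega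
        exact_mod_cast h4
      have h5 : ((k - k' : ℤ) : ℝ) * l ≤ -1 * l := mul_le_mul_of_nonneg_right h3 hl.le
      rw [abs_of_nonpos (by linarith)]
      linarith
    · have h3 : (1 : ℝ) ≤ ((k - k' : ℤ) : ℝ) := by
        have h4 : 1 ≤ k - k' := by omega
        exact_mod_cast h4
      have h5 : 1 * l ≤ ((k - k' : ℤ) : ℝ) * l := mul_le_mul_of_nonneg_right h3 hl.le
      rw [abs_of_nonneg (by linarith)]
      linarith

theorem pairs (hU : UC D a b r Λ G) (M : Cl G) {c : ConjClasses Γ} (hc : c ≠ 1)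
    {F F' : Finset (ConjClasses Γ)} (hF : ∀ c' ∈ F, c' ≠ 1) (hF' : ∀ c' ∈ F', c' = c ∨ c' ∈ F)
    {δ τ Z : ℝ} (hδ : δ ≤ 1 / 8) (hτ : 0 < τ) (hZ : 0 < Z) (hl : 16 * Z ≤ M.l c) {n : ℕ}
    (hM : Many M δ τ F' c n) : ∃ τ0 ∈ Icc 0 (M.l c), ∃ (I : Finset ℕ) (X : ℕ → ℝ),
      n ≤ 2 * I.card + 1 ∧ (∀ m ∈ I, X m ∈ Icc Z (M.l c - Z)) ∧
      (∀ m ∈ I, ∀ m' ∈ I, m ≠ m' → τ ≤ |X m - X m'|) ∧
      ∀ m ∈ I, En M b F c τ0 δ (Icc Z (M.l c - Z)) (X m) := by
  classical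
  obtain ⟨A, hn, hR, hs⟩ := hM
  have hlp := l_pos M hc
  have hQ : ∀ m : ℕ, ∃ y : ℝ, m ∈ A → Y5_Q M b F c δ m y := by
    intro m
    by_cases hm : m ∈ A
    · obtain ⟨y, hy⟩ := Y5_data hU M hc hF hF' hδ (hR m hm)
      exact ⟨y, fun _ => hy⟩
    · exact ⟨0, fun h => absurd h hm⟩
  choose y hy using hQ
  have hcard := Y5_card (fun m hm => (hR m hm).1) hs
  obtain ⟨τ0, hτ0, I, hI1, hI2, hI3⟩ := base (A.filter fun m : ℕ => (m : ℝ) ≤ M.l c - τ)
    (fun m => (m : ℝ)) y hZ hl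
  have hIk : ∀ m : ℕ, ∃ k : ℤ, m ∈ I → (m : ℝ) + k * M.l c - τ0 ∈ Icc Z (M.l c - Z) := by
    intro m
    by_cases hm : m ∈ I
    · obtain ⟨k, hk⟩ := (hI3 m hm).1
      exact ⟨k, fun _ => hk⟩
    · exact ⟨0, fun h => absurd h hm⟩
  choose k hk using hIk
  refine ⟨τ0, hτ0, I, fun m => (m : ℝ) + k m * M.l c - τ0, by omega, hk, ?_, ?_⟩
  · intro m hm m' hm' hne
    have h1 := Finset.mem_filter.1 (hI1 hm)
    have h2 := Finset.mem_filter.1 (hI1 hm')
    exact Y5_sep hlp hτ (Nat.cast_nonneg m) (Nat.cast_nonneg m') h1.2 h2.2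
      (hs m h1.1 m' h2.1 hne)
  · intro m hm
    have h1 := Finset.mem_filter.1 (hI1 hm)
    obtain ⟨k', hk'⟩ := (hI3 m hm).2
    exact Y5_En hU M hc (hy m h1.1) hk'

end E36
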