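import Pool.Agent.LibBE36E.Y2
import Pool.Agent.LibBE35E.A3

/-! Row Y6 of BE36E (BE36, part E; architect helper85). One encounter of a closed geodesic, for a vector of the tube. STRONG, 90 min.
Plan. `Z = zz a R`, `h = hh b R`, `l = M.l c`, `ε₀ = exp a * (exp (-(a (Z - 3))) + exp (-(a (Z - 5))))`: by the hypothesis, for `s ∈ [Z - 3, l - Z + 3]` (`Z ≥ 6`) `d (pt p s) (κ • pt c (τ0 + s + η)) ≤ ε₀ ≤ C R ^ (-1 / 4)`.
(1) first alternative of `En` (known line): `t' = x - η`, `g' = κ * g`, `u`, `e`; for `v ∈ [0, 2]` the distance is `≤ ε₀ + cx b R ^ (-1 / 7) exp (2 b) ≤ R ^ (-1 / 10)` (`R ≥ R0`; `s = x - η + v`, `d_smul`, `mul_smul`). `DS` with `o = some (tv M c')`; `3 ≤ Z - 1 ≤ t' ≤ T - 1`, `T = ℓ + 4`. `|⌈t'⌉₊ - x| ≤ 2`.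
(2) second alternative, `y ≤ x`: `t = x - η`, `u = y - η`, `g' = κ * g * κ⁻¹ ≠ 1`: for `v ∈ [0, 1]` `d (pt p (t + v)) (g' • pt p (u + e v)) ≤ 2 ε₀ + cx b R ^ (-1 / 7) exp b =: ε`. `dbl` (row Y2; `C (1 + h) exp (2 b h) ε ≤ R ^ (-1 / 10)`, as `exp (2 b h) = R ^ (1 / 64)` and `1 / 7 - 1 / 64 > 1 / 10`) gives `t' ∈ [t, t + 2 h + 10]`,
`u + h + 5 ≤ t'`, `v ∈ [0, 2]`: `DS` with `o = none` (`3 ≤ u`; `t' ≤ l - Z + 1 + 2 h + 10 ≤ T - 1` as `Z ≥ 2 h + 10` for `R ≥ R0`, since `a ≤ b`). `|⌈t'⌉₊ - x| ≤ 2 h + 13`.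
(3) second alternative, `x < y`: `n₀ = ⌈l⌉₊`, `p' = rv (phi G n₀ p)`, `pt p' s = pt p (n₀ - s)` (`pt_rv`, `pt_phi`). `t = n₀ - x + η`, `u = n₀ - y + η < t`, `g' = κ * g * κ⁻¹`: for `v ∈ [0, 1]` `d (pt p' (t + v)) (g' • pt p' (u + e v)) = d (pt p (x - η - v)) (g' • pt p (y - η - e v)) ≤ 2 ε₀ + cx b R ^ (-1 / 7) exp b` (`En` with `-v`). `dbl` for `p'`
(`‖p'.2‖ = 1`), then as in (2); `|⌈t'⌉₊ - (n₀ - x)| ≤ 2 h + 13`. -/

open MeasureTheory Set Filter Topology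
open scoped ContDiff ENNReal NNReal ComplexConjugate

namespace E36

open BGS (Pl Surface grid per)
open SR85 E35

variable {Γ : Type} [Group Γ] [MulAction Γ Pl] {D : Set Pl} {G : Dat Γ}
variable {a b r : ℝ} {Λ : ℕ}

private theorem Y6_ev (A B κ : ℝ) (hκ : 0 < κ) :
    ∀ᶠ R : ℝ in atTop, A * (1 + B * Real.log R) ≤ R ^ κ := by
  have h1 : (fun _ : ℝ => A) =o[atTop] fun R : ℝ => R ^ κ := by
    rw [Asymptotics.isLittleO_const_left]
    right
    exact tendsto_norm_atTop_atTop.comp (tendsto_rpow_atTop hκ)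
  have h2 : (fun R : ℝ => A * B * Real.log R) =o[atTop] fun R : ℝ => R ^ κ :=
    (isLittleO_log_rpow_atTop hκ).const_mul_left _
  have h3 := (h1.add h2).bound one_pos
  filter_upwards [h3, eventually_gt_atTop 0] with R hR hR0
  rw [one_mul, Real.norm_of_nonneg (Real.rpow_nonneg hR0.le κ)] at hR
  refine le_trans ?_ hR
  refine le_trans (le_of_eq ?_) (le_abs_self _)
  ring

/-- The constants. -/
private theorem Y6_const {a b C : ℝ} (ha : 0 < a) (hab : a ≤ b) (hC : 1 ≤ C) :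
    ∃ R0 : ℝ, 1 ≤ R0 ∧ ∀ R : ℝ, R0 ≤ R → 0 ≤ hh b R ∧ 2 * hh b R + 15 ≤ zz a R ∧
      Real.exp a * (Real.exp (-(a * (zz a R - 3))) + Real.exp (-(a * (zz a R - 5)))) +
        cx b * R ^ (-(1 / 7) : ℝ) * Real.exp (2 * b) ≤ R ^ (-(1 / 10) : ℝ) ∧
      C * (1 + hh b R) * Real.exp (2 * b * hh b R) *
        (2 * (Real.exp a * (Real.exp (-(a * (zz a R - 3))) + Real.exp (-(a * (zz a R - 5))))) +
        cx b * R ^ (-(1 / 7) : ℝ) * Real.exp b) ≤ R ^ (-(1 / 10) : ℝ) ∧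
      R ^ (-(1 / 10) : ℝ) ≤ 1 := by
  have hb : 0 < b := by linarith
  have hcx : 0 < cx b := by unfold cx; positivity
  set A : ℝ := C * (4 * Real.exp (6 * a) + cx b * Real.exp (2 * b)) with hA
  have hA0 : 0 < A := by positivity
  obtain ⟨R1, hR1⟩ := eventually_atTop.1 ((Y6_ev A (1 / (128 * b)) (1 / 7 - 1 / 64 - 1 / 10)
    (by norm_num)).and (Real.tendsto_log_atTop.eventually_ge_atTop (64 * b)))
  refine ⟨max R1 1, le_max_right _ _, fun R hR => ?_⟩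
  obtain ⟨e1, e2⟩ := hR1 R ((le_max_left _ _).trans hR)
  have hRone : 1 ≤ R := (le_max_right _ _).trans hR
  have hRp : 0 < R := by linarith
  have hlog : 0 ≤ Real.log R := Real.log_nonneg hRone
  have hh0 : 0 ≤ hh b R := by
    unfold hh
    positivity
  have hhe : 1 / (128 * b) * Real.log R = hh b R := rfl
  rw [hhe] at e1
  have hz : 2 * hh b R + 15 ≤ zz a R := by
    have f1 : 1 / (4 * b) * Real.log R ≤ zz a R := by
      unfold zz
      apply mul_le_mul_of_nonneg_right _ hlog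
      exact one_div_le_one_div_of_le (by linarith) (by linarith)
    have f2 : 2 * hh b R + 15 ≤ 1 / (4 * b) * Real.log R := by
      have f3 : (15 : ℝ) ≤ 15 / (64 * b) * Real.log R := by
        rw [div_mul_eq_mul_div, le_div_iff₀ (by positivity)]
        nlinarith
      have f4 : 1 / (4 * b) * Real.log R = 2 * hh b R + 15 / (64 * b) * Real.log R := by
        unfold hh
        field_simp
        ring
      linarith
    linarith
  -- the three powers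
  have hx1 : Real.exp (-(a * zz a R)) = R ^ (-(1 / 4) : ℝ) := by
    rw [Real.rpow_def_of_pos hRp]
    congr 1
    unfold zz
    field_simp
  have hx2 : Real.exp (2 * b * hh b R) = R ^ (1 / 64 : ℝ) := by
    rw [Real.rpow_def_of_pos hRp]
    congr 1
    unfold hh
    field_simp
    ring
  have hx3 : Real.exp a * (Real.exp (-(a * (zz a R - 3))) + Real.exp (-(a * (zz a R - 5)))) ≤
      2 * Real.exp (6 * a) * R ^ (-(1 / 7) : ℝ) := by
    have f1 : Real.exp (-(a * (zz a R - 3))) ≤ Real.exp (5 * a) * R ^ (-(1 / 4) : ℝ) := by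
      rw [← hx1, ← Real.exp_add]
      apply Real.exp_le_exp.2
      linarith
    have f2 : Real.exp (-(a * (zz a R - 5))) ≤ Real.exp (5 * a) * R ^ (-(1 / 4) : ℝ) := by
      rw [← hx1, ← Real.exp_add]
      apply Real.exp_le_exp.2
      linarith
    have f3 : R ^ (-(1 / 4) : ℝ) ≤ R ^ (-(1 / 7) : ℝ) :=
      Real.rpow_le_rpow_of_exponent_le hRone (by norm_num)
    have f4 : Real.exp (6 * a) = Real.exp a * Real.exp (5 * a) := by
      rw [← Real.exp_add]; congr 1; ring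
    calc Real.exp a * (Real.exp (-(a * (zz a R - 3))) + Real.exp (-(a * (zz a R - 5))))
        ≤ Real.exp a * (Real.exp (5 * a) * R ^ (-(1 / 4) : ℝ) +
          Real.exp (5 * a) * R ^ (-(1 / 4) : ℝ)) := by gcongr
      _ = 2 * Real.exp (6 * a) * R ^ (-(1 / 4) : ℝ) := by rw [f4]; ring
      _ ≤ 2 * Real.exp (6 * a) * R ^ (-(1 / 7) : ℝ) := by gcongr
  have hx4 : (1 : ℝ) ≤ 1 + hh b R := by linarith
  have hx5 : R ^ (-(1 / 7) : ℝ) * R ^ (1 / 64 : ℝ) * R ^ ((1 / 7 - 1 / 64 - 1 / 10 : ℝ)) =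
      R ^ (-(1 / 10) : ℝ) := by
    rw [← Real.rpow_add hRp, ← Real.rpow_add hRp]
    congr 1
    norm_num
  have hp0 : 0 < R ^ (-(1 / 7) : ℝ) := Real.rpow_pos_of_pos hRp _
  have hp1 : 1 ≤ R ^ (1 / 64 : ℝ) := Real.one_le_rpow hRone (by norm_num)
  have hbb : Real.exp b ≤ Real.exp (2 * b) := Real.exp_le_exp.2 (by linarith)
  refine ⟨hh0, hz, ?_, ?_, Real.rpow_le_one_of_one_le_of_nonpos hRone (by norm_num)⟩
  · calc Real.exp a * (Real.exp (-(a * (zz a R - 3))) + Real.exp (-(a * (zz a R - 5)))) +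
        cx b * R ^ (-(1 / 7) : ℝ) * Real.exp (2 * b)
        ≤ 2 * Real.exp (6 * a) * R ^ (-(1 / 7) : ℝ) +
          cx b * R ^ (-(1 / 7) : ℝ) * Real.exp (2 * b) := by gcongr
      _ = R ^ (-(1 / 7) : ℝ) * 1 * (2 * Real.exp (6 * a) + cx b * Real.exp (2 * b)) := by ring
      _ ≤ R ^ (-(1 / 7) : ℝ) * R ^ (1 / 64 : ℝ) * R ^ ((1 / 7 - 1 / 64 - 1 / 10 : ℝ)) := by
          have g1 : 2 * Real.exp (6 * a) + cx b * Real.exp (2 * b) ≤
              R ^ ((1 / 7 - 1 / 64 - 1 / 10 : ℝ)) := by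
            refine le_trans ?_ e1
            have g2 : A * 1 ≤ A * (1 + hh b R) := by gcongr
            refine le_trans ?_ g2
            rw [mul_one, hA]
            have g3 : 1 * (4 * Real.exp (6 * a) + cx b * Real.exp (2 * b)) ≤
                C * (4 * Real.exp (6 * a) + cx b * Real.exp (2 * b)) := by gcongr
            have g4 : 0 < Real.exp (6 * a) := Real.exp_pos _
            linarith
          gcongr
      _ = R ^ (-(1 / 10) : ℝ) := hx5
  · rw [hx2]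
    calc C * (1 + hh b R) * R ^ (1 / 64 : ℝ) *
        (2 * (Real.exp a * (Real.exp (-(a * (zz a R - 3))) + Real.exp (-(a * (zz a R - 5))))) +
        cx b * R ^ (-(1 / 7) : ℝ) * Real.exp b)
        ≤ C * (1 + hh b R) * R ^ (1 / 64 : ℝ) *
          (2 * (2 * Real.exp (6 * a) * R ^ (-(1 / 7) : ℝ)) +
          cx b * R ^ (-(1 / 7) : ℝ) * Real.exp (2 * b)) := by gcongr
      _ = R ^ (-(1 / 7) : ℝ) * R ^ (1 / 64 : ℝ) * (A * (1 + hh b R)) := by rw [hA]; ring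
      _ ≤ R ^ (-(1 / 7) : ℝ) * R ^ (1 / 64 : ℝ) * R ^ ((1 / 7 - 1 / 64 - 1 / 10 : ℝ)) := by
          gcongr
      _ = R ^ (-(1 / 10) : ℝ) := hx5

/-- From an encounter of `p` with itself to a datum. -/
private theorem Y6_self {M : Cl G} {F : Finset (ConjClasses Γ)} {T h C ρ : ℝ} {S : Finset Dt}
    (hC : ∀ (p : Pl × ℂ) (t u e h ε : ℝ) (g : Γ), ‖p.2‖ = 1 → g ≠ 1 → (e = 1 ∨ e = -1) → 0 ≤ ε →
      0 ≤ h → C * (1 + h) * Real.exp (2 * b * h) * ε ≤ 1 → u ≤ t →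
      (∀ v ∈ Icc (0 : ℝ) 1, G.d (pt G p (t + v)) (g • pt G p (u + e * v)) ≤ ε) →
      ∃ (t' e' : ℝ) (g' : Γ), t ≤ t' ∧ t' ≤ t + 2 * h + 10 ∧ u + h + 5 ≤ t' ∧
        (e' = 1 ∨ e' = -1) ∧ ∀ v ∈ Icc (0 : ℝ) 2,
          G.d (pt G p (t' + v)) (g' • pt G p (u + e' * v)) ≤
            C * (1 + h) * Real.exp (2 * b * h) * ε)
    (hS : DS M F r T h S) (hh0 : 0 ≤ h) {p : Pl × ℂ} {t u e ε : ℝ} {g : Γ} (hp : ‖p.2‖ = 1)
    (hg : g ≠ 1) (he : e = 1 ∨ e = -1) (hu : 3 ≤ u) (hut : u ≤ t) (htT : t + 2 * h + 11 ≤ T)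
    (h1 : ∀ v ∈ Icc (0 : ℝ) 1, G.d (pt G p (t + v)) (g • pt G p (u + e * v)) ≤ ε)
    (hρ : C * (1 + h) * Real.exp (2 * b * h) * ε ≤ ρ) (hρ1 : ρ ≤ 1) :
    ∃ d ∈ S, |d.t - t| ≤ 2 * h + 11 ∧ Hit G ρ (r / 16) d p := by
  have hε : 0 ≤ ε := (norm_nonneg _).trans (h1 0 ⟨le_rfl, zero_le_one⟩)
  obtain ⟨t', e', g', k1, k2, k3, k4, k5⟩ := hC p t u e h ε g hp hg he hε hh0 (hρ.trans hρ1) hut h1
  obtain ⟨d, hd, hdt, hit⟩ := hS.2 p t' u e' ρ g' none k4 (by linarith) (by linarith)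
    (Or.inl ⟨rfl, hu, k3⟩) (fun v hv => (k5 v hv).trans hρ)
  refine ⟨d, hd, ?_, hit⟩
  rw [hdt]
  have c1 := Nat.le_ceil t'
  have c2 := Nat.ceil_lt_add_one (show 0 ≤ t' by linarith)
  rw [abs_le]
  constructor <;> linarith

theorem pdat (D : Set Pl) (a b r : ℝ) (Λ : ℕ) : ∃ R0 : ℝ, 1 ≤ R0 ∧ ∀ G : Dat Γ,
    UC D a b r Λ G → ∀ (M : Cl G) (R ℓ : ℝ), R0 ≤ R → 1 ≤ ℓ →
    ∀ (F : Finset (ConjClasses Γ)) (S : Finset Dt), (∀ c' ∈ F, c' ≠ 1 ∧ M.l c' ≤ ℓ) →
      DS M F r (ℓ + 4) (hh b R) S → ∀ c : ConjClasses Γ, c ≠ 1 → M.l c ≤ ℓ →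
      ∀ (κ : Γ) (p : Pl × ℂ) (τ0 η x : ℝ), ‖p.2‖ = 1 → |η| ≤ 1 →
      (∀ s : ℝ, 1 ≤ s → s + 3 ≤ M.l c → G.d (pt G p s) (κ • pt G (tv M c) (τ0 + s + η)) ≤
        Real.exp a * (Real.exp (-(a * s)) + Real.exp (-(a * (M.l c - 2 - s))))) →
      x ∈ Icc (zz a R) (M.l c - zz a R) →
      En M b F c τ0 (R ^ (-(1 / 7) : ℝ)) (Icc (zz a R) (M.l c - zz a R)) x →
      (∃ d ∈ S, |d.t - x| ≤ 2 * hh b R + 13 ∧ Hit G (R ^ (-(1 / 10) : ℝ)) (r / 16) d p) ∨
      ∃ d ∈ S, |d.t - (⌈M.l c⌉₊ - x)| ≤ 2 * hh b R + 13 ∧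
        Hit G (R ^ (-(1 / 10) : ℝ)) (r / 16) d (rv (phi G (⌈M.l c⌉₊ : ℝ) p)) := by
  by_cases hab : 0 < a ∧ a ≤ b
  swap
  · refine ⟨1, le_rfl, fun G hU => ?_⟩
    exfalso
    apply hab
    rw [← hU.ea, ← hU.eb]
    exact ⟨hU.hg.a_pos, hU.hg.ab⟩
  obtain ⟨ha, hab⟩ := hab
  obtain ⟨C, hC1, hC⟩ := dbl (Γ := Γ) D a b r Λ
  obtain ⟨R0, hR01, hR0⟩ := Y6_const ha hab hC1
  refine ⟨R0, hR01, ?_⟩
  intro G hU M R ℓ hR hℓ F S hF hS c hc hcl κ p τ0 η x hp hη hax hx hEn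
  have h := hU.hg
  have hb : 0 < b := by linarith
  obtain ⟨hh0, hzh, hs1, hs2, hρ1⟩ := hR0 R hR
  have hcx : 0 < cx b := by unfold cx; positivity
  have hR0' : 0 < R := by linarith
  set δ : ℝ := R ^ (-(1 / 7) : ℝ) with hδ
  set ρ : ℝ := R ^ (-(1 / 10) : ℝ) with hρ
  set Z : ℝ := zz a R with hZ
  set H : ℝ := hh b R with hH
  set E0 : ℝ := Real.exp a * (Real.exp (-(a * (Z - 3))) + Real.exp (-(a * (Z - 5)))) with hE0
  have hδ0 : 0 < δ := Real.rpow_pos_of_pos hR0' _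
  obtain ⟨hη1, hη2⟩ := abs_le.1 hη
  obtain ⟨hx1, hx2⟩ := hx
  have hE : ∀ s : ℝ, Z - 3 ≤ s → s ≤ M.l c - Z + 3 →
      G.d (pt G p s) (κ • pt G (tv M c) (τ0 + s + η)) ≤ E0 := by
    intro s h1 h2
    refine (hax s (by linarith) (by linarith)).trans ?_
    rw [hE0]
    apply mul_le_mul_of_nonneg_left _ (Real.exp_pos _).le
    apply add_le_add
    · apply Real.exp_le_exp.2
      nlinarith
    · apply Real.exp_le_exp.2
      nlinarith
  rcases hEn with ⟨c', hc', g, u, e, he, hu0, hul, hd⟩ | ⟨y, hy, g, e, hg, he, hd⟩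
  · -- a line of `F`
    left
    obtain ⟨hc'1, hc'l⟩ := hF c' hc'
    obtain ⟨d, hdS, hdt, hit⟩ := hS.2 p (x - η) u e ρ (κ * g) (some (tv M c')) he (by linarith)
      (by linarith) (Or.inr ⟨c', hc', rfl, by linarith, by linarith⟩) (by
        intro v hv
        obtain ⟨hv0, hv2⟩ := hv
        have k1 := hE (x - η + v) (by linarith) (by linarith)
        rw [show τ0 + (x - η + v) + η = τ0 + x + v by ring] at k1
        have k2 := hd v
        have k3 : G.d (κ • pt G (tv M c) (τ0 + x + v)) ((κ * g) • pt G (tv M c') (u + e * v)) ≤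
            cx b * δ * Real.exp (2 * b) := by
          rw [mul_smul, d_smul h]
          refine k2.trans ?_
          apply mul_le_mul_of_nonneg_left _ (by positivity)
          apply Real.exp_le_exp.2
          rw [abs_of_nonneg hv0]
          nlinarith
        have k4 := h.d_tri (pt G p (x - η + v)) (κ • pt G (tv M c) (τ0 + x + v))
          ((κ * g) • pt G (tv M c') (u + e * v))
        show G.d (pt G p (x - η + v)) ((κ * g) • pt G (tv M c') (u + e * v)) ≤ ρ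
        linarith)
    refine ⟨d, hdS, ?_, hit⟩
    rw [hdt]
    have c1 := Nat.le_ceil (x - η)
    have c2 := Nat.ceil_lt_add_one (show 0 ≤ x - η by linarith)
    rw [abs_le]
    constructor <;> linarith
  · obtain ⟨hy1, hy2⟩ := hy
    have hg' : κ * g * κ⁻¹ ≠ 1 := by
      intro h5
      apply hg
      have h7 : g = κ⁻¹ * (κ * g * κ⁻¹) * κ := by group
      rw [h7, h5]
      group
    -- the estimate with a common sign
    have key : ∀ w : ℝ, |w| ≤ 1 →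
        G.d (pt G p (x - η + w)) ((κ * g * κ⁻¹) • pt G p (y - η + e * w)) ≤
          2 * E0 + cx b * δ * Real.exp b := by
      intro w hw
      obtain ⟨hw1, hw2⟩ := abs_le.1 hw
      have hew : |e * w| ≤ 1 := by
        rw [abs_mul]
        rcases he with he | he
        · rw [he]; norm_num; exact hw
        · rw [he]; norm_num; exact hw
      obtain ⟨hew1, hew2⟩ := abs_le.1 hew
      have k1 := hE (x - η + w) (by linarith) (by linarith)
      rw [show τ0 + (x - η + w) + η = τ0 + x + w by ring] at k1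
      have k2 := hE (y - η + e * w) (by linarith) (by linarith)
      rw [show τ0 + (y - η + e * w) + η = τ0 + y + e * w by ring] at k2
      have k3 : G.d (κ • pt G (tv M c) (τ0 + x + w))
          ((κ * g * κ⁻¹) • κ • pt G (tv M c) (τ0 + y + e * w)) ≤ cx b * δ * Real.exp b := by
        rw [mul_smul, mul_smul, inv_smul_smul, d_smul h]
        refine (hd w).trans ?_
        apply mul_le_mul_of_nonneg_left _ (by positivity)
        apply Real.exp_le_exp.2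
        nlinarith
      have k4 := h.d_tri (pt G p (x - η + w)) (κ • pt G (tv M c) (τ0 + x + w))
        ((κ * g * κ⁻¹) • pt G p (y - η + e * w))
      have k5 := h.d_tri (κ • pt G (tv M c) (τ0 + x + w))
        ((κ * g * κ⁻¹) • κ • pt G (tv M c) (τ0 + y + e * w))
        ((κ * g * κ⁻¹) • pt G p (y - η + e * w))
      have k6 : G.d ((κ * g * κ⁻¹) • κ • pt G (tv M c) (τ0 + y + e * w))
          ((κ * g * κ⁻¹) • pt G p (y - η + e * w)) ≤ E0 := by
        rw [d_smul h, h.d_symm]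
        exact k2
      linarith
    rcases le_or_gt y x with hyx | hxy
    · left
      obtain ⟨d, hdS, hdt, hit⟩ := Y6_self (hC G hU) hS hh0 (t := x - η) (u := y - η) (e := e)
        hp hg' he (by linarith) (by linarith) (by linarith)
        (fun v hv => key v (by rw [abs_of_nonneg hv.1]; exact hv.2)) hs2 hρ1
      refine ⟨d, hdS, ?_, hit⟩
      obtain ⟨f1, f2⟩ := abs_le.1 hdt
      rw [abs_le]
      constructor <;> linarith
    · right
      have n1 := Nat.le_ceil (M.l c)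
      have n2 := Nat.ceil_lt_add_one (show 0 ≤ M.l c from (l_pos M hc).le)
      set n₀ : ℕ := ⌈M.l c⌉₊ with hn₀
      have hp' : ‖(rv (phi G (n₀ : ℝ) p)).2‖ = 1 := rv_unit (phi_unit h _ hp)
      have hpt : ∀ s : ℝ, pt G (rv (phi G (n₀ : ℝ) p)) s = pt G p (n₀ - s) := by
        intro s
        rw [pt_rv, pt_phi h hp]
        congr 1
      obtain ⟨d, hdS, hdt, hit⟩ := Y6_self (hC G hU) hS hh0 (t := n₀ - x + η) (u := n₀ - y + η)
        (e := e) hp' hg' he (by linarith) (by linarith) (by linarith)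
        (fun v hv => by
          have k1 := key (-v) (by rw [abs_neg, abs_of_nonneg hv.1]; exact hv.2)
          rw [hpt, hpt, show (n₀ : ℝ) - (n₀ - x + η + v) = x - η + -v by ring,
            show (n₀ : ℝ) - (n₀ - y + η + e * v) = y - η + e * -v by ring]
          exact k1) hs2 hρ1
      refine ⟨d, hdS, ?_, hit⟩
      obtain ⟨f1, f2⟩ := abs_le.1 hdt
      rw [abs_le]
      constructor <;> linarith

end E36
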