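import Pool.Agent.LibBE36E.Y3
import Pool.Agent.LibBE36E.Y5
import Pool.Agent.LibBE36E.Y6
import Pool.Agent.LibBE35E.D7

/-! Row Y7 of BE36E (BE36, part E; architect helper85). Many encounters of a closed geodesic: the vectors of the tube. MEDIUM/STRONG, 75 min.
Plan. `n ≥ N ≥ 2` gives two elements of the finset of `Many` in `[0, l]`; more precisely `(n - 1) * tau b R ≤ l` (a set of `n` reals in `[0, l]` with distances `≥ tau`: e.g. the injective map `m ↦ ⌊m / tau⌋₊` into `range (⌊l / tau⌋₊ + 1)`), so with `N - 1 ≥ 64 b / a + 1` (`16 * zz a R = (4 / a) log R`, `tau b R = log R / (16 b)`)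
`l ≥ 16 * zz a R` and `l ≥ 4` (`R ≥ R0`). `pairs` (row Y5) with `δ = R ^ (-1 / 7) ≤ 1 / 8`, `τ = tau b R`, `Z = zz a R`: `τ0`, `I`, `X`. Given `κ, t, p`: `tube_ax` (LibBE35E/D7) with `q = act G κ (tv M c)`, `m = rad r Λ ℓ ∈ (0, 1]` (`D13_rad`), `l = M.l c` gives `η`, `|η| ≤ 1` (`pt_act`; `UC.ea`). `pdat` (row Y6) for each `m ∈ I`:
`I₁` = those with the first alternative, `I₂` = the others: one of them has at least `I.card / 2 ≥ (n - 1) / 4 ≥ k` elements (`N ≥ 8`). `sortl` (row Y3) with the chosen data: for `m ≠ m'`, `|d.t - d'.t| ≥ tau b R - 2 (2 hh b R + 13) ≥ hh b R` for `R ≥ R0` (`tau = 8 hh`; in `I₂` the centres are `⌈l⌉₊ - X m`). -/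

open MeasureTheory Set Filter Topology
open scoped ContDiff ENNReal NNReal ComplexConjugate

namespace E36

open BGS (Pl Surface grid per)
open SR85 E35

variable {Γ : Type} [Group Γ] [MulAction Γ Pl] {D : Set Pl} {G : Dat Γ}
variable {a b r : ℝ} {Λ : ℕ}

private theorem Y7_len {A : Finset ℕ} {l τ : ℝ} (hτ : 0 < τ) (hA : ∀ m ∈ A, (m : ℝ) ≤ l)
    (hs : ∀ m ∈ A, ∀ m' ∈ A, m ≠ m' → τ ≤ |(m : ℝ) - m'|) (hl : 0 ≤ l) :
    ((A.card : ℝ) - 1) * τ ≤ l := by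
  have h1 : A.card ≤ (Finset.range (⌊l / τ⌋₊ + 1)).card := by
    refine Finset.card_le_card_of_injOn (fun m => ⌊(m : ℝ) / τ⌋₊) (fun m hm => ?_) ?_
    · have h2 : (m : ℝ) / τ ≤ l / τ := div_le_div_of_nonneg_right (hA m hm) hτ.le
      have h3 := Nat.floor_le_floor h2
      exact Finset.mem_coe.2 (Finset.mem_range.2 (Nat.lt_succ_of_le h3))
    · intro m hm m' hm' he
      by_contra hne
      have h2 := hs m hm m' hm' hne
      have h3 : ⌊(m : ℝ) / τ⌋₊ = ⌊(m' : ℝ) / τ⌋₊ := he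
      have h4 : (0 : ℝ) ≤ (m : ℝ) / τ := by positivity
      have h5 : (0 : ℝ) ≤ (m' : ℝ) / τ := by positivity
      have h6 := Nat.floor_le h4
      have h7 := Nat.lt_floor_add_one ((m : ℝ) / τ)
      have h8 := Nat.floor_le h5
      have h9 := Nat.lt_floor_add_one ((m' : ℝ) / τ)
      rw [h3] at h6 h7
      have h10 : |(m : ℝ) / τ - (m' : ℝ) / τ| < 1 := by
        rw [abs_lt]
        constructor <;> linarith
      rw [← sub_div, abs_div, abs_of_pos hτ, div_lt_one hτ] at h10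
      linarith
  rw [Finset.card_range] at h1
  have h2 : (A.card : ℝ) ≤ (⌊l / τ⌋₊ : ℝ) + 1 := by exact_mod_cast h1
  have h3 : (⌊l / τ⌋₊ : ℝ) ≤ l / τ := Nat.floor_le (by positivity)
  have h4 : (A.card : ℝ) - 1 ≤ l / τ := by linarith
  rwa [le_div_iff₀ hτ] at h4

private theorem Y7_wd {I : Finset ℕ} {S : Finset Dt} {ρ μ h τ C : ℝ} {X : ℕ → ℝ} {p : Pl × ℂ}
    {k : ℕ} (hk : k ≤ I.card)
    (hX : ∀ m ∈ I, ∀ m' ∈ I, m ≠ m' → τ ≤ |X m - X m'|) (hτ : h + 2 * C ≤ τ)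
    (hd : ∀ m ∈ I, ∃ d ∈ S, |d.t - X m| ≤ C ∧ Hit G ρ μ d p) : p ∈ Wd G ρ μ h S k := by
  classical
  have h1 : ∀ m : ℕ, ∃ d : Dt, m ∈ I → d ∈ S ∧ |d.t - X m| ≤ C ∧ Hit G ρ μ d p := by
    intro m
    by_cases hm : m ∈ I
    · obtain ⟨d, h2, h3⟩ := hd m hm
      exact ⟨d, fun _ => ⟨h2, h3⟩⟩
    · exact ⟨⟨0, none, 0, 0⟩, fun h => absurd h hm⟩
  choose d hd' using h1
  obtain ⟨l, hl1, hl2, hl3⟩ := sortl I d (h := h) (fun i hi j hj hij => by
    have h2 := hX i hi j hj hij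
    have h3 := abs_le.1 (hd' i hi).2.1
    have h4 := abs_le.1 (hd' j hj).2.1
    have h5 : |X i - X j| ≤ |(d i).t - (d j).t| + 2 * C := by
      rw [abs_le]
      have h6 := neg_abs_le ((d i).t - (d j).t)
      have h7 := le_abs_self ((d i).t - (d j).t)
      constructor <;> linarith [h3.1, h3.2, h4.1, h4.2]
    linarith) k hk
  refine ⟨l, hl1, fun x hx => ?_, hl3, fun x hx => ?_⟩
  · obtain ⟨i, hi, rfl⟩ := hl2 x hx
    exact (hd' i hi).1
  · obtain ⟨i, hi, rfl⟩ := hl2 x hx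
    exact (hd' i hi).2.2

theorem plist (D : Set Pl) (a b r : ℝ) (Λ : ℕ) : ∃ (N : ℕ) (R0 : ℝ), 1 ≤ N ∧ 1 ≤ R0 ∧
    ∀ G : Dat Γ, UC D a b r Λ G → ∀ (M : Cl G) (R ℓ : ℝ), R0 ≤ R → 1 ≤ ℓ →
    ∀ (F : Finset (ConjClasses Γ)) (S : Finset Dt), (∀ c' ∈ F, c' ≠ 1 ∧ M.l c' ≤ ℓ) →
      DS M F r (ℓ + 4) (hh b R) S → ∀ c : ConjClasses Γ, c ≠ 1 → M.l c ≤ ℓ →
      ∀ (F' : Finset (ConjClasses Γ)) (n k : ℕ), (∀ c' ∈ F', c' = c ∨ c' ∈ F) →
      N * (k + 1) ≤ n → Many M (R ^ (-(1 / 7) : ℝ)) (tau b R) F' c n →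
      1 ≤ M.l c ∧ ∃ τ0 : ℝ, ∀ (κ : Γ) (t : ℝ) (p : Pl × ℂ), ‖p.2‖ = 1 → 0 < t →
        G.d p.1 (κ • pt G (tv M c) τ0) ≤ rad r Λ ℓ →
        G.d (pt G p t) (κ • pt G (tv M c) (τ0 + M.l c)) ≤ rad r Λ ℓ →
        p ∈ Wd G (R ^ (-(1 / 10) : ℝ)) (r / 16) (hh b R) S k ∨
          rv (phi G (⌈M.l c⌉₊ : ℝ) p) ∈ Wd G (R ^ (-(1 / 10) : ℝ)) (r / 16) (hh b R) S k := by
  classical
  obtain ⟨R1, hR1, hpd⟩ := pdat (Γ := Γ) D a b r Λ
  refine ⟨⌈64 * b / a⌉₊ + 10, max (max (8 ^ 7) R1) (Real.exp (1200 * b)), by omega,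
    le_max_of_le_left (le_max_of_le_right hR1), ?_⟩
  intro G hU M R ℓ hR hℓ F S hF hS c hc hcl F' n k hF' hn hM
  have h := hU.hg
  have ha : 0 < a := by rw [← hU.ea]; exact h.a_pos
  have hb : 0 < b := by
    rw [← hU.eb]
    exact h.a_pos.trans_le h.ab
  have hR8 : (8 : ℝ) ^ 7 ≤ R := ((le_max_left _ _).trans (le_max_left _ _)).trans hR
  have hRR1 : R1 ≤ R := ((le_max_right _ _).trans (le_max_left _ _)).trans hR
  have hRe : Real.exp (1200 * b) ≤ R := (le_max_right _ _).trans hR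
  have hR0 : 0 < R := (Real.exp_pos _).trans_le hRe
  have hlog : 1200 * b ≤ Real.log R := by
    rw [← Real.log_exp (1200 * b)]
    exact Real.log_le_log (Real.exp_pos _) hRe
  have hlog0 : 0 < Real.log R := by nlinarith
  have hδ : R ^ (-(1 / 7) : ℝ) ≤ 1 / 8 := by
    have h1 : R ^ (-(1 / 7) : ℝ) ≤ ((8 : ℝ) ^ 7) ^ (-(1 / 7) : ℝ) :=
      Real.rpow_le_rpow_of_nonpos (by norm_num) hR8 (by norm_num)
    have h2 : ((8 : ℝ) ^ 7) ^ (-(1 / 7) : ℝ) = 1 / 8 := by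
      rw [← Real.rpow_natCast, ← Real.rpow_mul (by norm_num)]
      norm_num
    exact h1.trans h2.le
  have hhh : 1200 / 128 ≤ hh b R := by
    unfold hh
    rw [one_div, inv_mul_eq_div, le_div_iff₀ (by positivity)]
    linarith
  have htau : tau b R = 8 * hh b R := by
    unfold tau hh
    field_simp
    norm_num
  have htau0 : 0 < tau b R := by
    rw [htau]
    linarith
  have hZ0 : 0 < zz a R := by
    unfold zz
    positivity
  obtain ⟨A, hA1, hA2, hA3⟩ := hM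
  have hl0 : 0 < M.l c := (M.ax c hc).pos
  have hlen := Y7_len htau0 (fun m hm => (hA2 m hm).1) hA3 hl0.le
  have hN : (64 * b / a + 10) * (k + 1) ≤ (n : ℝ) := by
    have h1 : (((⌈64 * b / a⌉₊ + 10) * (k + 1) : ℕ) : ℝ) ≤ (n : ℝ) := by exact_mod_cast hn
    have h2 : 64 * b / a ≤ (⌈64 * b / a⌉₊ : ℝ) := Nat.le_ceil _
    push_cast at h1
    have h3 : (0 : ℝ) ≤ k := Nat.cast_nonneg _
    nlinarith
  have hq0 : 0 < 64 * b / a := by positivity
  have hn1 : 64 * b / a + 10 ≤ (n : ℝ) := by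
    have h3 : (0 : ℝ) ≤ k := Nat.cast_nonneg _
    nlinarith
  have hAn : (n : ℝ) ≤ A.card := by exact_mod_cast hA1
  have hlen2 : (64 * b / a + 9) * tau b R ≤ M.l c := by
    refine le_trans ?_ hlen
    exact mul_le_mul_of_nonneg_right (by linarith) htau0.le
  have hlz : 16 * zz a R ≤ M.l c := by
    refine le_trans ?_ hlen2
    have h1 : 16 * zz a R = (64 * b / a) * tau b R := by
      unfold zz tau
      field_simp
      norm_num
    rw [h1]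
    exact mul_le_mul_of_nonneg_right (by linarith) htau0.le
  have hl4 : 4 ≤ M.l c := by nlinarith
  have hM' : Many M (R ^ (-(1 / 7) : ℝ)) (tau b R) F' c n := ⟨A, hA1, hA2, hA3⟩
  obtain ⟨τ0, -, I, X, hI1, hI2, hI3, hI4⟩ := pairs hU M hc (fun c' hc' => (hF c' hc').1) hF' hδ
    htau0 hZ0 hlz hM'
  refine ⟨by linarith, τ0, ?_⟩
  intro κ t p hp ht h1 h2
  have hq : ‖(act G κ (tv M c)).2‖ = 1 := act_unit h κ (tv_unit M hc)
  have hrad : 0 < rad r Λ ℓ := by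
    unfold rad
    have h3 := hU.r_pos
    have h4 : (1 : ℝ) ≤ Λ := by exact_mod_cast hU.L_one
    positivity
  have hrad1 : rad r Λ ℓ ≤ 1 := by
    unfold rad
    have hΛ : (1 : ℝ) ≤ Λ := by exact_mod_cast hU.L_one
    have h3 : (1 : ℝ) ≤ (2 + ℓ) ^ Λ := one_le_pow₀ (by linarith)
    have h4 : (1 : ℝ) ≤ 16 * Λ * (2 + ℓ) ^ Λ := by nlinarith
    rw [div_le_one (by linarith)]
    exact hU.r_le.trans h4
  obtain ⟨η, hη, hc1⟩ := tube_ax h hp hq (τ := τ0) (l := M.l c) hrad hrad1 ht hl4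
    (by rw [pt_act h]; exact h1) (by rw [pt_act h]; exact h2)
  have hpd1 : ∀ m ∈ I, _ := fun m hm => hpd G hU M R ℓ hRR1 hℓ F S hF hS c hc hcl κ p τ0 η (X m) hp
    (hη.trans hrad1) (fun s hs1 hs2 => by
      have h3 := hc1 s hs1 hs2
      rw [pt_act h, hU.ea] at h3
      exact h3) (hI2 m hm) (hI4 m hm)
  have hC : hh b R + 2 * (2 * hh b R + 13) ≤ tau b R := by
    rw [htau]
    linarith
  by_cases hk : k ≤ (I.filter fun m => ∃ d ∈ S, |d.t - X m| ≤ 2 * hh b R + 13 ∧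
      Hit G (R ^ (-(1 / 10) : ℝ)) (r / 16) d p).card
  · left
    refine Y7_wd hk (X := X) (fun m hm m' hm' hne => hI3 m (Finset.mem_filter.1 hm).1 m'
      (Finset.mem_filter.1 hm').1 hne) hC fun m hm => (Finset.mem_filter.1 hm).2
  · right
    have hk2 : k ≤ (I.filter fun m => ¬ ∃ d ∈ S, |d.t - X m| ≤ 2 * hh b R + 13 ∧
        Hit G (R ^ (-(1 / 10) : ℝ)) (r / 16) d p).card := by
      have h3 := Finset.card_filter_add_card_filter_not (s := I) (fun m => ∃ d ∈ S,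
        |d.t - X m| ≤ 2 * hh b R + 13 ∧ Hit G (R ^ (-(1 / 10) : ℝ)) (r / 16) d p)
      have h4 : 10 * (k + 1) ≤ n := by
        refine le_trans ?_ hn
        exact Nat.mul_le_mul_right _ (by omega)
      omega
    refine Y7_wd hk2 (X := fun m => (⌈M.l c⌉₊ : ℝ) - X m) (fun m hm m' hm' hne => ?_) hC
      fun m hm => ?_
    · have h3 := hI3 m (Finset.mem_filter.1 hm).1 m' (Finset.mem_filter.1 hm').1 hne
      have h4 : (⌈M.l c⌉₊ : ℝ) - X m - ((⌈M.l c⌉₊ : ℝ) - X m') = -(X m - X m') := by ring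
      rw [h4, abs_neg]
      exact h3
    · exact (hpd1 m (Finset.mem_filter.1 hm).1).resolve_left (Finset.mem_filter.1 hm).2

end E36
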