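import Pool.Agent.LibBE36E.X6
import Pool.Agent.LibBE36E.X7
import Pool.Agent.LibBE36E.Y4
import Pool.Agent.LibBE36E.Y7
import Pool.Agent.LibBE35E.D3
import Pool.Agent.LibBE35E.D6
import Pool.Agent.LibBE35E.D13

/-! Row Y8 of BE36E (BE36, part E; architect helper85). The classes with many encounters. STRONG, 90 min. TEMPLATES: `E35.mutf`, `E35.selff` (LibBE35E/D11.lean, D12.lean, proved; last parts).
Plan. `κ = a / (128 b)` (`> 0`, `≤ 1 / 10`, as `0 < a ≤ b`; if there is no `G` with `UC` nothing is to be proved: `by_cases`), so `R ^ (-1 / 10) + exp (-(a * hh b R)) ≤ 2 R ^ (-κ)`. `dset` (row Y4) with `T = ℓ + 4`, `h = hh b R ≥ 0`: `S`, `DS`. `plist` (row Y7) for every `c ∈ Sc` (choose `τ c`). `W₀ = Wd G (R ^ (-1 / 10)) (r / 16) (hh b R) S k`,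
`W = {p | d o p.1 ≤ Λ + 1 ∧ p ∈ W₀} ∪ ⋃ j ∈ range (⌈ℓ⌉₊ + 1), {p | d o p.1 ≤ Λ + 1 ∧ rv (phi G j p) ∈ W₀}`, `o ∈ D` fixed (`to_D`). Measurable: `wd_meas`, `rv_meas`, `M3_meas`. `tube` (D6) with `ℓ`: if `κ • pt c (τ c) ∈ D` and `d p.1 (..) ≤ rad` then `d o p.1 ≤ Λ + 1` (`UC.diam`, `D13_rad`), so `p ∈ W`.
`muS G {p | d o p.1 ≤ Λ + 1 ∧ phi G j p ∈ rv ⁻¹' W₀} ≤ N₃ * muD D G (rv ⁻¹' W₀) = N₃ * muD D G W₀` (`flow_nbd`, D3, invariance by `rv_act` and `wd_meas`; `rv_mu`); for the first set `flow_nbd` with `n = 0` (`phi G 0 p = p`: `E_zero`, `VE`; `simp [phi, Dat.dr]`). `wd_mu` (row X6; its smallness hypothesis follows from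
`N (1 + ℓ) ^ N R ^ (-κ) ≤ 1` with `N` large, `1 + T ≤ 5 (1 + ℓ)`): `muD D G W₀ ≤ ofReal (N₁ (N₁ (1 + T) ^ N₁ * 2 R ^ (-κ) * N₂ (1 + T) ^ 2) ^ k)`. Altogether `∑ wt² ≤ N₀ (1 + ℓ) ^ N₀ * (ℓ + 3) N₃ N₁ (..) ^ k ≤ N (1 + ℓ) ^ N (N (1 + ℓ) ^ N R ^ (-κ)) ^ k`. -/

open MeasureTheory Set Filter Topology
open scoped ContDiff ENNReal NNReal ComplexConjugate

namespace E36

open BGS (Pl Surface grid per)
open SR85 E35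

variable {Γ : Type} [Group Γ] [MulAction Γ Pl] {D : Set Pl} {G : Dat Γ}
variable {a b r : ℝ} {Λ : ℕ}

private theorem Y8_phi_zero (h : HG D G) (p : Pl × ℂ) : phi G ((0 : ℕ) : ℝ) p = p := by
  have h1 : (phi G ((0 : ℕ) : ℝ) p).1 = p.1 := by
    simp [phi, h.E_zero]
  have h2 : (phi G ((0 : ℕ) : ℝ) p).2 = p.2 := by
    simp [phi, Dat.dr, h.E_zero, h.VE]
  exact Prod.ext h1 h2

/-- The measure of the set of the tubes. -/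
private theorem Y8_mu (hU : UC D a b r Λ G) {N₃ : ℕ}
    (hN₃ : ∀ (o : Pl) (n : ℕ) (Y : Set (Pl × ℂ)), MeasurableSet Y →
      (∀ (g : Γ) (p : Pl × ℂ), act G g p ∈ Y ↔ p ∈ Y) →
      muS G {p | G.d o p.1 ≤ Λ + 1 ∧ phi G n p ∈ Y} ≤ N₃ * muD D G Y)
    (o : Pl) {Y : Set (Pl × ℂ)} (hYm : MeasurableSet Y)
    (hYi : ∀ (g : Γ) (p : Pl × ℂ), act G g p ∈ Y ↔ p ∈ Y) {ℓ B : ℝ} (hℓ : 1 ≤ ℓ) (hB : 0 ≤ B)
    (hY : muD D G Y ≤ ENNReal.ofReal B) :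
    MeasurableSet ({p : Pl × ℂ | G.d o p.1 ≤ Λ + 1 ∧ phi G ((0 : ℕ) : ℝ) p ∈ Y} ∪
      ⋃ j ∈ Finset.range (⌈ℓ⌉₊ + 1),
        {p : Pl × ℂ | G.d o p.1 ≤ Λ + 1 ∧ phi G j p ∈ rv ⁻¹' Y}) ∧
    muS G ({p : Pl × ℂ | G.d o p.1 ≤ Λ + 1 ∧ phi G ((0 : ℕ) : ℝ) p ∈ Y} ∪
      ⋃ j ∈ Finset.range (⌈ℓ⌉₊ + 1),
        {p : Pl × ℂ | G.d o p.1 ≤ Λ + 1 ∧ phi G j p ∈ rv ⁻¹' Y}) ≤
      ENNReal.ofReal ((ℓ + 3) * (N₃ * B)) := by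
  have h := hU.hg
  have hX := hU.hX
  have hY'm : MeasurableSet ((rv : Pl × ℂ → Pl × ℂ) ⁻¹' Y) := rv_meas hYm
  have hY'i : ∀ (g : Γ) (p : Pl × ℂ), act G g p ∈ (rv : Pl × ℂ → Pl × ℂ) ⁻¹' Y ↔
      p ∈ (rv : Pl × ℂ → Pl × ℂ) ⁻¹' Y := by
    intro g p
    rw [Set.mem_preimage, Set.mem_preimage, rv_act, hYi]
  have hY' : muD D G ((rv : Pl × ℂ → Pl × ℂ) ⁻¹' Y) ≤ ENNReal.ofReal B := by
    have h1 : muD D G ((rv : Pl × ℂ → Pl × ℂ) ⁻¹' Y) = muD D G Y := rv_mu hX h hYm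
    rw [h1]
    exact hY
  have hm : ∀ (j : ℕ) (Y : Set (Pl × ℂ)), MeasurableSet Y →
      MeasurableSet {p : Pl × ℂ | G.d o p.1 ≤ Λ + 1 ∧ phi G j p ∈ Y} := by
    intro j Y hY
    refine MeasurableSet.inter ?_ ?_
    · have hc : Continuous fun p : Pl × ℂ => G.d o p.1 :=
        (d_cont h).comp (continuous_const.prodMk continuous_fst)
      exact (isClosed_le hc continuous_const).measurableSet
    · exact M3_meas h j hY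
  have hone : ∀ (j : ℕ) (Y : Set (Pl × ℂ)), MeasurableSet Y →
      (∀ (g : Γ) (p : Pl × ℂ), act G g p ∈ Y ↔ p ∈ Y) → muD D G Y ≤ ENNReal.ofReal B →
      muS G {p : Pl × ℂ | G.d o p.1 ≤ Λ + 1 ∧ phi G j p ∈ Y} ≤ ENNReal.ofReal (N₃ * B) := by
    intro j Y h1 h2 h3
    refine (hN₃ o j Y h1 h2).trans ?_
    rw [ENNReal.ofReal_mul (Nat.cast_nonneg _), ENNReal.ofReal_natCast]
    gcongr
  refine ⟨(hm 0 Y hYm).union (Finset.measurableSet_biUnion _ fun j _ => hm j _ hY'm), ?_⟩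
  calc muS G ({p : Pl × ℂ | G.d o p.1 ≤ Λ + 1 ∧ phi G ((0 : ℕ) : ℝ) p ∈ Y} ∪
      ⋃ j ∈ Finset.range (⌈ℓ⌉₊ + 1),
        {p : Pl × ℂ | G.d o p.1 ≤ Λ + 1 ∧ phi G j p ∈ rv ⁻¹' Y})
      ≤ muS G {p : Pl × ℂ | G.d o p.1 ≤ Λ + 1 ∧ phi G ((0 : ℕ) : ℝ) p ∈ Y} +
        muS G (⋃ j ∈ Finset.range (⌈ℓ⌉₊ + 1),
          {p : Pl × ℂ | G.d o p.1 ≤ Λ + 1 ∧ phi G j p ∈ rv ⁻¹' Y}) := measure_union_le _ _
    _ ≤ ENNReal.ofReal (N₃ * B) +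
        ∑ j ∈ Finset.range (⌈ℓ⌉₊ + 1), ENNReal.ofReal (N₃ * B) := by
        refine add_le_add (hone 0 Y hYm hYi hY) ((measure_biUnion_finset_le _ _).trans ?_)
        exact Finset.sum_le_sum fun j _ => hone j _ hY'm hY'i hY'
    _ = ENNReal.ofReal (N₃ * B) + ((⌈ℓ⌉₊ + 1 : ℕ) : ℝ≥0∞) * ENNReal.ofReal (N₃ * B) := by
        rw [Finset.sum_const, Finset.card_range, nsmul_eq_mul]
    _ = ENNReal.ofReal (N₃ * B + ((⌈ℓ⌉₊ + 1 : ℕ) : ℝ) * (N₃ * B)) := by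
        rw [ENNReal.ofReal_add (by positivity) (by positivity),
          ENNReal.ofReal_mul (p := ((⌈ℓ⌉₊ + 1 : ℕ) : ℝ)) (Nat.cast_nonneg _),
          ENNReal.ofReal_natCast]
    _ ≤ _ := by
        apply ENNReal.ofReal_le_ofReal
        have h2 := Nat.ceil_lt_add_one (show (0 : ℝ) ≤ ℓ by linarith)
        have h3 : (0 : ℝ) ≤ N₃ * B := by positivity
        push_cast
        nlinarith

theorem multi (D : Set Pl) (a b r : ℝ) (Λ q : ℕ) : ∃ (N : ℕ) (κ R0 : ℝ), 1 ≤ N ∧ 0 < κ ∧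
    1 ≤ R0 ∧ ∀ G : Dat Γ, UC D a b r Λ G → ∀ (M : Cl G) (R ℓ : ℝ), R0 ≤ R → 1 ≤ ℓ →
      N * (1 + ℓ) ^ N * R ^ (-κ) ≤ 1 → ∀ F : Finset (ConjClasses Γ), F.card ≤ q →
      (∀ c' ∈ F, c' ≠ 1 ∧ M.l c' ≤ ℓ) → ∀ n k : ℕ, N * (k + 1) ≤ n →
      ∀ Sc : Finset (ConjClasses Γ), (∀ c ∈ Sc, c ≠ 1 ∧ M.l c ≤ ℓ ∧
        ∃ F' : Finset (ConjClasses Γ), (∀ c' ∈ F', c' = c ∨ c' ∈ F) ∧
          Many M (R ^ (-(1 / 7) : ℝ)) (tau b R) F' c n) →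
      ∑ c ∈ Sc, wt M c ^ 2 ≤ N * (1 + ℓ) ^ N * (N * (1 + ℓ) ^ N * R ^ (-κ)) ^ k := by
  by_cases hab : 0 < a ∧ a ≤ b ∧ 0 < r ∧ r ≤ 1
  swap
  · refine ⟨1, 1, 1, le_rfl, one_pos, le_rfl, fun G hU => ?_⟩
    exfalso
    apply hab
    refine ⟨?_, ?_, hU.r_pos, hU.r_le⟩
    · rw [← hU.ea]
      exact hU.hg.a_pos
    · rw [← hU.ea, ← hU.eb]
      exact hU.hg.ab
  obtain ⟨ha, hab, hr, hr1⟩ := hab
  have hb : 0 < b := by linarith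
  obtain ⟨N₁, hN₁⟩ := tube (Γ := Γ) D a b r Λ
  obtain ⟨N₃, hN₃⟩ := flow_nbd (Γ := Γ) D a b r Λ
  obtain ⟨N₄, -, hN₄⟩ := dset (Γ := Γ) r hr hr1 q
  obtain ⟨N₅, R0, -, hR01, hN₅⟩ := plist (Γ := Γ) D a b r Λ
  obtain ⟨N₆, -, hN₆⟩ := wd_mu (Γ := Γ) D a b r Λ
  set κ : ℝ := a / (128 * b) with hκ
  have hκ0 : 0 < κ := by positivity
  have hκ1 : κ ≤ 1 / 10 := by
    rw [hκ, div_le_iff₀ (by positivity)]
    linarith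
  set N : ℕ := 50 * N₆ * 5 ^ N₆ * N₄ + 2 * N₆ * 5 ^ N₆ + 3 * N₁ * N₃ * N₆ + N₁ + N₅ + N₆ + 2
    with hN
  refine ⟨N, κ, R0, by omega, hκ0, hR01, ?_⟩
  intro G hU M R ℓ hR hℓ hNR F hFq hF n k hnk Sc hSc
  have h := hU.hg
  have hRone : 1 ≤ R := hR01.trans hR
  have hRp : 0 < R := by linarith
  have hlog : 0 ≤ Real.log R := Real.log_nonneg hRone
  have hh0 : 0 ≤ hh b R := by
    unfold hh
    positivity
  obtain ⟨S, hSc4, hDS⟩ := hN₄ G M F (ℓ + 4) (hh b R) hFq (fun c hc => (hF c hc).1)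
    (by linarith) hh0
  set ρ : ℝ := R ^ (-(1 / 10) : ℝ) with hρ
  set Q : ℝ := R ^ (-κ) with hQ
  have hQ0 : 0 < Q := Real.rpow_pos_of_pos hRp _
  have hρ0 : 0 < ρ := Real.rpow_pos_of_pos hRp _
  have hρe : ρ + Real.exp (-(a * hh b R)) ≤ 2 * Q := by
    have f1 : ρ ≤ Q := Real.rpow_le_rpow_of_exponent_le hRone (by linarith)
    have f2 : Real.exp (-(a * hh b R)) = Q := by
      rw [hQ, Real.rpow_def_of_pos hRp]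
      congr 1
      unfold hh
      rw [hκ]
      field_simp
    linarith
  set W₀ : Set (Pl × ℂ) := Wd G ρ (r / 16) (hh b R) S k with hW₀
  obtain ⟨hWm, hWi⟩ := wd_meas hU.hX h ρ (r / 16) (hh b R) S k
  -- the times of the tubes
  have hdat : ∀ c : ConjClasses Γ, ∃ τ0 : ℝ, c ∈ Sc → 1 ≤ M.l c ∧
      ∀ (κ : Γ) (t : ℝ) (p : Pl × ℂ), ‖p.2‖ = 1 → 0 < t →
        G.d p.1 (κ • pt G (tv M c) τ0) ≤ rad r Λ ℓ →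
        G.d (pt G p t) (κ • pt G (tv M c) (τ0 + M.l c)) ≤ rad r Λ ℓ →
        p ∈ W₀ ∨ rv (phi G (⌈M.l c⌉₊ : ℝ) p) ∈ W₀ := by
    intro c
    by_cases hc : c ∈ Sc
    · obtain ⟨h1, h2, F', h3, h4⟩ := hSc c hc
      have hN5 : N₅ * (k + 1) ≤ n := by
        refine le_trans ?_ hnk
        exact Nat.mul_le_mul_right _ (by rw [hN]; omega)
      obtain ⟨h5, τ0, h6⟩ := hN₅ G hU M R ℓ hR hℓ F S hF hDS c h1 h2 F' n k h3 hN5 h4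
      exact ⟨τ0, fun _ => ⟨h5, h6⟩⟩
    · exact ⟨0, fun h1 => absurd h1 hc⟩
  choose τ hdat using hdat
  obtain ⟨κ₀, ho⟩ := to_D hU (0 : Pl)
  set o : Pl := κ₀ • (0 : Pl) with hodef
  -- the powers
  have hT5 : 1 + (ℓ + 4) ≤ 5 * (1 + ℓ) := by linarith
  have hpow : (1 + (ℓ + 4)) ^ N₆ ≤ 5 ^ N₆ * (1 + ℓ) ^ N₆ := by
    rw [← mul_pow]
    exact pow_le_pow_left₀ (by linarith) hT5 _
  have hpow2 : (1 + (ℓ + 4)) ^ 2 ≤ 25 * (1 + ℓ) ^ 2 := by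
    calc (1 + (ℓ + 4)) ^ 2 ≤ (5 * (1 + ℓ)) ^ 2 := pow_le_pow_left₀ (by linarith) hT5 _
      _ = 25 * (1 + ℓ) ^ 2 := by ring
  have hcond : N₆ * (1 + (ℓ + 4)) ^ N₆ * (ρ + Real.exp (-(a * hh b R))) ≤ 1 := by
    refine le_trans ?_ hNR
    have e1 : ((2 * N₆ * 5 ^ N₆ : ℕ) : ℝ) ≤ N := by
      have : 2 * N₆ * 5 ^ N₆ ≤ N := by rw [hN]; omega
      exact_mod_cast this
    have e2 : (1 + ℓ) ^ N₆ ≤ (1 + ℓ) ^ N := pow_le_pow_right₀ (by linarith) (by rw [hN]; omega)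
    calc N₆ * (1 + (ℓ + 4)) ^ N₆ * (ρ + Real.exp (-(a * hh b R)))
        ≤ N₆ * (5 ^ N₆ * (1 + ℓ) ^ N₆) * (2 * Q) := by gcongr
      _ = ((2 * N₆ * 5 ^ N₆ : ℕ) : ℝ) * (1 + ℓ) ^ N₆ * Q := by
          push_cast
          ring
      _ ≤ N * (1 + ℓ) ^ N * Q := by gcongr
  have hX0 : 0 ≤ N₆ * (1 + (ℓ + 4)) ^ N₆ * (ρ + Real.exp (-(a * hh b R))) * S.card := by
    have := Real.exp_pos (-(a * hh b R))
    positivity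
  have hXle : N₆ * (1 + (ℓ + 4)) ^ N₆ * (ρ + Real.exp (-(a * hh b R))) * S.card ≤
      N * (1 + ℓ) ^ N * Q := by
    have e1 : ((50 * N₆ * 5 ^ N₆ * N₄ : ℕ) : ℝ) ≤ N := by
      have : 50 * N₆ * 5 ^ N₆ * N₄ ≤ N := by rw [hN]; omega
      exact_mod_cast this
    have e2 : (1 + ℓ) ^ (N₆ + 2) ≤ (1 + ℓ) ^ N :=
      pow_le_pow_right₀ (by linarith) (by rw [hN]; omega)
    calc N₆ * (1 + (ℓ + 4)) ^ N₆ * (ρ + Real.exp (-(a * hh b R))) * S.card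
        ≤ N₆ * (5 ^ N₆ * (1 + ℓ) ^ N₆) * (2 * Q) * (N₄ * (25 * (1 + ℓ) ^ 2)) := by
          have e3 : (S.card : ℝ) ≤ N₄ * (25 * (1 + ℓ) ^ 2) := hSc4.trans (by gcongr)
          gcongr
      _ = ((50 * N₆ * 5 ^ N₆ * N₄ : ℕ) : ℝ) * (1 + ℓ) ^ (N₆ + 2) * Q := by
          push_cast
          ring
      _ ≤ N * (1 + ℓ) ^ N * Q := by gcongr
  have hmuD := hN₆ G hU (ℓ + 4) ρ (hh b R) S k (by linarith) hρ0.le hh0 hcond hDS.1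
  rw [← hW₀] at hmuD
  set X : ℝ := N₆ * (1 + (ℓ + 4)) ^ N₆ * (ρ + Real.exp (-(a * hh b R))) * S.card with hX
  obtain ⟨hSm, hSmu⟩ := Y8_mu hU (hN₃ G hU) o hWm hWi hℓ (by positivity : 0 ≤ N₆ * X ^ k) hmuD
  set W : Set (Pl × ℂ) := {p : Pl × ℂ | G.d o p.1 ≤ Λ + 1 ∧ phi G ((0 : ℕ) : ℝ) p ∈ W₀} ∪
      ⋃ j ∈ Finset.range (⌈ℓ⌉₊ + 1),
        {p : Pl × ℂ | G.d o p.1 ≤ Λ + 1 ∧ phi G j p ∈ rv ⁻¹' W₀} with hWdef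
  have hmain := hN₁ G hU M ℓ hℓ Sc (fun c hc => ⟨(hSc c hc).1, (hdat c hc).1, (hSc c hc).2.1⟩)
    τ W hSm (by
    intro c hc κ t p hp ht hD h1 h2
    have hop : G.d o p.1 ≤ Λ + 1 := by
      have h3 := h.d_tri o (κ • pt G (tv M c) (τ c)) p.1
      have h4 := hU.diam o (subset_closure ho) _ (subset_closure hD)
      have h5 := D13_rad hU (show (0 : ℝ) ≤ ℓ by linarith)
      rw [h.d_symm (κ • pt G (tv M c) (τ c)) p.1] at h3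
      linarith
    rcases (hdat c hc).2 κ t p hp ht h1 h2 with h3 | h3
    · left
      refine ⟨hop, ?_⟩
      rw [Y8_phi_zero h]
      exact h3
    · right
      rw [Set.mem_iUnion₂]
      refine ⟨⌈M.l c⌉₊, ?_, hop, h3⟩
      rw [Finset.mem_range, Nat.lt_succ_iff]
      exact Nat.ceil_le_ceil (hSc c hc).2.1)
  have hfin : ENNReal.ofReal (∑ c ∈ Sc, wt M c ^ 2) ≤ ENNReal.ofReal (N₁ * (1 + ℓ) ^ N₁ *
      ((ℓ + 3) * (N₃ * (N₆ * X ^ k)))) := by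
    refine hmain.trans ?_
    rw [ENNReal.ofReal_mul (p := N₁ * (1 + ℓ) ^ N₁) (by positivity)]
    exact mul_le_mul_right hSmu _
  rw [ENNReal.ofReal_le_ofReal_iff (by positivity)] at hfin
  refine hfin.trans ?_
  have g3 : ℓ + 3 ≤ 3 * (1 + ℓ) := by linarith
  have g4 : ((3 * N₁ * N₃ * N₆ : ℕ) : ℝ) ≤ N := by
    have : 3 * N₁ * N₃ * N₆ ≤ N := by rw [hN]; omega
    exact_mod_cast this
  have g5 : (1 + ℓ) ^ (N₁ + 1) ≤ (1 + ℓ) ^ N :=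
    pow_le_pow_right₀ (by linarith) (by rw [hN]; omega)
  have g6 : X ^ k ≤ (N * (1 + ℓ) ^ N * Q) ^ k := pow_le_pow_left₀ hX0 hXle _
  have g7 : 0 ≤ N * (1 + ℓ) ^ N * Q := by positivity
  calc N₁ * (1 + ℓ) ^ N₁ * ((ℓ + 3) * (N₃ * (N₆ * X ^ k)))
      ≤ N₁ * (1 + ℓ) ^ N₁ * ((3 * (1 + ℓ)) * (N₃ * (N₆ * (N * (1 + ℓ) ^ N * Q) ^ k))) := by
        gcongr
    _ = ((3 * N₁ * N₃ * N₆ : ℕ) : ℝ) * (1 + ℓ) ^ (N₁ + 1) * (N * (1 + ℓ) ^ N * Q) ^ k := by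
        push_cast
        ring
    _ ≤ N * (1 + ℓ) ^ N * (N * (1 + ℓ) ^ N * Q) ^ k := by gcongr

end E36
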