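import Pool.Agent.LibBE36E.C4
import Pool.Agent.LibBE36E.C5
import Pool.Agent.LibBE36E.F2
import Pool.Agent.LibBE36E.F3
import Pool.Agent.LibBE36E.S2
import Pool.Agent.LibBE36E.Y8
import Pool.Agent.LibBE35E.C1
import Pool.Agent.LibBE35E.D13

/-! Row F4 of BE36E (BE36, part E; architect helper85). One side. STRONG, 120 min. TEMPLATE: `E35.side` (LibBE35E/F1.lean, proved).
Plan. `η`, `N4` of `parts` (LibBE36E/S2), `c5` of `short_same`, `N1, κ₁` of `E36.mutf` (C4), `N2, κ₂` of `E36.selff` (C5), `N3` of `wt_sum`, `N6, κ5` of `multi` (Y8). All the natural numbers go into one `C0` (given `A`): for `X = C0 * (1 + ℓ)`, `Y n = (N4 (1 + ℓ) ^ N4) ^ (A (n + 1) + 1)`, `Z = (N3 + 1) (1 + ℓ) ^ N3`: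
(a) `Y n ^ q * ((q + q q) * ((N1 + N2) (1 + ℓ) ^ (N1 + N2) * Z ^ q)) ≤ X ^ (C0 (n + 1))`, (b) `Y n ^ q * (q * (N6 (1 + ℓ) ^ N6 * (N6 (1 + ℓ) ^ N6) ^ k * Z ^ q)) ≤ X ^ (C0 (n + 1))` for `k ≤ n` (every factor is `≤ X ^ (constant * (n + 1))`). `numF` with `κ1 := min κ₁ κ₂`, `κ5`, `N5 := N6`, `C0` gives `κ', κ0, R0, n0`; the theorem with
`κ = κ' / 2`. Given `B`: every `c ∈ B` has a witness `n c` of `Side` (the second part), and `n c ≤ ℓ + 1` (a finset of naturals `≤ M.l (c i) ≤ ℓ` has at most `ℓ + 1` elements: it is contained in `Finset.range (⌊ℓ⌋₊ + 1)`), so `∑ over B ≤ ∑ n ∈ range (⌊ℓ⌋₊ + 2), ∑ over B n`, `B n = B.filter (n c = n)` (`Finset.sum_fiberwise_of_maps_to`).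
`n < n0`: `sideA` with `Rq F c := Brk M η F (tv M c) (A * (n + 1)) 0 (M.l c)`, `Y = Y n` (`parts`), `δ = (N1 + N2) (1 + ℓ) ^ (N1 + N2) * R ^ (-min κ₁ κ₂)` exactly as in `E35.side` (`enc_cases`, `F1_rho` for the scales: copy it, it is private). `n ≥ n0`: then `n ≠ 0` (`n0 ≥ N5 ≥ 1`), so there is `i` with `Many`; `sideB` with
`δ = N6 (1 + ℓ) ^ N6 * (N6 (1 + ℓ) ^ N6 * R ^ (-κ5)) ^ (n / N6 - 1)` (`multi` with `k = n / N6 - 1`: `N6 * (k + 1) ≤ n`). Each `B n` gives at most `R ^ (-κ')`, there are at most `ℓ + 2`, and `numF` gives `R ^ (-(κ' / 2))`. The hypothesis `N (1 + L) ^ N R ^ (-κ) ≤ 1` of `selff`, `multi` from the last two parts of `numF`. -/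

open MeasureTheory Set Filter Topology
open scoped ContDiff ENNReal NNReal ComplexConjugate

namespace E36

open BGS (Pl Surface grid per)
open SR85 E35

variable {Γ : Type} [Group Γ] [MulAction Γ Pl] {D : Set Pl} {G : Dat Γ}
variable {a b r : ℝ} {Λ : ℕ}

private theorem F4_pow {C0 N : ℕ} {L : ℝ} (hL : 1 ≤ L) (hN : N + 1 ≤ C0) :
    (N : ℝ) * L ^ N ≤ (C0 * L) ^ (N + 1) := by
  have h1 : (N : ℝ) ≤ C0 := by exact_mod_cast (by omega : N ≤ C0)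
  have h2 : (1 : ℝ) ≤ C0 := by exact_mod_cast (by omega : 1 ≤ C0)
  have h3 : L ≤ C0 * L := by nlinarith
  have h4 : L ^ N ≤ (C0 * L) ^ N := pow_le_pow_left₀ (by linarith) h3 N
  have h5 : (N : ℝ) ≤ C0 * L := by nlinarith
  rw [pow_succ, mul_comm (N : ℝ)]
  exact mul_le_mul h4 h5 (Nat.cast_nonneg _) (by positivity)

private theorem F4_pow' {C0 N : ℕ} {L : ℝ} (hL : 1 ≤ L) (hN : N + 1 ≤ C0) :
    ((N + 1 : ℕ) : ℝ) * L ^ N ≤ (C0 * L) ^ (N + 1) := by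
  have h1 : ((N + 1 : ℕ) : ℝ) ≤ C0 := by exact_mod_cast hN
  have h2 : (1 : ℝ) ≤ C0 := by exact_mod_cast (by omega : 1 ≤ C0)
  have h3 : L ≤ C0 * L := by nlinarith
  have h4 : L ^ N ≤ (C0 * L) ^ N := pow_le_pow_left₀ (by linarith) h3 N
  have h5 : ((N + 1 : ℕ) : ℝ) ≤ C0 * L := by nlinarith
  rw [pow_succ, mul_comm (((N + 1 : ℕ) : ℝ))]
  exact mul_le_mul h4 h5 (Nat.cast_nonneg _) (by positivity)

private theorem F4_Y {C0 A q N4 n : ℕ} {L : ℝ} (hL : 1 ≤ L) (h4 : N4 + 1 ≤ C0) :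
    ((N4 * L ^ N4) ^ (A * (n + 1) + 1)) ^ q ≤
      ((C0 : ℝ) * L) ^ ((N4 + 1) * (A + 1) * q * (n + 1)) := by
  have hX : (1 : ℝ) ≤ C0 * L := by
    have h2 : (1 : ℝ) ≤ C0 := by exact_mod_cast (by omega : 1 ≤ C0)
    nlinarith
  calc ((N4 * L ^ N4) ^ (A * (n + 1) + 1)) ^ q
      ≤ ((((C0 : ℝ) * L) ^ (N4 + 1)) ^ (A * (n + 1) + 1)) ^ q := by
        apply pow_le_pow_left₀ (by positivity)
        apply pow_le_pow_left₀ (by positivity)
        exact F4_pow hL h4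
    _ = ((C0 : ℝ) * L) ^ ((N4 + 1) * (A * (n + 1) + 1) * q) := by
        rw [← pow_mul, ← pow_mul, mul_assoc]
    _ ≤ _ := by
        apply pow_le_pow_right₀ hX
        have h1 : A * (n + 1) + 1 ≤ (A + 1) * (n + 1) := by nlinarith
        calc (N4 + 1) * (A * (n + 1) + 1) * q ≤ (N4 + 1) * ((A + 1) * (n + 1)) * q :=
              Nat.mul_le_mul_right _ (Nat.mul_le_mul_left _ h1)
          _ = _ := by ring

private theorem F4_a {C0 A q N1 N2 N3 N4 n : ℕ} {L : ℝ} (hL : 1 ≤ L) (hq : q + q * q ≤ C0)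
    (h12 : N1 + N2 + 1 ≤ C0) (h3 : N3 + 1 ≤ C0) (h4 : N4 + 1 ≤ C0)
    (hC : (N4 + 1) * (A + 1) * q + (1 + ((N1 + N2 + 1) + (N3 + 1) * q)) ≤ C0) :
    ((N4 * L ^ N4) ^ (A * (n + 1) + 1)) ^ q * ((q + q * q) * (((N1 + N2 : ℕ) : ℝ) *
      L ^ (N1 + N2) * (((N3 + 1 : ℕ) : ℝ) * L ^ N3) ^ q)) ≤ ((C0 : ℝ) * L) ^ (C0 * (n + 1)) := by
  have h2 : (1 : ℝ) ≤ C0 := by exact_mod_cast (by omega : 1 ≤ C0)
  have hX : (1 : ℝ) ≤ C0 * L := by nlinarith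
  have e1 := F4_Y (C0 := C0) (A := A) (q := q) (N4 := N4) (n := n) hL h4
  have e2 : ((q : ℝ) + q * q) ≤ ((C0 : ℝ) * L) ^ 1 := by
    have : ((q : ℝ) + q * q) ≤ C0 := by exact_mod_cast hq
    rw [pow_one]
    nlinarith
  have e3 := F4_pow (C0 := C0) (N := N1 + N2) hL h12
  have e4 : (((N3 + 1 : ℕ) : ℝ) * L ^ N3) ^ q ≤ ((C0 : ℝ) * L) ^ ((N3 + 1) * q) := by
    rw [pow_mul]
    exact pow_le_pow_left₀ (by positivity) (F4_pow' hL h3) q
  have hL0 : 0 ≤ L := by linarith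
  have e5 : ((N4 * L ^ N4) ^ (A * (n + 1) + 1)) ^ q * ((q + q * q) * (((N1 + N2 : ℕ) : ℝ) *
      L ^ (N1 + N2) * (((N3 + 1 : ℕ) : ℝ) * L ^ N3) ^ q)) ≤
      ((C0 : ℝ) * L) ^ ((N4 + 1) * (A + 1) * q * (n + 1)) * (((C0 : ℝ) * L) ^ 1 *
        (((C0 : ℝ) * L) ^ (N1 + N2 + 1) * ((C0 : ℝ) * L) ^ ((N3 + 1) * q))) := by
    apply mul_le_mul e1 _ (by positivity) (by positivity)
    apply mul_le_mul e2 _ (by positivity) (by positivity)
    exact mul_le_mul e3 e4 (by positivity) (by positivity)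
  refine e5.trans ?_
  rw [← pow_add, ← pow_add, ← pow_add]
  apply pow_le_pow_right₀ hX
  calc (N4 + 1) * (A + 1) * q * (n + 1) + (1 + (N1 + N2 + 1 + (N3 + 1) * q))
      ≤ (N4 + 1) * (A + 1) * q * (n + 1) + (1 + (N1 + N2 + 1 + (N3 + 1) * q)) * (n + 1) :=
        Nat.add_le_add_left (Nat.le_mul_of_pos_right _ (by omega)) _
    _ = ((N4 + 1) * (A + 1) * q + (1 + (N1 + N2 + 1 + (N3 + 1) * q))) * (n + 1) := by ring
    _ ≤ C0 * (n + 1) := Nat.mul_le_mul_right _ hC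

private theorem F4_b {C0 A q N3 N4 N6 n k : ℕ} {L : ℝ} (hL : 1 ≤ L) (hk : k ≤ n)
    (hq : q + q * q ≤ C0) (h3 : N3 + 1 ≤ C0) (h4 : N4 + 1 ≤ C0) (h6 : N6 + 1 ≤ C0)
    (hC : (N4 + 1) * (A + 1) * q + (1 + ((N6 + 1) + (N6 + 1) + (N3 + 1) * q)) ≤ C0) :
    ((N4 * L ^ N4) ^ (A * (n + 1) + 1)) ^ q * (q * (N6 * L ^ N6 * (N6 * L ^ N6) ^ k *
      (((N3 + 1 : ℕ) : ℝ) * L ^ N3) ^ q)) ≤ ((C0 : ℝ) * L) ^ (C0 * (n + 1)) := by
  have h2 : (1 : ℝ) ≤ C0 := by exact_mod_cast (by omega : 1 ≤ C0)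
  have hX : (1 : ℝ) ≤ C0 * L := by nlinarith
  have e1 := F4_Y (C0 := C0) (A := A) (q := q) (N4 := N4) (n := n) hL h4
  have e2 : (q : ℝ) ≤ ((C0 : ℝ) * L) ^ 1 := by
    have : (q : ℝ) ≤ C0 := by exact_mod_cast (by omega : q ≤ C0)
    rw [pow_one]
    nlinarith
  have e3 := F4_pow (C0 := C0) (N := N6) hL h6
  have e3' : (N6 * L ^ N6) ^ k ≤ ((C0 : ℝ) * L) ^ ((N6 + 1) * (n + 1)) := by
    calc (N6 * L ^ N6) ^ k ≤ (((C0 : ℝ) * L) ^ (N6 + 1)) ^ k :=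
          pow_le_pow_left₀ (by positivity) e3 k
      _ = ((C0 : ℝ) * L) ^ ((N6 + 1) * k) := by rw [← pow_mul]
      _ ≤ _ := pow_le_pow_right₀ hX (Nat.mul_le_mul_left _ (by omega))
  have e4 : (((N3 + 1 : ℕ) : ℝ) * L ^ N3) ^ q ≤ ((C0 : ℝ) * L) ^ ((N3 + 1) * q) := by
    rw [pow_mul]
    exact pow_le_pow_left₀ (by positivity) (F4_pow' hL h3) q
  have hL0 : 0 ≤ L := by linarith
  have e5 : ((N4 * L ^ N4) ^ (A * (n + 1) + 1)) ^ q * (q * (N6 * L ^ N6 * (N6 * L ^ N6) ^ k *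
      (((N3 + 1 : ℕ) : ℝ) * L ^ N3) ^ q)) ≤
      ((C0 : ℝ) * L) ^ ((N4 + 1) * (A + 1) * q * (n + 1)) * (((C0 : ℝ) * L) ^ 1 *
        (((C0 : ℝ) * L) ^ (N6 + 1) * ((C0 : ℝ) * L) ^ ((N6 + 1) * (n + 1)) *
          ((C0 : ℝ) * L) ^ ((N3 + 1) * q))) := by
    apply mul_le_mul e1 _ (by positivity) (by positivity)
    apply mul_le_mul e2 _ (by positivity) (by positivity)
    exact mul_le_mul (mul_le_mul e3 e3' (by positivity) (by positivity)) e4 (by positivity)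
      (by positivity)
  refine e5.trans ?_
  rw [← pow_add, ← pow_add, ← pow_add, ← pow_add]
  apply pow_le_pow_right₀ hX
  calc (N4 + 1) * (A + 1) * q * (n + 1) + (1 + (N6 + 1 + (N6 + 1) * (n + 1) + (N3 + 1) * q))
      ≤ (N4 + 1) * (A + 1) * q * (n + 1) + ((1 + (N6 + 1) + (N3 + 1) * q) * (n + 1) +
        (N6 + 1) * (n + 1)) := by
        have h7 : 1 + (N6 + 1) + (N3 + 1) * q ≤ (1 + (N6 + 1) + (N3 + 1) * q) * (n + 1) :=
          Nat.le_mul_of_pos_right _ (by omega)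
        have h8 : 1 + (N6 + 1 + (N6 + 1) * (n + 1) + (N3 + 1) * q) =
          (1 + (N6 + 1) + (N3 + 1) * q) + (N6 + 1) * (n + 1) := by ring
        rw [h8]
        exact Nat.add_le_add_left (Nat.add_le_add_right h7 _) _
    _ = ((N4 + 1) * (A + 1) * q + (1 + ((N6 + 1) + (N6 + 1) + (N3 + 1) * q))) * (n + 1) := by ring
    _ ≤ C0 * (n + 1) := Nat.mul_le_mul_right _ hC

private theorem F4_rho {b : ℝ} (hcx : 0 ≤ cx b) : ∃ R0 : ℝ, 1 ≤ R0 ∧ ∀ R ρ' : ℝ, R0 ≤ R →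
    ρ' ≤ R ^ (-(1 / 3) : ℝ) → ρ' ≤ 1 / 8 ∧ ρ' ≤ R ^ (-(1 / 4) : ℝ) ∧
      cx b * ρ' * Real.exp b ≤ R ^ (-(1 / 4) : ℝ) := by
  obtain ⟨Q, hQ⟩ : ∃ Q : ℝ, Q = max 8 (cx b * Real.exp b) := ⟨_, rfl⟩
  have hQ8 : 8 ≤ Q := by rw [hQ]; exact le_max_left _ _
  have hQc : cx b * Real.exp b ≤ Q := by rw [hQ]; exact le_max_right _ _
  have hQ0 : 0 < Q := by linarith
  refine ⟨Q ^ 12, one_le_pow₀ (by linarith), fun R ρ' hR hρ => ?_⟩
  have hQ12 : 1 ≤ Q ^ 12 := one_le_pow₀ (by linarith)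
  have hR1 : 1 ≤ R := hQ12.trans hR
  have hR0 : 0 < R := by linarith
  obtain ⟨w, hw⟩ : ∃ w : ℝ, w = R ^ (1 / 12 : ℝ) := ⟨_, rfl⟩
  have hw0 : 0 < w := by rw [hw]; exact Real.rpow_pos_of_pos hR0 _
  have hw12 : w ^ 12 = R := by
    rw [hw, ← Real.rpow_natCast, ← Real.rpow_mul hR0.le]; norm_num
  have hwQ : Q ≤ w := le_of_pow_le_pow_left₀ (n := 12) (by norm_num) hw0.le (by rw [hw12]; exact hR)
  have h3 : R ^ (-(1 / 3) : ℝ) = 1 / w ^ 4 := by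
    rw [hw, ← Real.rpow_natCast, ← Real.rpow_mul hR0.le, Real.rpow_neg hR0.le, one_div]
    norm_num
  have h4 : R ^ (-(1 / 4) : ℝ) = 1 / w ^ 3 := by
    rw [hw, ← Real.rpow_natCast, ← Real.rpow_mul hR0.le, Real.rpow_neg hR0.le, one_div]
    norm_num
  rw [h3] at hρ
  rw [h4]
  have hw1 : 8 ≤ w := hQ8.trans hwQ
  have hw3 : 0 < w ^ 3 := by positivity
  have h34 : 1 / w ^ 4 ≤ 1 / w ^ 3 := by
    apply one_div_le_one_div_of_le hw3
    exact pow_le_pow_right₀ (by linarith) (by norm_num)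
  have h38 : 1 / w ^ 3 ≤ 1 / 8 := by
    apply one_div_le_one_div_of_le (by norm_num)
    have h1 : w ^ 1 ≤ w ^ 3 := pow_le_pow_right₀ (by linarith) (by norm_num)
    rw [pow_one] at h1
    linarith
  refine ⟨hρ.trans (h34.trans h38), hρ.trans h34, ?_⟩
  have h5 : cx b * ρ' * Real.exp b = (cx b * Real.exp b) * ρ' := by ring
  rw [h5]
  have h6 : (cx b * Real.exp b) * ρ' ≤ (cx b * Real.exp b) * (1 / w ^ 4) :=
    mul_le_mul_of_nonneg_left hρ (mul_nonneg hcx (Real.exp_pos _).le)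
  have h7 : (cx b * Real.exp b) * (1 / w ^ 4) ≤ w * (1 / w ^ 4) :=
    mul_le_mul_of_nonneg_right (hQc.trans hwQ) (by positivity)
  have h8 : w * (1 / w ^ 4) = 1 / w ^ 3 := by field_simp
  linarith


open scoped Classical in
/-- One side. -/
theorem side (D : Set Pl) (a b r : ℝ) (Λ q : ℕ) : ∃ η : ℝ, 0 < η ∧ ∀ A : ℕ, ∃ κ κ0 R0 : ℝ,
    0 < κ ∧ 0 < κ0 ∧ 1 ≤ R0 ∧ ∀ G : Dat Γ, UC D a b r Λ G → ∀ (M : Cl G) (R ℓ ρ' : ℝ), R0 ≤ R →
      1 ≤ ℓ → ℓ ≤ R ^ κ0 → ρ' ≤ R ^ (-(1 / 3) : ℝ) → ∀ (P : Fin q → Prop)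
      (B : Finset (Fin q → ConjClasses Γ)), (∀ c ∈ B, (∀ i, c i ≠ 1 ∧ M.l (c i) ≤ ℓ) ∧
        Side M b η ρ' R A P c) →
      ∑ c ∈ B, ∏ i, (if P i then wt M (c i) ^ 2 else 1) ≤ R ^ (-κ) := by
  by_cases hex : ∃ G : Dat Γ, UC D a b r Λ G
  swap
  · exact ⟨1, one_pos, fun _ => ⟨1, 1, 1, one_pos, one_pos, le_rfl,
      fun G hG => absurd ⟨G, hG⟩ hex⟩⟩
  obtain ⟨G₀, hG₀⟩ := hex
  have hb : 0 < b := by
    have h1 := hG₀.hg.a_pos
    have h2 := hG₀.hg.ab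
    rw [hG₀.eb] at h2
    linarith
  have hcx : 0 ≤ cx b := by
    unfold cx
    have : 0 ≤ 80 / b * Real.exp (2 * b) := by positivity
    linarith
  obtain ⟨η, N4, hη, hN4, hpa⟩ := parts (Γ := Γ) D a b r Λ q
  obtain ⟨c5, R1, hc5, hR1, hsh⟩ := short_same (Γ := Γ) D a b r Λ
  obtain ⟨N1, κ₁, R2, hκ₁, hR2, hmu⟩ := E36.mutf (Γ := Γ) D a b r Λ hc5
  obtain ⟨N2, κ₂, R3, hκ₂, hR3, hse⟩ := E36.selff (Γ := Γ) D a b r Λ hc5
  obtain ⟨N3, hws⟩ := wt_sum (Γ := Γ) D a b r Λ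
  obtain ⟨C4, hC4, hcl⟩ := cl_fin (Γ := Γ) D a b r Λ
  obtain ⟨N6, κ5, R4, hN6, hκ5, hR4, hml⟩ := multi (Γ := Γ) D a b r Λ q
  obtain ⟨R6, hR6, hrho⟩ := F4_rho (b := b) hcx
  obtain ⟨κ1, hκ1⟩ : ∃ κ1 : ℝ, κ1 = min κ₁ κ₂ := ⟨_, rfl⟩
  have hκ1p : 0 < κ1 := by rw [hκ1]; exact lt_min hκ₁ hκ₂
  have hκ11 : κ1 ≤ κ₁ := by rw [hκ1]; exact min_le_left _ _
  have hκ12 : κ1 ≤ κ₂ := by rw [hκ1]; exact min_le_right _ _
  refine ⟨η, hη, fun A => ?_⟩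
  obtain ⟨C0, hC0⟩ : ∃ C0 : ℕ, C0 = (N4 + 1) * (A + 1) * q + (N3 + 1) * q + 2 * (N1 + N2 + 1) +
    3 * (N6 + 1) + 2 + (q + q * q) + (N4 + 1) + (N3 + 1) := ⟨_, rfl⟩
  obtain ⟨κ', κ0, R5, n0, hκ', hκ0, hR5, hn0, hnum⟩ := numF C0 N6 hN6 hκ1p hκ5
  refine ⟨κ' / 2, κ0, R1 + R2 + R3 + R4 + R5 + R6, by positivity, hκ0, by linarith,
    fun G hU M R ℓ ρ' hR hℓ hℓR hρ' P B hB => ?_⟩
  have hRR1 : R1 ≤ R := by linarith
  have hRR2 : R2 ≤ R := by linarith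
  have hRR3 : R3 ≤ R := by linarith
  have hRR4 : R4 ≤ R := by linarith
  have hRR5 : R5 ≤ R := by linarith
  have hRR6 : R6 ≤ R := by linarith
  have hR1' : 1 ≤ R := by linarith
  have hR0 : 0 < R := by linarith
  obtain ⟨hρ8, hρ4, hρ2⟩ := hrho R ρ' hRR6 hρ'
  obtain ⟨hA, hBn, hCn, hDn, hEn⟩ := hnum R ℓ hRR5 hℓ hℓR
  have hell : 0 ≤ ℓ := by linarith
  obtain ⟨L, hL⟩ : ∃ L : ℝ, L = 1 + ℓ := ⟨_, rfl⟩
  have hL1 : 1 ≤ L := by rw [hL]; linarith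
  rw [← hL] at hA hBn hDn hEn
  have hC01 : (1 : ℝ) ≤ C0 := by exact_mod_cast (by omega : 1 ≤ C0)
  have hX1 : (1 : ℝ) ≤ C0 * L := by nlinarith
  obtain ⟨hfin, -⟩ := hcl G hU M ℓ hell
  have hT : ∀ c, c ∈ hfin.toFinset ↔ c ≠ 1 ∧ M.l c ≤ ℓ := fun c => by
    rw [Set.Finite.mem_toFinset]; exact Iff.rfl
  have hmono1 : ∀ {N : ℕ} {κ : ℝ}, N ≤ N1 + N2 → κ1 ≤ κ →
      (N : ℝ) * L ^ N * R ^ (-κ) ≤ ((N1 + N2 : ℕ) : ℝ) * L ^ (N1 + N2) * R ^ (-κ1) := by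
    intro N κ hN hκ
    apply mul_le_mul
    · apply mul_le_mul
      · exact_mod_cast hN
      · exact pow_le_pow_right₀ hL1 hN
      · positivity
      · exact Nat.cast_nonneg _
    · exact Real.rpow_le_rpow_of_exponent_le hR1' (by linarith)
    · exact (Real.rpow_pos_of_pos hR0 _).le
    · positivity
  have hRκ1 : 0 < R ^ (-κ1) := Real.rpow_pos_of_pos hR0 _
  have hRκ5 : 0 < R ^ (-κ5) := Real.rpow_pos_of_pos hR0 _
  have hdpos : 0 ≤ ((N1 + N2 : ℕ) : ℝ) * L ^ (N1 + N2) * R ^ (-κ1) := by positivity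
  have hZ1 : 1 ≤ ((N3 + 1 : ℕ) : ℝ) * L ^ N3 := by
    have h1 : 1 ≤ L ^ N3 := one_le_pow₀ hL1
    have h2 : (1 : ℝ) ≤ ((N3 + 1 : ℕ) : ℝ) := by
      push_cast; have : (0 : ℝ) ≤ N3 := Nat.cast_nonneg _
      linarith
    nlinarith
  have hZs : ∑ c ∈ hfin.toFinset, wt M c ^ 2 ≤ ((N3 + 1 : ℕ) : ℝ) * L ^ N3 := by
    refine (hws G hU M ℓ hell _ fun c hc => (hT c).1 hc).trans ?_
    rw [← hL]
    apply mul_le_mul_of_nonneg_right _ (by positivity)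
    push_cast
    linarith
  have hY1 : ∀ n : ℕ, 1 ≤ (N4 * L ^ N4) ^ (A * (n + 1) + 1) := by
    intro n
    apply one_le_pow₀
    have h1 : 1 ≤ L ^ N4 := one_le_pow₀ hL1
    have h2 : (1 : ℝ) ≤ N4 := by exact_mod_cast hN4
    nlinarith
  have hsmall2 : N2 * (1 + ℓ) ^ N2 * R ^ (-κ₂) ≤ 1 := by
    rw [← hL]
    have h1 : (N2 : ℝ) * L ^ N2 ≤ (C0 * L) ^ C0 :=
      (F4_pow hL1 (by omega)).trans (pow_le_pow_right₀ hX1 (by omega))
    have h2 : R ^ (-κ₂) ≤ R ^ (-κ1) := Real.rpow_le_rpow_of_exponent_le hR1' (by linarith)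
    exact (mul_le_mul h1 h2 (Real.rpow_pos_of_pos hR0 _).le (by positivity)).trans hDn
  have hsmall6 : N6 * (1 + ℓ) ^ N6 * R ^ (-κ5) ≤ 1 := by
    rw [← hL]
    have h1 : (N6 : ℝ) * L ^ N6 ≤ (C0 * L) ^ C0 :=
      (F4_pow hL1 (by omega)).trans (pow_le_pow_right₀ hX1 (by omega))
    exact (mul_le_mul_of_nonneg_right h1 hRκ5.le).trans hEn
  have hparn : ∀ n : ℕ, ∀ F : Finset (ConjClasses Γ), F.card ≤ q → F ⊆ hfin.toFinset →
      ((hfin.toFinset.filter fun c => Brk M η F (tv M c) (A * (n + 1)) 0 (M.l c)).card : ℝ) ≤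
        (N4 * L ^ N4) ^ (A * (n + 1) + 1) := by
    intro n F hF hFT
    obtain ⟨f1, f2⟩ := hpa G hU M ℓ hℓ F hF (fun c hc => (hT c).1 (hFT hc)) (A * (n + 1))
    rw [← hL] at f2
    refine le_trans ?_ f2
    rw [Set.ncard_eq_toFinset_card _ f1]
    apply Nat.cast_le.2
    apply Finset.card_le_card
    intro c hc
    rw [Finset.mem_filter] at hc
    rw [Set.Finite.mem_toFinset]
    have h3 := (hT c).1 hc.1
    exact ⟨h3.1, h3.2, hc.2⟩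
  -- the number of encounters
  have hwit : ∀ c ∈ B, ∃ n : ℕ, n ≤ ⌊ℓ⌋₊ + 1 ∧ (n = 0 ∨ ∃ i, P i ∧
      Many M (R ^ (-(1 / 7) : ℝ)) (tau b R) (imf c P) (c i) n) ∧
      ∀ i, ¬ P i → Brk M η (imf c P) (tv M (c i)) (A * (n + 1)) 0 (M.l (c i)) := by
    intro c hc
    obtain ⟨h1, h2, n, h3, h4⟩ := hB c hc
    refine ⟨n, ?_, h3, h4⟩
    rcases h3 with h3 | ⟨i, hi, A', hA1, hA2, -⟩
    · omega
    · have h5 : A' ⊆ Finset.range (⌊ℓ⌋₊ + 1) := by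
        intro m hm
        rw [Finset.mem_range]
        have h6 : (m : ℝ) ≤ ℓ := ((hA2 m hm).1).trans (h1 i).2
        exact Nat.lt_succ_of_le (Nat.le_floor h6)
      have h6 := Finset.card_le_card h5
      rw [Finset.card_range] at h6
      omega
  choose! nn hnn1 hnn2 hnn3 using hwit
  have hfib : ∀ n ∈ Finset.range (⌊ℓ⌋₊ + 2),
      ∑ c ∈ B.filter (fun c => nn c = n), ∏ i, (if P i then wt M (c i) ^ 2 else 1) ≤
        R ^ (-κ') := by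
    intro n _
    by_cases hn : n < n0
    · -- few encounters
      have hfinal := sideA M (q := q) (ρ' := R ^ (-(1 / 4) : ℝ)) (ℓ := ℓ)
        (ls := c5 * Real.log R) (fun F c => Brk M η F (tv M c) (A * (n + 1)) 0 (M.l c)) P
        hfin.toFinset hT (Z := ((N3 + 1 : ℕ) : ℝ) * L ^ N3)
        (Y := (N4 * L ^ N4) ^ (A * (n + 1) + 1))
        (δ := ((N1 + N2 : ℕ) : ℝ) * L ^ (N1 + N2) * R ^ (-κ1)) hZ1 (hY1 n) hdpos hZs
        (fun S hS => by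
          refine (hse G hU M R _ ℓ hRR3 hell hsmall2 le_rfl S hS).trans ?_
          rw [← hL]
          exact hmono1 (by omega) hκ12)
        (fun c' hc' S hS => by
          refine (hmu G hU M R _ ℓ hRR2 hell le_rfl c' ((hT c').1 hc').1 ((hT c').1 hc').2
            S hS).trans ?_
          rw [← hL]
          exact hmono1 (by omega) hκ11)
        (hparn n)
        (B.filter (fun c => nn c = n))
        (fun c hc => by
          rw [Finset.mem_filter] at hc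
          obtain ⟨hcB, hcn⟩ := hc
          obtain ⟨h1, h2, -⟩ := hB c hcB
          refine ⟨fun i => (hT _).2 (h1 i), ?_, ?_⟩
          · refine enc_cases hU.hg hU.eb M hρ8 hρ2 hρ4
              (fun c c' hc hc' hl hl' γ s hf =>
                hsh G hU M R ρ' hRR1 hρ4 c c' hc hc' hl hl' γ s hf) ?_ h2
            intro x hx
            obtain ⟨i, -, rfl⟩ := imf_mem.1 hx
            exact (h1 i).1
          · intro i hi
            have := hnn3 c hcB i hi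
            rw [hcn] at this
            exact this)
      refine hfinal.trans ?_
      have e1 := F4_a (C0 := C0) (A := A) (q := q) (N1 := N1) (N2 := N2) (N3 := N3) (N4 := N4)
        (n := n) hL1 (by omega) (by omega) (by omega) (by omega) (by omega)
      have e2 := mul_le_mul_of_nonneg_right e1 hRκ1.le
      refine le_trans (le_of_eq ?_) (e2.trans (hA n hn))
      ring
    · -- many encounters
      push Not at hn
      have hn1 : n ≠ 0 := by omega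
      have hk : N6 * (n / N6 - 1 + 1) ≤ n := by
        have h1 : 1 ≤ n / N6 := (Nat.one_le_div_iff (by omega)).2 (by omega)
        rw [Nat.sub_add_cancel h1]
        exact Nat.mul_div_le n N6
      have hδ : 0 ≤ N6 * L ^ N6 * (N6 * L ^ N6 * R ^ (-κ5)) ^ (n / N6 - 1) := by positivity
      have hfinal := sideB M (q := q) (ρ₁ := R ^ (-(1 / 7) : ℝ)) (τ := tau b R) (ℓ := ℓ)
        (fun F c => Brk M η F (tv M c) (A * (n + 1)) 0 (M.l c)) P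
        hfin.toFinset hT (Z := ((N3 + 1 : ℕ) : ℝ) * L ^ N3)
        (Y := (N4 * L ^ N4) ^ (A * (n + 1) + 1))
        (δ := N6 * L ^ N6 * (N6 * L ^ N6 * R ^ (-κ5)) ^ (n / N6 - 1)) hZ1 (hY1 n) hδ hZs n
        (fun F hF hFT S hS => by
          have h1 := hml G hU M R ℓ hRR4 hℓ hsmall6 F hF (fun c hc => (hT c).1 (hFT hc)) n
            (n / N6 - 1) hk S hS
          rw [← hL] at h1
          exact h1)
        (hparn n)
        (B.filter (fun c => nn c = n))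
        (fun c hc => by
          rw [Finset.mem_filter] at hc
          obtain ⟨hcB, hcn⟩ := hc
          obtain ⟨h1, -, -⟩ := hB c hcB
          refine ⟨fun i => (hT _).2 (h1 i), ?_, ?_⟩
          · rcases hnn2 c hcB with h3 | h3
            · exact absurd (hcn ▸ h3) hn1
            · rw [hcn] at h3
              exact h3
          · intro i hi
            have := hnn3 c hcB i hi
            rw [hcn] at this
            exact this)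
      refine hfinal.trans ?_
      have e1 := F4_b (C0 := C0) (A := A) (q := q) (N3 := N3) (N4 := N4) (N6 := N6)
        (n := n) (k := n / N6 - 1) hL1 ((Nat.sub_le _ _).trans (Nat.div_le_self _ _))
        (by omega) (by omega) (by omega) (by omega) (by omega)
      have e2 := mul_le_mul_of_nonneg_right e1 (pow_nonneg hRκ5.le (n / N6 - 1))
      refine le_trans (le_of_eq ?_) (e2.trans (hBn n hn))
      rw [mul_pow (N6 * L ^ N6) (R ^ (-κ5))]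
      ring
  have hmaps : ∀ c ∈ B, nn c ∈ Finset.range (⌊ℓ⌋₊ + 2) := by
    intro c hc
    rw [Finset.mem_range]
    have := hnn1 c hc
    omega
  rw [← Finset.sum_fiberwise_of_maps_to hmaps]
  refine (Finset.sum_le_sum hfib).trans ?_
  rw [Finset.sum_const, Finset.card_range, nsmul_eq_mul]
  refine le_trans (mul_le_mul_of_nonneg_right ?_ (Real.rpow_pos_of_pos hR0 _).le) hCn
  push_cast
  linarith [Nat.floor_le hell]

end E36
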