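import Pool.Agent.LibBE36E.F4

/-! Row F5 of BE36E (BE36, part E; architect helper85). The sum over the bad tuples. SHORT, 30 min. TEMPLATE: `E35.bad_sum` (LibBE35E/F1.lean, proved; copy).
Plan. Copy the proof; `hside` is now called for `P = (0 < ε ·)` with `(hmem c hc).2.1` and for `P = (ε · < 0)` with `(hmem c hc).2.2`; finiteness from `cl_fin` with `t = ℓ`. -/

open MeasureTheory Set Filter Topology
open scoped ContDiff ENNReal NNReal ComplexConjugate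

namespace E36

open BGS (Pl Surface grid per)
open SR85 E35

variable {Γ : Type} [Group Γ] [MulAction Γ Pl] {D : Set Pl} {G : Dat Γ}
variable {a b r : ℝ} {Λ : ℕ}

theorem bad_sum (D : Set Pl) (a b r : ℝ) (Λ q : ℕ) : ∃ η : ℝ, 0 < η ∧ ∀ A : ℕ, ∃ κ κ0 R0 : ℝ,
    0 < κ ∧ 0 < κ0 ∧ 1 ≤ R0 ∧ ∀ G : Dat Γ, UC D a b r Λ G → ∀ (M : Cl G) (R ℓ ρ' : ℝ), R0 ≤ R →
      1 ≤ ℓ → ℓ ≤ R ^ κ0 → ρ' ≤ R ^ (-(1 / 3) : ℝ) → ∀ ε : Fin q → ℝ, (∀ i, ε i ≠ 0) →
      (Bd M b η ρ' R ℓ A ε).Finite ∧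
      ∑ᶠ c ∈ Bd M b η ρ' R ℓ A ε, ∏ i, wt M (c i) ≤ R ^ (-κ) := by
  classical
  obtain ⟨η, hη, hside⟩ := side (Γ := Γ) D a b r Λ q
  obtain ⟨C4, hC4, hcl⟩ := cl_fin (Γ := Γ) D a b r Λ
  refine ⟨η, hη, fun A => ?_⟩
  obtain ⟨κ, κ0, R1, hκ, hκ0, hR1, hside⟩ := hside A
  refine ⟨κ, κ0, R1, hκ, hκ0, hR1, fun G hU M R ℓ ρ' hR hℓ hℓR hρ' ε hε => ?_⟩
  obtain ⟨hfin, -⟩ := hcl G hU M ℓ (by linarith)
  have hBf : (Bd M b η ρ' R ℓ A ε).Finite := by
    refine (Set.Finite.pi' (fun _ : Fin q => hfin)).subset fun c hc i => ?_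
    exact hc.1 i
  refine ⟨hBf, ?_⟩
  rw [finsum_mem_eq_finite_toFinset_sum _ hBf]
  obtain ⟨B, hB⟩ : ∃ B : Finset (Fin q → ConjClasses Γ), B = hBf.toFinset := ⟨_, rfl⟩
  rw [← hB]
  have hmem : ∀ c ∈ B, c ∈ Bd M b η ρ' R ℓ A ε := fun c hc => by
    rw [hB, Set.Finite.mem_toFinset] at hc
    exact hc
  have h1 := hside G hU M R ℓ ρ' hR hℓ hℓR hρ' (fun i => 0 < ε i) B fun c hc =>
    ⟨(hmem c hc).1, (hmem c hc).2.1⟩
  have h2 := hside G hU M R ℓ ρ' hR hℓ hℓR hρ' (fun i => ε i < 0) B fun c hc =>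
    ⟨(hmem c hc).1, (hmem c hc).2.2⟩
  have h3 : ∀ c ∈ B, ∏ i, wt M (c i) ≤
      (∏ i, (if 0 < ε i then wt M (c i) ^ 2 else 1) +
        ∏ i, (if ε i < 0 then wt M (c i) ^ 2 else 1)) / 2 := by
    intro c hc
    have e1 : ∏ i, wt M (c i) = (∏ i, (if 0 < ε i then wt M (c i) else 1)) *
        ∏ i, (if ε i < 0 then wt M (c i) else 1) := by
      rw [← Finset.prod_mul_distrib]
      apply Finset.prod_congr rfl
      intro i _
      rcases lt_or_gt_of_ne (hε i) with h | h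
      · rw [if_neg (not_lt.2 h.le), if_pos h, one_mul]
      · rw [if_pos h, if_neg (not_lt.2 h.le), mul_one]
    have e2 : ∏ i, (if 0 < ε i then wt M (c i) ^ 2 else 1) =
        (∏ i, (if 0 < ε i then wt M (c i) else 1)) ^ 2 := by
      rw [← Finset.prod_pow]
      apply Finset.prod_congr rfl
      intro i _
      split_ifs
      · rfl
      · rw [one_pow]
    have e3 : ∏ i, (if ε i < 0 then wt M (c i) ^ 2 else 1) =
        (∏ i, (if ε i < 0 then wt M (c i) else 1)) ^ 2 := by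
      rw [← Finset.prod_pow]
      apply Finset.prod_congr rfl
      intro i _
      split_ifs
      · rfl
      · rw [one_pow]
    rw [e1, e2, e3]
    nlinarith [sq_nonneg ((∏ i, (if 0 < ε i then wt M (c i) else 1)) -
      ∏ i, (if ε i < 0 then wt M (c i) else 1))]
  refine (Finset.sum_le_sum h3).trans ?_
  rw [← Finset.sum_div, Finset.sum_add_distrib]
  have h1' : ∑ c ∈ B, ∏ i, (if 0 < ε i then wt M (c i) ^ 2 else 1) ≤ R ^ (-κ) := by
    convert h1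
  have h2' : ∑ c ∈ B, ∏ i, (if ε i < 0 then wt M (c i) ^ 2 else 1) ≤ R ^ (-κ) := by
    convert h2
  linarith

end E36
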