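import Mathlib

/-! Row S11 of BE36E (BE36, part E; architect helper86). An inequality for a sum with signs. ONLY MATHLIB. EASY, 20 min.
Plan. `∑ j, lam j * X j = lam i * X i + ∑ j ≠ i` (`Finset.add_sum_erase`); for `j ≠ i`: `lam j * X j ≤ Λ1 * B` (if `0 < lam j`: `lam j ≤ Λ1`, `X j ≤ B`; if `lam j < 0` it is `≤ 0 ≤ Λ1 B`; `lam j = 0` is impossible but also fine). So
`-E ≤ lam i * X i + q Λ1 B`, and `- lam i = |lam i| ≥ 1 / Λ1`, so `X i / Λ1 ≤ q Λ1 B + E`. -/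

namespace E36

theorem alg {q : ℕ} {Λ1 : ℝ} (hΛ : 1 ≤ Λ1) {lam X : Fin q → ℝ}
    (hl : ∀ i, 1 / Λ1 ≤ |lam i| ∧ |lam i| ≤ Λ1) (hX : ∀ i, 0 ≤ X i) {B E : ℝ} (hB0 : 0 ≤ B)
    (hB : ∀ j, 0 < lam j → X j ≤ B) (hE : |∑ i, lam i * X i| ≤ E) {i : Fin q}
    (hi : lam i < 0) : X i ≤ Λ1 * (Λ1 * (q * B) + E) := by
  have hΛ0 : 0 < Λ1 := by linarith
  have hterm : ∀ j, lam j * X j ≤ Λ1 * B := by
    intro j
    by_cases hj : 0 < lam j
    · exact mul_le_mul ((le_abs_self _).trans (hl j).2) (hB j hj) (hX j) hΛ0.le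
    · rw [not_lt] at hj
      exact (mul_nonpos_of_nonpos_of_nonneg hj (hX j)).trans (by positivity)
  have hsum : ∑ j, lam j * X j ≤ lam i * X i + q * (Λ1 * B) := by
    rw [← Finset.add_sum_erase _ _ (Finset.mem_univ i)]
    have h := calc ∑ j ∈ Finset.univ.erase i, lam j * X j
        ≤ ∑ j ∈ Finset.univ.erase i, Λ1 * B := Finset.sum_le_sum fun j _ => hterm j
      _ ≤ ∑ j : Fin q, Λ1 * B :=
        Finset.sum_le_sum_of_subset_of_nonneg (Finset.erase_subset _ _)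
          (fun _ _ _ => by positivity)
      _ = q * (Λ1 * B) := by simp
    linarith
  have h1 : -E ≤ ∑ j, lam j * X j := by
    have := neg_abs_le (∑ j, lam j * X j)
    linarith
  have h2 : 1 / Λ1 ≤ -lam i := by
    rw [← abs_of_neg hi]
    exact (hl i).1
  have h3 : X i * (1 / Λ1) ≤ X i * (-lam i) := mul_le_mul_of_nonneg_left h2 (hX i)
  have h4 : X i / Λ1 ≤ Λ1 * (q * B) + E := by
    rw [div_eq_mul_one_div]
    linarith
  rw [div_le_iff₀ hΛ0] at h4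
  linarith

end E36
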