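import Pool.Agent.LibBE36E.SDefs

/-! Row S12 of BE36E (BE36, part E; architect helper86). The numerical conditions. EASY/MEDIUM, 50 min.
Plan. `rh b Λ R = c₁ R ^ (-1 / 2)`, `c₁ = cx b * (3 Λ) * exp b ≥ 0` (`cx_pos` of LibBE35E/A2); `exp (b * (tau b R + 2)) = exp (2 b) * R ^ (1 / 16)` (`tau b R = log R / (16 b)`, `Real.rpow_def_of_pos`), so the third quantity is
`c₂ R ^ (-7 / 16)`. With `w = R ^ (1 / 112)` (or with `w = R ^ (1 / 16)` and `R ^ (-1 / 7) ≥ R ^ (-1 / 4)`) everything is a statement about powers of `w`: choose `R0` as a large power of `Q = 24 Λ + c₁ + c₂ + 1 / η + ...`, or use limits: all the conditions hold eventually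
(`tendsto_rpow_neg_atTop`, `Filter.Eventually.and`, `eventually_atTop`). The last one: with `ℓ ≤ R ^ (1 / 8)`, `1 ≤ ℓ`: `(ℓ + 1) (1 + ℓ) ≤ 4 ℓ ^ 2 ≤ 4 R ^ (1 / 4)`, so the first term is `≤ 4 Λ1 ^ 2 q Cb N R ^ (-1 / 4)`, and
`(2 Λ R ℓ + 1) R ^ (-3 / 2) ≤ (2 Λ + 1) R ^ (9 / 8) R ^ (-3 / 2) = (2 Λ + 1) R ^ (-3 / 8)`. `1 ≤ tau b R`: `R ≥ exp (16 b)`. -/

open MeasureTheory Set Filter Topology
open scoped ContDiff ENNReal NNReal ComplexConjugate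

namespace E36

open BGS (Pl Surface grid per)
open SR85 E35

variable {Γ : Type} [Group Γ] [MulAction Γ Pl] {D : Set Pl} {G : Dat Γ}
variable {a b r : ℝ} {Λ : ℕ}

theorem numS (q N Λ : ℕ) {b Λ1 η Cb : ℝ} (hb : 0 < b) (hΛ1 : 1 ≤ Λ1) (hη : 0 < η)
    (hCb : 1 ≤ Cb) : ∃ R0 : ℝ, 1 ≤ R0 ∧ ∀ R : ℝ, R0 ≤ R → (24 * (Λ : ℝ)) ^ 2 ≤ R ∧
      3 * (Λ : ℝ) ≤ R ∧ 0 ≤ rh b Λ R ∧ rh b Λ R ≤ 1 / 8 ∧ 3 * Λ / R ≤ 1 / 4 ∧ 1 ≤ tau b R ∧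
      cx b * rh b Λ R * Real.exp (b * (tau b R + 2)) ≤ η ∧
      rh b Λ R + cx b * rh b Λ R * Real.exp (b * (tau b R + 2)) ≤ R ^ (-(1 / 7) : ℝ) ∧
      ∀ ℓ : ℝ, 1 ≤ ℓ → ℓ ≤ R ^ (1 / 8 : ℝ) →
        Λ1 * (Λ1 * (q * ((ℓ + 1) * (Cb * (N * (1 + ℓ) * R ^ (-(1 / 2) : ℝ))))) +
          (2 * Λ * R * ℓ + 1) * R ^ (-(3 / 2) : ℝ)) < 1 := by
  have hcx : 1 ≤ cx b := cx_pos hb
  have hΛ10 : 0 < Λ1 := by linarith
  have hCb0 : 0 < Cb := by linarith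
  have T : ∀ (c p : ℝ), 0 < p → Tendsto (fun R : ℝ => c * R ^ (-p)) atTop (𝓝 0) := by
    intro c p hp
    simpa using (tendsto_rpow_neg_atTop hp).const_mul c
  obtain ⟨c₁, hc₁⟩ : ∃ c₁ : ℝ, c₁ = cx b * (3 * Λ) * Real.exp b := ⟨_, rfl⟩
  have hc₁0 : 0 ≤ c₁ := by rw [hc₁]; positivity
  have hrh : ∀ R : ℝ, rh b Λ R = c₁ * R ^ (-(1 / 2) : ℝ) := by
    intro R
    rw [hc₁]
    rfl
  obtain ⟨c₂, hc₂⟩ : ∃ c₂ : ℝ, c₂ = cx b * c₁ * Real.exp (2 * b) := ⟨_, rfl⟩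
  have hc₂0 : 0 ≤ c₂ := by rw [hc₂]; positivity
  have hexp : ∀ R : ℝ, 0 < R → cx b * rh b Λ R * Real.exp (b * (tau b R + 2))
      = c₂ * R ^ (-(7 / 16) : ℝ) := by
    intro R hR
    have e1 : Real.exp (b * (tau b R + 2)) = Real.exp (2 * b) * R ^ (1 / 16 : ℝ) := by
      rw [Real.rpow_def_of_pos hR, ← Real.exp_add]
      congr 1
      unfold tau
      field_simp
      ring
    have e2 : R ^ (-(7 / 16) : ℝ) = R ^ (-(1 / 2) : ℝ) * R ^ (1 / 16 : ℝ) := by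
      rw [← Real.rpow_add hR]
      norm_num
    rw [e1, hrh, e2, hc₂]
    ring
  have E1 : ∀ᶠ R : ℝ in atTop, (24 * (Λ : ℝ)) ^ 2 ≤ R := eventually_ge_atTop _
  have E2 : ∀ᶠ R : ℝ in atTop, 3 * (Λ : ℝ) ≤ R := eventually_ge_atTop _
  have E0 : ∀ᶠ R : ℝ in atTop, 1 ≤ R := eventually_ge_atTop _
  have E4 : ∀ᶠ R : ℝ in atTop, c₁ * R ^ (-(1 / 2) : ℝ) < 1 / 8 :=
    (T c₁ (1 / 2) (by norm_num)).eventually_lt_const (by norm_num)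
  have E5 : ∀ᶠ R : ℝ in atTop, 12 * (Λ : ℝ) ≤ R := eventually_ge_atTop _
  have E6 : ∀ᶠ R : ℝ in atTop, 16 * b ≤ Real.log R :=
    Real.tendsto_log_atTop.eventually_ge_atTop _
  have E7 : ∀ᶠ R : ℝ in atTop, c₂ * R ^ (-(7 / 16) : ℝ) < η :=
    (T c₂ (7 / 16) (by norm_num)).eventually_lt_const hη
  have E8 : ∀ᶠ R : ℝ in atTop, c₁ * R ^ (-(5 / 14) : ℝ) + c₂ * R ^ (-(33 / 112) : ℝ) < 1 := by
    have := (T c₁ (5 / 14) (by norm_num)).add (T c₂ (33 / 112) (by norm_num))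
    rw [add_zero] at this
    exact this.eventually_lt_const one_pos
  have E9 : ∀ᶠ R : ℝ in atTop, Λ1 ^ 2 * q * Cb * N * 4 * R ^ (-(1 / 4) : ℝ)
      + Λ1 * (2 * Λ + 1) * R ^ (-(3 / 8) : ℝ) < 1 := by
    have := (T (Λ1 ^ 2 * q * Cb * N * 4) (1 / 4) (by norm_num)).add
      (T (Λ1 * (2 * Λ + 1)) (3 / 8) (by norm_num))
    rw [add_zero] at this
    exact this.eventually_lt_const one_pos
  obtain ⟨R0, hR0⟩ := eventually_atTop.1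
    (E0.and (E1.and (E2.and (E4.and (E5.and (E6.and (E7.and (E8.and E9))))))))
  refine ⟨max 1 R0, le_max_left _ _, fun R hR => ?_⟩
  obtain ⟨h0, h1, h2, h4, h5, h6, h7, h8, h9⟩ := hR0 R ((le_max_right _ _).trans hR)
  have hRp : 0 < R := by linarith
  refine ⟨h1, h2, ?_, ?_, ?_, ?_, ?_, ?_, ?_⟩
  · rw [hrh]
    exact mul_nonneg hc₁0 (Real.rpow_nonneg hRp.le _)
  · rw [hrh]; exact h4.le
  · rw [div_le_iff₀ hRp]; linarith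
  · unfold tau
    rw [one_div, inv_mul_eq_div, le_div_iff₀ (by positivity)]
    linarith
  · rw [hexp R hRp]; exact h7.le
  · rw [hexp R hRp, hrh]
    have e1 : c₁ * R ^ (-(1 / 2) : ℝ) + c₂ * R ^ (-(7 / 16) : ℝ)
        = (c₁ * R ^ (-(5 / 14) : ℝ) + c₂ * R ^ (-(33 / 112) : ℝ)) * R ^ (-(1 / 7) : ℝ) := by
      have e2 : R ^ (-(1 / 2) : ℝ) = R ^ (-(5 / 14) : ℝ) * R ^ (-(1 / 7) : ℝ) := by
        rw [← Real.rpow_add hRp]; norm_num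
      have e3 : R ^ (-(7 / 16) : ℝ) = R ^ (-(33 / 112) : ℝ) * R ^ (-(1 / 7) : ℝ) := by
        rw [← Real.rpow_add hRp]; norm_num
      rw [e2, e3]; ring
    rw [e1]
    exact mul_le_of_le_one_left (Real.rpow_nonneg hRp.le _) h8.le
  · intro ℓ hℓ1 hℓ
    have hu1 : 1 ≤ R ^ (1 / 8 : ℝ) := Real.one_le_rpow h0 (by norm_num)
    have hu2 : R ^ (1 / 8 : ℝ) * R ^ (1 / 8 : ℝ) = R ^ (1 / 4 : ℝ) := by
      rw [← Real.rpow_add hRp]; norm_num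
    have hl2 : (ℓ + 1) * (1 + ℓ) ≤ 4 * R ^ (1 / 4 : ℝ) := by
      rw [← hu2]
      nlinarith
    have hm12 : 0 ≤ R ^ (-(1 / 2) : ℝ) := Real.rpow_nonneg hRp.le _
    have hm32 : 0 ≤ R ^ (-(3 / 2) : ℝ) := Real.rpow_nonneg hRp.le _
    have f1 : R ^ (1 / 4 : ℝ) * R ^ (-(1 / 2) : ℝ) = R ^ (-(1 / 4) : ℝ) := by
      rw [← Real.rpow_add hRp]; norm_num
    have f2 : R * R ^ (1 / 8 : ℝ) * R ^ (-(3 / 2) : ℝ) = R ^ (-(3 / 8) : ℝ) := by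
      nth_rewrite 1 [← Real.rpow_one R]
      rw [← Real.rpow_add hRp, ← Real.rpow_add hRp]; norm_num
    have g1 : Λ1 * (q * ((ℓ + 1) * (Cb * (N * (1 + ℓ) * R ^ (-(1 / 2) : ℝ)))))
        ≤ Λ1 * q * Cb * N * 4 * R ^ (-(1 / 4) : ℝ) := by
      calc Λ1 * (q * ((ℓ + 1) * (Cb * (N * (1 + ℓ) * R ^ (-(1 / 2) : ℝ)))))
          = Λ1 * q * Cb * N * R ^ (-(1 / 2) : ℝ) * ((ℓ + 1) * (1 + ℓ)) := by ring
        _ ≤ Λ1 * q * Cb * N * R ^ (-(1 / 2) : ℝ) * (4 * R ^ (1 / 4 : ℝ)) :=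
            mul_le_mul_of_nonneg_left hl2 (by positivity)
        _ = Λ1 * q * Cb * N * 4 * (R ^ (1 / 4 : ℝ) * R ^ (-(1 / 2) : ℝ)) := by ring
        _ = _ := by rw [f1]
    have g2 : (2 * Λ * R * ℓ + 1) * R ^ (-(3 / 2) : ℝ) ≤ (2 * Λ + 1) * R ^ (-(3 / 8) : ℝ) := by
      have e1 : 2 * Λ * R * ℓ + 1 ≤ (2 * Λ + 1) * (R * R ^ (1 / 8 : ℝ)) := by
        have e2 : 1 ≤ R * R ^ (1 / 8 : ℝ) := by nlinarith
        have e3 : (Λ : ℝ) * (R * ℓ) ≤ Λ * (R * R ^ (1 / 8 : ℝ)) :=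
          mul_le_mul_of_nonneg_left (mul_le_mul_of_nonneg_left hℓ hRp.le) (Nat.cast_nonneg _)
        nlinarith
      calc (2 * Λ * R * ℓ + 1) * R ^ (-(3 / 2) : ℝ)
          ≤ (2 * Λ + 1) * (R * R ^ (1 / 8 : ℝ)) * R ^ (-(3 / 2) : ℝ) :=
            mul_le_mul_of_nonneg_right e1 hm32
        _ = (2 * Λ + 1) * (R * R ^ (1 / 8 : ℝ) * R ^ (-(3 / 2) : ℝ)) := by ring
        _ = _ := by rw [f2]
    calc Λ1 * (Λ1 * (q * ((ℓ + 1) * (Cb * (N * (1 + ℓ) * R ^ (-(1 / 2) : ℝ))))) +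
          (2 * Λ * R * ℓ + 1) * R ^ (-(3 / 2) : ℝ))
        ≤ Λ1 * (Λ1 * q * Cb * N * 4 * R ^ (-(1 / 4) : ℝ)
          + (2 * Λ + 1) * R ^ (-(3 / 8) : ℝ)) :=
          mul_le_mul_of_nonneg_left (add_le_add g1 g2) hΛ10.le
      _ = Λ1 ^ 2 * q * Cb * N * 4 * R ^ (-(1 / 4) : ℝ)
          + Λ1 * (2 * Λ + 1) * R ^ (-(3 / 8) : ℝ) := by ring
      _ < 1 := h9

end E36
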