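import Pool.Agent.LibBE36E.S3

/-! Row S4 of BE36E (BE36, part E; architect helper86). The cells visited during the times in `W`. MEDIUM, 45 min.
Plan. `δ = 1 / (2 Λ R)`. Let `J = {j ∈ range (⌊T / δ⌋₊ + 1) | ∃ t ∈ W, j δ ≤ t ∧ t < (j + 1) δ}` (classical filter); for `j ∈ J` choose such a `t j ∈ W` and the cell `P j` of `cell` (LibBE35E/B1) at
`z0 = pt G p (t j)`. `S = J.image P`; `S.card ≤ ⌊T / δ⌋₊ + 1 ≤ 2 Λ R T + 1`. For `t ∈ W` put `j = ⌊t / δ⌋₊` (`j ∈ J` as `0 ≤ t ≤ T`, `Nat.floor_le_floor`), `|t - t j| ≤ δ`, so `d (pt p (t j)) (pt p t) ≤ δ` (`d_pt`) and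
`per .. (P j) (pt p t) ≥ 1`; the other terms are `≥ 0` (`Finset.single_le_sum`, `per_bmq_nonneg`). The last claim: `fS_ne` and the last clause of `cell`. -/

open MeasureTheory Set Filter Topology
open scoped ContDiff ENNReal NNReal ComplexConjugate

namespace E36

open BGS (Pl Surface grid per)
open SR85 E35

variable {Γ : Type} [Group Γ] [MulAction Γ Pl] {D : Set Pl} {G : Dat Γ}
variable {a b r : ℝ} {Λ : ℕ}

theorem cells_of (hU : UC D a b r Λ G) {L0 : ℕ}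
    (hL : ∀ z ∈ closure D, |z.1| ≤ (L0 : ℝ) - 1 ∧ |z.2| ≤ (L0 : ℝ) - 1) {R : ℕ}
    (hR : 3 * Λ ≤ R) {p : Pl × ℂ} (hp : ‖p.2‖ = 1) {T : ℝ} (hT : 0 ≤ T) {W : Set ℝ}
    (hW : W ⊆ Icc 0 T) : ∃ S : Finset (ℤ × ℤ), S ⊆ grid L0 R ∧
      (S.card : ℝ) ≤ 2 * Λ * R * T + 1 ∧ (∀ t ∈ W, 1 ≤ fS Γ R S (pt G p t)) ∧
      ∀ z : Pl, fS Γ R S z ≠ 0 → ∃ t ∈ W, ∃ γ : Γ, G.d (pt G p t) (γ • z) ≤ 3 * Λ / R := by
  classical
  have hΛ : (1 : ℝ) ≤ Λ := by exact_mod_cast hU.L_one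
  have hR3 : 3 * (Λ : ℝ) ≤ R := by exact_mod_cast hR
  have hR0 : (0 : ℝ) < R := by linarith
  set N : ℝ := 2 * Λ * R with hN
  have hN0 : 0 < N := by positivity
  have hc := fun t : ℝ => cell hU hL hR (pt G p t)
  choose P hPg hP1 hP2 using hc
  set J : Finset ℕ := (Finset.range (⌊N * T⌋₊ + 1)).filter
    (fun j => ∃ t ∈ W, ⌊N * t⌋₊ = j) with hJ
  have hch : ∀ j : ℕ, ∃ t : ℝ, j ∈ J → t ∈ W ∧ ⌊N * t⌋₊ = j := by
    intro j
    by_cases hj : j ∈ J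
    · obtain ⟨t, ht, htj⟩ := (Finset.mem_filter.1 hj).2
      exact ⟨t, fun _ => ⟨ht, htj⟩⟩
    · exact ⟨0, fun h => absurd h hj⟩
  choose τ hτ using hch
  refine ⟨J.image fun j => P (τ j), ?_, ?_, ?_, ?_⟩
  · intro q hq
    obtain ⟨j, -, rfl⟩ := Finset.mem_image.1 hq
    exact hPg _
  · have h1 : (J.image fun j => P (τ j)).card ≤ ⌊N * T⌋₊ + 1 := by
      calc (J.image fun j => P (τ j)).card ≤ J.card := Finset.card_image_le
        _ ≤ (Finset.range (⌊N * T⌋₊ + 1)).card := Finset.card_filter_le _ _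
        _ = ⌊N * T⌋₊ + 1 := Finset.card_range _
    have h2 : ((J.image fun j => P (τ j)).card : ℝ) ≤ (⌊N * T⌋₊ : ℝ) + 1 := by exact_mod_cast h1
    have h3 : (⌊N * T⌋₊ : ℝ) ≤ N * T := Nat.floor_le (by positivity)
    linarith
  · intro t ht
    obtain ⟨ht0, htT⟩ := hW ht
    have hjJ : ⌊N * t⌋₊ ∈ J := by
      rw [hJ, Finset.mem_filter, Finset.mem_range]
      refine ⟨?_, t, ht, rfl⟩
      have := Nat.floor_le_floor (mul_le_mul_of_nonneg_left htT hN0.le)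
      omega
    obtain ⟨hs, hsj⟩ := hτ _ hjJ
    set s : ℝ := τ ⌊N * t⌋₊ with hsdef
    have hs0 : 0 ≤ s := (hW hs).1
    have h1 : |t - s| ≤ 1 / N := by
      have a1 := Nat.floor_le (show (0 : ℝ) ≤ N * t by positivity)
      have a2 := Nat.lt_floor_add_one (N * t)
      have b1 := Nat.floor_le (show (0 : ℝ) ≤ N * s by positivity)
      have b2 := Nat.lt_floor_add_one (N * s)
      rw [hsj] at b1 b2
      have h2 : |N * (t - s)| ≤ 1 := by
        rw [abs_le]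
        constructor <;> linarith
      rw [abs_mul, abs_of_pos hN0] at h2
      rw [le_div_iff₀ hN0]
      linarith
    have h2 : 1 ≤ per Γ (BGM.bmq R (P s)) (pt G p t) := by
      apply hP1
      rw [d_pt hU.hg hp]
      exact h1
    unfold fS
    refine h2.trans ?_
    refine Finset.single_le_sum (f := fun q => per Γ (BGM.bmq R q) (pt G p t))
      (fun q _ => BGM.per_bmq_nonneg R q _) ?_
    exact Finset.mem_image.2 ⟨_, hjJ, rfl⟩
  · intro z hz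
    obtain ⟨q, hq, hqz⟩ := fS_ne hz
    obtain ⟨j, hj, rfl⟩ := Finset.mem_image.1 hq
    obtain ⟨γ, hγ⟩ := hP2 (τ j) z hqz
    exact ⟨τ j, (hτ j hj).1, γ, hγ⟩

end E36
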