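import Pool.Agent.LibBE36E.SDefs

/-! Row S5 of BE36E (BE36, part E; architect helper86). A unit segment which crosses the lines transversally spends a short time in the cells. MEDIUM, 60 min.
Plan. `N` from `near_fin` (LibBE35E/A7). `δ = 3 Λ / R ≤ 1`, `s0 = R ^ (-1 / 2)`, `δ ≤ s0 / 8`, `cx b * (δ / s0) * exp b = rh b Λ R` (see the proof of `good`, LibBE35E/B2: the same computations; from `(24 Λ) ^ 2 ≤ R`, `1 ≤ Λ`).
Let `F` be the finset of `near_fin` for the class `c'` and `z = pt (tv c) n`. For `γ' ∈ F` let `I γ' = {t ∈ Icc n (n + 1) | ∃ k : ℤ, ∃ t' ∈ W, d (pt (tv c) t) ((γ' * rep c' ^ k) • pt (tv c') t') ≤ δ}`.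
(i) `|t - t'| ≤ s0` for `t, t' ∈ I γ'`: otherwise (w.l.o.g. `t1 < t2`, `t2 - t1 > s0`) `(γ' * rep ^ k) • pt (tv c') t' = γ' • pt (tv c') (t' + k l)` (`rep_zpow`) and `blocked` (A3) gives `Fl G (rh b Λ R) (tv c) (act γ' (tv c')) n`, so
(the same line, shift of the parameter; end of the proof of `good`) `Fl G (rh ..) (tv c) (act (γ' * rep ^ k1) (tv c')) n`, and `t1`, `t1'` show `Ht`: contradiction.
(ii) If `t ∈ Icc n (n + 1)` and `f (pt (tv c) t) ≠ 0` then the last hypothesis gives `t' ∈ W`, `γ` with `d (pt (tv c') t') (γ • pt (tv c) t) ≤ δ`, so `d (pt (tv c) t) (γ⁻¹ • pt (tv c') t') ≤ δ` (`d_symm`, `d_smul`), `d z (γ⁻¹ • ..) ≤ 2`, `γ⁻¹ = γ' * rep ^ k`: `t ∈ I γ'`.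
(iii) So `{t ∈ Ioc n (n + 1) | f (..) ≠ 0}` has measure `≤ F.card * s0` (`measure_biUnion_finset_le`, `Real.volume_le_diam`: see the proof of `avoid`, LibBE35E/A8) and the integral is `≤ C * (F.card * s0)`
(`intervalIntegral.integral_of_le`; with `A = {t | f (pt (tv c) t) ≠ 0}`, open by continuity (`HG.E_cont`), `f (..) ≤ indicator A (fun _ => C)`, `integral_indicator_const`, `Measure.restrict_apply`). `0 ≤ C` from `0 ≤ f z ≤ C`. -/

open MeasureTheory Set Filter Topology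
open scoped ContDiff ENNReal NNReal ComplexConjugate

namespace E36

open BGS (Pl Surface grid per)
open SR85 E35

variable {Γ : Type} [Group Γ] [MulAction Γ Pl] {D : Set Pl} {G : Dat Γ}
variable {a b r : ℝ} {Λ : ℕ}

theorem unhit (D : Set Pl) (a b r : ℝ) (Λ : ℕ) : ∃ N : ℕ, ∀ G : Dat Γ, UC D a b r Λ G →
    ∀ (M : Cl G) (R : ℝ), (24 * (Λ : ℝ)) ^ 2 ≤ R → ∀ c c' : ConjClasses Γ, c ≠ 1 → c' ≠ 1 →
      ∀ (W : Set ℝ) (n : ℕ), ¬ Ht M (rh b Λ R) (3 * Λ / R) c c' W n →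
      ∀ (f : Pl → ℝ) (C : ℝ), Continuous f → (∀ z, 0 ≤ f z ∧ f z ≤ C) →
      (∀ z, f z ≠ 0 → ∃ t ∈ W, ∃ γ : Γ, G.d (pt G (tv M c') t) (γ • z) ≤ 3 * Λ / R) →
      ∫ t in (n : ℝ)..(n + 1), f (pt G (tv M c) t) ≤
        C * (N * (1 + M.l c') * R ^ (-(1 / 2) : ℝ)) := by
  classical
  obtain ⟨N, hN⟩ := near_fin (Γ := Γ) D a b r Λ
  refine ⟨N, ?_⟩
  intro G hU M R hR2 c c' hc hc' W n hHt f C hf hfC hfW
  have h := hU.hg
  have hp := tv_unit M hc
  have hq := tv_unit M hc'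
  have hΛ1 : (1 : ℝ) ≤ Λ := by exact_mod_cast hU.L_one
  have hΛ0 : (0 : ℝ) ≤ Λ := Nat.cast_nonneg _
  have hR3 : 3 * (Λ : ℝ) ≤ R := by nlinarith
  have hR0 : 0 < R := by nlinarith
  set s0 : ℝ := R ^ (-(1 / 2) : ℝ) with hs0
  have hs0pos : 0 < s0 := Real.rpow_pos_of_pos hR0 _
  have hs0R : s0 * √R = 1 := by
    rw [hs0, Real.sqrt_eq_rpow, ← Real.rpow_add hR0]
    norm_num
  have hs0sq : s0 * s0 * R = 1 := by
    have h1 : √R * √R = R := Real.mul_self_sqrt hR0.le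
    calc s0 * s0 * R = s0 * s0 * (√R * √R) := by rw [h1]
      _ = (s0 * √R) * (s0 * √R) := by ring
      _ = 1 := by rw [hs0R]; ring
  set δ : ℝ := 3 * Λ / R with hδ
  have hδ0 : 0 ≤ δ := by positivity
  have hδ1 : δ ≤ 1 := by
    rw [hδ, div_le_one hR0]
    exact hR3
  have hδs : δ / s0 = 3 * Λ * s0 := by
    rw [hδ, div_div, div_eq_iff (by positivity)]
    calc (3 * (Λ : ℝ)) = 3 * Λ * (s0 * s0 * R) := by rw [hs0sq, mul_one]
      _ = 3 * Λ * s0 * (R * s0) := by ring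
  have h24 : 24 * Λ * s0 ≤ 1 := by
    have h1 : 24 * (Λ : ℝ) ≤ √R := by
      apply Real.le_sqrt_of_sq_le hR2
    calc 24 * Λ * s0 ≤ √R * s0 := by gcongr
      _ = 1 := by rw [mul_comm]; exact hs0R
  have hδ8 : δ ≤ s0 / 8 := by
    have h1 : δ = 3 * Λ * s0 * s0 := by
      rw [← hδs]
      field_simp
    rw [h1]
    nlinarith
  obtain ⟨F, hFc, hF⟩ := hN G hU M c' hc' (pt G (tv M c) n)
  obtain ⟨I, hI⟩ : ∃ I : Γ → Set ℝ, I = fun γ' => {t | t ∈ Icc (n : ℝ) (n + 1) ∧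
      ∃ (k : ℤ), ∃ t' ∈ W, G.d (pt G (tv M c) t) ((γ' * M.rep c' ^ k) • pt G (tv M c') t') ≤ δ} :=
    ⟨_, rfl⟩
  have key : ∀ γ' : Γ, ∀ t1 t2 : ℝ, t1 ∈ I γ' → t2 ∈ I γ' → t2 - t1 ≤ s0 := by
    intro γ' t1 t2 h1 h2
    rw [hI] at h1 h2
    obtain ⟨ht1, k1, t1', ht1', h1⟩ := h1
    obtain ⟨ht2, k2, t2', ht2', h2⟩ := h2
    by_contra hlt
    push Not at hlt
    have hFl : Fl G (rh b Λ R) (tv M c) (act G γ' (tv M c')) n := by
      refine blocked h hp (act_unit h γ' hq) hs0pos ht1.1 ht2.2 hlt.le hδ8 hδ0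
        (t1' := t1' + k1 * M.l c') (t2' := t2' + k2 * M.l c') ?_ ?_ ?_
      · rw [pt_act h, ← rep_zpow M hc', ← mul_smul]; exact h1
      · rw [pt_act h, ← rep_zpow M hc', ← mul_smul]; exact h2
      · rw [hU.eb, hδs]
        unfold rh
        apply le_of_eq
        rw [← hs0]
        ring
    apply hHt
    refine ⟨γ' * M.rep c' ^ k1, ?_, t1, ht1, t1', ht1', h1⟩
    intro t3 ht3
    obtain ⟨t', h3⟩ := hFl t3 ht3
    refine ⟨t' + ((-k1 : ℤ) : ℝ) * M.l c', ?_⟩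
    rw [pt_act h] at h3 ⊢
    rw [← rep_zpow M hc', ← mul_smul]
    have h4 : γ' * M.rep c' ^ k1 * M.rep c' ^ (-k1) = γ' := by
      rw [mul_assoc, ← zpow_add, add_neg_cancel, zpow_zero, mul_one]
    rw [h4]
    exact h3
  have hdiam : ∀ γ' ∈ F, volume (I γ') ≤ ENNReal.ofReal s0 := by
    intro γ' _
    refine (Real.volume_le_diam _).trans (Metric.ediam_le fun t ht t' ht' => ?_)
    rw [edist_dist, Real.dist_eq]
    refine ENNReal.ofReal_le_ofReal ?_
    rw [abs_le]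
    constructor
    · have := key γ' t t' ht ht'
      linarith
    · exact key γ' t' t ht' ht
  have hC0 : 0 ≤ C := (hfC (pt G (tv M c) n)).1.trans (hfC (pt G (tv M c) n)).2
  have hgc : Continuous fun t : ℝ => f (pt G (tv M c) t) := by
    refine hf.comp ?_
    unfold pt
    exact h.E_cont.comp (by fun_prop : Continuous fun t : ℝ => ((tv M c).1, (t : ℂ) * (tv M c).2))
  set A : Set ℝ := {t | f (pt G (tv M c) t) ≠ 0} with hA
  have hAo : IsOpen A := isOpen_ne_fun hgc continuous_const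
  have hsub : A ∩ Ioc (n : ℝ) (n + 1) ⊆ ⋃ γ' ∈ F, I γ' := by
    rintro t ⟨htA, ht⟩
    obtain ⟨t', ht', γ, hγ⟩ := hfW _ htA
    have h1 : G.d (pt G (tv M c) t) (γ⁻¹ • pt G (tv M c') t') ≤ δ := by
      rw [← d_smul h γ, smul_inv_smul, h.d_symm]
      exact hγ
    have h2 : G.d (pt G (tv M c) n) (γ⁻¹ • pt G (tv M c') t') ≤ 2 := by
      have h3 := h.d_tri (pt G (tv M c) n) (pt G (tv M c) t) (γ⁻¹ • pt G (tv M c') t')
      have h4 : G.d (pt G (tv M c) n) (pt G (tv M c) t) ≤ 1 := by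
        rw [d_pt h hp, abs_of_nonneg (by linarith [ht.1])]
        linarith [ht.2]
      linarith
    obtain ⟨γ', hγ', k, hk⟩ := hF _ _ h2
    refine mem_iUnion₂.2 ⟨γ', hγ', ?_⟩
    rw [hI]
    refine ⟨⟨ht.1.le, ht.2⟩, k, t', ht', ?_⟩
    rw [← hk]
    exact h1
  have hvol : volume (A ∩ Ioc (n : ℝ) (n + 1)) ≤ ENNReal.ofReal ((F.card : ℝ) * s0) := by
    calc volume (A ∩ Ioc (n : ℝ) (n + 1)) ≤ volume (⋃ γ' ∈ F, I γ') := measure_mono hsub
      _ ≤ ∑ γ' ∈ F, volume (I γ') := measure_biUnion_finset_le _ _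
      _ ≤ ∑ _i ∈ F, ENNReal.ofReal s0 := Finset.sum_le_sum hdiam
      _ = ENNReal.ofReal ((F.card : ℝ) * s0) := by
        rw [Finset.sum_const, nsmul_eq_mul, ENNReal.ofReal_mul (Nat.cast_nonneg _),
          ENNReal.ofReal_natCast]
  have hvolr : volume.real (A ∩ Ioc (n : ℝ) (n + 1)) ≤ (F.card : ℝ) * s0 :=
    ENNReal.toReal_le_of_le_ofReal (by positivity) hvol
  rw [intervalIntegral.integral_of_le (by linarith)]
  have hint1 : IntegrableOn (fun t => f (pt G (tv M c) t)) (Ioc (n : ℝ) (n + 1)) volume :=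
    (hgc.integrableOn_Icc (a := (n : ℝ)) (b := n + 1)).mono_set Ioc_subset_Icc_self
  have hint2 : IntegrableOn (A.indicator fun _ => C) (Ioc (n : ℝ) (n + 1)) volume := by
    refine IntegrableOn.indicator ?_ hAo.measurableSet
    exact integrableOn_const (by simp [Real.volume_Ioc])
  calc ∫ t in Ioc (n : ℝ) (n + 1), f (pt G (tv M c) t)
      ≤ ∫ t in Ioc (n : ℝ) (n + 1), A.indicator (fun _ => C) t := by
        refine setIntegral_mono hint1 hint2 fun t => ?_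
        by_cases ht : t ∈ A
        · rw [indicator_of_mem ht]
          exact (hfC _).2
        · rw [indicator_of_notMem ht]
          rw [hA, mem_setOf_eq, not_not] at ht
          exact ht.le
    _ = volume.real (A ∩ Ioc (n : ℝ) (n + 1)) * C := by
        rw [integral_indicator hAo.measurableSet, Measure.restrict_restrict hAo.measurableSet,
          setIntegral_const, smul_eq_mul]
    _ ≤ ((F.card : ℝ) * s0) * C := mul_le_mul_of_nonneg_right hvolr hC0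
    _ ≤ ((N * (1 + M.l c')) * s0) * C := by
        gcongr
    _ = C * (N * (1 + M.l c') * s0) := by ring

end E36
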