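import Pool.Agent.LibBE36E.SDefs

/-! Row S6 of BE36E (BE36, part E; architect helper86). A unit segment which is hit is recurrent. EASY, 30 min.
Plan. `Ht`: `γ, t, t'`; `Two` for `t'`: `c₁, γ₁, c₂, γ₂`. For `τ ∈ Icc n (n + 1)`: `Fl` gives `v` with `d (pt (tv c) τ) (γ • pt (tv c') v) ≤ ρ` (`pt_act`); `|v - t'| = d (γ • pt (tv c') v) (γ • pt (tv c') t') ≤ ρ + |τ - t| + δ ≤ 2`
(`d_smul`, `d_pt`, `d_tri`, `d_symm`), so `Two` gives `u` with `d (pt (tv c') v) (γ₁ • pt (tv c₁) u) ≤ ρ₃`, hence `d (pt (tv c) τ) ((γ * γ₁) • pt (tv c₁) u) ≤ ρ + ρ₃ ≤ ρ'` (`mul_smul`, `d_smul`): `Fl G ρ' (tv c) (act (γ * γ₁) (tv c₁)) n`; the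
same for `c₂`. If both were `Same` as `tv c`, then by `same_symm` (A4), `Same_trans` `Same (act (γ * γ₁) (tv c₁)) (act (γ * γ₂) (tv c₂))`, i.e. (`act_mul`, `Same_act`) `Same (act γ₁ (tv c₁)) (act γ₂ (tv c₂))`: contradiction. -/

open MeasureTheory Set Filter Topology
open scoped ContDiff ENNReal NNReal ComplexConjugate

namespace E36

open BGS (Pl Surface grid per)
open SR85 E35

variable {Γ : Type} [Group Γ] [MulAction Γ Pl] {D : Set Pl} {G : Dat Γ}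
variable {a b r : ℝ} {Λ : ℕ}

theorem hit_rc (hU : UC D a b r Λ G) (M : Cl G) {F : Finset (ConjClasses Γ)}
    (hF : ∀ c ∈ F, c ≠ 1) {c c' : ConjClasses Γ} (hc : c ≠ 1) (hc' : c' ≠ 1) {ρ ρ₃ ρ' δ : ℝ}
    (hρ : ρ ≤ 1 / 4) (hδ : δ ≤ 1 / 4) (hρ' : ρ + ρ₃ ≤ ρ') {W : Set ℝ}
    (hW : ∀ t ∈ W, Two M F ρ₃ (tv M c') t) {n : ℕ} (hn : (n : ℝ) ≤ M.l c)
    (hh : Ht M ρ δ c c' W n) : Rc M ρ' F c n := by
  have h := hU.hg
  obtain ⟨γ, hfl, t, ht, t', ht', hd⟩ := hh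
  obtain ⟨c₁, hc₁, γ₁, c₂, hc₂, γ₂, hns, hT⟩ := hW t' ht'
  have hu := tv_unit M hc
  have hu' := tv_unit M hc'
  have key : ∀ τ ∈ Icc (n : ℝ) (n + 1), ∃ v ∈ Icc (t' - 2) (t' + 2),
      G.d (pt G (tv M c) τ) (γ • pt G (tv M c') v) ≤ ρ := by
    intro τ hτ
    obtain ⟨v, hv⟩ := hfl τ hτ
    rw [pt_act h] at hv
    have h1 := d_pt h hu' v t'
    rw [← d_smul h γ] at h1
    have h2 := h.d_tri (γ • pt G (tv M c') v) (pt G (tv M c) τ) (γ • pt G (tv M c') t')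
    have h3 := h.d_tri (pt G (tv M c) τ) (pt G (tv M c) t) (γ • pt G (tv M c') t')
    have h4 := h.d_symm (γ • pt G (tv M c') v) (pt G (tv M c) τ)
    have h5 := d_pt h hu τ t
    have h6 : |t - τ| ≤ 1 := abs_le.2 ⟨by linarith [hτ.2, ht.1], by linarith [hτ.1, ht.2]⟩
    have h7 : |t' - v| ≤ 2 := by linarith
    have h8 := abs_le.1 h7
    exact ⟨v, ⟨by linarith [h8.2], by linarith [h8.1]⟩, hv⟩
  have hF1 : Fl G ρ' (tv M c) (act G (γ * γ₁) (tv M c₁)) n := by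
    intro τ hτ
    obtain ⟨v, hv, h1⟩ := key τ hτ
    obtain ⟨u, h2⟩ := (hT v hv).1
    refine ⟨u, ?_⟩
    rw [pt_act h, mul_smul]
    rw [← d_smul h γ] at h2
    have h3 := h.d_tri (pt G (tv M c) τ) (γ • pt G (tv M c') v) (γ • γ₁ • pt G (tv M c₁) u)
    linarith
  have hF2 : Fl G ρ' (tv M c) (act G (γ * γ₂) (tv M c₂)) n := by
    intro τ hτ
    obtain ⟨v, hv, h1⟩ := key τ hτ
    obtain ⟨u, h2⟩ := (hT v hv).2
    refine ⟨u, ?_⟩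
    rw [pt_act h, mul_smul]
    rw [← d_smul h γ] at h2
    have h3 := h.d_tri (pt G (tv M c) τ) (γ • pt G (tv M c') v) (γ • γ₂ • pt G (tv M c₂) u)
    linarith
  refine ⟨hn, ?_⟩
  by_cases h1 : Same G (tv M c) (act G (γ * γ₁) (tv M c₁))
  · refine ⟨c₂, hc₂, γ * γ₂, hF2, fun h2 => hns ?_⟩
    have h3 : Same G (act G (γ * γ₁) (tv M c₁)) (tv M c) :=
      same_symm h hu (act_unit h _ (tv_unit M (hF c₁ hc₁))) h1
    have h4 := Same_trans h3 h2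
    rw [← act_mul h, ← act_mul h, Same_act h] at h4
    exact h4
  · exact ⟨c₁, hc₁, γ * γ₁, hF1, h1⟩

end E36
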