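import Pool.Agent.LibBE36E.SDefs

/-! Row S7 of BE36E (BE36, part E; architect helper86). One line or a switch. MEDIUM, 60 min.
Plan. `p = tv c'`, `T = l c'`. For `κ : ℕ` choose (`Par` at `s = κ τ`) `d κ ∈ F`, `g κ` with `Fl G ρ p (act (g κ) (tv (d κ))) (κ τ)`, `B κ = act (g κ) (tv (d κ))`; by `sync` (A3; `hρ`) for every `t` there is `u` with
`d (pt p (κ τ + t)) (pt (B κ) u) ≤ cx b * ρ * exp (b |t|)` (`hU.eb`), so (N) for `|t' - κ τ| ≤ τ + 2` there is `u` with `d (pt p t') (g κ • pt (tv (d κ)) u) ≤ ρ₃`.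
`n = ⌊T / τ⌋₊`, `S = (range n).filter fun κ => ¬ Same G (B κ) (B (κ + 1))` (classical). First claim: `κ + 1 ≤ n ≤ T / τ`. Second claim: (N) for `κ` and for `κ + 1` (`Icc (t - 2) (t + 2)` is contained in `|t' - κ τ| ≤ τ + 2` and in
`|t' - (κ + 1) τ| ≤ τ + 2`). Third claim: downward induction (i.e. induction on `j` with `κ + j = n`): there is `s1 ≥ (κ + 1) τ` such that for all `t ∈ Icc (κ τ) s1` there is `u` with `d (pt p t) (g κ • pt (tv (d κ)) u) ≤ ρ₃`, and
`Brk M ρ₃ F p ((S.filter (κ ≤ ·)).card) s1 T`. `κ = n`: `s1 = (n + 1) τ ≥ T` (`Nat.lt_floor_add_one`), `Brk .. 0` is `T ≤ s1`. Step from `κ + 1` (with `s1'`) to `κ`: if `Same (B κ) (B (κ + 1))` take `s1 = s1'` (each point of `B (κ + 1)` is a point of `B κ`: `same_symm` (A4);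
`pt_act`; the times `≤ (κ + 1) τ` by (N)), the filter is the same; otherwise `s1 = (κ + 1) τ`, the card increases by one and `Brk .. (m + 1) s1 T` is the piece `[(κ + 1) τ, s1']` with `B (κ + 1)` followed by `Brk .. m s1' T`.
Finally `κ = 0`: `Brk .. (S.card + 1) 0 T`.
`brk_le`: induction on `k' - k`: for `k = j + 1` the first piece of `Brk .. (j + 1) s s'` is `[s, s1]`; `Brk .. (j + 2) s s'` is the trivial piece `[s, s]` (same line: `Icc s s` is contained in `Icc s s1`) followed by the whole. `brk_eta`: induction on `k` generalising `s`. -/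

open MeasureTheory Set Filter Topology
open scoped ContDiff ENNReal NNReal ComplexConjugate

namespace E36

open BGS (Pl Surface grid per)
open SR85 E35

variable {Γ : Type} [Group Γ] [MulAction Γ Pl] {D : Set Pl} {G : Dat Γ}
variable {a b r : ℝ} {Λ : ℕ}

private theorem S7_succ (M : Cl G) {F : Finset (ConjClasses Γ)} {η : ℝ} {p : Pl × ℂ} {j : ℕ}
    {s s' : ℝ} (h : Brk M η F p (j + 1) s s') : Brk M η F p (j + 1 + 1) s s' := by
  have h0 := h
  obtain ⟨s1, hs, ⟨c', hc', γ, hγ⟩, -⟩ := h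
  exact ⟨s, le_rfl, ⟨c', hc', γ, fun t ht => hγ t ⟨ht.1, ht.2.trans hs⟩⟩, h0⟩

theorem brk_le (M : Cl G) {F : Finset (ConjClasses Γ)} {η : ℝ} {p : Pl × ℂ} {k k' : ℕ} {s s' : ℝ}
    (hk : 1 ≤ k) (hkk : k ≤ k') (h : Brk M η F p k s s') : Brk M η F p k' s s' := by
  obtain ⟨j, rfl⟩ := Nat.exists_eq_add_of_le' hk
  obtain ⟨i, rfl⟩ := Nat.exists_eq_add_of_le hkk
  clear hkk
  induction i with
  | zero => exact h
  | succ i ih =>
    have e : j + 1 + (i + 1) = (j + i) + 1 + 1 := by omega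
    rw [e]
    apply S7_succ M
    have e2 : j + i + 1 = j + 1 + i := by omega
    rw [e2]
    exact ih

theorem brk_eta (M : Cl G) {F : Finset (ConjClasses Γ)} {η η' : ℝ} (hη : η ≤ η') {p : Pl × ℂ}
    {k : ℕ} {s s' : ℝ} (h : Brk M η F p k s s') : Brk M η' F p k s s' := by
  induction k generalizing s with
  | zero => exact h
  | succ k ih =>
    obtain ⟨s1, hs, ⟨c', hc', γ, hγ⟩, h1⟩ := h
    exact ⟨s1, hs, ⟨c', hc', γ, fun t ht => (hγ t ht).imp fun u hu => hu.trans hη⟩, ih h1⟩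

theorem windows (hU : UC D a b r Λ G) (M : Cl G) {F : Finset (ConjClasses Γ)}
    (hF : ∀ c ∈ F, c ≠ 1) {c' : ConjClasses Γ} (hc' : c' ≠ 1) {ρ ρ₃ τ : ℝ} (hρ : ρ ≤ 1 / 8)
    (hρ0 : 0 ≤ ρ) (hτ : 0 < τ) (hρ₃ : cx b * ρ * Real.exp (b * (τ + 2)) ≤ ρ₃)
    (hp : Par M ρ F c') : ∃ S : Finset ℕ, (∀ κ ∈ S, ((κ : ℝ) + 1) * τ ≤ M.l c') ∧
      (∀ κ ∈ S, ∀ t ∈ Icc (κ * τ) (((κ : ℝ) + 1) * τ), Two M F ρ₃ (tv M c') t) ∧
      Brk M ρ₃ F (tv M c') (S.card + 1) 0 (M.l c') := by
  classical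
  have h := hU.hg
  have hb0 : 0 < G.b := lt_of_lt_of_le h.a_pos h.ab
  have hb : 0 < b := hU.eb ▸ hb0
  have hpu : ‖(tv M c').2‖ = 1 := tv_unit M hc'
  choose d hdF g hFl using fun κ : ℕ => hp (κ * τ)
  have hBu : ∀ κ, ‖(act G (g κ) (tv M (d κ))).2‖ = 1 := fun κ =>
    act_unit h (g κ) (tv_unit M (hF _ (hdF κ)))
  -- the line `κ` on the window `κ`
  have hN : ∀ (κ : ℕ) (t : ℝ), |t - κ * τ| ≤ τ + 2 →
      ∃ u : ℝ, G.d (pt G (tv M c') t) (g κ • pt G (tv M (d κ)) u) ≤ ρ₃ := by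
    intro κ t ht
    obtain ⟨u, e, -, hs⟩ := sync h hpu (hBu κ) hρ (hFl κ)
    refine ⟨u + e * (t - κ * τ), ?_⟩
    have h1 := hs (t - κ * τ)
    rw [show κ * τ + (t - κ * τ) = t by ring, hU.eb, pt_act h] at h1
    refine h1.trans (le_trans ?_ hρ₃)
    have hc := cx_pos hb
    refine mul_le_mul_of_nonneg_left (Real.exp_le_exp.2 ?_) (mul_nonneg (by linarith) hρ0)
    exact mul_le_mul_of_nonneg_left ht hb.le
  set n : ℕ := ⌊M.l c' / τ⌋₊ with hn
  set S : Finset ℕ := (Finset.range n).filter fun κ : ℕ =>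
    ¬ Same G (act G (g κ) (tv M (d κ))) (act G (g (κ + 1)) (tv M (d (κ + 1)))) with hS
  have hSn : ∀ κ ∈ S, κ < n := fun κ hκ => Finset.mem_range.1 (Finset.mem_filter.1 hκ).1
  have key : ∀ j κ : ℕ, κ + j = n → ∃ s1 : ℝ, ((κ : ℝ) + 1) * τ ≤ s1 ∧
      (∀ t ∈ Icc (κ * τ) s1,
        ∃ u : ℝ, G.d (pt G (tv M c') t) (g κ • pt G (tv M (d κ)) u) ≤ ρ₃) ∧
      Brk M ρ₃ F (tv M c') ((S.filter fun i => κ ≤ i).card) s1 (M.l c') := by
    intro j
    induction j with
    | zero =>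
      intro κ hκ
      rw [add_zero] at hκ
      refine ⟨((κ : ℝ) + 1) * τ, le_rfl, fun t ht => hN κ t ?_, ?_⟩
      · rw [abs_le]
        constructor <;> nlinarith [ht.1, ht.2]
      · have h0 : S.filter (fun i => κ ≤ i) = ∅ := by
          rw [Finset.filter_eq_empty_iff]
          intro i hi
          have := hSn i hi
          omega
        rw [h0, Finset.card_empty]
        change M.l c' ≤ _
        have h1 := Nat.lt_floor_add_one (M.l c' / τ)
        rw [← hn, ← hκ, div_lt_iff₀ hτ] at h1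
        exact h1.le
    | succ j ih =>
      intro κ hκ
      obtain ⟨s1, hs1, hcl, hbrk⟩ := ih (κ + 1) (by omega)
      push_cast at hs1 hcl
      have hκn : κ < n := by omega
      by_cases hsame : Same G (act G (g κ) (tv M (d κ))) (act G (g (κ + 1)) (tv M (d (κ + 1))))
      · refine ⟨s1, by nlinarith, ?_, ?_⟩
        · intro t ht
          by_cases htt : t ≤ ((κ : ℝ) + 1) * τ
          · refine hN κ t ?_
            rw [abs_le]
            constructor <;> nlinarith [ht.1, ht.2]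
          · obtain ⟨u, hu⟩ := hcl t ⟨(not_le.1 htt).le, ht.2⟩
            obtain ⟨u', hu'⟩ := same_symm h (hBu κ) (hBu (κ + 1)) hsame u
            rw [pt_act h, pt_act h] at hu'
            exact ⟨u', by rw [← hu']; exact hu⟩
        · have h0 : S.filter (fun i => κ ≤ i) = S.filter (fun i => κ + 1 ≤ i) := by
            refine Finset.filter_congr fun i hi => ⟨fun hle => ?_, fun hle => by omega⟩
            rcases Nat.lt_or_ge κ i with hlt | hge
            · exact hlt
            · exfalso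
              have : i = κ := le_antisymm hge hle
              rw [this] at hi
              exact (Finset.mem_filter.1 hi).2 hsame
          rw [h0]
          exact hbrk
      · refine ⟨((κ : ℝ) + 1) * τ, le_rfl, fun t ht => hN κ t ?_, ?_⟩
        · rw [abs_le]
          constructor <;> nlinarith [ht.1, ht.2]
        · have hκS : κ ∈ S := Finset.mem_filter.2 ⟨Finset.mem_range.2 hκn, hsame⟩
          have h0 : S.filter (fun i => κ ≤ i) = insert κ (S.filter (fun i => κ + 1 ≤ i)) := by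
            ext i
            rw [Finset.mem_insert]
            constructor
            · intro hmem
              obtain ⟨hi, hle⟩ := Finset.mem_filter.1 hmem
              rcases Nat.lt_or_ge κ i with hlt | hge
              · exact Or.inr (Finset.mem_filter.2 ⟨hi, hlt⟩)
              · exact Or.inl (le_antisymm hge hle)
            · rintro (rfl | hmem)
              · exact Finset.mem_filter.2 ⟨hκS, le_rfl⟩
              · obtain ⟨hi, hle⟩ := Finset.mem_filter.1 hmem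
                exact Finset.mem_filter.2 ⟨hi, by omega⟩
          have h1 : κ ∉ S.filter (fun i => κ + 1 ≤ i) := by
            intro hmem
            have := (Finset.mem_filter.1 hmem).2
            omega
          rw [h0, Finset.card_insert_of_notMem h1]
          exact ⟨s1, by nlinarith, ⟨d (κ + 1), hdF (κ + 1), g (κ + 1), hcl⟩, hbrk⟩
  refine ⟨S, ?_, ?_, ?_⟩
  · intro κ hκ
    have h1 : κ + 1 ≤ ⌊M.l c' / τ⌋₊ := hSn κ hκ
    have h2 := (Nat.le_floor_iff' (Nat.succ_ne_zero κ)).1 h1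
    rw [le_div_iff₀ hτ] at h2
    push_cast at h2
    exact h2
  · intro κ hκ t ht
    refine ⟨d κ, hdF κ, g κ, d (κ + 1), hdF (κ + 1), g (κ + 1), (Finset.mem_filter.1 hκ).2, ?_⟩
    intro t' ht'
    refine ⟨hN κ t' ?_, hN (κ + 1) t' ?_⟩
    · rw [abs_le]
      constructor <;> nlinarith [ht.1, ht.2, ht'.1, ht'.2]
    · push_cast
      rw [abs_le]
      constructor <;> nlinarith [ht.1, ht.2, ht'.1, ht'.2]
  · obtain ⟨s1, hs1, hcl, hbrk⟩ := key n 0 (zero_add n)
    have h0 : S.filter (fun i => 0 ≤ i) = S := Finset.filter_true_of_mem fun _ _ => Nat.zero_le _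
    rw [h0] at hbrk
    push_cast at hs1 hcl
    rw [zero_mul] at hcl
    exact ⟨s1, by nlinarith, ⟨d 0, hdF 0, g 0, hcl⟩, hbrk⟩

end E36
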