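import Mathlib

/-! Row S8 of BE36E (BE36, part E; architect helper86). Two facts about integrals. ONLY MATHLIB. EASY, 40 min.
Plan. `win_low`: put `n = ⌊T / τ⌋₊`; `κ + 1 ≤ n` for `κ ∈ S` (`Nat.le_floor`); `∫ 0..T ≥ ∫ 0..n τ` (`intervalIntegral.integral_mono_interval` or additivity)
`= ∑ κ ∈ range n, ∫ κ τ..(κ + 1) τ` (`intervalIntegral.sum_integral_adjacent_intervals` with `a κ = κ τ`) `≥ ∑ κ ∈ S, τ` (`Finset.sum_le_sum_of_subset_of_nonneg`, `∫ ≥ ∫ 1`).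
`win_upp`: `∫ 0..T ≤ ∫ 0..(⌊T⌋₊ + 1) = ∑ n ∈ range (⌊T⌋₊ + 1), ∫ n..(n + 1)`, split by `P` (`Finset.sum_filter_add_sum_filter_not`; `n ≤ ⌊T⌋₊ ≤ T` for these `n`: `Nat.floor_le`); the number of the other terms is `≤ ⌊T⌋₊ + 1 ≤ T + 1`. -/

open MeasureTheory Set Filter Topology

namespace E36

theorem win_low {f : ℝ → ℝ} (hf : Continuous f) (hf0 : ∀ t, 0 ≤ f t) {τ T : ℝ} (hτ : 0 < τ)
    (hT : 0 ≤ T) (S : Finset ℕ) (hS : ∀ κ ∈ S, ((κ : ℝ) + 1) * τ ≤ T)
    (h1 : ∀ κ ∈ S, ∀ t ∈ Icc (κ * τ) (((κ : ℝ) + 1) * τ), 1 ≤ f t) :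
    (S.card : ℝ) * τ ≤ ∫ t in (0 : ℝ)..T, f t := by
  have hint : ∀ a b : ℝ, IntervalIntegrable f volume a b := fun a b => hf.intervalIntegrable a b
  set n : ℕ := ⌊T / τ⌋₊ with hn
  have hnT : (n : ℝ) * τ ≤ T := by
    have h2 : (n : ℝ) ≤ T / τ := Nat.floor_le (by positivity)
    exact (le_div_iff₀ hτ).1 h2
  have hSn : S ⊆ Finset.range n := by
    intro κ hκ
    have h2 : ((κ : ℝ) + 1) ≤ T / τ := (le_div_iff₀ hτ).2 (hS κ hκ)
    have h3 : κ + 1 ≤ n := Nat.le_floor (by push_cast; exact h2)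
    exact Finset.mem_range.2 (by omega)
  have hadd : ∫ t in (0 : ℝ)..T, f t =
      (∫ t in (0 : ℝ)..(n : ℝ) * τ, f t) + ∫ t in (n : ℝ) * τ..T, f t :=
    (intervalIntegral.integral_add_adjacent_intervals (hint _ _) (hint _ _)).symm
  have hrest : 0 ≤ ∫ t in (n : ℝ) * τ..T, f t :=
    intervalIntegral.integral_nonneg hnT fun t _ => hf0 t
  have hsum := intervalIntegral.sum_integral_adjacent_intervals (f := f) (μ := volume)
    (a := fun κ : ℕ => (κ : ℝ) * τ) (n := n) fun k _ => hint _ _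
  simp only [Nat.cast_zero, zero_mul, Nat.cast_add, Nat.cast_one] at hsum
  rw [hadd, ← hsum]
  have hle : ∀ κ : ℕ, (κ : ℝ) * τ ≤ ((κ : ℝ) + 1) * τ := fun κ =>
    mul_le_mul_of_nonneg_right (by linarith) hτ.le
  have h4 : ∑ κ ∈ S, (∫ t in (κ : ℝ) * τ..((κ : ℝ) + 1) * τ, f t) ≤
      ∑ κ ∈ Finset.range n, ∫ t in (κ : ℝ) * τ..((κ : ℝ) + 1) * τ, f t :=
    Finset.sum_le_sum_of_subset_of_nonneg hSn fun κ _ _ =>
      intervalIntegral.integral_nonneg (hle κ) fun t _ => hf0 t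
  have h5 : (S.card : ℝ) * τ ≤ ∑ κ ∈ S, (∫ t in (κ : ℝ) * τ..((κ : ℝ) + 1) * τ, f t) := by
    have h6 : ∑ κ ∈ S, τ ≤ ∑ κ ∈ S, (∫ t in (κ : ℝ) * τ..((κ : ℝ) + 1) * τ, f t) := by
      refine Finset.sum_le_sum fun κ hκ => ?_
      have h7 : (∫ _ in (κ : ℝ) * τ..((κ : ℝ) + 1) * τ, (1 : ℝ)) ≤
          ∫ t in (κ : ℝ) * τ..((κ : ℝ) + 1) * τ, f t :=
        intervalIntegral.integral_mono_on (hle κ) intervalIntegrable_const (hint _ _)
          fun t ht => h1 κ hκ t ht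
      rw [intervalIntegral.integral_const, smul_eq_mul, mul_one] at h7
      linarith
    rwa [Finset.sum_const, nsmul_eq_mul] at h6
  linarith

theorem win_upp {f : ℝ → ℝ} (hf : Continuous f) (hf0 : ∀ t, 0 ≤ f t) {T C ε : ℝ} (hT : 0 ≤ T)
    (hε0 : 0 ≤ ε) (P : ℕ → Prop) [DecidablePred P]
    (hC : ∀ n : ℕ, ∫ t in (n : ℝ)..(n + 1), f t ≤ C)
    (hε : ∀ n : ℕ, (n : ℝ) ≤ T → ¬ P n → ∫ t in (n : ℝ)..(n + 1), f t ≤ ε) :
    ∫ t in (0 : ℝ)..T, f t ≤ C * ((Finset.range (⌊T⌋₊ + 1)).filter P).card + (T + 1) * ε := by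
  have hint : ∀ a b : ℝ, IntervalIntegrable f volume a b := fun a b => hf.intervalIntegrable a b
  set N : ℕ := ⌊T⌋₊ + 1 with hN
  have hTN : T ≤ (N : ℝ) := by
    have := Nat.lt_floor_add_one T
    rw [hN]
    push_cast
    exact this.le
  have hadd : ∫ t in (0 : ℝ)..(N : ℝ), f t =
      (∫ t in (0 : ℝ)..T, f t) + ∫ t in T..(N : ℝ), f t :=
    (intervalIntegral.integral_add_adjacent_intervals (hint _ _) (hint _ _)).symm
  have hrest : 0 ≤ ∫ t in T..(N : ℝ), f t :=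
    intervalIntegral.integral_nonneg hTN fun t _ => hf0 t
  have hsum := intervalIntegral.sum_integral_adjacent_intervals (f := f) (μ := volume)
    (a := fun κ : ℕ => (κ : ℝ)) (n := N) fun k _ => hint _ _
  simp only [Nat.cast_zero, Nat.cast_add, Nat.cast_one] at hsum
  have h1 : ∑ n ∈ (Finset.range N).filter P, (∫ t in (n : ℝ)..((n : ℝ) + 1), f t) ≤
      C * ((Finset.range N).filter P).card := by
    have := Finset.sum_le_card_nsmul ((Finset.range N).filter P)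
      (fun n : ℕ => ∫ t in (n : ℝ)..((n : ℝ) + 1), f t) C fun n _ => hC n
    rw [nsmul_eq_mul, mul_comm] at this
    exact this
  have h2 : ∑ n ∈ (Finset.range N).filter (fun n => ¬ P n), (∫ t in (n : ℝ)..((n : ℝ) + 1), f t) ≤
      (T + 1) * ε := by
    have h3 := Finset.sum_le_card_nsmul ((Finset.range N).filter (fun n => ¬ P n))
      (fun n : ℕ => ∫ t in (n : ℝ)..((n : ℝ) + 1), f t) ε fun n hn => by
        rw [Finset.mem_filter, Finset.mem_range] at hn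
        refine hε n ?_ hn.2
        have h4 : n ≤ ⌊T⌋₊ := by omega
        exact (Nat.cast_le.2 h4).trans (Nat.floor_le hT)
    rw [nsmul_eq_mul] at h3
    refine h3.trans (mul_le_mul_of_nonneg_right ?_ hε0)
    have h5 : ((Finset.range N).filter (fun n => ¬ P n)).card ≤ N := by
      have := Finset.card_filter_le (Finset.range N) (fun n => ¬ P n)
      rwa [Finset.card_range] at this
    have h6 : (((Finset.range N).filter (fun n => ¬ P n)).card : ℝ) ≤ N := by exact_mod_cast h5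
    have h7 : (N : ℝ) ≤ T + 1 := by
      have := Nat.floor_le hT
      rw [hN]
      push_cast
      linarith
    exact h6.trans h7
  have h3 := Finset.sum_filter_add_sum_filter_not (Finset.range N) P
    (fun n : ℕ => ∫ t in (n : ℝ)..((n : ℝ) + 1), f t)
  linarith

end E36
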