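import Pool.Agent.LibBE36E.SDefs

/-! Row S9 of BE36E (BE36, part E; architect helper86). Counting the recurrent times. EASY, 30 min.
Plan. `sep`: among the subsets `A` of `X` with pairwise distances `≥ τ` (`X.powerset.filter`, nonempty: `∅`) take one with the largest card (`Finset.exists_max_image`). If `m ∈ X` then `|m - m'| < τ` for some `m' ∈ A` (otherwise `insert m A` is larger; if `m ∈ A` take
`m' = m`, `0 < τ`), so `X ⊆ A.biUnion fun m' => X.filter (|m - m'| < τ)`, and each of these has at most `2 τ + 1` elements: they are in `Finset.Ioo`/`Icc` of integers: `m ∈ Finset.Icc (m' - ⌊τ⌋₊) (m' + ⌊τ⌋₊)`, card `≤ 2 ⌊τ⌋₊ + 1`.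
`rc_count`: `X = (range (⌊l⌋₊ + 1)).filter (Rc ..)`; if `n + 1 ≤ A.card` then `Many .. (n + 1)`: contradiction, so `A.card ≤ n`. -/

open MeasureTheory Set Filter Topology
open scoped ContDiff ENNReal NNReal ComplexConjugate

namespace E36

open BGS (Pl Surface grid per)
open SR85 E35

variable {Γ : Type} [Group Γ] [MulAction Γ Pl] {D : Set Pl} {G : Dat Γ}
variable {a b r : ℝ} {Λ : ℕ}

omit [MulAction Γ Pl] [Group Γ] in
theorem sep (X : Finset ℕ) {τ : ℝ} (hτ : 0 < τ) : ∃ A ⊆ X,
    (∀ m ∈ A, ∀ m' ∈ A, m ≠ m' → τ ≤ |(m : ℝ) - m'|) ∧ (X.card : ℝ) ≤ A.card * (2 * τ + 1) := by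
  classical
  obtain ⟨A, hA, hmax⟩ := Finset.exists_max_image
    (X.powerset.filter fun A : Finset ℕ => ∀ m ∈ A, ∀ m' ∈ A, m ≠ m' → τ ≤ |(m : ℝ) - m'|)
    Finset.card ⟨∅, by simp⟩
  rw [Finset.mem_filter, Finset.mem_powerset] at hA
  obtain ⟨hAX, hsep⟩ := hA
  refine ⟨A, hAX, hsep, ?_⟩
  have hnear : ∀ m ∈ X, ∃ m' ∈ A, |(m : ℝ) - m'| < τ := by
    intro m hm
    by_contra hcon
    push Not at hcon
    have hmA : m ∉ A := by
      intro hmA
      have h1 := hcon m hmA
      rw [sub_self, abs_zero] at h1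
      linarith
    have h2 := hmax (insert m A) (by
      rw [Finset.mem_filter, Finset.mem_powerset]
      refine ⟨Finset.insert_subset hm hAX, ?_⟩
      intro u hu u' hu' huu
      rw [Finset.mem_insert] at hu hu'
      rcases hu with rfl | hu
      · rcases hu' with rfl | hu'
        · exact absurd rfl huu
        · exact hcon u' hu'
      · rcases hu' with rfl | hu'
        · rw [abs_sub_comm]
          exact hcon u hu
        · exact hsep u hu u' hu' huu)
    rw [Finset.card_insert_of_notMem hmA] at h2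
    omega
  have hsub : X ⊆ A.biUnion fun m' => Finset.Icc (m' - ⌊τ⌋₊) (m' + ⌊τ⌋₊) := by
    intro m hm
    obtain ⟨m', hm', hd⟩ := hnear m hm
    rw [Finset.mem_biUnion]
    refine ⟨m', hm', ?_⟩
    rw [abs_lt] at hd
    rw [Finset.mem_Icc]
    constructor
    · rcases le_total m m' with h | h
      · have h1 : m' - m ≤ ⌊τ⌋₊ := by
          apply Nat.le_floor
          rw [Nat.cast_sub h]
          linarith [hd.1]
        omega
      · omega
    · rcases le_total m' m with h | h
      · have h1 : m - m' ≤ ⌊τ⌋₊ := by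
          apply Nat.le_floor
          rw [Nat.cast_sub h]
          linarith [hd.2]
        omega
      · omega
  have hcard : X.card ≤ A.card * (2 * ⌊τ⌋₊ + 1) := by
    refine (Finset.card_le_card hsub).trans ?_
    refine Finset.card_biUnion_le_card_mul _ _ _ fun m' _ => ?_
    rw [Nat.card_Icc]
    omega
  have h1 : (X.card : ℝ) ≤ A.card * (2 * (⌊τ⌋₊ : ℝ) + 1) := by
    exact_mod_cast hcard
  refine h1.trans (mul_le_mul_of_nonneg_left ?_ (Nat.cast_nonneg _))
  have h2 := Nat.floor_le hτ.le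
  linarith

open Classical in
theorem rc_count (M : Cl G) {ρ τ : ℝ} (hτ : 0 < τ) {F : Finset (ConjClasses Γ)}
    {c : ConjClasses Γ} {n : ℕ} (h : ¬ Many M ρ τ F c (n + 1)) :
    (((Finset.range (⌊M.l c⌋₊ + 1)).filter fun m => Rc M ρ F c m).card : ℝ) ≤
      n * (2 * τ + 1) := by
  obtain ⟨A, hAX, hsep, hcard⟩ := sep
    ((Finset.range (⌊M.l c⌋₊ + 1)).filter fun m => Rc M ρ F c m) hτ
  have hAn : A.card ≤ n := by
    by_contra hcon
    exact h ⟨A, by omega, fun m hm => (Finset.mem_filter.1 (hAX hm)).2, hsep⟩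
  refine hcard.trans (mul_le_mul_of_nonneg_right ?_ (by linarith))
  exact_mod_cast hAn

end E36
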