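import Pool.Agent.LibBE36E.S13
import Pool.Agent.LibBE36E.S4
import Pool.Agent.LibBE36E.S5
import Pool.Agent.LibBE36E.S6
import Pool.Agent.LibBE36E.S7
import Pool.Agent.LibBE36E.S8
import Pool.Agent.LibBE36E.S9
import Pool.Agent.LibBE36E.S11
import Pool.Agent.LibBE36E.S12

/-! Row S1 of BE36E (BE36, part E; architect helper86). The other side switches rarely (E2 and the first part of E3). -/

open MeasureTheory Set Filter Topology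
open scoped ContDiff ENNReal NNReal ComplexConjugate

namespace E36

open BGS (Pl Surface grid per)
open SR85 E35

variable {Γ : Type} [Group Γ] [MulAction Γ Pl] {D : Set Pl} {G : Dat Γ}
variable {a b r : ℝ} {Λ : ℕ}

/-- The time which a geodesic of the other side spends in the cells. -/
theorem S1_upp (hU : UC D a b r Λ G) (M : Cl G) {F : Finset (ConjClasses Γ)}
    (hF : ∀ c ∈ F, c ≠ 1) {c c' : ConjClasses Γ} (hc : c ≠ 1) (hc' : c' ≠ 1) {R N n : ℕ}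
    {ρ₃ ℓ Cb τ : ℝ} (hR1 : 1 ≤ R)
    (hN : ∀ (W : Set ℝ) (n : ℕ), ¬ Ht M (rh b Λ R) (3 * Λ / R) c c' W n →
      ∀ (f : Pl → ℝ) (C : ℝ), Continuous f → (∀ z, 0 ≤ f z ∧ f z ≤ C) →
      (∀ z, f z ≠ 0 → ∃ t ∈ W, ∃ γ : Γ, G.d (pt G (tv M c') t) (γ • z) ≤ 3 * Λ / R) →
      ∫ t in (n : ℝ)..(n + 1), f (pt G (tv M c) t) ≤
        C * (N * (1 + M.l c') * (R : ℝ) ^ (-(1 / 2) : ℝ)))
    (hρ : rh b Λ R ≤ 1 / 4) (hδ : 3 * Λ / (R : ℝ) ≤ 1 / 4)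
    (hρ' : rh b Λ R + ρ₃ ≤ (R : ℝ) ^ (-(1 / 7) : ℝ)) {W : Set ℝ}
    (hW : ∀ t ∈ W, Two M F ρ₃ (tv M c') t) (hτ : 0 < τ) (hCb : 1 ≤ Cb) (hℓ0 : 0 ≤ ℓ)
    (hl : M.l c ≤ ℓ) (hl' : M.l c' ≤ ℓ) {P : Finset (ℤ × ℤ)}
    (hP : ∀ z : Pl, 0 ≤ fS Γ R P z ∧ fS Γ R P z ≤ Cb)
    (hPW : ∀ z : Pl, fS Γ R P z ≠ 0 → ∃ t ∈ W, ∃ γ : Γ,
      G.d (pt G (tv M c') t) (γ • z) ≤ 3 * Λ / R)
    (hn : ¬ Many M ((R : ℝ) ^ (-(1 / 7) : ℝ)) τ F c (n + 1)) :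
    ∑ p ∈ P, xi M R p c ≤ Cb * (n * (2 * τ + 1)) +
      (ℓ + 1) * (Cb * (N * (1 + ℓ) * (R : ℝ) ^ (-(1 / 2) : ℝ))) := by
  classical
  have h := hU.hg
  have hR0 : (0 : ℝ) < R := by exact_mod_cast hR1
  have hlc := l_pos M hc
  have hRp : 0 ≤ (R : ℝ) ^ (-(1 / 2) : ℝ) := Real.rpow_nonneg hR0.le _
  have hfc := (fS_cont hU.hX hR1 P).1
  have hfp : Continuous fun t : ℝ => fS Γ R P (pt G (tv M c) t) := hfc.comp (pt_cont h _)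
  rw [fS_int hU M hR1 P c]
  have hε : 0 ≤ Cb * (N * (1 + ℓ) * (R : ℝ) ^ (-(1 / 2) : ℝ)) := by positivity
  have h1 := win_upp hfp (fun t => (hP _).1) (T := M.l c) (C := Cb)
    (ε := Cb * (N * (1 + ℓ) * (R : ℝ) ^ (-(1 / 2) : ℝ))) hlc.le hε
    (fun m => Rc M ((R : ℝ) ^ (-(1 / 7) : ℝ)) F c m) (fun m => by
      have e1 : ∫ t in (m : ℝ)..(m + 1), fS Γ R P (pt G (tv M c) t) ≤
          ∫ _t in (m : ℝ)..(m + 1), Cb := by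
        apply intervalIntegral.integral_mono_on (by linarith) (hfp.intervalIntegrable _ _)
          intervalIntegrable_const
        intro t _
        exact (hP _).2
      rw [intervalIntegral.integral_const, smul_eq_mul] at e1
      linarith) (fun m hm hRc => by
      have e1 : ¬ Ht M (rh b Λ R) (3 * Λ / R) c c' W m := fun e2 =>
        hRc (hit_rc hU M hF hc hc' hρ hδ hρ' hW hm e2)
      refine (hN W m e1 (fS Γ R P) Cb hfc hP hPW).trans ?_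
      gcongr)
  have h2 : (((Finset.range (⌊M.l c⌋₊ + 1)).filter fun m =>
      Rc M ((R : ℝ) ^ (-(1 / 7) : ℝ)) F c m).card : ℝ) ≤ n * (2 * τ + 1) := by
    convert rc_count M hτ hn
  refine h1.trans ?_
  gcongr

/-- E2 and the first part of E3: the other side switches rarely. -/
theorem switch (D : Set Pl) (a b r : ℝ) (Λ q L0 : ℕ)
    (hL : ∀ z ∈ closure D, |z.1| ≤ (L0 : ℝ) - 1 ∧ |z.2| ≤ (L0 : ℝ) - 1) {Λ1 η : ℝ}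
    (hΛ : 1 ≤ Λ1) (hη : 0 < η) : ∃ (A : ℕ) (κ0 R0 : ℝ), 0 < κ0 ∧ 1 ≤ R0 ∧
    ∀ G : Dat Γ, UC D a b r Λ G → ∀ (M : Cl G) (R : ℕ), R0 ≤ R →
      ∀ ℓ : ℝ, 1 ≤ ℓ → ℓ ≤ (R : ℝ) ^ κ0 →
      ∀ c : Fin q → ConjClasses Γ, (∀ i, c i ≠ 1 ∧ M.l (c i) ≤ ℓ) →
      ∀ lam : Fin q → ℝ, (∀ i, 1 / Λ1 ≤ |lam i| ∧ |lam i| ≤ Λ1) →
      (∀ p ∈ grid L0 R, |∑ i, lam i * xi M R p (c i)| ≤ (R : ℝ) ^ (-(3 / 2) : ℝ)) →
      ∀ n : ℕ, (∀ i, 0 < lam i → ¬ Many M ((R : ℝ) ^ (-(1 / 7) : ℝ)) (tau b R)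
        (imf c fun j => 0 < lam j) (c i) (n + 1)) →
      ∀ i, lam i < 0 → Brk M η (imf c fun j => 0 < lam j) (tv M (c i)) (A * (n + 1)) 0
        (M.l (c i)) := by
  classical
  by_cases hex : ∃ G : Dat Γ, UC D a b r Λ G
  swap
  · exact ⟨1, 1, 1, one_pos, le_rfl, fun G hG => absurd ⟨G, hG⟩ hex⟩
  obtain ⟨G₀, hG₀⟩ := hex
  have hb : 0 < b := by
    have h1 := hG₀.hg.a_pos
    have h2 := hG₀.hg.ab
    rw [hG₀.eb] at h2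
    linarith
  obtain ⟨Cb, hCb, hfS⟩ := fS_le (Γ := Γ) hG₀.hX L0
  obtain ⟨N, hN⟩ := unhit (Γ := Γ) D a b r Λ
  obtain ⟨R1, hR1, hdet⟩ := detectP (Γ := Γ) D a b r Λ q L0 hL hΛ
  obtain ⟨R2, hR2, hnum⟩ := numS q N Λ hb hΛ hη hCb
  obtain ⟨B, hB⟩ : ∃ B : ℕ, B = ⌈Λ1 * (Λ1 * (q * (Cb * 3)))⌉₊ := ⟨_, rfl⟩
  have hB1 : Λ1 * (Λ1 * (q * (Cb * 3))) ≤ B := by rw [hB]; exact Nat.le_ceil _
  refine ⟨B + 1, 1 / 8, R1 + R2, by norm_num, by linarith, ?_⟩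
  intro G hU M R hR ℓ hℓ1 hℓ c hc lam hl hs n hn i0 hi0
  have hRR1 : R1 ≤ R := by linarith
  have hRR2 : R2 ≤ R := by linarith
  have hRone : (1 : ℝ) ≤ R := by linarith
  have hRn : 1 ≤ R := by exact_mod_cast hRone
  have hR0 : (0 : ℝ) < R := by linarith
  have hΛ0 : (1 : ℝ) ≤ Λ := by exact_mod_cast hU.L_one
  obtain ⟨n1, n2, n3, n4, n5, n6, n7, n8, n9⟩ := hnum R hRR2
  have hR3 : 3 * Λ ≤ R := by exact_mod_cast n2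
  have hPar := (hdet G hU M R hRR1 ℓ (by linarith) hℓ c hc lam (fun i => (hl i).1) hs).2 i0 hi0
  obtain ⟨F, hFd⟩ : ∃ F : Finset (ConjClasses Γ), F = imf c fun j => 0 < lam j := ⟨_, rfl⟩
  rw [← hFd] at hPar hn ⊢
  have hF : ∀ c' ∈ F, c' ≠ 1 := by
    intro c' hc'
    rw [hFd] at hc'
    obtain ⟨k, -, rfl⟩ := B3_mem_imf.1 hc'
    exact (hc k).1
  obtain ⟨τ, hτ⟩ : ∃ τ : ℝ, τ = tau b R := ⟨_, rfl⟩
  rw [← hτ] at n6 n7 n8 hn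
  have hτ0 : 0 < τ := by linarith
  obtain ⟨ρ₃, hρ₃⟩ : ∃ ρ₃ : ℝ, ρ₃ = cx b * rh b Λ R * Real.exp (b * (τ + 2)) := ⟨_, rfl⟩
  rw [← hρ₃] at n7 n8
  obtain ⟨S, hS1, hS2, hS3⟩ := windows hU M hF (hc i0).1 n4 n3 hτ0 hρ₃.ge hPar
  obtain ⟨W, hW⟩ : ∃ W : Set ℝ, W = {t | ∃ κ ∈ S, t ∈ Icc (κ * τ) (((κ : ℝ) + 1) * τ)} :=
    ⟨_, rfl⟩
  have hW0 : W ⊆ Icc 0 (M.l (c i0)) := by
    rw [hW]
    rintro t ⟨κ, hκ, ht⟩
    have h1 := hS1 κ hκ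
    have h2 : (0 : ℝ) ≤ κ * τ := by positivity
    exact ⟨h2.trans ht.1, ht.2.trans h1⟩
  have hW2 : ∀ t ∈ W, Two M F ρ₃ (tv M (c i0)) t := by
    rw [hW]
    rintro t ⟨κ, hκ, ht⟩
    exact hS2 κ hκ t ht
  obtain ⟨P, hPg, hPc, hP1, hP2⟩ := cells_of hU hL hR3 (tv_unit M (hc i0).1)
    (l_pos M (hc i0).1).le hW0
  have hPf : ∀ z : Pl, 0 ≤ fS Γ R P z ∧ fS Γ R P z ≤ Cb := hfS R hRn P hPg
  have hfc := (fS_cont hU.hX hRn P).1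
  -- below
  have hlow : (S.card : ℝ) * τ ≤ ∑ p ∈ P, xi M R p (c i0) := by
    rw [fS_int hU M hRn P (c i0)]
    refine win_low (hfc.comp (pt_cont hU.hg _)) (fun t => (hPf _).1) hτ0 (l_pos M (hc i0).1).le S
      hS1 fun κ hκ t ht => ?_
    apply hP1
    rw [hW]
    exact ⟨κ, hκ, ht⟩
  -- above
  have hX0 : ∀ j, 0 ≤ ∑ p ∈ P, xi M R p (c j) := fun j =>
    Finset.sum_nonneg fun p _ => B3_xi_nonneg M (hc j).1 R p
  obtain ⟨ε, hε⟩ : ∃ ε : ℝ, ε = (ℓ + 1) * (Cb * (N * (1 + ℓ) * (R : ℝ) ^ (-(1 / 2) : ℝ))) :=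
    ⟨_, rfl⟩
  have hε0 : 0 ≤ ε := by
    rw [hε]
    have := Real.rpow_nonneg hR0.le (-(1 / 2) : ℝ)
    positivity
  have hupp : ∀ j, 0 < lam j → ∑ p ∈ P, xi M R p (c j) ≤ Cb * (n * (2 * τ + 1)) + ε := by
    intro j hj
    rw [hε]
    exact S1_upp hU M hF (hc j).1 (hc i0).1 hRn
      (fun W m h1 f C h2 h3 h4 => hN G hU M R n1 (c j) (c i0) (hc j).1 (hc i0).1 W m h1 f C h2 h3 h4)
      (by linarith) n5 n8 hW2 hτ0 hCb (by linarith) (hc j).2 (hc i0).2 hPf hP2 (hn j hj)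
  have hE : |∑ j, lam j * ∑ p ∈ P, xi M R p (c j)| ≤
      (2 * Λ * R * ℓ + 1) * (R : ℝ) ^ (-(3 / 2) : ℝ) := by
    have e1 : ∑ j, lam j * ∑ p ∈ P, xi M R p (c j) = ∑ p ∈ P, ∑ j, lam j * xi M R p (c j) := by
      rw [Finset.sum_comm]
      exact Finset.sum_congr rfl fun j _ => Finset.mul_sum _ _ _
    have e2 : |∑ p ∈ P, ∑ j, lam j * xi M R p (c j)| ≤ P.card * (R : ℝ) ^ (-(3 / 2) : ℝ) := by
      refine (Finset.abs_sum_le_sum_abs _ _).trans ?_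
      refine (Finset.sum_le_sum fun p hp => hs p (hPg hp)).trans ?_
      rw [Finset.sum_const, nsmul_eq_mul]
    rw [e1]
    refine e2.trans (mul_le_mul_of_nonneg_right ?_ (Real.rpow_nonneg hR0.le _))
    have e3 : 2 * (Λ : ℝ) * R * M.l (c i0) ≤ 2 * Λ * R * ℓ :=
      mul_le_mul_of_nonneg_left (hc i0).2 (by positivity)
    linarith
  have hal := alg hΛ hl hX0 (B := Cb * (n * (2 * τ + 1)) + ε) (by positivity) hupp hE hi0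
  have hfin := n9 ℓ hℓ1 hℓ
  rw [← hε] at hfin
  -- the numbers
  have hcount : (S.card : ℝ) * τ < B * n * τ + τ := by
    have e1 : Λ1 * (Λ1 * (q * (Cb * (n * (2 * τ + 1)) + ε)) +
        (2 * Λ * R * ℓ + 1) * (R : ℝ) ^ (-(3 / 2) : ℝ)) =
        Λ1 * (Λ1 * (q * (Cb * (n * (2 * τ + 1))))) + Λ1 * (Λ1 * (q * ε) +
        (2 * Λ * R * ℓ + 1) * (R : ℝ) ^ (-(3 / 2) : ℝ)) := by ring
    have e2 : Λ1 * (Λ1 * (q * (Cb * (n * (2 * τ + 1))))) ≤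
        Λ1 * (Λ1 * (q * (Cb * 3))) * (n * τ) := by
      have e3 : (n : ℝ) * (2 * τ + 1) ≤ 3 * (n * τ) := by
        have : (0 : ℝ) ≤ n := Nat.cast_nonneg _
        nlinarith
      calc Λ1 * (Λ1 * (q * (Cb * (n * (2 * τ + 1))))) ≤ Λ1 * (Λ1 * (q * (Cb * (3 * (n * τ))))) := by
            gcongr
        _ = _ := by ring
    have e4 : Λ1 * (Λ1 * (q * (Cb * 3))) * (n * τ) ≤ B * (n * τ) := by gcongr
    rw [e1] at hal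
    linarith
  have hcard : S.card < B * n + 1 := by
    have e1 : (S.card : ℝ) * τ < (B * n + 1) * τ := by linarith
    have e2 : (S.card : ℝ) < B * n + 1 := lt_of_mul_lt_mul_right e1 hτ0.le
    exact_mod_cast e2
  refine brk_eta M n7 (brk_le M (by omega) ?_ hS3)
  have : (B + 1) * (n + 1) = B * n + B + n + 1 := by ring
  omega

end E36
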