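import Pool.Agent.LibBE36E.C3
import Pool.Agent.LibBE36E.F5
import Pool.Agent.LibBE36E.S1

/-! Row F6 of BE36E (BE36, part E; architect helper85). The main theorem of part E. MEDIUM, 75 min. TEMPLATE: `E35.partE` (LibBE35E/F2.lean, proved).
Plan. `η` of `bad_sum` (F5), then `A, κ₁, R₁` of `switch` (S1; for this `η`), then `κ, κ₂, R₂` of `bad_sum` for this `A`; `N, R₃` of `cancel` (C3). `κ0 = min κ₁ κ₂` and small enough that `N (1 + ℓ) ^ N R ^ (-1 / 2) ≤ 1 / 4` for `ℓ ≤ R ^ κ0`, `R ≥ R0` (e.g. `κ0 ≤ 1 / (4 (N + 1))`, `1 + ℓ ≤ 2 R ^ κ0`).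
`B = Bd M b η (rh' b Λ R) R ℓ A ε` (`rh' ≤ R ^ (-1 / 3)` as in the template). Let `c ∉ B`, `lam` as in the statement. `imf c (0 < lam) = imf c (0 < ε)` etc. as in the template. If `¬ Enc .. (imf c (0 < lam))` or `¬ Enc .. (imf c (lam < 0))`: `cancel` as in the template. Otherwise we show `c ∈ B`: for the side `P = (0 < ε ·)`:
let `n` be the largest number such that `n = 0 ∨ ∃ i, P i ∧ Many M (R ^ (-1 / 7)) (tau b R) (imf c P) (c i) n` (it is `≤ ℓ + 1`, as the finset of `Many` lies in `range (⌊ℓ⌋₊ + 1)`: `Nat.findGreatest` or strong induction); then no `i` with `P i` has `Many .. (n + 1)`, so `switch` gives `Brk M η .. (A * (n + 1)) 0 (M.l (c i))` for all `i`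
with `lam i < 0`, i.e. `¬ P i` (`ε i ≠ 0`). For the side `(ε · < 0)`: `switch` for `-lam` (the sums change sign). -/

open MeasureTheory Set Filter Topology
open scoped ContDiff ENNReal NNReal ComplexConjugate

namespace E36

open BGS (Pl Surface grid per)
open SR85 E35

variable {Γ : Type} [Group Γ] [MulAction Γ Pl] {D : Set Pl} {G : Dat Γ}
variable {a b r : ℝ} {Λ : ℕ}

private theorem F6_pow {C R β : ℝ} {n : ℕ} (hn : n ≠ 0) (hR : 1 ≤ R) (hC : |C| ^ n ≤ R)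
    (hβ : β = (n : ℝ)⁻¹ + -(1 / 2)) : C * R ^ (-(1 / 2) : ℝ) ≤ R ^ β := by
  have hR0 : 0 < R := by linarith
  have h1 : |C| ≤ R ^ ((n : ℝ)⁻¹) := by
    rw [← Real.pow_rpow_inv_natCast (abs_nonneg C) hn]
    exact Real.rpow_le_rpow (by positivity) hC (by positivity)
  rw [hβ, Real.rpow_add hR0]
  exact mul_le_mul_of_nonneg_right ((le_abs_self C).trans h1) (by positivity)

private theorem F6_small {N : ℕ} {R ℓ κ0 : ℝ} (hR : 1 ≤ R) (hRN : (4 * N * 2 ^ N : ℝ) ^ 4 ≤ R)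
    (h0 : 0 ≤ ℓ) (hℓ : ℓ ≤ R ^ κ0) (hκ0 : 0 ≤ κ0) (hκ : κ0 ≤ 1 / (4 * (N + 1))) :
    N * (1 + ℓ) ^ N * R ^ (-(1 / 2) : ℝ) ≤ 1 / 4 := by
  have hR0 : 0 < R := by linarith
  have hN : (0 : ℝ) ≤ N := Nat.cast_nonneg _
  have h1 : 1 + ℓ ≤ 2 * R ^ κ0 := by
    have : 1 ≤ R ^ κ0 := Real.one_le_rpow hR hκ0
    linarith
  have h2 : (1 + ℓ) ^ N ≤ 2 ^ N * R ^ (1 / 4 : ℝ) := by
    calc (1 + ℓ) ^ N ≤ (2 * R ^ κ0) ^ N := pow_le_pow_left₀ (by linarith) h1 N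
      _ = 2 ^ N * R ^ (κ0 * N) := by
          rw [mul_pow, Real.rpow_mul hR0.le, Real.rpow_natCast]
      _ ≤ 2 ^ N * R ^ (1 / 4 : ℝ) := by
          apply mul_le_mul_of_nonneg_left _ (by positivity)
          apply Real.rpow_le_rpow_of_exponent_le hR
          calc κ0 * N ≤ 1 / (4 * (N + 1)) * N := mul_le_mul_of_nonneg_right hκ hN
            _ ≤ 1 / 4 := by
                rw [div_mul_eq_mul_div, div_le_div_iff₀ (by positivity) (by norm_num)]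
                linarith
  have h3 : 4 * N * 2 ^ N ≤ R ^ (1 / 4 : ℝ) := by
    have h4 : ((4 * N * 2 ^ N : ℝ) ^ 4) ^ (1 / 4 : ℝ) ≤ R ^ (1 / 4 : ℝ) :=
      Real.rpow_le_rpow (by positivity) hRN (by norm_num)
    rwa [← Real.rpow_natCast _ 4, ← Real.rpow_mul (by positivity),
      show ((4 : ℕ) : ℝ) * (1 / 4) = 1 by norm_num, Real.rpow_one] at h4
  have h5 : R ^ (1 / 4 : ℝ) * R ^ (-(1 / 2) : ℝ) = (R ^ (1 / 4 : ℝ))⁻¹ := by
    rw [← Real.rpow_add hR0, ← Real.rpow_neg hR0.le]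
    norm_num
  have h6 : 0 < R ^ (1 / 4 : ℝ) := Real.rpow_pos_of_pos hR0 _
  calc N * (1 + ℓ) ^ N * R ^ (-(1 / 2) : ℝ)
      ≤ N * (2 ^ N * R ^ (1 / 4 : ℝ)) * R ^ (-(1 / 2) : ℝ) := by gcongr
    _ = N * 2 ^ N * (R ^ (1 / 4 : ℝ))⁻¹ := by
        rw [← h5]
        ring
    _ ≤ 1 / 4 := by
        rw [← div_eq_mul_inv, div_le_div_iff₀ h6 (by norm_num)]
        linarith

private theorem F6_max {q : ℕ} {M : Cl G} {ρ τ ℓ : ℝ} (F : Finset (ConjClasses Γ))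
    (c : Fin q → ConjClasses Γ) (hc : ∀ i, M.l (c i) ≤ ℓ) (P : Fin q → Prop) :
    ∃ n : ℕ, (n = 0 ∨ ∃ i, P i ∧ Many M ρ τ F (c i) n) ∧
      ∀ i, P i → ¬ Many M ρ τ F (c i) (n + 1) := by
  classical
  let Q : ℕ → Prop := fun n => n = 0 ∨ ∃ i, P i ∧ Many M ρ τ F (c i) n
  have hQb : ∀ n, Q n → n ≤ ⌊ℓ⌋₊ + 1 := by
    rintro n (h | ⟨i, -, T, hT, hT1, -⟩)
    · omega
    · have h1 : T ⊆ Finset.range (⌊ℓ⌋₊ + 1) := by
        intro m hm
        rw [Finset.mem_range]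
        exact Nat.lt_succ_of_le (Nat.le_floor ((hT1 m hm).1.trans (hc i)))
      have h2 := Finset.card_le_card h1
      rw [Finset.card_range] at h2
      omega
  refine ⟨Nat.findGreatest Q (⌊ℓ⌋₊ + 1), ?_, ?_⟩
  · exact Nat.findGreatest_spec (P := Q) (Nat.zero_le _) (Or.inl rfl)
  · intro i hi hM
    have h1 : Q (Nat.findGreatest Q (⌊ℓ⌋₊ + 1) + 1) := Or.inr ⟨i, hi, hM⟩
    have h2 := Nat.le_findGreatest (hQb _ h1) h1
    omega

open Classical in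
theorem partE (D : Set Pl) (a b r : ℝ) (Λ q L0 : ℕ)
    (hL : ∀ z ∈ closure D, |z.1| ≤ (L0 : ℝ) - 1 ∧ |z.2| ≤ (L0 : ℝ) - 1) {Λ1 : ℝ}
    (hΛ : 1 ≤ Λ1) : ∃ κ κ0 R0 : ℝ, 0 < κ ∧ 0 < κ0 ∧ 1 ≤ R0 ∧
    ∀ G : Dat Γ, UC D a b r Λ G → ∀ (M : Cl G) (R : ℕ), R0 ≤ R →
      ∀ ℓ : ℝ, 1 ≤ ℓ → ℓ ≤ (R : ℝ) ^ κ0 →
      ∀ ε : Fin q → ℝ, (∀ i, ε i ≠ 0) → ∃ B : Set (Fin q → ConjClasses Γ), B.Finite ∧
      ∑ᶠ c ∈ B, ∏ i, wt M (c i) ≤ (R : ℝ) ^ (-κ) ∧ (∀ c ∈ B, ∀ i, c i ≠ 1) ∧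
      ∀ c : Fin q → ConjClasses Γ, c ∉ B → (∀ i, c i ≠ 1 ∧ M.l (c i) ≤ ℓ) →
      ∀ lam : Fin q → ℝ, (∀ i, 0 < ε i * lam i ∧ 1 / Λ1 ≤ |lam i| ∧ |lam i| ≤ Λ1) →
      (∀ p ∈ grid L0 R, |∑ i, lam i * xi M R p (c i)| ≤ (R : ℝ) ^ (-(3 / 2) : ℝ)) →
      ∀ i, |∑ j, if Rel M (c i) (c j) then lam j * M.n (c j) else 0| ≤
        Λ * (R : ℝ) ^ (-(1 / 2) : ℝ) := by
  obtain ⟨η, hη, hbad0⟩ := bad_sum (Γ := Γ) D a b r Λ q
  obtain ⟨A, κ1, R1, hκ1, hR1, hsw⟩ := switch (Γ := Γ) D a b r Λ q L0 hL hΛ hη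
  obtain ⟨κ, κ2, R2, hκ, hκ2, hR2, hbad⟩ := hbad0 A
  obtain ⟨N, R3, hR3, hcan⟩ := cancel (Γ := Γ) D a b r Λ q L0 hL hΛ
  have hp2 : 0 ≤ |(cx b * Real.exp (2 * b) + 1) * (cx b * (3 * Λ) * Real.exp b)| ^ 6 := by
    positivity
  have hp3 : 0 ≤ (4 * N * 2 ^ N : ℝ) ^ 4 := by positivity
  refine ⟨κ, min κ1 (min κ2 (1 / (4 * (N + 1)))), R1 + R2 + R3 +
    |(cx b * Real.exp (2 * b) + 1) * (cx b * (3 * Λ) * Real.exp b)| ^ 6 +
      (4 * N * 2 ^ N : ℝ) ^ 4, hκ, lt_min hκ1 (lt_min hκ2 (by positivity)), by linarith, ?_⟩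
  intro G hU M R hR ℓ hℓ1 hℓ ε hε
  have hR1' : R1 ≤ R := by linarith
  have hR2' : R2 ≤ R := by linarith
  have hR3' : R3 ≤ R := by linarith
  have hRone : (1 : ℝ) ≤ R := by linarith
  have hκ0 : 0 ≤ min κ1 (min κ2 (1 / (4 * ((N : ℝ) + 1)))) :=
    (lt_min hκ1 (lt_min hκ2 (by positivity))).le
  have hℓκ1 : ℓ ≤ (R : ℝ) ^ κ1 :=
    hℓ.trans (Real.rpow_le_rpow_of_exponent_le hRone (min_le_left _ _))
  have hℓκ2 : ℓ ≤ (R : ℝ) ^ κ2 :=
    hℓ.trans (Real.rpow_le_rpow_of_exponent_le hRone ((min_le_right _ _).trans (min_le_left _ _)))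
  have hsm : N * (1 + ℓ) ^ N * (R : ℝ) ^ (-(1 / 2) : ℝ) ≤ 1 / 4 :=
    F6_small hRone (by linarith) (by linarith) hℓ hκ0
      ((min_le_right _ _).trans (min_le_right _ _))
  have hρ' : rh' b Λ R ≤ (R : ℝ) ^ (-(1 / 3) : ℝ) := by
    unfold rh' rh
    rw [← mul_assoc]
    exact F6_pow (n := 6) (by norm_num) hRone (by linarith) (by norm_num)
  obtain ⟨hf, hsum⟩ := hbad G hU M R ℓ (rh' b Λ R) hR2' hℓ1 hℓκ2 hρ' ε hε
  refine ⟨Bd M b η (rh' b Λ R) R ℓ A ε, hf, hsum, fun c hc i => (hc.1 i).1, ?_⟩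
  intro c hcB hc lam hlam hs i
  have hpos : (fun i => 0 < lam i) = fun i => 0 < ε i := by
    funext j
    apply propext
    have h1 := (hlam j).1
    constructor
    · intro h2
      exact (pos_iff_pos_of_mul_pos h1).2 h2
    · intro h2
      exact (pos_iff_pos_of_mul_pos h1).1 h2
  have hneg : (fun i => lam i < 0) = fun i => ε i < 0 := by
    funext j
    apply propext
    have h1 := (hlam j).1
    constructor
    · intro h2
      exact (neg_iff_neg_of_mul_pos h1).2 h2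
    · intro h2
      exact (neg_iff_neg_of_mul_pos h1).1 h2
  have hpos' : ∀ j, 0 < lam j ↔ 0 < ε j := fun j => iff_of_eq (congrFun hpos j)
  have hneg' : ∀ j, lam j < 0 ↔ ε j < 0 := fun j => iff_of_eq (congrFun hneg j)
  have h5 : (fun j => 0 < -lam j) = fun j => lam j < 0 := by
    funext j
    rw [neg_pos]
  have h7 : ∀ p, ∑ i, -lam i * xi M R p (c i) = -∑ i, lam i * xi M R p (c i) := by
    intro p
    rw [← Finset.sum_neg_distrib]
    exact Finset.sum_congr rfl fun _ _ => by ring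
  have hsneg : ∀ p ∈ grid L0 R, |∑ i, -lam i * xi M R p (c i)| ≤ (R : ℝ) ^ (-(3 / 2) : ℝ) := by
    intro p hp
    rw [h7, abs_neg]
    exact hs p hp
  by_cases he : Enc M (rh' b Λ R) (imf c fun i => 0 < lam i)
  · by_cases he' : Enc M (rh' b Λ R) (imf c fun i => lam i < 0)
    · exfalso
      apply hcB
      refine ⟨hc, ⟨?_, ?_⟩, ⟨?_, ?_⟩⟩
      · rw [← hpos]; exact he
      · obtain ⟨n, hn1, hn2⟩ := F6_max (M := M) (ρ := (R : ℝ) ^ (-(1 / 7) : ℝ))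
          (τ := tau b R) (ℓ := ℓ) (imf c fun j => 0 < lam j) c (fun i => (hc i).2)
          (fun i => 0 < lam i)
        have h8 := hsw G hU M R hR1' ℓ hℓ1 hℓκ1 c hc lam (fun i => (hlam i).2) hs n hn2
        rw [hpos] at hn1 h8
        refine ⟨n, ?_, ?_⟩
        · rcases hn1 with h | ⟨k, hk, hM⟩
          · exact Or.inl h
          · exact Or.inr ⟨k, (hpos' k).1 hk, hM⟩
        · intro k hk
          refine h8 k ((hneg' k).2 ?_)
          exact lt_of_le_of_ne (not_lt.1 hk) (hε k)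
      · rw [← hneg]; exact he'
      · obtain ⟨n, hn1, hn2⟩ := F6_max (M := M) (ρ := (R : ℝ) ^ (-(1 / 7) : ℝ))
          (τ := tau b R) (ℓ := ℓ) (imf c fun j => 0 < -lam j) c (fun i => (hc i).2)
          (fun i => 0 < -lam i)
        have h8 := hsw G hU M R hR1' ℓ hℓ1 hℓκ1 c hc (fun j => -lam j)
          (fun i => by rw [abs_neg]; exact (hlam i).2) hsneg n hn2
        rw [h5, hneg] at hn1 h8
        refine ⟨n, ?_, ?_⟩
        · rcases hn1 with h | ⟨k, hk, hM⟩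
          · exact Or.inl h
          · exact Or.inr ⟨k, (hneg' k).1 (neg_pos.1 hk), hM⟩
        · intro k hk
          refine h8 k (neg_lt_zero.2 ((hpos' k).2 ?_))
          exact lt_of_le_of_ne (not_lt.1 hk) (hε k).symm
    · have h6 := hcan G hU M R ℓ hR3' (by linarith) hsm c hc (fun j => -lam j)
        (fun j => by rw [abs_neg]; exact (hlam j).2.1) hsneg (by rw [h5]; exact he') i
      have h8 : (∑ j, if Rel M (c i) (c j) then -lam j * M.n (c j) else 0) =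
          -∑ j, if Rel M (c i) (c j) then lam j * M.n (c j) else 0 := by
        rw [← Finset.sum_neg_distrib]
        refine Finset.sum_congr rfl fun j _ => ?_
        split_ifs
        · ring
        · simp
      rw [h8, abs_neg] at h6
      exact h6
  · exact hcan G hU M R ℓ hR3' (by linarith) hsm c hc lam (fun i => (hlam i).2.1) hs he i

end E36
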