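import Pool.Agent.LibBE36E.Defs

/-! BE36, part E: `good` and `detect` of LibBE35E (B2, B3) for lengths up to a power
of `R`. -/

open MeasureTheory Set Filter Topology
open scoped ContDiff ENNReal NNReal ComplexConjugate

namespace E36

open BGS (Pl Surface grid per)
open SR85 E35

variable {Γ : Type} [Group Γ] [MulAction Γ Pl] {D : Set Pl} {G : Dat Γ}
variable {a b r : ℝ} {Λ : ℕ}

theorem smallP (N : ℕ) : ∃ R0 : ℝ, 1 ≤ R0 ∧ ∀ R : ℝ, R0 ≤ R → ∀ ℓ : ℝ, 0 ≤ ℓ →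
    ℓ ≤ R ^ (1 / 8 : ℝ) → N * (1 + ℓ) * R ^ (-(1 / 2) : ℝ) < 1 / 2 := by
  refine ⟨(8 * ((N : ℝ) + 1)) ^ 4, ?_, fun R hR ℓ hℓ0 hℓ => ?_⟩
  · have h1 : (1 : ℝ) ≤ 8 * ((N : ℝ) + 1) := by
      have : (0 : ℝ) ≤ N := Nat.cast_nonneg _
      linarith
    exact one_le_pow₀ h1
  have hN : (0 : ℝ) ≤ N := Nat.cast_nonneg _
  have hA : (1 : ℝ) ≤ 8 * ((N : ℝ) + 1) := by linarith
  have hR1 : 1 ≤ R := (one_le_pow₀ hA).trans hR
  have hR0 : 0 < R := by linarith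
  obtain ⟨w, hw⟩ : ∃ w : ℝ, w = R ^ (1 / 8 : ℝ) := ⟨_, rfl⟩
  have hw1 : 1 ≤ w := by rw [hw]; exact Real.one_le_rpow hR1 (by norm_num)
  have hw8 : w ^ 8 = R := by
    rw [hw, ← Real.rpow_natCast, ← Real.rpow_mul hR0.le]; norm_num
  have h4 : R ^ (-(1 / 2) : ℝ) = 1 / w ^ 4 := by
    rw [hw, ← Real.rpow_natCast, ← Real.rpow_mul hR0.le, Real.rpow_neg hR0.le, one_div]
    norm_num
  have hw2 : 8 * ((N : ℝ) + 1) ≤ w ^ 2 := by
    refine le_of_pow_le_pow_left₀ (n := 4) (by norm_num) (by positivity) ?_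
    rw [← pow_mul]
    calc (8 * ((N : ℝ) + 1)) ^ 4 ≤ R := hR
      _ = w ^ (2 * 4) := by rw [← hw8]
  rw [← hw] at hℓ
  rw [h4, mul_one_div, div_lt_iff₀ (by positivity)]
  have h5 : (N : ℝ) * (1 + ℓ) ≤ N * (2 * w) := mul_le_mul_of_nonneg_left (by linarith) hN
  have h6 : w ^ 4 = w ^ 2 * w ^ 2 := by ring
  have h7 : w ≤ w ^ 2 := by nlinarith
  have h8 : (N : ℝ) * (2 * w) < 1 / 2 * (8 * ((N : ℝ) + 1) * w ^ 2) := by nlinarith
  have h9 : 8 * ((N : ℝ) + 1) * w ^ 2 ≤ w ^ 2 * w ^ 2 :=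
    mul_le_mul_of_nonneg_right hw2 (by positivity)
  rw [h6]
  linarith

theorem goodP (D : Set Pl) (a b r : ℝ) (Λ q : ℕ) : ∃ R0 : ℝ, 1 ≤ R0 ∧
    ∀ G : Dat Γ, UC D a b r Λ G → ∀ (M : Cl G) (R : ℝ), R0 ≤ R →
      ∀ ℓ : ℝ, 0 ≤ ℓ → ℓ ≤ R ^ (1 / 8 : ℝ) →
      ∀ c : Fin q → ConjClasses Γ, (∀ i, c i ≠ 1 ∧ M.l (c i) ≤ ℓ) →
      ∀ (p : Pl × ℂ) (s : ℝ), ‖p.2‖ = 1 → ∃ t0 ∈ Icc (s + 1 / 4) (s + 3 / 4),
        ∀ (i : Fin q) (γ : Γ) (t : ℝ), G.d (pt G p t0) (γ • pt G (tv M (c i)) t) ≤ 3 * Λ / R →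
          Fl G (rh b Λ R) p (act G γ (tv M (c i))) s := by
  classical
  obtain ⟨N, hN⟩ := near_fin (Γ := Γ) D a b r Λ
  obtain ⟨R1, hR1, hsm⟩ := smallP (q * N)
  refine ⟨max R1 (max ((24 * Λ) ^ 2) (3 * Λ)), hR1.trans (le_max_left _ _), ?_⟩
  intro G hU M R hR ℓ hℓ0 hℓ c hc p s hp
  have h := hU.hg
  have hR1' : R1 ≤ R := (le_max_left _ _).trans hR
  have hR2 : (24 * (Λ : ℝ)) ^ 2 ≤ R := ((le_max_left _ _).trans (le_max_right _ _)).trans hR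
  have hR3 : 3 * (Λ : ℝ) ≤ R := ((le_max_right _ _).trans (le_max_right _ _)).trans hR
  have hRone : 1 ≤ R := hR1.trans hR1'
  have hR0 : 0 < R := by linarith
  have hΛ0 : (0 : ℝ) ≤ Λ := Nat.cast_nonneg _
  set s0 : ℝ := R ^ (-(1 / 2) : ℝ) with hs0
  have hs0pos : 0 < s0 := Real.rpow_pos_of_pos hR0 _
  have hs0R : s0 * √R = 1 := by
    rw [hs0, Real.sqrt_eq_rpow, ← Real.rpow_add hR0]
    norm_num
  have hs0sq : s0 * s0 * R = 1 := by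
    have h1 : √R * √R = R := Real.mul_self_sqrt hR0.le
    calc s0 * s0 * R = s0 * s0 * (√R * √R) := by rw [h1]
      _ = (s0 * √R) * (s0 * √R) := by ring
      _ = 1 := by rw [hs0R]; ring
  set δ : ℝ := 3 * Λ / R with hδ
  have hδ0 : 0 ≤ δ := by positivity
  have hδ1 : δ ≤ 1 := by
    rw [hδ, div_le_one hR0]
    exact hR3
  have hδs : δ / s0 = 3 * Λ * s0 := by
    rw [hδ, div_div, div_eq_iff (by positivity)]
    calc (3 * (Λ : ℝ)) = 3 * Λ * (s0 * s0 * R) := by rw [hs0sq, mul_one]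
      _ = 3 * Λ * s0 * (R * s0) := by ring
  have h24 : 24 * Λ * s0 ≤ 1 := by
    have h1 : 24 * (Λ : ℝ) ≤ √R := by
      apply Real.le_sqrt_of_sq_le hR2
    calc 24 * Λ * s0 ≤ √R * s0 := by gcongr
      _ = 1 := by rw [mul_comm]; exact hs0R
  have hδ8 : δ ≤ s0 / 8 := by
    have h1 : δ = 3 * Λ * s0 * s0 := by
      rw [← hδs]
      field_simp
    rw [h1]
    nlinarith
  choose F hFc hF using fun i : Fin q => hN G hU M (c i) (hc i).1 (pt G p s)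
  set S : Finset (Σ _ : Fin q, Γ) := Finset.univ.sigma fun i =>
    (F i).filter fun γ' => ¬ Fl G (rh b Λ R) p (act G γ' (tv M (c i))) s with hS
  have hcard : (S.card : ℝ) * s0 < 1 / 2 := by
    have h1 : (S.card : ℝ) ≤ q * (N * (1 + ℓ)) := by
      rw [hS, Finset.card_sigma]
      push_cast
      calc ∑ i : Fin q, (((F i).filter fun γ' =>
            ¬ Fl G (rh b Λ R) p (act G γ' (tv M (c i))) s).card : ℝ)
          ≤ ∑ _i : Fin q, N * (1 + ℓ) := by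
            refine Finset.sum_le_sum fun i _ => ?_
            have h2 : (((F i).filter fun γ' =>
                ¬ Fl G (rh b Λ R) p (act G γ' (tv M (c i))) s).card : ℝ) ≤ (F i).card := by
              exact_mod_cast Finset.card_filter_le _ _
            refine (h2.trans (hFc i)).trans ?_
            have h3 := (hc i).2
            gcongr
        _ = q * (N * (1 + ℓ)) := by
            rw [Finset.sum_const, Finset.card_univ, Fintype.card_fin, nsmul_eq_mul]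
    have h2 := hsm R hR1' ℓ hℓ0 hℓ
    calc (S.card : ℝ) * s0 ≤ (q * (N * (1 + ℓ))) * s0 := by gcongr
      _ = ((q * N : ℕ) : ℝ) * (1 + ℓ) * R ^ (-(1 / 2) : ℝ) := by
          rw [hs0]
          push_cast
          ring
      _ < 1 / 2 := h2
  obtain ⟨t0, ht0, hav⟩ := avoid S
    (fun x => {t | t ∈ Icc s (s + 1) ∧
      ∃ t', G.d (pt G p t) (x.2 • pt G (tv M (c x.1)) t') ≤ δ}) s hs0pos.le hcard (by
    rintro ⟨i, γ'⟩ hi
    rw [hS, Finset.mem_sigma, Finset.mem_filter] at hi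
    have hnF := hi.2.2
    have key : ∀ t1 t2 : ℝ, t1 ∈ Icc s (s + 1) → t2 ∈ Icc s (s + 1) →
        (∃ t', G.d (pt G p t1) (γ' • pt G (tv M (c i)) t') ≤ δ) →
        (∃ t', G.d (pt G p t2) (γ' • pt G (tv M (c i)) t') ≤ δ) → t2 - t1 ≤ s0 := by
      rintro t1 t2 ht1 ht2 ⟨t1', h1⟩ ⟨t2', h2⟩
      by_contra hlt
      push Not at hlt
      apply hnF
      refine blocked h hp (act_unit h γ' (tv_unit M (hc i).1)) hs0pos ht1.1 ht2.2 hlt.le hδ8 hδ0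
        (t1' := t1') (t2' := t2') ?_ ?_ ?_
      · rw [pt_act h]; exact h1
      · rw [pt_act h]; exact h2
      · rw [hU.eb, hδs]
        unfold rh
        apply le_of_eq
        rw [← hs0]
        ring
    intro t ht t' ht'
    rw [abs_le]
    constructor
    · have := key t t' ht.1 ht'.1 ht.2 ht'.2
      linarith
    · exact key t' t ht'.1 ht.1 ht'.2 ht.2)
  refine ⟨t0, ht0, ?_⟩
  intro i γ t hd
  have hs1 : G.d (pt G p s) (γ • pt G (tv M (c i)) t) ≤ 2 := by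
    have h1 := h.d_tri (pt G p s) (pt G p t0) (γ • pt G (tv M (c i)) t)
    have h2 : G.d (pt G p s) (pt G p t0) ≤ 3 / 4 := by
      rw [d_pt h hp, abs_of_nonneg (by linarith [ht0.1])]
      linarith [ht0.2]
    linarith
  obtain ⟨γ', hγ', k, hk⟩ := hF i γ t hs1
  have hFl : Fl G (rh b Λ R) p (act G γ' (tv M (c i))) s := by
    by_contra hnF
    refine hav ⟨i, γ'⟩ ?_ ?_
    · rw [hS, Finset.mem_sigma, Finset.mem_filter]
      exact ⟨Finset.mem_univ _, hγ', hnF⟩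
    · refine ⟨⟨by linarith [ht0.1], by linarith [ht0.2]⟩, t + k * M.l (c i), ?_⟩
      show G.d (pt G p t0) (γ' • pt G (tv M (c i)) (t + k * M.l (c i))) ≤ δ
      rw [← rep_zpow M (hc i).1, ← mul_smul, ← hk]
      exact hd
  intro t1 ht1
  obtain ⟨t', h1⟩ := hFl t1 ht1
  refine ⟨t' + ((-k : ℤ) : ℝ) * M.l (c i), ?_⟩
  rw [pt_act h] at h1 ⊢
  rw [← rep_zpow M (hc i).1, hk, ← mul_smul]
  have h3 : γ' * M.rep (c i) ^ k * M.rep (c i) ^ (-k) = γ' := by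
    rw [mul_assoc, ← zpow_add, add_neg_cancel, zpow_zero, mul_one]
  rw [h3]
  exact h1

theorem detectP (D : Set Pl) (a b r : ℝ) (Λ q L0 : ℕ)
    (hL : ∀ z ∈ closure D, |z.1| ≤ (L0 : ℝ) - 1 ∧ |z.2| ≤ (L0 : ℝ) - 1) {Λ1 : ℝ}
    (hΛ : 1 ≤ Λ1) : ∃ R0 : ℝ, 1 ≤ R0 ∧
    ∀ G : Dat Γ, UC D a b r Λ G → ∀ (M : Cl G) (R : ℕ), R0 ≤ R →
      ∀ ℓ : ℝ, 0 ≤ ℓ → ℓ ≤ (R : ℝ) ^ (1 / 8 : ℝ) →
      ∀ c : Fin q → ConjClasses Γ, (∀ i, c i ≠ 1 ∧ M.l (c i) ≤ ℓ) →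
      ∀ lam : Fin q → ℝ, (∀ i, 1 / Λ1 ≤ |lam i|) →
      (∀ p ∈ grid L0 R, |∑ i, lam i * xi M R p (c i)| ≤ (R : ℝ) ^ (-(3 / 2) : ℝ)) →
      (∀ i, 0 < lam i → Par M (rh b Λ R) (imf c fun j => lam j < 0) (c i)) ∧
      ∀ i, lam i < 0 → Par M (rh b Λ R) (imf c fun j => 0 < lam j) (c i) := by
  obtain ⟨R1, hR1, hg⟩ := goodP (Γ := Γ) D a b r Λ q
  refine ⟨R1 + 3 * Λ + |1 / r| + (Λ1 * Λ) ^ 2, ?_, ?_⟩
  · have h1 : (0 : ℝ) ≤ 3 * Λ := by positivity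
    have h2 := abs_nonneg (1 / r)
    have h3 := sq_nonneg (Λ1 * Λ)
    linarith
  intro G hU M R hR ℓ hℓ0 hℓ c hc lam hl hs
  have h1 : (0 : ℝ) ≤ 3 * Λ := by positivity
  have h2 := abs_nonneg (1 / r)
  have h3 := sq_nonneg (Λ1 * Λ)
  have hR1' : R1 ≤ R := by linarith
  have hRone : (1 : ℝ) ≤ R := by linarith
  have hRn : 1 ≤ R := by exact_mod_cast hRone
  have hR3 : 3 * Λ ≤ R := by
    have : (3 * Λ : ℝ) ≤ R := by linarith
    exact_mod_cast this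
  have hΛ0 : (1 : ℝ) ≤ Λ := by exact_mod_cast hU.L_one
  have hRr : 1 ≤ Λ * R * r := by
    have h4 : 1 / r ≤ R := by
      have := le_abs_self (1 / r)
      linarith
    rw [div_le_iff₀ hU.r_pos] at h4
    have h5 : 0 ≤ (R : ℝ) * r := by linarith
    nlinarith
  have hRA : (Λ1 * Λ) ^ 2 + 1 ≤ (R : ℝ) := by linarith
  have hg' := hg G hU M R hR1' ℓ hℓ0 hℓ c hc
  refine ⟨fun i hi => B3_side hU hL M hΛ hRn hR3 hRr hRA (fun i => (hc i).1) hg' hl hs hi, ?_⟩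
  intro i hi
  have h4 := B3_side hU hL M hΛ hRn hR3 hRr hRA (fun i => (hc i).1) hg'
    (lam := fun j => -lam j) (fun i => by rw [abs_neg]; exact hl i) (fun p hp => by
      have h5 : ∑ i, -lam i * xi M R p (c i) = -∑ i, lam i * xi M R p (c i) := by
        rw [← Finset.sum_neg_distrib]
        exact Finset.sum_congr rfl fun _ _ => by ring
      rw [h5, abs_neg]
      exact hs p hp) (i := i) (by linarith)
  have h5 : (imf c fun j => -lam j < 0) = imf c fun j => 0 < lam j := by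
    congr 1
    funext j
    rw [neg_lt_zero]
  rw [h5] at h4
  exact h4

end E36
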