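import Pool.Agent.LibBE36E.SDefs

/-! Row S3 of BE36E (BE36, part E; architect helper86). The sum of the cell functions. EASY, 40 min.
Plan. Copy the proof of `BGM.per_bmq_le` (LibBGM20/Q1, line 87): `w = γ • z ∈ D` (`hX.orbit`, `PER_inv`), `K` as there, `T = (hX.proper K hKc).toFinset`; for every `p ∈ grid L R` the support of
`γ' ↦ bmq R p (γ' • w)` is contained in `T` (`bmq_bigSq`), so `fS = ∑ p ∈ S, ∑ γ' ∈ T, bmq R p (γ' • w) = ∑ γ' ∈ T, ∑ p ∈ S, ..` (`Finset.sum_comm`), and for one point `y = γ' • w` the terms with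
`bmq R p y ≠ 0` have `|R y.1 - p.1| < 2`, `|R y.2 - p.2| < 2` (`bmq_ball`), i.e. `p ∈ Icc (⌊R y.1⌋ - 2) (⌊R y.1⌋ + 2) ×ˢ Icc ..` (25 points), `bmq ≤ 1`: `∑ p ∈ S ≤ 25`. `C = 25 * T.card + 1`.
`fS_cont`: `per_cont` (LibBE35E/B1), `continuous_finsetSum`. `fS_ne`: `Finset.exists_ne_zero_of_sum_ne_zero`. `fS_int`: `intervalIntegral.integral_finsetSum` (continuity of `t ↦ pt G p t`: `HG.E_cont`, see the proof of `xi_low`, LibBE35E/B1). -/

open MeasureTheory Set Filter Topology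
open scoped ContDiff ENNReal NNReal ComplexConjugate

namespace E36

open BGS (Pl Surface grid per)
open SR85 E35

variable {Γ : Type} [Group Γ] [MulAction Γ Pl] {D : Set Pl} {G : Dat Γ}
variable {a b r : ℝ} {Λ : ℕ}

/-- At most 25 bump functions do not vanish at a given point. -/
theorem S3_near (R : ℕ) (S : Finset (ℤ × ℤ)) (y : Pl) : ∑ p ∈ S, BGM.bmq R p y ≤ 25 := by
  classical
  set Q : Finset (ℤ × ℤ) := Finset.Icc (⌊R * y.1⌋ - 2) (⌊R * y.1⌋ + 2) ×ˢ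
    Finset.Icc (⌊R * y.2⌋ - 2) (⌊R * y.2⌋ + 2) with hQ
  have key : ∀ (q : ℤ) (t : ℝ), |t - q| < 2 → q ∈ Finset.Icc (⌊t⌋ - 2) (⌊t⌋ + 2) := by
    intro q t h
    rw [abs_lt] at h
    have h1 := Int.floor_le t
    have h2 := Int.lt_floor_add_one t
    rw [Finset.mem_Icc]
    constructor
    · have h3 : ((⌊t⌋ - 2 : ℤ) : ℝ) < q := by push_cast; linarith
      have h4 : ⌊t⌋ - 2 < q := by exact_mod_cast h3
      linarith
    · have h3 : (q : ℝ) < ((⌊t⌋ + 3 : ℤ) : ℝ) := by push_cast; linarith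
      have h4 : q < ⌊t⌋ + 3 := by exact_mod_cast h3
      linarith
  have hmem : ∀ p : ℤ × ℤ, BGM.bmq R p y ≠ 0 → p ∈ Q := by
    intro p hp
    have h := BGM.bmq_ball hp
    rw [hQ, Finset.mem_product]
    exact ⟨key _ _ h.1, key _ _ h.2⟩
  have hc : ∀ n : ℤ, (Finset.Icc (n - 2) (n + 2)).card = 5 := by
    intro n
    rw [Int.card_Icc]
    have : n + 2 + 1 - (n - 2) = 5 := by ring
    rw [this]
    rfl
  have hcard : (Q.card : ℝ) = 25 := by
    rw [hQ, Finset.card_product, hc, hc]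
    norm_num
  calc ∑ p ∈ S, BGM.bmq R p y = ∑ p ∈ S.filter (fun p => p ∈ Q), BGM.bmq R p y := by
        rw [Finset.sum_filter]
        refine Finset.sum_congr rfl fun p _ => ?_
        by_cases hp : p ∈ Q
        · rw [if_pos hp]
        · rw [if_neg hp]
          by_contra hne
          exact hp (hmem p hne)
    _ ≤ ∑ p ∈ Q, BGM.bmq R p y := by
        refine Finset.sum_le_sum_of_subset_of_nonneg ?_ fun p _ _ => BGM.bmq_nonneg R p y
        intro p hp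
        exact (Finset.mem_filter.1 hp).2
    _ ≤ ∑ _p ∈ Q, (1 : ℝ) := Finset.sum_le_sum fun p _ => BGM.bmq_le_one R p y
    _ = 25 := by rw [Finset.sum_const, nsmul_eq_mul, mul_one, hcard]

theorem fS_le (hX : Surface Γ D) (L : ℕ) : ∃ C : ℝ, 1 ≤ C ∧ ∀ R : ℕ, 1 ≤ R →
    ∀ S : Finset (ℤ × ℤ), S ⊆ grid L R → ∀ z : Pl, 0 ≤ fS Γ R S z ∧ fS Γ R S z ≤ C := by
  classical
  set K : Set Pl := closure D ∪ Icc (-((L : ℝ) + 2)) (L + 2) ×ˢ Icc (-((L : ℝ) + 2)) (L + 2) with hK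
  have hKc : IsCompact K := hX.bdd.isCompact_closure.union (isCompact_Icc.prod isCompact_Icc)
  have hfin := hX.proper K hKc
  refine ⟨25 * hfin.toFinset.card + 1, ?_, fun R hR S hS z => ⟨?_, ?_⟩⟩
  · have : (0 : ℝ) ≤ 25 * hfin.toFinset.card := by positivity
    linarith
  · exact Finset.sum_nonneg fun p _ => BGM.per_bmq_nonneg R p z
  obtain ⟨γ, hγ, -⟩ := hX.orbit z
  set w : Pl := γ • z with hw
  have e1 : ∀ p ∈ S, per Γ (BGM.bmq R p) z = ∑ γ' ∈ hfin.toFinset, BGM.bmq R p (γ' • w) := by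
    intro p hp
    rw [← BGS.PER_inv (BGM.bmq R p) γ z, ← hw]
    have hsub : Function.support (fun γ' : Γ => BGM.bmq R p (γ' • w)) ⊆ hfin.toFinset := by
      intro γ' hγ'
      rw [Finset.mem_coe, Set.Finite.mem_toFinset]
      exact ⟨w, Or.inl (subset_closure hγ), Or.inr (BGM.bmq_bigSq hR (hS hp) hγ')⟩
    unfold per
    rw [finsum_eq_sum_of_support_subset _ hsub]
  unfold fS
  calc ∑ p ∈ S, per Γ (BGM.bmq R p) z
      = ∑ p ∈ S, ∑ γ' ∈ hfin.toFinset, BGM.bmq R p (γ' • w) := Finset.sum_congr rfl e1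
    _ = ∑ γ' ∈ hfin.toFinset, ∑ p ∈ S, BGM.bmq R p (γ' • w) := Finset.sum_comm
    _ ≤ ∑ _γ' ∈ hfin.toFinset, (25 : ℝ) := Finset.sum_le_sum fun γ' _ => S3_near R S (γ' • w)
    _ = 25 * hfin.toFinset.card := by rw [Finset.sum_const, nsmul_eq_mul, mul_comm]
    _ ≤ 25 * hfin.toFinset.card + 1 := by linarith

theorem fS_cont (hX : Surface Γ D) {R : ℕ} (hR : 1 ≤ R) (S : Finset (ℤ × ℤ)) :
    Continuous (fS Γ R S) ∧ ∀ (g : Γ) (x : Pl), fS Γ R S (g • x) = fS Γ R S x := by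
  constructor
  · unfold fS
    exact continuous_finsetSum _ fun p _ => (per_cont hX hR p).1
  · intro g x
    unfold fS
    exact Finset.sum_congr rfl fun p _ => (per_cont hX hR p).2 g x

theorem fS_ne {R : ℕ} {S : Finset (ℤ × ℤ)} {z : Pl} (h : fS Γ R S z ≠ 0) :
    ∃ p ∈ S, per Γ (BGM.bmq R p) z ≠ 0 := by
  unfold fS at h
  exact Finset.exists_ne_zero_of_sum_ne_zero h

theorem pt_cont (h : HG D G) (p : Pl × ℂ) : Continuous fun t : ℝ => pt G p t := by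
  unfold pt
  have h0 : Continuous fun t : ℝ => (p.1, (t : ℂ) * p.2) := by fun_prop
  exact h.E_cont.comp h0

theorem fS_int (hU : UC D a b r Λ G) (M : Cl G) {R : ℕ} (hR : 1 ≤ R) (S : Finset (ℤ × ℤ))
    (c : ConjClasses Γ) :
    ∑ p ∈ S, xi M R p c = ∫ t in (0 : ℝ)..M.l c, fS Γ R S (pt G (tv M c) t) := by
  unfold fS xi
  rw [intervalIntegral.integral_finsetSum]
  intro p _
  exact ((per_cont hU.hX hR p).1.comp (pt_cont hU.hg (tv M c))).intervalIntegrable _ _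

end E36
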