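import Pool.Agent.LibBE36E.Defs

/-! BE36, part E: definitions for `switch` and `parts`. -/

open MeasureTheory Set Filter Topology
open scoped ContDiff ENNReal NNReal ComplexConjugate

namespace E36

open BGS (Pl Surface grid per)
open SR85 E35

variable {Γ : Type} [Group Γ] [MulAction Γ Pl] {D : Set Pl} {G : Dat Γ}

/-- At the time `t` the geodesic of `p` stays close to two different lines of classes of `F`. -/
def Two (M : Cl G) (F : Finset (ConjClasses Γ)) (ρ : ℝ) (p : Pl × ℂ) (t : ℝ) : Prop :=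
  ∃ c₁ ∈ F, ∃ γ₁ : Γ, ∃ c₂ ∈ F, ∃ γ₂ : Γ,
    ¬ Same G (act G γ₁ (tv M c₁)) (act G γ₂ (tv M c₂)) ∧
    ∀ τ ∈ Icc (t - 2) (t + 2), (∃ u : ℝ, G.d (pt G p τ) (γ₁ • pt G (tv M c₁) u) ≤ ρ) ∧
      ∃ u : ℝ, G.d (pt G p τ) (γ₂ • pt G (tv M c₂) u) ≤ ρ

/-- The unit segment of `c` at the time `n` is close to a point of a translate of the line of `c'`
at a time in `W`, and follows this line. -/
def Ht (M : Cl G) (ρ δ : ℝ) (c c' : ConjClasses Γ) (W : Set ℝ) (n : ℕ) : Prop :=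
  ∃ γ : Γ, Fl G ρ (tv M c) (act G γ (tv M c')) n ∧ ∃ t ∈ Icc (n : ℝ) (n + 1), ∃ t' ∈ W,
    G.d (pt G (tv M c) t) (γ • pt G (tv M c') t') ≤ δ

/-- The sum of the cell functions of the cells in `S`. -/
noncomputable def fS (Γ : Type) [Group Γ] [MulAction Γ Pl] (R : ℕ) (S : Finset (ℤ × ℤ)) (z : Pl) :
    ℝ := ∑ p ∈ S, per Γ (BGM.bmq R p) z

end E36
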