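import Mathlib

/-! Row X1 of BE36E (BE36, part E; architect helper85). A covering lemma on the line. ONLY MATHLIB, SHORT/MEDIUM, 25 min.
Plan. Induction on `n` with `β - α ≤ n * m` (statement for all `α ≤ β`). If `α + f α ≥ β`: `E ∩ Icc α β ⊆ E ∩ Icc α (α + f α)`, so the volume is `≤ ofReal (δ * f α) ≤ ofReal (δ * (β - α + M))` (`f α ≤ M`). This covers `n = 0` (`β = α`, `f α ≥ m > 0`).
If `α' := α + f α < β`: `Icc α β ⊆ Icc α α' ∪ Icc α' β`, `β - α' ≤ (n - 1) m` since `f α ≥ m`, so by induction for `[α', β]` (the hypotheses restrict) the volume is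
`≤ ofReal (δ * f α) + ofReal (δ * (β - α' + M)) = ofReal (δ * (β - α + M))` (`ENNReal.ofReal_add`, both `≥ 0`; `M ≥ m > 0`). -/

open MeasureTheory Set Filter Topology
open scoped ENNReal NNReal

namespace E36

private theorem greedy_aux {E : Set ℝ} {f : ℝ → ℝ} {β m M δ : ℝ} (hm : 0 < m) (hδ : 0 ≤ δ)
    (n : ℕ) : ∀ α : ℝ, α ≤ β → β - α ≤ n * m → (∀ θ ∈ Icc α β, m ≤ f θ ∧ f θ ≤ M) →
    (∀ θ ∈ Icc α β, volume (E ∩ Icc θ (θ + f θ)) ≤ ENNReal.ofReal (δ * f θ)) →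
    volume (E ∩ Icc α β) ≤ ENNReal.ofReal (δ * (β - α + M)) := by
  induction n with
  | zero =>
    intro α hαβ hn hf hE
    have hα : α ∈ Icc α β := ⟨le_rfl, hαβ⟩
    obtain ⟨h1, h2⟩ := hf α hα
    refine (measure_mono (inter_subset_inter_right E (Icc_subset_Icc le_rfl ?_))).trans
      ((hE α hα).trans (ENNReal.ofReal_le_ofReal (mul_le_mul_of_nonneg_left ?_ hδ)))
    · rw [Nat.cast_zero, zero_mul] at hn
      linarith
    · linarith
  | succ n ih =>
    intro α hαβ hn hf hE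
    have hα : α ∈ Icc α β := ⟨le_rfl, hαβ⟩
    obtain ⟨h1, h2⟩ := hf α hα
    by_cases hc : β ≤ α + f α
    · refine (measure_mono (inter_subset_inter_right E (Icc_subset_Icc le_rfl hc))).trans
        ((hE α hα).trans (ENNReal.ofReal_le_ofReal (mul_le_mul_of_nonneg_left ?_ hδ)))
      linarith
    · push Not at hc
      have hsub : Icc (α + f α) β ⊆ Icc α β := Icc_subset_Icc (by linarith) le_rfl
      have h3 := ih (α + f α) hc.le (by push_cast at hn; linarith) (fun θ hθ => hf θ (hsub hθ))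
        (fun θ hθ => hE θ (hsub hθ))
      have h4 : E ∩ Icc α β ⊆ (E ∩ Icc α (α + f α)) ∪ (E ∩ Icc (α + f α) β) := by
        rintro x ⟨hx1, hx2, hx3⟩
        rcases le_total x (α + f α) with h5 | h5
        · exact Or.inl ⟨hx1, hx2, h5⟩
        · exact Or.inr ⟨hx1, h5, hx3⟩
      refine (measure_mono h4).trans ((measure_union_le _ _).trans
        ((add_le_add (hE α hα) h3).trans (le_of_eq ?_)))
      rw [← ENNReal.ofReal_add (mul_nonneg hδ (by linarith)) (mul_nonneg hδ (by linarith))]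
      congr 1
      ring

theorem greedy {E : Set ℝ} {f : ℝ → ℝ} {α β m M δ : ℝ} (hαβ : α ≤ β) (hm : 0 < m) (hδ : 0 ≤ δ)
    (hf : ∀ θ ∈ Icc α β, m ≤ f θ ∧ f θ ≤ M)
    (hE : ∀ θ ∈ Icc α β, volume (E ∩ Icc θ (θ + f θ)) ≤ ENNReal.ofReal (δ * f θ)) :
    volume (E ∩ Icc α β) ≤ ENNReal.ofReal (δ * (β - α + M)) := by
  obtain ⟨n, hn⟩ := exists_nat_ge ((β - α) / m)
  exact greedy_aux hm hδ n α hαβ ((div_le_iff₀ hm).1 hn) hf hE

end E36
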