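import Pool.Agent.LibBE36E.Defs
import Pool.Agent.LibSR85.C5

/-! Row X2 of BE36E (BE36, part E; architect helper85). Small arcs of a circle about `x`, with uniform constants. MEDIUM, 60 min. TEMPLATE: `SR85.C5_one`, `SR85.arc` (LibSR85/C5.lean, proved; same statement for one metric with a constant of that metric).
Plan. Write `P θ = G.E x (t exp(θ I))`. `N ≥ 16 (Λ + 1)`, so that `Λ (1 + t) ^ Λ * (2 m) ≤ 1 / 4`, `2 m ≤ 1 / 8` (`(1 + t) ^ N ≥ (1 + t) ^ Λ` since `1 + t ≥ 1`). `distortion`: if `d (P θ) z ≤ 2 m` then by `UC.jac x (P θ) x z` (`d x (P θ) = t ≥ 3`: `d_E`; `d x x = 0`) and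
`J_E` (`G.J x (G.E x (t u)) = G.B x u t` for `t > 0`) `|log B(θ) - log J x z| ≤ 1 / 4`. So as long as the distance `d (P θ) (P φ)` is at most `2 m`, `B(φ) ≤ exp (1 / 4) B(θ) ≤ 2 B(θ)` and `B(θ) ≤ 2 B(φ)`; and the length of the arc from `θ` to `φ` is at most
`∫ B ≤ exp(1 / 4) |φ - θ| B(θ) < 2 m` (derivative of `φ ↦ P φ`: `HG.E_u`, speed `B`; distance `≤` length as in the template). The template makes this bootstrap for the constant `C` of `hd`, but uses `hd` only at `x = P θ`-points with distance at most `1` (here: at most `1 / 8`): copy it with the local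
distortion. (`t = 0`, `m < 0`: `B > 0` by `B_pos`, so `m ≥ 0`; if `m = 0` then `θ' = θ`.) -/

open MeasureTheory Set Filter Topology
open scoped ContDiff ENNReal NNReal ComplexConjugate

namespace E36

open BGS (Pl Surface grid per)
open SR85 E35

variable {Γ : Type} [Group Γ] [MulAction Γ Pl] {D : Set Pl} {G : Dat Γ}
variable {a b r : ℝ} {Λ : ℕ}

/-- one sign -/
private theorem X2_one (h : HG D G) (o : Pl) (w : ℝ → ℂ) (t σ η m : ℝ) (hw : ∀ r, ‖w r‖ = 1)
    (hσ : |σ| = 1) (hw' : ∀ s, HasDerivAt w (Complex.I * w s * σ) s) (ht : 3 ≤ t) (hη : 0 ≤ η)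
    (hm : 0 < m)
    (hd : ∀ x' : Pl, G.d (G.E o ((t : ℂ) * w 0)) x' ≤ 2 * m →
      |Real.log (G.J o (G.E o ((t : ℂ) * w 0))) - Real.log (G.J o x')| ≤ 1 / 2)
    (hc : η * G.B o (w 0) t ≤ m) :
    G.d (G.E o ((t : ℂ) * w 0)) (G.E o ((t : ℂ) * w η)) ≤ 2 * m ∧
      G.B o (w η) t ≤ 2 * G.B o (w 0) t ∧ G.B o (w 0) t ≤ 2 * G.B o (w η) t := by
  have ht0 : 0 < t := by linarith
  have hwc : Continuous w := continuous_iff_continuousAt.2 fun s => (hw' s).continuousAt
  set f : ℝ → ℝ := fun φ => G.B o (w φ) t with hf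
  have hfpos : ∀ φ, 0 < f φ := fun φ => B_pos h o (hw φ) ht0
  have hfc : Continuous f := by
    have h1 : Continuous fun φ : ℝ => ((o, w φ, t) : Pl × ℂ × ℝ) := by fun_prop
    exact h.B_cont.comp_continuous h1 fun φ => hw φ
  set y : ℝ → Pl := fun φ => G.E o ((t : ℂ) * w φ) with hy
  have hyd : ∀ s, ∃ p : Pl, HasDerivAt y p s ∧ ‖G.fi (y s) p‖ = f s := by
    intro s
    obtain ⟨p, hp, hp2⟩ := h.E_u o t w s σ hw (hw' s)
    refine ⟨p, hp, ?_⟩
    show ‖G.fi (G.E o ((t : ℂ) * w s)) p‖ = f s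
    rw [hp2, norm_mul, norm_mul, Complex.norm_I, h.dr_norm o (w s) (hw s) t, Complex.norm_real,
      Real.norm_eq_abs, abs_mul, hσ, mul_one, mul_one, mul_one]
    exact abs_of_pos (hfpos s)
  choose y' hy' hy'' using hyd
  set L : ℝ → ℝ := fun φ => ∫ s in (0 : ℝ)..φ, f s with hL
  have hlen : ∀ φ, 0 ≤ φ → G.d (y 0) (y φ) ≤ L φ := fun φ hφ =>
    len h hφ (fun s _ => hy' s) f hfc (fun s _ => (hy'' s).le)
  have hint : ∀ a b : ℝ, IntervalIntegrable f volume a b := fun a b => hfc.intervalIntegrable a b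
  have hLmono : ∀ a b, 0 ≤ a → a ≤ b → L a ≤ L b := by
    intro a b _ hab
    have : L b = L a + ∫ s in a..b, f s :=
      (intervalIntegral.integral_add_adjacent_intervals (hint 0 a) (hint a b)).symm
    rw [this]
    have h2 : 0 ≤ ∫ s in a..b, f s :=
      intervalIntegral.integral_nonneg hab fun s _ => (hfpos s).le
    linarith
  have hLc : Continuous L := intervalIntegral.continuous_primitive hint 0
  have hL0 : L 0 = 0 := by simp [hL]
  have hJ : ∀ φ, G.J o (y φ) = f φ := fun φ => J_E h o (hw φ) ht0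
  have hdist : ∀ φ, G.d (y 0) (y φ) ≤ 2 * m → f φ ≤ 17 / 10 * f 0 ∧ f 0 ≤ 17 / 10 * f φ := by
    intro φ hφ
    have h1 : |Real.log (G.J o (y 0)) - Real.log (G.J o (y φ))| ≤ 1 / 2 := hd (y φ) hφ
    rw [hJ, hJ] at h1
    obtain ⟨h2, h3⟩ := abs_le.1 h1
    constructor
    · calc f φ = Real.exp (Real.log (f φ)) := (Real.exp_log (hfpos φ)).symm
        _ ≤ Real.exp (1 / 2 + Real.log (f 0)) := Real.exp_le_exp.2 (by linarith)
        _ = Real.exp (1 / 2) * f 0 := by rw [Real.exp_add, Real.exp_log (hfpos 0)]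
        _ ≤ 17 / 10 * f 0 := mul_le_mul_of_nonneg_right C5_exp_half (hfpos 0).le
    · calc f 0 = Real.exp (Real.log (f 0)) := (Real.exp_log (hfpos 0)).symm
        _ ≤ Real.exp (1 / 2 + Real.log (f φ)) := Real.exp_le_exp.2 (by linarith)
        _ = Real.exp (1 / 2) * f φ := by rw [Real.exp_add, Real.exp_log (hfpos φ)]
        _ ≤ 17 / 10 * f φ := mul_le_mul_of_nonneg_right C5_exp_half (hfpos φ).le
  have hkey : ∀ φ, 0 ≤ φ → L φ ≤ 2 * m → f φ ≤ 17 / 10 * f 0 ∧ f 0 ≤ 17 / 10 * f φ := by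
    intro φ hφ hLφ
    exact hdist φ ((hlen φ hφ).trans hLφ)
  have hLη : L η < 2 * m := by
    by_contra hcon
    push Not at hcon
    obtain ⟨φ, hφ, hLφ⟩ := intermediate_value_Icc hη hLc.continuousOn
      ⟨by rw [hL0]; positivity, hcon⟩
    have h1 : L φ ≤ ∫ s in (0 : ℝ)..φ, 17 / 10 * f 0 := by
      apply intervalIntegral.integral_mono_on hφ.1 (hint 0 φ) (by simp)
      intro s hs
      exact (hkey s hs.1 (by rw [← hLφ]; exact hLmono s φ hs.1 hs.2)).1
    rw [intervalIntegral.integral_const, smul_eq_mul, sub_zero, hLφ] at h1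
    have h2 : φ * (17 / 10 * f 0) ≤ η * (17 / 10 * f 0) :=
      mul_le_mul_of_nonneg_right hφ.2 (by have := hfpos 0; positivity)
    have h3 : η * f 0 ≤ m := hc
    have h4 : η * (17 / 10 * f 0) = 17 / 10 * (η * f 0) := by ring
    linarith
  have h1 := hlen η hη
  obtain ⟨h2, h2'⟩ := hkey η hη hLη.le
  have h3 := hfpos 0
  have h3' := hfpos η
  refine ⟨h1.trans hLη.le, ?_, ?_⟩
  · show f η ≤ 2 * f 0
    linarith
  · show f 0 ≤ 2 * f η
    linarith

theorem arcU (D : Set Pl) (a b r : ℝ) (Λ : ℕ) : ∃ N : ℕ, 1 ≤ N ∧ ∀ G : Dat Γ, UC D a b r Λ G →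
    ∀ (x : Pl) (t θ θ' m : ℝ), 3 ≤ t → N * (1 + t) ^ N * m ≤ 1 →
      |θ' - θ| * G.B x (Complex.exp ((θ : ℂ) * Complex.I)) t ≤ m →
      G.d (pt G (x, Complex.exp ((θ : ℂ) * Complex.I)) t)
          (pt G (x, Complex.exp ((θ' : ℂ) * Complex.I)) t) ≤ 2 * m ∧
        G.B x (Complex.exp ((θ' : ℂ) * Complex.I)) t ≤
          2 * G.B x (Complex.exp ((θ : ℂ) * Complex.I)) t ∧
        G.B x (Complex.exp ((θ : ℂ) * Complex.I)) t ≤
          2 * G.B x (Complex.exp ((θ' : ℂ) * Complex.I)) t := by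
  refine ⟨16 * (Λ + 1), by omega, ?_⟩
  intro G hG x t θ θ' m ht hm hB
  have h := hG.hg
  have ht0 : 0 < t := by linarith
  have hu : ∀ ψ : ℝ, ‖Complex.exp ((ψ : ℂ) * Complex.I)‖ = 1 := fun ψ =>
    Complex.norm_exp_ofReal_mul_I ψ
  have hBpos : ∀ ψ : ℝ, 0 < G.B x (Complex.exp ((ψ : ℂ) * Complex.I)) t := fun ψ =>
    B_pos h x (hu ψ) ht0
  have hm0 : 0 ≤ m := le_trans (mul_nonneg (abs_nonneg _) (hBpos θ).le) hB
  rcases hm0.eq_or_lt with hm1 | hm1
  · -- `m = 0`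
    rw [← hm1] at hB
    have h0 : |θ' - θ| = 0 := by
      have h1 := mul_nonneg (abs_nonneg (θ' - θ)) (hBpos θ).le
      have h2 := le_antisymm hB h1
      rcases mul_eq_zero.1 h2 with h3 | h3
      · exact h3
      · exact absurd h3 (hBpos θ).ne'
    have h1 : θ' = θ := by
      have := abs_eq_zero.1 h0
      linarith
    subst h1
    refine ⟨?_, ?_, ?_⟩
    · rw [d_self h, ← hm1, mul_zero]
    · have := hBpos θ'
      linarith
    · have := hBpos θ'
      linarith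
  · have hN : (1 : ℝ) ≤ (1 + t) ^ (16 * (Λ + 1)) := one_le_pow₀ (by linarith)
    have hL1 : (1 : ℝ) ≤ Λ := by exact_mod_cast hG.L_one
    have e0 : (((16 * (Λ + 1) : ℕ)) : ℝ) = 16 * ((Λ : ℝ) + 1) := by push_cast; ring
    rw [e0] at hm
    have e1 : (Λ : ℝ) * (1 + t) ^ Λ * (2 * m) ≤ 1 / 2 := by
      have e2 : (1 + t) ^ Λ ≤ (1 + t) ^ (16 * (Λ + 1)) :=
        pow_le_pow_right₀ (by linarith) (by omega)
      have e3 : (Λ : ℝ) * (1 + t) ^ Λ * m ≤ (16 * ((Λ : ℝ) + 1)) / 16 *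
          (1 + t) ^ (16 * (Λ + 1)) * m := by
        gcongr
        linarith
      have e4 : (16 * ((Λ : ℝ) + 1)) / 16 * (1 + t) ^ (16 * (Λ + 1)) * m =
          (16 * ((Λ : ℝ) + 1) * (1 + t) ^ (16 * (Λ + 1)) * m) / 16 := by ring
      rw [e4] at e3
      have e5 : (Λ : ℝ) * (1 + t) ^ Λ * (2 * m) = 2 * ((Λ : ℝ) * (1 + t) ^ Λ * m) := by ring
      rw [e5]
      linarith
    have e6 : 2 * m ≤ 1 / 4 := by
      have e7 : 16 * 1 * 1 * m ≤ 16 * ((Λ : ℝ) + 1) * (1 + t) ^ (16 * (Λ + 1)) * m := by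
        gcongr
        linarith
      linarith
    obtain ⟨σ, hσ, hσθ⟩ : ∃ σ : ℝ, |σ| = 1 ∧ σ * |θ' - θ| = θ' - θ := by
      rcases le_total 0 (θ' - θ) with h0 | h0
      · exact ⟨1, by simp, by rw [abs_of_nonneg h0, one_mul]⟩
      · exact ⟨-1, by simp, by rw [abs_of_nonpos h0]; ring⟩
    set w : ℝ → ℂ := fun φ => Complex.exp (((θ + σ * φ : ℝ) : ℂ) * Complex.I) with hw
    have hw' : ∀ s, HasDerivAt w (Complex.I * w s * σ) s := by
      intro s
      have h1 : HasDerivAt (fun φ : ℝ => ((θ + σ * φ : ℝ) : ℂ)) ((σ : ℝ) : ℂ) s := by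
        have h2 : HasDerivAt (fun φ : ℝ => θ + σ * φ) σ s := by
          simpa using ((hasDerivAt_id s).const_mul σ).const_add θ
        exact h2.ofReal_comp
      have h3 := (h1.mul_const Complex.I).cexp
      have h4 : Complex.I * w s * σ =
          Complex.exp (((θ + σ * s : ℝ) : ℂ) * Complex.I) * ((σ : ℂ) * Complex.I) := by
        simp only [hw]
        ring
      rw [h4]
      exact h3
    have hw0 : w 0 = Complex.exp ((θ : ℂ) * Complex.I) := by simp [hw]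
    have hwθ : w |θ' - θ| = Complex.exp ((θ' : ℂ) * Complex.I) := by
      simp only [hw]
      rw [hσθ]
      congr 2
      push_cast
      ring
    have hdE : G.d x (G.E x ((t : ℂ) * w 0)) = t := by
      have := d_E h x (hu θ) t
      rw [abs_of_pos ht0] at this
      rw [hw0]
      exact this
    have hd : ∀ x' : Pl, G.d (G.E x ((t : ℂ) * w 0)) x' ≤ 2 * m →
        |Real.log (G.J x (G.E x ((t : ℂ) * w 0))) - Real.log (G.J x x')| ≤ 1 / 2 := by
      intro x' hx'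
      have h1 := hG.jac x (G.E x ((t : ℂ) * w 0)) x x' (by rw [hdE]; linarith)
        (by rw [d_self h, zero_add]; exact hx'.trans e6)
      rw [hdE, d_self h, zero_add] at h1
      refine h1.trans (le_trans ?_ e1)
      gcongr
    have := X2_one h x w t σ |θ' - θ| m (fun r => hu _) hσ hw' ht (abs_nonneg _) hm1 hd
      (by rw [hw0]; exact hB)
    rw [hw0, hwθ] at this
    exact this

end E36
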