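import Pool.Agent.LibBE36E.X2

/-! Row X3 of BE36E (BE36, part E; architect helper85). One encounter confines the direction to a small arc. STRONG, 90 min.
Plan. Write `P θ t = pt G (x, exp(θ I)) t`, `B θ = G.B x (exp(θ I)) d.t`, `t0 = d.t ≥ 3`, `δ = ρ + exp (-(a h))`. Let `N₁` be the constant of `arcU`; take `N0 ≥ N₁`, `N0 ≥ 64 / r` and `N0 ≥ Λ + 1`, so that with `m = 1 / (N0 (1 + T) ^ N0)` (`≥ 1 / (N0 (1 + t0) ^ N0)`; `m ≤ r / 64`) `arcU` gives for `θ` in the interval: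
`d (P θ0 t0) (P θ t0) ≤ 2 m` and `B θ0 ≤ 2 B θ` (the first claim). Let `θ, θ'` be in the interval, both with `Hit`: `g, u` and `g', u'` (`|u - u'| ≤ r / 16`, same `d.u`, `d.e = e`, same source). `d (P θ t0) (P θ' t0) ≤ 4 m ≤ r / 16`; both vectors start at `x`, so for `0 ≤ s ≤ t0` `d (P θ s) (P θ' s) ≤ r / 16`, and
`≤ exp (2 a) * exp (-(a h))` if `s ≤ t0 - h - 1` (`SR85.contr` with `x, x'` := `P θ t0, P θ' t0`, `di x (P θ t0) = exp(θ I)`: `di_E`; `G.d x (P θ t0) = t0`; `contr` is also monotone enough: its bound is `d * exp (-(a (t0 - d - s)))`, valid for `s + d ≤ t0`).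
(1) `g = g'`: (source `q`) `d (g • pt q u) (g' • pt q u') ≤ ρ + r / 16 + ρ` at `v = 0`, and `d (pt q u) (pt q u') ≤ r / 16`, so `d (g • z) (g' • z) < r` with `z = pt q u`: `sys_eq`. (source the vector itself) the same with `z = P θ u`, `d (P θ u) (P θ' u') ≤ |u - u'| + r / 16`.
(`2 ρ ≤ r / 8` from the smallness hypothesis.)
(2) the two points are close: with `w = u' - u`, `|w| ≤ r / 16 ≤ 1`, say `w = e * s` with `s ∈ [0, 1]` (the other case by exchanging `θ, θ'`): `g • pt q u' = g • pt q (u + e * s)` is within `ρ` of `P θ (t0 + s)` and within `ρ` (known source) or `ρ + exp (2 a - a h)` (own source: `d (P θ u') (P θ' u')`)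
of `P θ' t0`. The distances from `x` are `t0 + s` and `t0`, so `s ≤ 2 ρ + exp (2 a - a h) =: δ₁`, and `d (P θ t0) (P θ' t0) ≤ s + δ₁ ≤ 2 δ₁ ≤ C δ`.
(3) `SR85.angle` with `o = x`, `y = P θ t0`, `y' = P θ' t0`, `j = B θ0 / 4`: for `d y z ≤ C δ` (`≤ 1 / 8`, `Λ (1 + T) ^ Λ C δ ≤ 1 / 4`) `UC.jac x y x z` gives `J x z ≥ B θ / 2 ≥ B θ0 / 4` (`arcU`, `J_E`), `z ≠ x`. So `‖exp(θ I) - exp(θ' I)‖ ≤ 4 C δ / B θ0`, and
`|θ - θ'| ≤ 2 * ` this (`C7_chord`, LibSR85/C7; `|θ - θ'| ≤ 2 / (N0 ..) ≤ π`, `B θ0 ≥ 1`: `B_low`). All such `θ` are within `8 C δ / B θ0` of one of them (if there is one): `α' = θ₁ - 8 C δ / B θ0`, and the length `16 C δ / B θ0` is `≤ N (1 + T) ^ N * δ * (1 / (N0 (1 + T) ^ N0 * B θ0))` for `N ≥ 16 C N0 + N0`. -/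

open MeasureTheory Set Filter Topology
open scoped ContDiff ENNReal NNReal ComplexConjugate

namespace E36

open BGS (Pl Surface grid per)
open SR85 E35

variable {Γ : Type} [Group Γ] [MulAction Γ Pl] {D : Set Pl} {G : Dat Γ}
variable {a b r : ℝ} {Λ : ℕ}

private theorem X3_chord {θ : ℝ} (hθ : |θ| ≤ Real.pi) :
    |θ| ≤ 2 * ‖Complex.exp ((θ : ℂ) * Complex.I) - 1‖ := by
  have h1 : ‖Complex.exp ((θ : ℂ) * Complex.I) - 1‖ = 2 * |Real.sin (θ / 2)| := by
    rw [mul_comm, Complex.norm_exp_I_mul_ofReal_sub_one]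
    simp
  have h2 : 2 / Real.pi * (|θ| / 2) ≤ Real.sin (|θ| / 2) :=
    Real.mul_le_sin (by positivity) (by linarith)
  have h3 : |Real.sin (θ / 2)| = Real.sin (|θ| / 2) := by
    have hs : 0 ≤ Real.sin (|θ| / 2) := le_trans (by positivity) h2
    rcases le_total 0 θ with h | h
    · rw [abs_of_nonneg h] at hs ⊢
      rw [abs_of_nonneg hs]
    · rw [abs_of_nonpos h] at hs ⊢
      rw [neg_div, Real.sin_neg] at hs ⊢
      rw [abs_of_nonpos (by linarith)]
  rw [h1, h3]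
  have h4 : |θ| / 4 ≤ 2 / Real.pi * (|θ| / 2) := by
    have hp : 0 < Real.pi := Real.pi_pos
    have hp4 : Real.pi ≤ 4 := Real.pi_le_four
    have : 2 / Real.pi * (|θ| / 2) = |θ| / Real.pi := by field_simp
    rw [this]
    exact div_le_div_of_nonneg_left (abs_nonneg _) hp hp4
  linarith

/-- Two rays from `x` which are close at the time `t0` are exponentially close before. -/
private theorem ray_close (hU : UC D a b r Λ G) (x : Pl) {w w' : ℂ} (hw : ‖w‖ = 1)
    (hw' : ‖w'‖ = 1) {t0 s : ℝ} (ht0 : 0 < t0) (hs : 0 ≤ s)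
    (hsd : s + G.d (pt G (x, w) t0) (pt G (x, w') t0) ≤ t0) :
    G.d (pt G (x, w) s) (pt G (x, w') s) ≤ G.d (pt G (x, w) t0) (pt G (x, w') t0) *
      Real.exp (-(a * (t0 - G.d (pt G (x, w) t0) (pt G (x, w') t0) - s))) := by
  have h1 : G.di x (pt G (x, w) t0) = w := di_E hU.hg x hw ht0
  have h2 : G.di x (pt G (x, w') t0) = w' := di_E hU.hg x hw' ht0
  have h3 : G.d x (pt G (x, w) t0) = t0 := by
    have := d_E hU.hg x hw t0
    rw [abs_of_pos ht0] at this
    exact this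
  have h4 := contr hU.hg x (pt G (x, w) t0) (pt G (x, w') t0) hs (by rw [h3]; exact hsd)
  rw [h1, h2, h3, hU.ea] at h4
  exact h4

private theorem a_pos (hU : UC D a b r Λ G) : 0 < a := by
  rw [← hU.ea]; exact hU.hg.a_pos

private theorem src_none {d : Dt} (hq : d.q = none) (p : Pl × ℂ) : src d p = p := by
  unfold src; rw [hq]; rfl

private theorem src_some {d : Dt} {q : Pl × ℂ} (hq : d.q = some q) (p : Pl × ℂ) :
    src d p = q := by
  unfold src; rw [hq]; rfl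

/-- Two vectors at `x` with an encounter of the same datum. -/
private theorem hit_pair (hU : UC D a b r Λ G) {x : Pl} {w w' : ℂ} (hw : ‖w‖ = 1)
    (hw' : ‖w'‖ = 1) {T ρ h : ℝ} {d : Dt} (hh : 0 ≤ h) (hok : Ok h T d)
    (hρr : ρ ≤ r / 16) (hclose : G.d (pt G (x, w) d.t) (pt G (x, w') d.t) ≤ r / 16)
    {g g' : Γ} {u u' : ℝ} (hu : u ∈ Icc d.u (d.u + r / 16)) (hu' : u' ∈ Icc d.u (d.u + r / 16))
    (hg : ∀ v ∈ Icc (0 : ℝ) 1,
      G.d (pt G (x, w) (d.t + v)) (g • pt G (src d (x, w)) (u + d.e * v)) ≤ ρ)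
    (hg' : ∀ v ∈ Icc (0 : ℝ) 1,
      G.d (pt G (x, w') (d.t + v)) (g' • pt G (src d (x, w')) (u' + d.e * v)) ≤ ρ)
    (hord : 0 ≤ d.e * (u' - u)) :
    G.d (pt G (x, w) d.t) (pt G (x, w') d.t) ≤ 2 * (2 * ρ + Real.exp (-(a * h))) := by
  obtain ⟨he, ht3, htT, hqs, hqn⟩ := hok
  have ha := a_pos hU
  have hr1 := hU.r_le
  have hr0 := hU.r_pos
  have hexp : (0 : ℝ) < Real.exp (-(a * h)) := Real.exp_pos _
  -- the sources
  have hsu : ‖(src d (x, w)).2‖ = 1 := by
    rcases hq : d.q with _ | q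
    · rw [src_none hq]; exact hw
    · rw [src_some hq]; exact hqs q hq
  have key : ∀ s, (d.q = none → 0 ≤ s ∧ s ≤ d.t - h - 15 / 16) →
      G.d (pt G (src d (x, w)) s) (pt G (src d (x, w')) s) ≤ Real.exp (-(a * h)) ∧
      G.d (pt G (src d (x, w)) s) (pt G (src d (x, w')) s) ≤ r / 16 := by
    intro s hs
    rcases hq : d.q with _ | q
    · rw [src_none hq, src_none hq]
      obtain ⟨h1, h2⟩ := hs hq
      set δ := G.d (pt G (x, w) d.t) (pt G (x, w') d.t) with hδ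
      have hδ0 : 0 ≤ δ := norm_nonneg _
      have h3 := ray_close hU x hw hw' (t0 := d.t) (s := s) (by linarith) h1 (by
        rw [← hδ]; linarith)
      rw [← hδ] at h3
      have h4 : Real.exp (-(a * (d.t - δ - s))) ≤ Real.exp (-(a * h)) := by
        apply Real.exp_le_exp.2
        have : a * h ≤ a * (d.t - δ - s) := mul_le_mul_of_nonneg_left (by linarith) ha.le
        linarith
      have h5 : Real.exp (-(a * (d.t - δ - s))) ≤ 1 := by
        apply Real.exp_le_one_iff.2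
        have : 0 ≤ a * (d.t - δ - s) := mul_nonneg ha.le (by linarith)
        linarith
      constructor
      · calc _ ≤ δ * Real.exp (-(a * (d.t - δ - s))) := h3
          _ ≤ 1 * Real.exp (-(a * h)) := by
            apply mul_le_mul (by linarith) h4 (Real.exp_pos _).le (by norm_num)
          _ = _ := one_mul _
      · calc _ ≤ δ * Real.exp (-(a * (d.t - δ - s))) := h3
          _ ≤ δ * 1 := mul_le_mul_of_nonneg_left h5 hδ0
          _ ≤ r / 16 := by rw [mul_one]; exact hclose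
    · rw [src_some hq, src_some hq, d_self hU.hg]
      exact ⟨hexp.le, by positivity⟩
  have hu'ok : d.q = none → 0 ≤ u' ∧ u' ≤ d.t - h - 15 / 16 := by
    intro hq
    obtain ⟨h1, h2⟩ := hqn hq
    exact ⟨by linarith [hu'.1], by linarith [hu'.2]⟩
  obtain ⟨k1, k2⟩ := key u' hu'ok
  have h0 := hg 0 ⟨le_rfl, zero_le_one⟩
  have h0' := hg' 0 ⟨le_rfl, zero_le_one⟩
  rw [add_zero, mul_zero, add_zero] at h0 h0'
  have habs : |u' - u| ≤ r / 16 := by
    rw [abs_le]
    constructor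
    · linarith [hu.1, hu.2, hu'.1, hu'.2]
    · linarith [hu.1, hu.2, hu'.1, hu'.2]
  -- the group elements agree
  have hgg : g = g' := by
    apply sys_eq hU (x := pt G (src d (x, w)) u)
    have t1 := hU.hg.d_tri (g • pt G (src d (x, w)) u) (pt G (x, w) d.t)
      (g' • pt G (src d (x, w)) u)
    have t2 := hU.hg.d_tri (pt G (x, w) d.t) (pt G (x, w') d.t) (g' • pt G (src d (x, w)) u)
    have t3 := hU.hg.d_tri (pt G (x, w') d.t) (g' • pt G (src d (x, w')) u')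
      (g' • pt G (src d (x, w)) u)
    have t4 := hU.hg.d_tri (pt G (src d (x, w')) u') (pt G (src d (x, w)) u')
      (pt G (src d (x, w)) u)
    have t5 : G.d (pt G (src d (x, w)) u') (pt G (src d (x, w)) u) = |u - u'| :=
      d_pt hU.hg hsu u' u
    rw [abs_sub_comm] at t5
    rw [d_smul hU.hg] at t3
    rw [hU.hg.d_symm (pt G (src d (x, w')) u') (pt G (src d (x, w)) u')] at t4
    rw [hU.hg.d_symm (g • pt G (src d (x, w)) u) (pt G (x, w) d.t)] at t1
    linarith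
  subst hgg
  -- the shift
  set s := d.e * (u' - u) with hs
  have hes : d.e * s = u' - u := by
    rw [hs, ← mul_assoc]
    rcases he with h1 | h1 <;> rw [h1] <;> ring
  have hs1 : s ≤ 1 := by
    have : |s| = |u' - u| := by
      rw [hs, abs_mul]
      rcases he with h1 | h1 <;> rw [h1] <;> simp
    have h2 := le_abs_self s
    linarith
  have h1 := hg s ⟨hord, hs1⟩
  rw [hes, add_sub_cancel] at h1
  -- the points at the times `t0 + s` and `t0`
  have hcl : G.d (pt G (x, w) (d.t + s)) (pt G (x, w') d.t) ≤ 2 * ρ + Real.exp (-(a * h)) := by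
    have t1 := hU.hg.d_tri (pt G (x, w) (d.t + s)) (g • pt G (src d (x, w)) u')
      (pt G (x, w') d.t)
    have t2 := hU.hg.d_tri (g • pt G (src d (x, w)) u') (g • pt G (src d (x, w')) u')
      (pt G (x, w') d.t)
    rw [d_smul hU.hg] at t2
    rw [hU.hg.d_symm (g • pt G (src d (x, w')) u') (pt G (x, w') d.t)] at t2
    linarith
  have hsle : s ≤ 2 * ρ + Real.exp (-(a * h)) := by
    have t1 := hU.hg.d_tri x (pt G (x, w') d.t) (pt G (x, w) (d.t + s))
    have t2 : G.d x (pt G (x, w') d.t) = d.t := by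
      have := d_E hU.hg x hw' d.t
      rw [abs_of_pos (by linarith)] at this
      exact this
    have t3 : G.d x (pt G (x, w) (d.t + s)) = d.t + s := by
      have := d_E hU.hg x hw (d.t + s)
      rw [abs_of_pos (by linarith)] at this
      exact this
    rw [t2, t3, hU.hg.d_symm (pt G (x, w') d.t)] at t1
    linarith
  have t1 := hU.hg.d_tri (pt G (x, w) d.t) (pt G (x, w) (d.t + s)) (pt G (x, w') d.t)
  have t2 : G.d (pt G (x, w) d.t) (pt G (x, w) (d.t + s)) = |d.t + s - d.t| :=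
    d_pt hU.hg (p := (x, w)) hw _ _
  rw [add_sub_cancel_left, abs_of_nonneg hord] at t2
  linarith

theorem one (D : Set Pl) (a b r : ℝ) (Λ : ℕ) : ∃ N0 N : ℕ, 1 ≤ N0 ∧ N0 ≤ N ∧
    ∀ G : Dat Γ, UC D a b r Λ G → ∀ (x : Pl) (T ρ h θ0 : ℝ) (d : Dt), 0 ≤ ρ → 0 ≤ h → Ok h T d →
      N * (1 + T) ^ N * (ρ + Real.exp (-(a * h))) ≤ 1 →
      (∀ θ ∈ Icc θ0 (θ0 + 1 / (N0 * (1 + T) ^ N0 *
          G.B x (Complex.exp ((θ0 : ℂ) * Complex.I)) d.t)),
        G.B x (Complex.exp ((θ0 : ℂ) * Complex.I)) d.t ≤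
          2 * G.B x (Complex.exp ((θ : ℂ) * Complex.I)) d.t) ∧
      ∃ α' : ℝ, ∀ θ ∈ Icc θ0 (θ0 + 1 / (N0 * (1 + T) ^ N0 *
          G.B x (Complex.exp ((θ0 : ℂ) * Complex.I)) d.t)),
        Hit G ρ (r / 16) d (x, Complex.exp ((θ : ℂ) * Complex.I)) →
        θ ∈ Icc α' (α' + N * (1 + T) ^ N * (ρ + Real.exp (-(a * h))) *
          (1 / (N0 * (1 + T) ^ N0 * G.B x (Complex.exp ((θ0 : ℂ) * Complex.I)) d.t))) := by
  obtain ⟨N₁, hN₁, harc⟩ := arcU (Γ := Γ) D a b r Λ
  obtain ⟨N0, hN0⟩ : ∃ N0 : ℕ, N0 = N₁ + ⌈64 / r⌉₊ + Λ + 1 := ⟨_, rfl⟩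
  refine ⟨N0, 64 * N0, by omega, by omega, ?_⟩
  intro G hU x T ρ h θ0 d hρ hh hok hsm
  have hok' := hok
  obtain ⟨he, ht3, htT, hqs, hqn⟩ := hok'
  have hg := hU.hg
  have ha := a_pos hU
  have hr0 := hU.r_pos
  have hr1 := hU.r_le
  have hnorm : ∀ θ : ℝ, ‖Complex.exp ((θ : ℂ) * Complex.I)‖ = 1 :=
    fun θ => Complex.norm_exp_ofReal_mul_I θ
  have ht0 : 0 < d.t := by linarith
  have hT1 : (1 : ℝ) ≤ 1 + T := by linarith
  -- the Jacobi field is at least three
  have hBlow : ∀ θ : ℝ, 3 ≤ G.B x (Complex.exp ((θ : ℂ) * Complex.I)) d.t := by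
    intro θ
    have h1 := B_low hg x (hnorm θ) ht0
    rw [hU.ea] at h1
    have h2 : a * d.t ≤ Real.sinh (a * d.t) := Real.self_le_sinh_iff.2 (by positivity)
    have h3 : d.t ≤ Real.sinh (a * d.t) / a := by
      rw [le_div_iff₀ ha]; linarith
    linarith
  obtain ⟨B0, hB0⟩ : ∃ B0, B0 = G.B x (Complex.exp ((θ0 : ℂ) * Complex.I)) d.t := ⟨_, rfl⟩
  rw [← hB0]
  have hB3 : 3 ≤ B0 := by rw [hB0]; exact hBlow θ0
  have hBp : 0 < B0 := by linarith
  have hN0r : (64 : ℝ) ≤ r * N0 := by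
    have h1 : 64 / r ≤ (⌈64 / r⌉₊ : ℝ) := Nat.le_ceil _
    have h2 : (⌈64 / r⌉₊ : ℝ) ≤ N0 := by
      rw [hN0]; push_cast
      have : (0 : ℝ) ≤ N₁ := Nat.cast_nonneg _
      have : (0 : ℝ) ≤ Λ := Nat.cast_nonneg _
      linarith
    have h3 : 64 / r ≤ N0 := h1.trans h2
    rw [div_le_iff₀ hr0] at h3
    linarith
  have hN0p : (0 : ℝ) < N0 := by
    by_contra hcon
    push Not at hcon
    nlinarith
  have hN01 : (1 : ℝ) ≤ N0 := by exact_mod_cast (by omega : 1 ≤ N0)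
  have hpw : (1 : ℝ) ≤ (1 + T) ^ N0 := one_le_pow₀ hT1
  obtain ⟨m, hm⟩ : ∃ m : ℝ, m = 1 / (N0 * (1 + T) ^ N0) := ⟨_, rfl⟩
  have hden : (0 : ℝ) < N0 * (1 + T) ^ N0 := by positivity
  have hm0 : 0 < m := by rw [hm]; positivity
  have hlen : 1 / (N0 * (1 + T) ^ N0 * B0) = m / B0 := by
    rw [hm, div_div]
  have hm1 : N₁ * (1 + d.t) ^ N₁ * m ≤ 1 := by
    rw [hm, mul_one_div, div_le_one hden]
    have h1 : (N₁ : ℝ) ≤ N0 := by exact_mod_cast (by omega : N₁ ≤ N0)
    have h2 : (1 + d.t) ^ N₁ ≤ (1 + T) ^ N0 :=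
      (pow_le_pow_left₀ (by linarith) (by linarith) _).trans (pow_le_pow_right₀ hT1 (by omega))
    exact mul_le_mul h1 h2 (by positivity) hN0p.le
  have hmr : m ≤ r / 64 := by
    rw [hm, div_le_div_iff₀ hden (by norm_num)]
    have : N0 * r ≤ N0 * (1 + T) ^ N0 * r := by
      have : N0 * 1 ≤ N0 * (1 + T) ^ N0 := mul_le_mul_of_nonneg_left hpw hN0p.le
      rw [mul_one] at this
      exact mul_le_mul_of_nonneg_right this hr0.le
    linarith
  have hm64 : m ≤ 1 / 64 := by linarith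
  rw [hlen]
  -- the points of the arc
  have harc' : ∀ θ ∈ Icc θ0 (θ0 + m / B0),
      G.d (pt G (x, Complex.exp ((θ0 : ℂ) * Complex.I)) d.t)
        (pt G (x, Complex.exp ((θ : ℂ) * Complex.I)) d.t) ≤ 2 * m ∧
      B0 ≤ 2 * G.B x (Complex.exp ((θ : ℂ) * Complex.I)) d.t := by
    intro θ hθ
    have h1 : |θ - θ0| * B0 ≤ m := by
      rw [abs_of_nonneg (by linarith [hθ.1])]
      have h2 : θ - θ0 ≤ m / B0 := by linarith [hθ.2]
      calc (θ - θ0) * B0 ≤ m / B0 * B0 := mul_le_mul_of_nonneg_right h2 hBp.le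
        _ = m := div_mul_cancel₀ _ hBp.ne'
    rw [hB0] at h1
    obtain ⟨h2, -, h4⟩ := harc G hU x d.t θ0 θ m ht3 hm1 h1
    rw [← hB0] at h4
    exact ⟨h2, h4⟩
  refine ⟨fun θ hθ => (harc' θ hθ).2, ?_⟩
  -- the smallness
  obtain ⟨δ, hδ⟩ : ∃ δ, δ = ρ + Real.exp (-(a * h)) := ⟨_, rfl⟩
  rw [← hδ] at hsm ⊢
  have hexp : (0 : ℝ) < Real.exp (-(a * h)) := Real.exp_pos _
  have hδ0 : 0 < δ := by rw [hδ]; linarith
  push_cast at hsm ⊢
  have hpw2 : (1 : ℝ) ≤ (1 + T) ^ (64 * N0) := one_le_pow₀ hT1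
  have hsm1 : 64 * N0 * δ ≤ 1 := by
    refine le_trans ?_ hsm
    have : 64 * (N0 : ℝ) * 1 ≤ 64 * N0 * (1 + T) ^ (64 * N0) :=
      mul_le_mul_of_nonneg_left hpw2 (by positivity)
    rw [mul_one] at this
    exact mul_le_mul_of_nonneg_right this hδ0.le
  have hδ1 : δ ≤ 1 / 64 := by
    have : 64 * 1 * δ ≤ 64 * N0 * δ := by
      apply mul_le_mul_of_nonneg_right _ hδ0.le
      linarith
    linarith
  have hρr : ρ ≤ r / 16 := by
    have h1 : 64 * (64 * δ) ≤ r * N0 * (64 * δ) := mul_le_mul_of_nonneg_right hN0r (by positivity)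
    have h2 : r * N0 * (64 * δ) = r * (64 * N0 * δ) := by ring
    have h3 : r * (64 * N0 * δ) ≤ r * 1 := mul_le_mul_of_nonneg_left hsm1 hr0.le
    have h4 : ρ ≤ δ := by rw [hδ]; linarith
    linarith
  have hpair : ∀ θ ∈ Icc θ0 (θ0 + m / B0), ∀ θ' ∈ Icc θ0 (θ0 + m / B0),
      Hit G ρ (r / 16) d (x, Complex.exp ((θ : ℂ) * Complex.I)) →
      Hit G ρ (r / 16) d (x, Complex.exp ((θ' : ℂ) * Complex.I)) →
      |θ - θ'| ≤ 32 * δ / B0 := by
    intro θ hθ θ' hθ' hH hH'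
    obtain ⟨c1, c2⟩ := harc' θ hθ
    obtain ⟨c1', c2'⟩ := harc' θ' hθ'
    obtain ⟨g, u, hu, hgu⟩ := hH
    obtain ⟨g', u', hu', hgu'⟩ := hH'
    have hclose : G.d (pt G (x, Complex.exp ((θ : ℂ) * Complex.I)) d.t)
        (pt G (x, Complex.exp ((θ' : ℂ) * Complex.I)) d.t) ≤ r / 16 := by
      have t1 := hg.d_tri (pt G (x, Complex.exp ((θ : ℂ) * Complex.I)) d.t)
        (pt G (x, Complex.exp ((θ0 : ℂ) * Complex.I)) d.t)
        (pt G (x, Complex.exp ((θ' : ℂ) * Complex.I)) d.t)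
      rw [hg.d_symm (pt G (x, Complex.exp ((θ : ℂ) * Complex.I)) d.t)
        (pt G (x, Complex.exp ((θ0 : ℂ) * Complex.I)) d.t)] at t1
      linarith
    have hdd : G.d (pt G (x, Complex.exp ((θ : ℂ) * Complex.I)) d.t)
        (pt G (x, Complex.exp ((θ' : ℂ) * Complex.I)) d.t) ≤ 4 * δ := by
      have h4 : 2 * (2 * ρ + Real.exp (-(a * h))) ≤ 4 * δ := by rw [hδ]; linarith
      rcases le_total 0 (d.e * (u' - u)) with hs | hs
      · exact (hit_pair hU (hnorm θ) (hnorm θ') hh hok hρr hclose hu hu' hgu hgu' hs).trans h4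
      · rw [hg.d_symm] at hclose ⊢
        have hs' : 0 ≤ d.e * (u - u') := by
          have : d.e * (u - u') = -(d.e * (u' - u)) := by ring
          rw [this]; linarith
        exact (hit_pair hU (hnorm θ') (hnorm θ) hh hok hρr hclose hu' hu hgu' hgu hs').trans h4
    obtain ⟨y, hy⟩ : ∃ y, y = pt G (x, Complex.exp ((θ : ℂ) * Complex.I)) d.t := ⟨_, rfl⟩
    obtain ⟨y', hy'⟩ : ∃ y', y' = pt G (x, Complex.exp ((θ' : ℂ) * Complex.I)) d.t := ⟨_, rfl⟩
    rw [← hy, ← hy'] at hdd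
    have hxy : G.d x y = d.t := by
      have := d_E hg x (hnorm θ) d.t
      rw [abs_of_pos ht0] at this
      rw [hy]; exact this
    have hJy : G.J x y = G.B x (Complex.exp ((θ : ℂ) * Complex.I)) d.t := by
      rw [hy]; exact J_E hg x (hnorm θ) ht0
    have hang := angle hg x y y' (j := B0 / 4) (by positivity) (by
      intro z hz
      have hz4 : G.d y z ≤ 4 * δ := hz.trans hdd
      have hxz : x ≠ z := by
        rintro rfl
        rw [hg.d_symm, hxy] at hz4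
        linarith
      refine ⟨hxz.symm, ?_⟩
      have h1 := hU.jac x y x z (by rw [hxy]; linarith) (by rw [d_self hg]; linarith)
      rw [d_self hg, zero_add, hxy] at h1
      have h2 : Λ * (1 + d.t) ^ Λ * G.d y z ≤ 1 / 4 := by
        have e1 : Λ * (1 + d.t) ^ Λ * G.d y z ≤ N0 * (1 + T) ^ (64 * N0) * (4 * δ) := by
          apply mul_le_mul _ hz4 (norm_nonneg _) (by positivity)
          apply mul_le_mul
          · exact_mod_cast (by omega : Λ ≤ N0)
          · exact (pow_le_pow_left₀ (by linarith) (by linarith) _).trans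
              (pow_le_pow_right₀ hT1 (by omega))
          · positivity
          · exact hN0p.le
        have e2 : N0 * (1 + T) ^ (64 * N0) * (4 * δ) =
            1 / 16 * (64 * N0 * (1 + T) ^ (64 * N0) * δ) := by ring
        rw [e2] at e1
        linarith
      have hJz := J_pos hg hxz
      have hBθ : 0 < G.B x (Complex.exp ((θ : ℂ) * Complex.I)) d.t := by linarith [hBlow θ]
      have h3 := (abs_le.1 (h1.trans h2)).2
      rw [hJy] at h3
      have h4 : Real.log (G.B x (Complex.exp ((θ : ℂ) * Complex.I)) d.t) ≤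
          Real.log (2 * G.J x z) := by
        rw [Real.log_mul two_ne_zero hJz.ne']
        have := Real.log_two_gt_d9
        linarith
      have h5 := (Real.log_le_log_iff hBθ (by positivity)).1 h4
      linarith)
    have hdi : G.di x y = Complex.exp ((θ : ℂ) * Complex.I) := by
      rw [hy]; exact di_E hg x (hnorm θ) ht0
    have hdi' : G.di x y' = Complex.exp ((θ' : ℂ) * Complex.I) := by
      rw [hy']; exact di_E hg x (hnorm θ') ht0
    rw [hdi, hdi'] at hang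
    have hnr : ‖Complex.exp ((θ : ℂ) * Complex.I) - Complex.exp ((θ' : ℂ) * Complex.I)‖ =
        ‖Complex.exp (((θ - θ' : ℝ) : ℂ) * Complex.I) - 1‖ := by
      have h1 : Complex.exp ((θ : ℂ) * Complex.I) - Complex.exp ((θ' : ℂ) * Complex.I) =
          Complex.exp ((θ' : ℂ) * Complex.I) *
            (Complex.exp (((θ - θ' : ℝ) : ℂ) * Complex.I) - 1) := by
        rw [mul_sub, mul_one, ← Complex.exp_add]
        congr 2
        push_cast
        ring
      rw [h1, norm_mul, hnorm, one_mul]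
    have hle : |θ - θ'| ≤ Real.pi := by
      have h1 : m / B0 ≤ 1 := by
        rw [div_le_one hBp]; linarith
      have h2 : |θ - θ'| ≤ m / B0 := by
        rw [abs_le]
        constructor
        · linarith [hθ.1, hθ'.2]
        · linarith [hθ.2, hθ'.1]
      linarith [Real.pi_gt_three]
    have hch := X3_chord hle
    rw [hnr] at hang
    have h7 : G.d y y' / (B0 / 4) ≤ 16 * δ / B0 := by
      rw [div_le_div_iff₀ (by positivity) hBp]
      have : G.d y y' * B0 ≤ 4 * δ * B0 := mul_le_mul_of_nonneg_right hdd hBp.le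
      linarith
    have h8 : 32 * δ / B0 = 2 * (16 * δ / B0) := by ring
    rw [h8]
    linarith
  by_cases hex : ∃ θ₁ ∈ Icc θ0 (θ0 + m / B0),
      Hit G ρ (r / 16) d (x, Complex.exp ((θ₁ : ℂ) * Complex.I))
  · obtain ⟨θ₁, hθ₁, hH₁⟩ := hex
    refine ⟨θ₁ - 32 * δ / B0, fun θ hθ hH => ?_⟩
    have h1 := abs_le.1 (hpair θ hθ θ₁ hθ₁ hH hH₁)
    have h2 : 64 * δ / B0 ≤ 64 * (N0 : ℝ) * (1 + T) ^ (64 * N0) * δ * (m / B0) := by
      have e1 : 64 * (N0 : ℝ) * (1 + T) ^ (64 * N0) * δ * (m / B0) =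
          (N0 * (1 + T) ^ (64 * N0) * m) * (64 * δ / B0) := by ring
      rw [e1]
      have e2 : 1 ≤ N0 * (1 + T) ^ (64 * N0) * m := by
        rw [hm, mul_one_div, le_div_iff₀ hden, one_mul]
        exact mul_le_mul_of_nonneg_left (pow_le_pow_right₀ hT1 (by omega)) hN0p.le
      have e3 : 0 ≤ 64 * δ / B0 := by positivity
      nlinarith
    have h3 : 64 * δ / B0 = 32 * δ / B0 + 32 * δ / B0 := by ring
    constructor
    · linarith [h1.1]
    · linarith [h1.2]
  · refine ⟨0, fun θ hθ hH => absurd ⟨θ, hθ, hH⟩ hex⟩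

end E36
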