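import Pool.Agent.LibBE36E.X1
import Pool.Agent.LibBE36E.X3

/-! Row X4 of BE36E (BE36, part E; architect helper85). Many encounters: the measure of the directions. MEDIUM/STRONG, 75 min.
Plan. `N0, N₁` of `one`. Write `B t θ = G.B x (exp(θ I)) t`, `f t θ = 1 / (N0 (1 + T) ^ N0 * B t θ)`, `δ = N (1 + T) ^ N * (ρ + exp (-(a h)))` with `N ≥ N₁ + 4`, `E l = {θ | ∀ d ∈ l, Hit ..}`. Claim by induction on the list: for all `α ≤ β` and `Mx` with `f d.t θ ≤ Mx` on `[α, β]` (`d` the first element; for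
the empty list any `Mx ≥ 0`) `volume (E l ∩ Icc α β) ≤ ofReal (δ ^ l.length * (β - α + Mx))`. Empty list: `Real.volume_Icc`. Step `l = d :: l'`: `greedy` with `f = f d.t`, the constant `δ ^ (n + 1)`; the lower bound `m` of `f`: `B t θ ≤ sinh (b t) / b` (`B_upp`), `B > 0`. For `θ0 ∈ [α, β]`: by `one` the set
`E l ∩ Icc θ0 (θ0 + f θ0)` is contained in `E l' ∩ Icc α₁ β₁`, `α₁ = max α' θ0`, `β₁ = min (α' + δ₁ f θ0) (θ0 + f θ0)` (`δ₁ = N₁ (1 + T) ^ N₁ (ρ + exp (-(a h)))`; if `α₁ > β₁` it is empty), `β₁ - α₁ ≤ δ₁ f θ0`. For `θ ∈ [α₁, β₁]` and the next datum `d'` (`d.t + h ≤ d'.t`, `Pairwise`):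
`B d'.t θ ≥ exp (a h) B d.t θ` (`B_exp`, LibSR85/P3) and `B d.t θ0 ≤ 2 B d.t θ` (first part of `one`), so `f d'.t θ ≤ 2 exp (-(a h)) f d.t θ0`, and by induction the volume is `≤ δ ^ n (δ₁ + 2 exp (-(a h))) f θ0 ≤ δ ^ (n + 1) f θ0`. The theorem: `α = -π`, `β = π`, `Mx = 1` (`B ≥ 1`: `B_low`, `t ≥ 3`, so `f ≤ 1`), `2 π + 1 ≤ 8`. -/

open MeasureTheory Set Filter Topology
open scoped ContDiff ENNReal NNReal ComplexConjugate

namespace E36

open BGS (Pl Surface grid per)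
open SR85 E35

variable {Γ : Type} [Group Γ] [MulAction Γ Pl] {D : Set Pl} {G : Dat Γ}
variable {a b r : ℝ} {Λ : ℕ}

private theorem x4_norm (θ : ℝ) : ‖Complex.exp ((θ : ℂ) * Complex.I)‖ = 1 :=
  Complex.norm_exp_ofReal_mul_I θ

private theorem x4_upp (h : HG D G) (x : Pl) {u : ℂ} (hu : ‖u‖ = 1) {t : ℝ} (ht : 0 < t) :
    G.B x u t ≤ Real.sinh (G.b * t) / G.b :=
  (jac_upper h.a_pos (k_cont h x u) (fun _ => h.K_le _) h.ab (fun _ => h.K_ge _)
    (jac_B h x hu) (h.B_zero x u hu) (h.Bd_zero x u hu) ht).2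

private theorem x4_claim (hU : UC D a b r Λ G) {N0 N₁ : ℕ} (hN0 : 1 ≤ N0)
    {x : Pl} {T ρ h : ℝ} (hT : 3 ≤ T) (hρ : 0 ≤ ρ) (hh : 0 ≤ h)
    (hone : ∀ (θ0 : ℝ) (d : Dt), Ok h T d →
      (∀ θ ∈ Icc θ0 (θ0 + 1 / (N0 * (1 + T) ^ N0 *
          G.B x (Complex.exp ((θ0 : ℂ) * Complex.I)) d.t)),
        G.B x (Complex.exp ((θ0 : ℂ) * Complex.I)) d.t ≤
          2 * G.B x (Complex.exp ((θ : ℂ) * Complex.I)) d.t) ∧
      ∃ α' : ℝ, ∀ θ ∈ Icc θ0 (θ0 + 1 / (N0 * (1 + T) ^ N0 *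
          G.B x (Complex.exp ((θ0 : ℂ) * Complex.I)) d.t)),
        Hit G ρ (r / 16) d (x, Complex.exp ((θ : ℂ) * Complex.I)) →
        θ ∈ Icc α' (α' + N₁ * (1 + T) ^ N₁ * (ρ + Real.exp (-(a * h))) *
          (1 / (N0 * (1 + T) ^ N0 * G.B x (Complex.exp ((θ0 : ℂ) * Complex.I)) d.t))))
    {δ : ℝ} (hδ0 : 0 ≤ δ)
    (hδ : N₁ * (1 + T) ^ N₁ * (ρ + Real.exp (-(a * h))) + 2 * Real.exp (-(a * h)) ≤ δ)
    (l : List Dt) : (∀ d ∈ l, Ok h T d) → l.Pairwise (fun d d' => d.t + h ≤ d'.t) →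
    ∀ α β Mx : ℝ, α ≤ β → 0 ≤ Mx →
      (∀ d, l.head? = some d → ∀ θ ∈ Icc α β, 1 / (N0 * (1 + T) ^ N0 *
          G.B x (Complex.exp ((θ : ℂ) * Complex.I)) d.t) ≤ Mx) →
      volume ({θ : ℝ | ∀ d ∈ l, Hit G ρ (r / 16) d (x, Complex.exp ((θ : ℂ) * Complex.I))} ∩
        Icc α β) ≤ ENNReal.ofReal (δ ^ l.length * (β - α + Mx)) := by
  have hg := hU.hg
  have hc0 : (0 : ℝ) < N0 * (1 + T) ^ N0 := by
    have : (0 : ℝ) < N0 := by exact_mod_cast hN0
    positivity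
  induction l with
  | nil =>
    intro _ _ α β Mx hαβ hMx _
    simp only [List.length_nil, pow_zero, one_mul]
    refine (measure_mono inter_subset_right).trans ?_
    rw [Real.volume_Icc]
    exact ENNReal.ofReal_le_ofReal (by linarith)
  | cons d l ih =>
    intro hOk hPw α β Mx hαβ hMx hf
    have hOkd : Ok h T d := hOk d (by simp)
    have hOkl : ∀ d' ∈ l, Ok h T d' := fun d' hd' => hOk d' (by simp [hd'])
    rw [List.pairwise_cons] at hPw
    obtain ⟨hPd, hPl⟩ := hPw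
    have ht3 : 3 ≤ d.t := hOkd.2.1
    have ht0 : 0 < d.t := by linarith
    have hbpos : 0 < G.b := lt_of_lt_of_le hg.a_pos hg.ab
    have hBpos : ∀ θ : ℝ, 0 < G.B x (Complex.exp ((θ : ℂ) * Complex.I)) d.t :=
      fun θ => B_pos hg x (x4_norm θ) ht0
    have hsinh : 0 < Real.sinh (G.b * d.t) / G.b :=
      div_pos (Real.sinh_pos_iff.2 (mul_pos hbpos ht0)) hbpos
    rw [List.length_cons]
    apply greedy (f := fun θ => 1 / (N0 * (1 + T) ^ N0 *
      G.B x (Complex.exp ((θ : ℂ) * Complex.I)) d.t))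
      (m := 1 / (N0 * (1 + T) ^ N0 * (Real.sinh (G.b * d.t) / G.b))) hαβ (by positivity)
      (by positivity)
    · intro θ hθ
      refine ⟨?_, hf d rfl θ hθ⟩
      apply one_div_le_one_div_of_le (mul_pos hc0 (hBpos θ))
      exact mul_le_mul_of_nonneg_left (x4_upp hg x (x4_norm θ) ht0) hc0.le
    · intro θ0 hθ0
      obtain ⟨h1, α', h2⟩ := hone θ0 d hOkd
      set F : ℝ := 1 / (N0 * (1 + T) ^ N0 *
        G.B x (Complex.exp ((θ0 : ℂ) * Complex.I)) d.t) with hF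
      have hFpos : 0 < F := by
        rw [hF]; exact one_div_pos.2 (mul_pos hc0 (hBpos θ0))
      set δ₁ : ℝ := N₁ * (1 + T) ^ N₁ * (ρ + Real.exp (-(a * h))) with hδ₁
      have hδ₁0 : 0 ≤ δ₁ := by
        rw [hδ₁]
        have := Real.exp_pos (-(a * h))
        have h1T : (0 : ℝ) ≤ 1 + T := by linarith
        positivity
      have hsub : ({θ : ℝ | ∀ d' ∈ d :: l, Hit G ρ (r / 16) d'
          (x, Complex.exp ((θ : ℂ) * Complex.I))} ∩ Icc θ0 (θ0 + F)) ⊆
          {θ : ℝ | ∀ d' ∈ l, Hit G ρ (r / 16) d' (x, Complex.exp ((θ : ℂ) * Complex.I))} ∩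
            Icc (max α' θ0) (min (α' + δ₁ * F) (θ0 + F)) := by
        rintro θ ⟨hθ, hθI⟩
        refine ⟨fun d' hd' => hθ d' (by simp [hd']), ?_⟩
        have h3 := h2 θ hθI (hθ d (by simp))
        exact ⟨max_le h3.1 hθI.1, le_min h3.2 hθI.2⟩
      refine (measure_mono hsub).trans ?_
      rcases lt_or_ge (min (α' + δ₁ * F) (θ0 + F)) (max α' θ0) with hlt | hge
      · rw [Icc_eq_empty (not_le.2 hlt), inter_empty, measure_empty]
        exact bot_le
      · have hexp := Real.exp_pos (-(a * h))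
        refine (ih hOkl hPl (max α' θ0) (min (α' + δ₁ * F) (θ0 + F))
          (2 * Real.exp (-(a * h)) * F) hge (by positivity) ?_).trans ?_
        · intro d' hd' θ hθ
          have hd'l : d' ∈ l := List.mem_of_head? hd'
          have htt := hPd d' hd'l
          have hθI : θ ∈ Icc θ0 (θ0 + F) :=
            ⟨(le_max_right _ _).trans hθ.1, hθ.2.trans (min_le_right _ _)⟩
          have h4 := h1 θ hθI
          have h5 := B_exp hg x (x4_norm θ) ht0.le (by linarith : d.t ≤ d'.t)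
          have h6 : Real.exp (-(G.a * (d'.t - d.t))) ≤ Real.exp (-(a * h)) := by
            rw [hU.ea]
            apply Real.exp_le_exp.2
            have ha : 0 < a := by rw [← hU.ea]; exact hg.a_pos
            have : a * h ≤ a * (d'.t - d.t) := mul_le_mul_of_nonneg_left (by linarith) ha.le
            linarith
          have hB' : 0 < G.B x (Complex.exp ((θ : ℂ) * Complex.I)) d'.t :=
            B_pos hg x (x4_norm θ) (by linarith)
          have h7 : G.B x (Complex.exp ((θ0 : ℂ) * Complex.I)) d.t ≤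
              2 * Real.exp (-(a * h)) * G.B x (Complex.exp ((θ : ℂ) * Complex.I)) d'.t := by
            have h8 := mul_le_mul_of_nonneg_right h6 hB'.le
            linarith [h4, h5, h8]
          rw [hF, div_le_iff₀ (mul_pos hc0 hB')]
          have hden : 0 < N0 * (1 + T) ^ N0 *
            G.B x (Complex.exp ((θ0 : ℂ) * Complex.I)) d.t := mul_pos hc0 (hBpos θ0)
          have h9 : 2 * Real.exp (-(a * h)) * (1 / (N0 * (1 + T) ^ N0 *
              G.B x (Complex.exp ((θ0 : ℂ) * Complex.I)) d.t)) *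
              (N0 * (1 + T) ^ N0 * G.B x (Complex.exp ((θ : ℂ) * Complex.I)) d'.t) =
              (2 * Real.exp (-(a * h)) * G.B x (Complex.exp ((θ : ℂ) * Complex.I)) d'.t) /
                G.B x (Complex.exp ((θ0 : ℂ) * Complex.I)) d.t := by
            have hb1 := (hBpos θ0).ne'
            have hc1 := hc0.ne'
            field_simp
          rw [h9, le_div_iff₀ (hBpos θ0), one_mul]
          exact h7
        · apply ENNReal.ofReal_le_ofReal
          have h10 : min (α' + δ₁ * F) (θ0 + F) - max α' θ0 ≤ δ₁ * F := by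
            have := min_le_left (α' + δ₁ * F) (θ0 + F)
            have := le_max_left α' θ0
            linarith
          have h12 : δ ^ (l.length + 1) * F = δ ^ l.length * (δ * F) := by ring
          rw [h12]
          apply mul_le_mul_of_nonneg_left _ (pow_nonneg hδ0 _)
          have h11 : (δ₁ + 2 * Real.exp (-(a * h))) * F ≤ δ * F :=
            mul_le_mul_of_nonneg_right hδ hFpos.le
          linarith [h10, h11]

theorem core (D : Set Pl) (a b r : ℝ) (Λ : ℕ) : ∃ N : ℕ, 1 ≤ N ∧ ∀ G : Dat Γ, UC D a b r Λ G →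
    ∀ (x : Pl) (T ρ h : ℝ) (l : List Dt), 0 ≤ ρ → 0 ≤ h →
      N * (1 + T) ^ N * (ρ + Real.exp (-(a * h))) ≤ 1 → (∀ d ∈ l, Ok h T d) →
      l.Pairwise (fun d d' => d.t + h ≤ d'.t) →
      volume {θ : ℝ | θ ∈ Ioc (-Real.pi) Real.pi ∧
        ∀ d ∈ l, Hit G ρ (r / 16) d (x, Complex.exp ((θ : ℂ) * Complex.I))} ≤
        ENNReal.ofReal (8 * (N * (1 + T) ^ N * (ρ + Real.exp (-(a * h)))) ^ l.length) := by
  obtain ⟨N0, N₁, hN0, hN01, hone⟩ := one (Γ := Γ) D a b r Λ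
  refine ⟨N₁ + 4, by omega, ?_⟩
  intro G hU x T ρ h l hρ hh hsm hOk hPw
  have hpi := Real.pi_lt_d2
  have hpi0 := Real.pi_pos
  rcases l with _ | ⟨d, l⟩
  · simp only [List.length_nil, pow_zero, mul_one]
    refine (measure_mono (fun θ hθ => hθ.1 : _ ⊆ Ioc (-Real.pi) Real.pi)).trans ?_
    rw [Real.volume_Ioc]
    exact ENNReal.ofReal_le_ofReal (by linarith)
  · have hOkd : Ok h T d := hOk d (by simp)
    have hT : 3 ≤ T := hOkd.2.1.trans hOkd.2.2.1
    have hexp := Real.exp_pos (-(a * h))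
    have h1T : (1 : ℝ) ≤ 1 + T := by linarith
    have hpow : (1 + T) ^ N₁ ≤ (1 + T) ^ (N₁ + 4) := pow_le_pow_right₀ h1T (by omega)
    have hpow1 : (1 : ℝ) ≤ (1 + T) ^ (N₁ + 4) := one_le_pow₀ h1T
    have hpow0 : (0 : ℝ) ≤ (1 + T) ^ N₁ := by positivity
    have hs0 : 0 ≤ ρ + Real.exp (-(a * h)) := by linarith
    set δ : ℝ := ((N₁ + 4 : ℕ) : ℝ) * (1 + T) ^ (N₁ + 4) * (ρ + Real.exp (-(a * h))) with hδd
    have hδ0 : 0 ≤ δ := by
      rw [hδd]; positivity
    have hδ : N₁ * (1 + T) ^ N₁ * (ρ + Real.exp (-(a * h))) + 2 * Real.exp (-(a * h)) ≤ δ := by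
      have h1 : (N₁ : ℝ) * (1 + T) ^ N₁ + 2 ≤ ((N₁ + 4 : ℕ) : ℝ) * (1 + T) ^ (N₁ + 4) := by
        push_cast
        have h2 : (N₁ : ℝ) * (1 + T) ^ N₁ ≤ (N₁ : ℝ) * (1 + T) ^ (N₁ + 4) :=
          mul_le_mul_of_nonneg_left hpow (Nat.cast_nonneg _)
        linarith
      have h3 := mul_le_mul_of_nonneg_right h1 hs0
      rw [hδd]
      linarith
    have hsm1 : N₁ * (1 + T) ^ N₁ * (ρ + Real.exp (-(a * h))) ≤ 1 := by
      have : δ ≤ 1 := hsm
      linarith
    have hc0 : (0 : ℝ) < N0 * (1 + T) ^ N0 := by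
      have : (0 : ℝ) < N0 := by exact_mod_cast hN0
      positivity
    have hc1 : (1 : ℝ) ≤ N0 * (1 + T) ^ N0 := by
      have h4 : (1 : ℝ) ≤ N0 := by exact_mod_cast hN0
      have h5 : (1 : ℝ) ≤ (1 + T) ^ N0 := one_le_pow₀ h1T
      nlinarith
    have hcl := x4_claim hU hN0 (x := x) hT hρ hh
      (fun θ0 d hd => hone G hU x T ρ h θ0 d hρ hh hd hsm1) hδ0 hδ (d :: l) hOk hPw
      (-Real.pi) Real.pi 1 (by linarith) zero_le_one ?_
    · have hsub : {θ : ℝ | θ ∈ Ioc (-Real.pi) Real.pi ∧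
          ∀ d' ∈ d :: l, Hit G ρ (r / 16) d' (x, Complex.exp ((θ : ℂ) * Complex.I))} ⊆
          {θ : ℝ | ∀ d' ∈ d :: l, Hit G ρ (r / 16) d' (x, Complex.exp ((θ : ℂ) * Complex.I))} ∩
            Icc (-Real.pi) Real.pi := fun θ hθ => ⟨hθ.2, Ioc_subset_Icc_self hθ.1⟩
      refine (measure_mono hsub).trans (hcl.trans ?_)
      apply ENNReal.ofReal_le_ofReal
      have hp : 0 ≤ δ ^ (d :: l).length := pow_nonneg hδ0 _
      nlinarith
    · intro d' hd' θ _
      have hd'' : d' = d := by simpa using hd'.symm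
      rw [hd'']
      have ht3 : 3 ≤ d.t := hOkd.2.1
      have hB := B_low hU.hg x (x4_norm θ) (by linarith : (0 : ℝ) < d.t)
      have ha := hU.hg.a_pos
      have hs : G.a * d.t ≤ Real.sinh (G.a * d.t) := Real.self_le_sinh_iff.2 (by positivity)
      have hB1 : d.t ≤ Real.sinh (G.a * d.t) / G.a := by
        rw [le_div_iff₀ ha]; linarith
      have hB2 : 1 ≤ G.B x (Complex.exp ((θ : ℂ) * Complex.I)) d.t := by linarith
      rw [div_le_one (mul_pos hc0 (by linarith))]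
      nlinarith

end E36
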