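import Pool.Agent.LibBE36E.Defs
import Pool.Agent.LibBGS.Cover

/-! Row X5 of BE36E (BE36, part E; architect helper85). Measurability and invariance of the sets `Wd`. MEDIUM, 60 min. TEMPLATE: `E35.rt_meas` (LibBE35E/D10.lean, proved).
Plan. `hit_act`: `pt_act` (`E35.pt_act`): if `d.q = none` replace `g` by `g₀ * g * g₀⁻¹` (`src d (act G g₀ p) = act G g₀ p`), if `d.q = some q` by `g₀ * g` (`src` constant); `d_smul` (LibSR85). Both directions (use `g₀⁻¹`, `act_inv`) or one direction for all `g₀`, `p`.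
`hit_meas`: `{p | Hit ..} = ⋃ g, {p | ∃ u ∈ Icc d.u (d.u + μ), ∀ v ∈ Icc 0 1, ..}` (`Γ` countable: `BGS.Cover_countable`, instance by `haveI`/`MeasurableSet.iUnion` with `Countable Γ`). For fixed `g` the set `C = {(u, p) | ∀ v ∈ Icc 0 1, G.d (pt G p (d.t + v)) (g • pt G (src d p) (u + d.e * v)) ≤ ρ}` in
`ℝ × (Pl × ℂ)` is closed (intersection over `v` of closed sets; continuity: `pt G p t = G.E p.1 (t * p.2)`, `HG.E_cont`, `(hX.smooth g).continuous`, `d_cont`), and its projection along the compact `Icc d.u (d.u + μ)` is closed: `IsCompact.isClosed_image_snd`-like lemma: e.g. `isClosedMap_snd_of_compactSpace` with the subtype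
`Icc d.u (d.u + μ)` (`CompactSpace`), or by sequences. `wd_meas`: `Wd` is the union over the lists `l` of elements of `S` of length `n` - finitely many: `{l : List Dt | l.length = n ∧ ∀ d ∈ l, d ∈ S}` is finite (`List.finite_length_eq` on the subtype, or induction on `n`), hence countable:
`MeasurableSet.biUnion` - of finite intersections (`List` : induction, or `MeasurableSet` of `{p | ∀ d ∈ l, Hit d p}` by induction on `l`). -/

open MeasureTheory Set Filter Topology
open scoped ContDiff ENNReal NNReal ComplexConjugate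

namespace E36

open BGS (Pl Surface grid per)
open SR85 E35

variable {Γ : Type} [Group Γ] [MulAction Γ Pl] {D : Set Pl} {G : Dat Γ}

private theorem X5_act (h : HG D G) (ρ μ : ℝ) (d : Dt) (g₀ : Γ) (p : Pl × ℂ) (hp : Hit G ρ μ d p) :
    Hit G ρ μ d (act G g₀ p) := by
  obtain ⟨g, u, hu, hv⟩ := hp
  have key : ∃ g' : Γ, ∀ t : ℝ, g' • pt G (src d (act G g₀ p)) t = g₀ • (g • pt G (src d p) t) := by
    unfold src
    cases d.q with
    | none =>
      refine ⟨g₀ * g * g₀⁻¹, fun t => ?_⟩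
      show (g₀ * g * g₀⁻¹) • pt G (act G g₀ p) t = g₀ • (g • pt G p t)
      rw [pt_act h, mul_smul, inv_smul_smul, mul_smul]
    | some q =>
      refine ⟨g₀ * g, fun t => ?_⟩
      show (g₀ * g) • pt G q t = g₀ • (g • pt G q t)
      rw [mul_smul]
  obtain ⟨g', hg'⟩ := key
  refine ⟨g', u, hu, fun v hv' => ?_⟩
  rw [hg', pt_act h, d_smul h]
  exact hv v hv'

theorem hit_act (h : HG D G) (ρ μ : ℝ) (d : Dt) (g : Γ) (p : Pl × ℂ) :
    Hit G ρ μ d (act G g p) ↔ Hit G ρ μ d p := by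
  constructor
  · intro hp
    have h1 := X5_act h ρ μ d g⁻¹ (act G g p) hp
    rwa [act_inv h] at h1
  · exact X5_act h ρ μ d g p

private theorem X5_pt (h : HG D G) {X : Type*} [TopologicalSpace X] {f : X → Pl × ℂ} {t : X → ℝ}
    (hf : Continuous f) (ht : Continuous t) : Continuous fun x => pt G (f x) (t x) := by
  have h0 : Continuous fun x => ((f x).1, ((t x : ℝ) : ℂ) * (f x).2) :=
    (continuous_fst.comp hf).prodMk ((Complex.continuous_ofReal.comp ht).mul (continuous_snd.comp hf))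
  exact h.E_cont.comp h0

private theorem X5_src (d : Dt) : Continuous (src d) := by
  unfold src
  cases d.q with
  | none => exact continuous_id
  | some q => exact continuous_const

private theorem X5_closed (hX : Surface Γ D) (h : HG D G) (ρ μ : ℝ) (d : Dt) (g : Γ) :
    IsClosed {p : Pl × ℂ | ∃ u ∈ Icc d.u (d.u + μ), ∀ v ∈ Icc (0 : ℝ) 1,
      G.d (pt G p (d.t + v)) (g • pt G (src d p) (u + d.e * v)) ≤ ρ} := by
  have hc : IsClosed {q : Icc d.u (d.u + μ) × (Pl × ℂ) | ∀ v ∈ Icc (0 : ℝ) 1,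
      G.d (pt G q.2 (d.t + v)) (g • pt G (src d q.2) ((q.1 : ℝ) + d.e * v)) ≤ ρ} := by
    have e : {q : Icc d.u (d.u + μ) × (Pl × ℂ) | ∀ v ∈ Icc (0 : ℝ) 1,
        G.d (pt G q.2 (d.t + v)) (g • pt G (src d q.2) ((q.1 : ℝ) + d.e * v)) ≤ ρ} =
        ⋂ v ∈ Icc (0 : ℝ) 1, {q : Icc d.u (d.u + μ) × (Pl × ℂ) |
          G.d (pt G q.2 (d.t + v)) (g • pt G (src d q.2) ((q.1 : ℝ) + d.e * v)) ≤ ρ} := by
      ext q
      simp only [Set.mem_ofPred_eq, Set.mem_iInter]
    rw [e]
    refine isClosed_biInter fun v _ => ?_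
    refine isClosed_le ?_ continuous_const
    have h1 : Continuous fun q : Icc d.u (d.u + μ) × (Pl × ℂ) => pt G q.2 (d.t + v) :=
      X5_pt h continuous_snd continuous_const
    have h2 : Continuous fun q : Icc d.u (d.u + μ) × (Pl × ℂ) => pt G (src d q.2) ((q.1 : ℝ) + d.e * v) :=
      X5_pt h ((X5_src d).comp continuous_snd)
        ((continuous_subtype_val.comp continuous_fst).add continuous_const)
    exact (d_cont h).comp (h1.prodMk ((hX.smooth g).continuous.comp h2))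
  have h3 := isClosedMap_snd_of_compactSpace (X := Icc d.u (d.u + μ)) (Y := Pl × ℂ) _ hc
  convert h3 using 1
  ext p
  simp only [Set.mem_ofPred_eq, Set.mem_image]
  constructor
  · rintro ⟨u, hu, hv⟩
    exact ⟨(⟨u, hu⟩, p), hv, rfl⟩
  · rintro ⟨⟨⟨u, hu⟩, p'⟩, hv, hp⟩
    have hp' : p' = p := hp
    rw [← hp']
    exact ⟨u, hu, hv⟩

theorem hit_meas (hX : Surface Γ D) (h : HG D G) (ρ μ : ℝ) (d : Dt) :
    MeasurableSet {p : Pl × ℂ | Hit G ρ μ d p} := by
  have hcount : Countable Γ := BGS.Cover_countable hX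
  have e : {p : Pl × ℂ | Hit G ρ μ d p} = ⋃ g : Γ, {p : Pl × ℂ | ∃ u ∈ Icc d.u (d.u + μ),
      ∀ v ∈ Icc (0 : ℝ) 1, G.d (pt G p (d.t + v)) (g • pt G (src d p) (u + d.e * v)) ≤ ρ} := by
    ext p
    simp only [Hit, Set.mem_ofPred_eq, Set.mem_iUnion]
  rw [e]
  exact MeasurableSet.iUnion fun g => (X5_closed hX h ρ μ d g).measurableSet

private theorem X5_fin (S : Finset Dt) (n : ℕ) : {l : List Dt | l.length = n ∧ ∀ d ∈ l, d ∈ S}.Finite := by
  refine ((List.finite_length_eq S n).image (List.map Subtype.val)).subset ?_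
  rintro l ⟨hl, hS⟩
  refine ⟨l.attach.map fun d => ⟨d.1, hS d.1 d.2⟩, ?_, ?_⟩
  · show (l.attach.map _).length = n
    rw [List.length_map, List.length_attach, hl]
  · rw [List.map_map]
    exact List.attach_map_subtype_val l

theorem wd_meas (hX : Surface Γ D) (h : HG D G) (ρ μ η : ℝ) (S : Finset Dt) (n : ℕ) :
    MeasurableSet (Wd G ρ μ η S n) ∧
      ∀ (g : Γ) (p : Pl × ℂ), act G g p ∈ Wd G ρ μ η S n ↔ p ∈ Wd G ρ μ η S n := by
  constructor
  · have e : Wd G ρ μ η S n = ⋃ l ∈ {l : List Dt | (l.length = n ∧ ∀ d ∈ l, d ∈ S) ∧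
        l.Pairwise (fun d d' => d.t + η ≤ d'.t)}, ⋂ d ∈ {d | d ∈ l}, {p : Pl × ℂ | Hit G ρ μ d p} := by
      ext p
      simp only [Wd, Set.mem_ofPred_eq, Set.mem_iUnion, Set.mem_iInter]
      constructor
      · rintro ⟨l, h1, h2, h3, h4⟩
        exact ⟨l, ⟨⟨h1, h2⟩, h3⟩, h4⟩
      · rintro ⟨l, ⟨⟨h1, h2⟩, h3⟩, h4⟩
        exact ⟨l, h1, h2, h3, h4⟩
    rw [e]
    refine MeasurableSet.biUnion (((X5_fin S n).subset fun l hl => hl.1).countable) fun l _ => ?_
    exact MeasurableSet.biInter (List.finite_toSet l).countable fun d _ => hit_meas hX h ρ μ d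
  · intro g p
    unfold Wd
    simp only [Set.mem_ofPred_eq, hit_act h]

end E36
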