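import Pool.Agent.LibBE36E.X4
import Pool.Agent.LibBE36E.X5

/-! Row X6 of BE36E (BE36, part E; architect helper85). The measure of the vectors with many encounters. MEDIUM, 50 min. TEMPLATE: `E35.rt_mu` (LibBE35E/D10.lean, proved).
Plan. `muD D G Y` is the integral over `x ∈ D` (weight `rho x`) of the measure of `{θ ∈ Ioc (-π) π | (x, exp(θ I)) ∈ Y}` (`muS_lint`, as in `rt_mu`). For fixed `x`: `{θ | (x, exp(θ I)) ∈ Wd ..}` is the union over the finitely many lists `l` of `n` elements of `S` (`Pairwise`) of the sets of `core` (each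
`≤ ofReal (8 δ ^ n)`, `δ = N (1 + T) ^ N * (ρ + exp (-(a h)))`); their number is `≤ S.card ^ n` (e.g. `Wd`'s lists are the images of `Fintype.piFinset (fun _ : Fin n => S)` under `List.ofFn`: `List.ofFn`, `List.length_ofFn`, `measure_biUnion_finset_le`, `Fintype.card_piFinset_const`). So `≤ ofReal (8 * (δ * S.card) ^ n)`, and
`∫⁻ x in D, ofReal (rho x) = 1` (`HG.rho_int`; as in `rt_mu`). `N ≥ 8` too. -/

open MeasureTheory Set Filter Topology
open scoped ContDiff ENNReal NNReal ComplexConjugate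

namespace E36

open BGS (Pl Surface grid per)
open SR85 E35

variable {Γ : Type} [Group Γ] [MulAction Γ Pl] {D : Set Pl} {G : Dat Γ}
variable {a b r : ℝ} {Λ : ℕ}

private theorem X6_ofFn (n : ℕ) (l : List Dt) (h : l.length = n) : ∃ f : Fin n → Dt, List.ofFn f = l := by
  subst h
  exact ⟨l.get, List.ofFn_get l⟩

theorem wd_mu (D : Set Pl) (a b r : ℝ) (Λ : ℕ) : ∃ N : ℕ, 1 ≤ N ∧ ∀ G : Dat Γ, UC D a b r Λ G →
    ∀ (T ρ h : ℝ) (S : Finset Dt) (n : ℕ), 0 ≤ T → 0 ≤ ρ → 0 ≤ h →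
      N * (1 + T) ^ N * (ρ + Real.exp (-(a * h))) ≤ 1 → (∀ d ∈ S, Ok h T d) →
      muD D G (Wd G ρ (r / 16) h S n) ≤
        ENNReal.ofReal (N * (N * (1 + T) ^ N * (ρ + Real.exp (-(a * h))) * S.card) ^ n) := by
  classical
  obtain ⟨N₁, hN₁, hcore⟩ := core (Γ := Γ) D a b r Λ
  refine ⟨N₁ + 8, by omega, fun G hU T ρ h S n hT hρ hh hN hS => ?_⟩
  have hg := hU.hg
  have hX := hU.hX
  set E : ℝ := ρ + Real.exp (-(a * h)) with hE
  have hE0 : 0 ≤ E := by positivity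
  have hmono : (N₁ : ℝ) * (1 + T) ^ N₁ * E ≤ ((N₁ + 8 : ℕ) : ℝ) * (1 + T) ^ (N₁ + 8) * E := by
    have h1 : (1 + T) ^ N₁ ≤ (1 + T) ^ (N₁ + 8) := pow_le_pow_right₀ (by linarith) (by omega)
    have h2 : (N₁ : ℝ) ≤ ((N₁ + 8 : ℕ) : ℝ) := by push_cast; linarith
    gcongr
  have hc1 := hmono.trans hN
  set δ : ℝ := ((N₁ + 8 : ℕ) : ℝ) * (1 + T) ^ (N₁ + 8) * E with hδ
  have hδ1 : 0 ≤ (N₁ : ℝ) * (1 + T) ^ N₁ * E := by positivity
  have hδ0 : 0 ≤ δ := hδ1.trans hmono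
  set B : ℝ := ((N₁ + 8 : ℕ) : ℝ) * (δ * S.card) ^ n with hB
  obtain ⟨hm, -⟩ := wd_meas hX hg ρ (r / 16) h S n
  set W := Wd G ρ (r / 16) h S n with hW
  have hms : MeasurableSet (W ∩ D ×ˢ (univ : Set ℂ)) := hm.inter (hX.meas.prod MeasurableSet.univ)
  have e1 : muD D G W = ∫⁻ p, (W ∩ D ×ˢ (univ : Set ℂ)).indicator
      (fun _ => (1 : ℝ≥0∞)) p ∂(muS G) := by
    unfold muD
    rw [Measure.restrict_apply hm, lintegral_indicator_const hms, one_mul]
  rw [e1, muS_lint hg (measurable_const.indicator hms)]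
  have key : ∀ x : Pl, (∫⁻ θ in Ioc (-Real.pi) Real.pi,
      (W ∩ D ×ˢ (univ : Set ℂ)).indicator (fun _ => (1 : ℝ≥0∞))
        (x, Complex.exp ((θ : ℂ) * Complex.I))) * ENNReal.ofReal (G.rho x) ≤
      D.indicator (fun x => ENNReal.ofReal B * ENNReal.ofReal (G.rho x)) x := by
    intro x
    by_cases hx : x ∈ D
    swap
    · have e2 : ∀ θ : ℝ, (W ∩ D ×ˢ (univ : Set ℂ)).indicator (fun _ => (1 : ℝ≥0∞))
          (x, Complex.exp ((θ : ℂ) * Complex.I)) = 0 := by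
        intro θ
        apply Set.indicator_of_notMem
        rintro ⟨-, h3⟩
        exact hx h3.1
      simp only [e2, lintegral_zero, zero_mul]
      exact bot_le
    rw [Set.indicator_of_mem hx]
    gcongr
    set A : Set ℝ := {θ : ℝ | (x, Complex.exp ((θ : ℂ) * Complex.I)) ∈
      W ∩ D ×ˢ (univ : Set ℂ)} with hA
    have hmA : MeasurableSet A := by
      have h0 : Measurable fun θ : ℝ => (x, Complex.exp ((θ : ℂ) * Complex.I)) := by fun_prop
      exact h0 hms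
    have e3 : (∫⁻ θ in Ioc (-Real.pi) Real.pi,
        (W ∩ D ×ˢ (univ : Set ℂ)).indicator (fun _ => (1 : ℝ≥0∞))
          (x, Complex.exp ((θ : ℂ) * Complex.I))) = volume (A ∩ Ioc (-Real.pi) Real.pi) := by
      have e4 : ∀ θ : ℝ, (W ∩ D ×ˢ (univ : Set ℂ)).indicator (fun _ => (1 : ℝ≥0∞))
          (x, Complex.exp ((θ : ℂ) * Complex.I)) = A.indicator (fun _ => (1 : ℝ≥0∞)) θ := by
        intro θ
        by_cases hθ : θ ∈ A
        · have h7 : (x, Complex.exp ((θ : ℂ) * Complex.I)) ∈ W ∩ D ×ˢ (univ : Set ℂ) := hθ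
          exact (Set.indicator_of_mem h7 _).trans (Set.indicator_of_mem hθ (fun _ => (1 : ℝ≥0∞))).symm
        · have h7 : (x, Complex.exp ((θ : ℂ) * Complex.I)) ∉ W ∩ D ×ˢ (univ : Set ℂ) := hθ
          exact (Set.indicator_of_notMem h7 _).trans (Set.indicator_of_notMem hθ (fun _ => (1 : ℝ≥0∞))).symm
      simp only [e4]
      rw [lintegral_indicator_const hmA, one_mul, Measure.restrict_apply hmA]
    rw [e3]
    set F : Finset (Fin n → Dt) := (Fintype.piFinset (fun _ : Fin n => S)).filter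
      (fun f => (List.ofFn f).Pairwise (fun d d' => d.t + h ≤ d'.t)) with hF
    have hFc : (F.card : ℝ) ≤ (S.card : ℝ) ^ n := by
      have h1 : F.card ≤ (Fintype.piFinset (fun _ : Fin n => S)).card := Finset.card_filter_le _ _
      have h2 : (Fintype.piFinset (fun _ : Fin n => S)).card = S.card ^ n := by
        simp [Fintype.card_piFinset]
      rw [h2] at h1
      exact_mod_cast h1
    have hsub : A ∩ Ioc (-Real.pi) Real.pi ⊆ ⋃ f ∈ F, {θ : ℝ | θ ∈ Ioc (-Real.pi) Real.pi ∧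
        ∀ d ∈ List.ofFn f, Hit G ρ (r / 16) d (x, Complex.exp ((θ : ℂ) * Complex.I))} := by
      rintro θ ⟨⟨⟨l, hl1, hl2, hl3, hl4⟩, -⟩, hθ⟩
      obtain ⟨f, rfl⟩ := X6_ofFn n l hl1
      rw [Set.mem_iUnion₂]
      refine ⟨f, ?_, hθ, hl4⟩
      rw [hF, Finset.mem_filter, Fintype.mem_piFinset]
      exact ⟨fun i => hl2 _ (List.mem_ofFn.2 ⟨i, rfl⟩), hl3⟩
    have hone : ∀ f ∈ F, volume {θ : ℝ | θ ∈ Ioc (-Real.pi) Real.pi ∧
        ∀ d ∈ List.ofFn f, Hit G ρ (r / 16) d (x, Complex.exp ((θ : ℂ) * Complex.I))} ≤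
        ENNReal.ofReal (8 * δ ^ n) := by
      intro f hf
      rw [hF, Finset.mem_filter, Fintype.mem_piFinset] at hf
      refine (hcore G hU x T ρ h (List.ofFn f) hρ hh hc1 ?_ hf.2).trans ?_
      · intro d hd
        obtain ⟨i, rfl⟩ := List.mem_ofFn.1 hd
        exact hS _ (hf.1 i)
      · rw [List.length_ofFn]
        apply ENNReal.ofReal_le_ofReal
        gcongr
    calc volume (A ∩ Ioc (-Real.pi) Real.pi)
        ≤ volume (⋃ f ∈ F, {θ : ℝ | θ ∈ Ioc (-Real.pi) Real.pi ∧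
          ∀ d ∈ List.ofFn f, Hit G ρ (r / 16) d (x, Complex.exp ((θ : ℂ) * Complex.I))}) :=
          measure_mono hsub
      _ ≤ ∑ f ∈ F, volume {θ : ℝ | θ ∈ Ioc (-Real.pi) Real.pi ∧
          ∀ d ∈ List.ofFn f, Hit G ρ (r / 16) d (x, Complex.exp ((θ : ℂ) * Complex.I))} :=
          measure_biUnion_finset_le _ _
      _ ≤ ∑ f ∈ F, ENNReal.ofReal (8 * δ ^ n) := Finset.sum_le_sum hone
      _ = ENNReal.ofReal (F.card * (8 * δ ^ n)) := by
          rw [Finset.sum_const, nsmul_eq_mul, ENNReal.ofReal_mul (Nat.cast_nonneg _), ENNReal.ofReal_natCast]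
      _ ≤ ENNReal.ofReal B := by
          apply ENNReal.ofReal_le_ofReal
          rw [hB, mul_pow δ]
          have h8 : (8 : ℝ) ≤ ((N₁ + 8 : ℕ) : ℝ) := by push_cast; linarith [Nat.cast_nonneg (α := ℝ) N₁]
          calc (F.card : ℝ) * (8 * δ ^ n) ≤ (S.card : ℝ) ^ n * (((N₁ + 8 : ℕ) : ℝ) * δ ^ n) := by gcongr
            _ = ((N₁ + 8 : ℕ) : ℝ) * (δ ^ n * (S.card : ℝ) ^ n) := by ring
  refine (lintegral_mono key).trans ?_
  rw [lintegral_indicator hX.meas, lintegral_const_mul' _ _ ENNReal.ofReal_ne_top]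
  have hi : IntegrableOn G.rho D volume :=
    (hg.rho_cont.continuousOn.integrableOn_compact hX.bdd.isCompact_closure).mono_set subset_closure
  rw [← ofReal_integral_eq_lintegral_ofReal hi (Filter.Eventually.of_forall fun z => (hg.rho_pos z).le),
    hg.rho_int, ENNReal.ofReal_one, mul_one]

end E36
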