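import Mathlib

/-! Row Y1 of BE36E (BE36, part E; architect helper85). A base time which is far from most of the encounters. ONLY MATHLIB, MEDIUM, 45 min.
Plan. `τ j = 2 Z j`, `j = 0, .., 7` (`Fin 8` or `Finset.range 8`), so `0 ≤ τ j ≤ 14 Z ≤ l - 2 Z`. Call `x` bad for `j` if there is `k : ℤ` with `|x + k l - τ j| < Z`. (1) `x` is bad for at most one `j`: if for `j < j'`: `|(τ j' - τ j) + (k - k') l| < 2 Z` with `2 Z ≤ τ j' - τ j ≤ l - 2 Z`: for `k - k' = 0`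
it is `≥ 2 Z`, for `k - k' ≤ -1` the absolute value is `≥ l - (l - 2 Z)`, for `k - k' ≥ 1` it is `≥ 2 Z`: contradiction. (2) if `x` is not bad for `j` then `k = -⌊(x - τ j) / l⌋` has `x + k l - τ j ∈ [0, l)` (`Int.floor_le`, `Int.lt_floor_add_one`), not `< Z` in absolute value, and
`x + (k - 1) l - τ j ∈ [-l, 0)` not either: so it is in `[Z, l - Z]`. (3) `∑_j card {i ∈ S | x i bad for j or y i bad for j} ≤ 2 S.card` (double counting, `Finset.sum_card_bipartiteAbove_eq_sum_card_bipartiteBelow` or `Finset.sum_comm`), so for some `j` the number is at most `2 S.card / 8`: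
`Finset.exists_le_of_sum_le`; `I` = the complement in `S`: `I.card ≥ (3 / 4) S.card`. -/

open Set

namespace E36

private theorem Y1_good {l Z : ℝ} (hZ : 0 < Z) (hl : 16 * Z ≤ l) (x τ : ℝ)
    (h : ∀ k : ℤ, Z ≤ |x + k * l - τ|) : ∃ k : ℤ, x + k * l - τ ∈ Icc Z (l - Z) := by
  have hl0 : 0 < l := by linarith
  obtain ⟨f, hf⟩ : ∃ f : ℤ, f = ⌊(x - τ) / l⌋ := ⟨_, rfl⟩
  have h1 : (f : ℝ) ≤ (x - τ) / l := hf ▸ Int.floor_le _
  have h2 : (x - τ) / l < f + 1 := hf ▸ Int.lt_floor_add_one _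
  rw [le_div_iff₀ hl0] at h1
  rw [div_lt_iff₀ hl0] at h2
  refine ⟨-f, ?_, ?_⟩
  · have h3 := h (-f)
    push_cast at h3 ⊢
    have h4 : 0 ≤ x + -(f : ℝ) * l - τ := by linarith
    rw [abs_of_nonneg h4] at h3
    exact h3
  · have h3 := h (-f - 1)
    push_cast at h3 ⊢
    have h4 : x + (-(f : ℝ) - 1) * l - τ < 0 := by nlinarith
    rw [abs_of_neg h4] at h3
    linarith

private theorem Y1_bad {l Z : ℝ} (hZ : 0 < Z) (hl : 16 * Z ≤ l) (x : ℝ) {j j' : ℕ} (hj : j < j')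
    (hj' : j' < 8) {k k' : ℤ} (h : |x + k * l - 2 * Z * j| < Z)
    (h' : |x + k' * l - 2 * Z * j'| < Z) : False := by
  rw [abs_lt] at h h'
  have hl0 : 0 < l := by linarith
  have e1 : (j : ℝ) + 1 ≤ j' := by exact_mod_cast hj
  have e2 : (j' : ℝ) + 1 ≤ 8 := by exact_mod_cast hj'
  have e3 : (0 : ℝ) ≤ j := Nat.cast_nonneg _
  have e4 : Z * j + Z ≤ Z * j' := by nlinarith
  have e5 : Z * j' ≤ 7 * Z := by nlinarith
  have e6 : 0 ≤ Z * j := by positivity
  rcases le_or_gt k' k with hk | hk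
  · have h1 : (k' : ℝ) ≤ k := by exact_mod_cast hk
    have h2 : (k' : ℝ) * l ≤ k * l := mul_le_mul_of_nonneg_right h1 hl0.le
    linarith [h.1, h.2, h'.1, h'.2]
  · have h1 : (k : ℝ) + 1 ≤ k' := by exact_mod_cast hk
    have h2 : ((k : ℝ) + 1) * l ≤ k' * l := mul_le_mul_of_nonneg_right h1 hl0.le
    linarith [h.1, h.2, h'.1, h'.2]

open Classical in
private theorem Y1_cnt {l Z : ℝ} (hZ : 0 < Z) (hl : 16 * Z ≤ l) (x : ℝ) :
    ((Finset.univ : Finset (Fin 8)).filter fun j : Fin 8 =>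
      ∃ k : ℤ, |x + k * l - 2 * Z * ((j : ℕ) : ℝ)| < Z).card ≤ 1 := by
  rw [Finset.card_le_one]
  intro j hj j' hj'
  obtain ⟨k, hk⟩ := (Finset.mem_filter.1 hj).2
  obtain ⟨k', hk'⟩ := (Finset.mem_filter.1 hj').2
  by_contra hne
  rcases lt_or_gt_of_ne (fun h => hne (Fin.ext h)) with h1 | h1
  · exact Y1_bad hZ hl x h1 j'.2 hk hk'
  · exact Y1_bad hZ hl x h1 j.2 hk' hk

theorem base {ι : Type} (S : Finset ι) (x y : ι → ℝ) {l Z : ℝ} (hZ : 0 < Z) (hl : 16 * Z ≤ l) :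
    ∃ τ ∈ Icc (0 : ℝ) l, ∃ I : Finset ι, I ⊆ S ∧ S.card ≤ 2 * I.card ∧ ∀ i ∈ I,
      (∃ k : ℤ, x i + k * l - τ ∈ Icc Z (l - Z)) ∧ ∃ k : ℤ, y i + k * l - τ ∈ Icc Z (l - Z) := by
  classical
  let bad : ℝ → Fin 8 → Prop := fun x j => ∃ k : ℤ, |x + k * l - 2 * Z * ((j : ℕ) : ℝ)| < Z
  let B : Fin 8 → Finset ι := fun j => S.filter fun i => bad (x i) j ∨ bad (y i) j
  have hc : ∀ z : ℝ, ∑ j : Fin 8, (if bad z j then 1 else 0 : ℕ) ≤ 1 := fun z => by
    rw [← Finset.card_filter]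
    exact Y1_cnt hZ hl z
  have h1 : ∑ j : Fin 8, 8 * (B j).card ≤ ∑ j : Fin 8, 2 * S.card := by
    rw [← Finset.mul_sum]
    have h2 : ∑ j : Fin 8, (B j).card ≤ 2 * S.card := by
      calc ∑ j : Fin 8, (B j).card
          = ∑ j : Fin 8, ∑ i ∈ S, (if bad (x i) j ∨ bad (y i) j then 1 else 0 : ℕ) :=
            Finset.sum_congr rfl fun j _ => Finset.card_filter _ _
        _ ≤ ∑ j : Fin 8, ∑ i ∈ S, ((if bad (x i) j then 1 else 0 : ℕ) +
            (if bad (y i) j then 1 else 0 : ℕ)) := by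
            refine Finset.sum_le_sum fun j _ => Finset.sum_le_sum fun i _ => ?_
            by_cases ha : bad (x i) j
            · simp [ha]
            · simp [ha]
        _ = ∑ i ∈ S, (∑ j : Fin 8, (if bad (x i) j then 1 else 0 : ℕ) +
            ∑ j : Fin 8, (if bad (y i) j then 1 else 0 : ℕ)) := by
            rw [Finset.sum_comm]
            exact Finset.sum_congr rfl fun i _ => Finset.sum_add_distrib
        _ ≤ ∑ i ∈ S, 2 := Finset.sum_le_sum fun i _ => add_le_add (hc _) (hc _)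
        _ = 2 * S.card := by rw [Finset.sum_const, smul_eq_mul, mul_comm]
    have h3 : ∑ j : Fin 8, 2 * S.card = 16 * S.card := by
      rw [Finset.sum_const, Finset.card_univ, Fintype.card_fin, smul_eq_mul]
      ring
    omega
  obtain ⟨j, -, hj⟩ := Finset.exists_le_of_sum_le Finset.univ_nonempty h1
  have e2 : ((j : ℕ) : ℝ) + 1 ≤ 8 := by exact_mod_cast j.2
  have e3 : (0 : ℝ) ≤ ((j : ℕ) : ℝ) := Nat.cast_nonneg _
  refine ⟨2 * Z * ((j : ℕ) : ℝ), ⟨by positivity, by nlinarith⟩, S \ B j, Finset.sdiff_subset, ?_, ?_⟩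
  · have h4 : (S \ B j).card = S.card - (B j).card :=
      Finset.card_sdiff_of_subset (Finset.filter_subset _ _)
    have h5 : (B j).card ≤ S.card := Finset.card_le_card (Finset.filter_subset _ _)
    omega
  · intro i hi
    rw [Finset.mem_sdiff] at hi
    have h6 : ¬ (bad (x i) j ∨ bad (y i) j) := fun h => hi.2 (Finset.mem_filter.2 ⟨hi.1, h⟩)
    rw [not_or] at h6
    refine ⟨Y1_good hZ hl _ _ fun k => ?_, Y1_good hZ hl _ _ fun k => ?_⟩
    · by_contra h7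
      exact h6.1 ⟨k, not_le.1 h7⟩
    · by_contra h7
      exact h6.2 ⟨k, not_le.1 h7⟩

end E36
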