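import Pool.Agent.LibBE36E.Defs

/-! Row Y2 of BE36E (BE36, part E; architect helper85). An encounter with a short delay gives one with a long delay. MEDIUM/STRONG, 75 min.
Plan. (0) From `sync` (LibBE35E/A3; `ε ≤ 1 / 8`, `Fl G ε p (act G g p) t` holds by the hypothesis, `pt_act`): `u₁, e₁` with `d (pt p (t + v)) (g • pt p (u₁ + e₁ v)) ≤ cx b * ε * exp (b |v|)` for all `v : ℝ`. At `v = 0` and `v = 1` compare with the hypothesis (`d_pt`, `d_smul`): `|u - u₁| ≤ (1 + cx b) ε`,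
`|u + e - (u₁ + e₁)| ≤ (1 + cx b exp b) ε < 1`, so `e₁ = e`, and for all `v`: (*) `d (pt p (t + v)) (g • pt p (u + e v)) ≤ C₁ ε exp (b |v|)`, `C₁ = 1 + 2 cx b`.
(A) `t - u ≥ h + 5`: take `t' = t`, `g' = g`, `e' = e` and (*) for `v ∈ [0, 2]`. (B) `t - u < h + 5`: `e = -1` is impossible: `v = -(t - u) / 2` gives `d z (g • z) ≤ C₁ ε exp (b (h + 5) / 2) < r` for `z = pt p ((t + u) / 2)`, so `g = 1` (`sys_eq` or `UC.sys`). So `e = 1`; `T := t - u ≥ r / 2`:
`r ≤ d (pt p u) (g • pt p u) ≤ d (pt p u) (pt p t) + ε`. By induction on `n`: `d (pt p (u + n T + v)) (g ^ n • pt p (u + v)) ≤ n C₁ ε exp (b (|v| + n T))` (`u + (n + 1) T + v = t + (n T + v)`, (*) with `n T + v`, then the induction hypothesis for `v` moved by `g`, `mul_smul`, `pow_succ'`). Take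
`n = ⌈(h + 5) / T⌉₊`: `h + 5 ≤ n T ≤ h + 5 + T ≤ 2 h + 10`, `n ≤ 2 (h + 5) / r + 1`; `t' = u + n T` (`≥ u + T = t`), `g' = g ^ n`, `e' = 1`. The error for `v ∈ [0, 2]` is `≤ n C₁ ε exp (b (2 h + 12)) ≤ C (1 + h) exp (2 b h) ε`. `C` also has to make the hypothesis `C (1 + h) exp (2 b h) ε ≤ 1` imply
`ε ≤ 1 / 8`, `ε ≤ r / 2`, `(2 + cx b exp b) ε < 1`, `C₁ ε exp (b (h + 5) / 2) < r`. -/

open MeasureTheory Set Filter Topology
open scoped ContDiff ENNReal NNReal ComplexConjugate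

namespace E36

open BGS (Pl Surface grid per)
open SR85 E35

variable {Γ : Type} [Group Γ] [MulAction Γ Pl] {D : Set Pl} {G : Dat Γ}
variable {a b r : ℝ} {Λ : ℕ}

private theorem Y2_b (hU : UC D a b r Λ G) : 0 < b := by
  have h1 := hU.hg.a_pos
  have h2 := hU.hg.ab
  rw [hU.eb] at h2
  linarith

/-- The encounter for all times. -/
private theorem Y2_star (hU : UC D a b r Λ G) {p : Pl × ℂ} (hp : ‖p.2‖ = 1) {t u e ε : ℝ} {g : Γ}
    (he : e = 1 ∨ e = -1) (hε : ε ≤ 1 / 8) (hε2 : (2 + cx b + cx b * Real.exp b) * ε < 2)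
    (hv : ∀ v ∈ Icc (0 : ℝ) 1, G.d (pt G p (t + v)) (g • pt G p (u + e * v)) ≤ ε) (v : ℝ) :
    G.d (pt G p (t + v)) (g • pt G p (u + e * v)) ≤
      (1 + 2 * cx b) * ε * Real.exp (b * |v|) := by
  have h := hU.hg
  have hb := Y2_b hU
  have hcx := cx_pos hb
  have hfl : Fl G ε p (act G g p) t := by
    intro t1 ht1
    refine ⟨u + e * (t1 - t), ?_⟩
    rw [pt_act h]
    have h1 := hv (t1 - t) ⟨by linarith [ht1.1], by linarith [ht1.2]⟩
    rwa [add_sub_cancel] at h1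
  obtain ⟨u₁, e₁, he₁, h1⟩ := sync h hp (act_unit h g hp) hε hfl
  simp only [pt_act h, hU.eb] at h1
  have hε0 : 0 ≤ ε := (norm_nonneg _).trans (hv 0 ⟨le_refl _, zero_le_one⟩)
  -- comparison
  have hcmp : ∀ w ∈ Icc (0 : ℝ) 1, |u + e * w - (u₁ + e₁ * w)| ≤
      ε + cx b * ε * Real.exp (b * |w|) := by
    intro w hw
    have h2 := h1 w
    have h3 := hv w hw
    have h4 := h.d_tri (g • pt G p (u₁ + e₁ * w)) (pt G p (t + w)) (g • pt G p (u + e * w))
    rw [h.d_symm (g • pt G p (u₁ + e₁ * w)) (pt G p (t + w)), d_smul h, d_pt h hp] at h4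
    linarith
  have hu : |u - u₁| ≤ (1 + cx b) * ε := by
    have h2 := hcmp 0 ⟨le_refl _, zero_le_one⟩
    simp only [mul_zero, add_zero, abs_zero, Real.exp_zero, mul_one] at h2
    linarith
  have hee : e₁ = e := by
    have h2 := hcmp 1 ⟨zero_le_one, le_refl _⟩
    simp only [mul_one, abs_one] at h2
    have h3 : |e - e₁| < 2 := by
      have h4 : e - e₁ = (u + e - (u₁ + e₁)) - (u - u₁) := by ring
      rw [h4]
      refine (abs_sub _ _).trans_lt ?_
      nlinarith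
    rw [abs_lt] at h3
    rcases he with rfl | rfl <;> rcases he₁ with rfl | rfl
    · rfl
    · linarith [h3.2]
    · linarith [h3.1]
    · rfl
  rw [hee] at h1
  have h2 := h.d_tri (pt G p (t + v)) (g • pt G p (u₁ + e * v)) (g • pt G p (u + e * v))
  rw [d_smul h, d_pt h hp] at h2
  have h3 : |u + e * v - (u₁ + e * v)| = |u - u₁| := by
    congr 1
    ring
  rw [h3] at h2
  have h4 : 1 ≤ Real.exp (b * |v|) := Real.one_le_exp (mul_nonneg hb.le (abs_nonneg v))
  have h5 := h1 v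
  have h6 : (1 + cx b) * ε ≤ (1 + cx b) * ε * Real.exp (b * |v|) :=
    le_mul_of_one_le_right (mul_nonneg (by linarith) hε0) h4
  calc _ ≤ _ := h2
    _ ≤ cx b * ε * Real.exp (b * |v|) + (1 + cx b) * ε * Real.exp (b * |v|) := by linarith
    _ = _ := by ring

/-- The iterates. -/
private theorem Y2_iter (hU : UC D a b r Λ G) {p : Pl × ℂ} {t u ε C₁ : ℝ} {g : Γ} (hut : u ≤ t)
    (hε : 0 ≤ ε) (hC : 0 ≤ C₁)
    (hs : ∀ v : ℝ, G.d (pt G p (t + v)) (g • pt G p (u + v)) ≤ C₁ * ε * Real.exp (b * |v|))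
    (n : ℕ) : ∀ v : ℝ, G.d (pt G p (u + n * (t - u) + v)) (g ^ n • pt G p (u + v)) ≤
      n * (C₁ * ε * Real.exp (b * (|v| + n * (t - u)))) := by
  have h := hU.hg
  have hb := Y2_b hU
  induction n with
  | zero =>
    intro v
    rw [Nat.cast_zero, zero_mul, add_zero, pow_zero, one_smul, d_self h, zero_mul]
  | succ n ih =>
    intro v
    have hT : 0 ≤ t - u := by linarith
    have hn : (0 : ℝ) ≤ n := Nat.cast_nonneg n
    have h1 := hs (n * (t - u) + v)
    have h2 := ih v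
    have h3 : u + ((n + 1 : ℕ) : ℝ) * (t - u) + v = t + (n * (t - u) + v) := by
      push_cast
      ring
    have h4 : u + (n * (t - u) + v) = u + n * (t - u) + v := by ring
    rw [h4] at h1
    rw [← d_smul h g, ← mul_smul, ← pow_succ'] at h2
    have h5 := h.d_tri (pt G p (t + (n * (t - u) + v))) (g • pt G p (u + n * (t - u) + v))
      (g ^ (n + 1) • pt G p (u + v))
    rw [h3]
    have h6 : Real.exp (b * |n * (t - u) + v|) ≤
        Real.exp (b * (|v| + ((n + 1 : ℕ) : ℝ) * (t - u))) := by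
      refine Real.exp_le_exp.2 (mul_le_mul_of_nonneg_left ?_ hb.le)
      have h7 := abs_add_le ((n : ℝ) * (t - u)) v
      rw [abs_of_nonneg (mul_nonneg hn hT)] at h7
      push_cast
      linarith
    have h8 : Real.exp (b * (|v| + n * (t - u))) ≤
        Real.exp (b * (|v| + ((n + 1 : ℕ) : ℝ) * (t - u))) := by
      refine Real.exp_le_exp.2 (mul_le_mul_of_nonneg_left ?_ hb.le)
      push_cast
      linarith
    have h9 : 0 ≤ C₁ * ε := mul_nonneg hC hε
    have h10 := mul_le_mul_of_nonneg_left h6 h9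
    have h11 := mul_le_mul_of_nonneg_left (mul_le_mul_of_nonneg_left h8 h9) hn
    have h12 : (((n + 1 : ℕ) : ℝ)) *
        (C₁ * ε * Real.exp (b * (|v| + ((n + 1 : ℕ) : ℝ) * (t - u)))) =
        n * (C₁ * ε * Real.exp (b * (|v| + ((n + 1 : ℕ) : ℝ) * (t - u)))) +
          C₁ * ε * Real.exp (b * (|v| + ((n + 1 : ℕ) : ℝ) * (t - u))) := by
      push_cast
      ring
    rw [h12]
    linarith

theorem dbl (D : Set Pl) (a b r : ℝ) (Λ : ℕ) : ∃ C : ℝ, 1 ≤ C ∧ ∀ G : Dat Γ, UC D a b r Λ G →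
    ∀ (p : Pl × ℂ) (t u e h ε : ℝ) (g : Γ), ‖p.2‖ = 1 → g ≠ 1 → (e = 1 ∨ e = -1) → 0 ≤ ε →
      0 ≤ h → C * (1 + h) * Real.exp (2 * b * h) * ε ≤ 1 → u ≤ t →
      (∀ v ∈ Icc (0 : ℝ) 1, G.d (pt G p (t + v)) (g • pt G p (u + e * v)) ≤ ε) →
      ∃ (t' e' : ℝ) (g' : Γ), t ≤ t' ∧ t' ≤ t + 2 * h + 10 ∧ u + h + 5 ≤ t' ∧
        (e' = 1 ∨ e' = -1) ∧ ∀ v ∈ Icc (0 : ℝ) 2,
          G.d (pt G p (t' + v)) (g' • pt G p (u + e' * v)) ≤
            C * (1 + h) * Real.exp (2 * b * h) * ε := by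
  by_cases hex : ∃ G : Dat Γ, UC D a b r Λ G
  swap
  · exact ⟨1, le_refl _, fun G hU => absurd ⟨G, hU⟩ hex⟩
  obtain ⟨G₀, hU₀⟩ := hex
  have hb := Y2_b hU₀
  have hr := hU₀.r_pos
  have hr1 := hU₀.r_le
  have hcx := cx_pos hb
  obtain ⟨C₁, hC₁⟩ : ∃ C₁ : ℝ, C₁ = 1 + 2 * cx b := ⟨_, rfl⟩
  obtain ⟨K, hK⟩ : ∃ K : ℝ, K = C₁ * Real.exp (12 * b) := ⟨_, rfl⟩
  have hC₁1 : 1 ≤ C₁ := by linarith
  have he12 : 1 ≤ Real.exp (12 * b) := Real.one_le_exp (by linarith)
  have hK1 : 1 ≤ K := by rw [hK]; exact one_le_mul_of_one_le_of_one_le hC₁1 he12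
  have h10 : 0 ≤ 10 / r := by positivity
  refine ⟨(10 / r + 1) * K, by nlinarith, ?_⟩
  intro G hU p t u e h ε g hp hg he hε hh hCε hut hv
  have hG := hU.hg
  obtain ⟨X, hX⟩ : ∃ X : ℝ, X = (1 + h) * Real.exp (2 * b * h) := ⟨_, rfl⟩
  have hEh : 1 ≤ Real.exp (2 * b * h) := Real.one_le_exp (by positivity)
  have hX1 : Real.exp (2 * b * h) ≤ X := by
    rw [hX]
    nlinarith
  have hX1' : 1 ≤ X := hEh.trans hX1
  have hCX : (10 / r + 1) * K * (1 + h) * Real.exp (2 * b * h) * ε = (10 / r + 1) * (K * X * ε) := by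
    rw [hX]
    ring
  rw [hCX] at hCε ⊢
  have hKX0 : 0 ≤ K * X * ε := by positivity
  have hKX : K * X * ε ≤ r / 10 := by
    have h1 : 10 / r * (K * X * ε) ≤ 1 := by nlinarith
    have h2 : 10 / r * (K * X * ε) = 10 * (K * X * ε) / r := by ring
    rw [h2, div_le_one hr] at h1
    linarith
  have hKε : K * ε ≤ K * X * ε := by
    have h1 : K * 1 ≤ K * X := mul_le_mul_of_nonneg_left hX1' (by linarith)
    have := mul_le_mul_of_nonneg_right h1 hε
    rwa [mul_one] at this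
  have hεr : ε ≤ r / 10 := by nlinarith
  have hexp1 : Real.exp b ≤ Real.exp (12 * b) := Real.exp_le_exp.2 (by linarith)
  have hε2 : (2 + cx b + cx b * Real.exp b) * ε < 2 := by
    have h1 : 2 + cx b + cx b * Real.exp b ≤ 2 * K := by
      rw [hK, hC₁]
      have h2 : 1 ≤ Real.exp b := Real.one_le_exp hb.le
      have h3 : cx b * Real.exp b ≤ cx b * Real.exp (12 * b) :=
        mul_le_mul_of_nonneg_left hexp1 (by linarith)
      nlinarith
    have h2 := mul_le_mul_of_nonneg_right h1 hε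
    linarith
  have hstar := Y2_star hU hp he (by linarith) hε2 hv
  rw [← hC₁] at hstar
  by_cases hA : h + 5 ≤ t - u
  · refine ⟨t, e, g, le_refl _, by linarith, by linarith, he, fun v hv' => ?_⟩
    refine (hstar v).trans ?_
    have h1 : Real.exp (b * |v|) ≤ Real.exp (12 * b) := by
      refine Real.exp_le_exp.2 ?_
      rw [abs_of_nonneg hv'.1]
      nlinarith [hv'.2]
    have h2 : C₁ * ε * Real.exp (b * |v|) ≤ K * ε := by
      rw [hK]
      have := mul_le_mul_of_nonneg_left h1 (mul_nonneg (by linarith : 0 ≤ C₁) hε)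
      linarith
    nlinarith
  push Not at hA
  -- the small displacement
  have hsm : C₁ * ε * Real.exp (b * ((h + 5) / 2)) ≤ K * X * ε := by
    have h1 : Real.exp (b * ((h + 5) / 2)) ≤ Real.exp (12 * b) * Real.exp (2 * b * h) := by
      rw [← Real.exp_add]
      refine Real.exp_le_exp.2 ?_
      nlinarith [mul_nonneg hb.le hh]
    have h2 : Real.exp (12 * b) * Real.exp (2 * b * h) ≤ Real.exp (12 * b) * X :=
      mul_le_mul_of_nonneg_left hX1 (by linarith)
    have h3 := mul_le_mul_of_nonneg_left (h1.trans h2) (mul_nonneg (by linarith : 0 ≤ C₁) hε)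
    rw [hK]
    linarith
  have he1 : e = 1 := by
    rcases he with he | he
    · exact he
    exfalso
    have h1 := hstar (-((t - u) / 2))
    rw [he] at h1
    have e1 : t + -((t - u) / 2) = (t + u) / 2 := by ring
    have e2 : u + -1 * -((t - u) / 2) = (t + u) / 2 := by ring
    rw [e1, e2, abs_neg, abs_of_nonneg (by linarith)] at h1
    have h2 := hU.sys g hg (pt G p ((t + u) / 2))
    have h3 : Real.exp (b * ((t - u) / 2)) ≤ Real.exp (b * ((h + 5) / 2)) := by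
      refine Real.exp_le_exp.2 (mul_le_mul_of_nonneg_left ?_ hb.le)
      linarith
    have h4 := mul_le_mul_of_nonneg_left h3 (mul_nonneg (by linarith : 0 ≤ C₁) hε)
    linarith
  subst he1
  simp only [one_mul] at hstar
  have hT : r / 2 ≤ t - u := by
    have h1 := hU.sys g hg (pt G p u)
    have h2 := hG.d_tri (pt G p u) (pt G p t) (g • pt G p u)
    have h3 := hv 0 ⟨le_refl _, zero_le_one⟩
    rw [mul_zero, add_zero, add_zero] at h3
    rw [d_pt hG hp, abs_of_nonneg (by linarith)] at h2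
    linarith
  have hT0 : 0 < t - u := by linarith
  obtain ⟨n, hn⟩ : ∃ n : ℕ, n = ⌈(h + 5) / (t - u)⌉₊ := ⟨_, rfl⟩
  have hn1 : h + 5 ≤ n * (t - u) := by
    rw [hn, ← div_le_iff₀ hT0]
    exact Nat.le_ceil _
  have hn2 : (n : ℝ) < (h + 5) / (t - u) + 1 := by
    rw [hn]
    exact Nat.ceil_lt_add_one (by positivity)
  have hn3 : n * (t - u) ≤ 2 * h + 10 := by
    have h1 := mul_lt_mul_of_pos_right hn2 hT0
    rw [add_mul, div_mul_cancel₀ _ hT0.ne', one_mul] at h1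
    linarith
  have hn0 : 1 ≤ n := by
    rw [Nat.one_le_iff_ne_zero]
    rintro rfl
    rw [Nat.cast_zero, zero_mul] at hn1
    linarith
  have hn4 : (n : ℝ) ≤ (10 / r + 1) * (1 + h) := by
    have h1 : (h + 5) / (t - u) ≤ (h + 5) / (r / 2) :=
      div_le_div_of_nonneg_left (by linarith) (by linarith) hT
    have h2 : (h + 5) / (r / 2) = 2 * (h + 5) / r := by
      field_simp
    have h3 : 2 * (h + 5) / r ≤ 10 / r * (1 + h) := by
      rw [div_mul_eq_mul_div]
      refine div_le_div_of_nonneg_right ?_ hr.le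
      linarith
    nlinarith
  have hn1R : (1 : ℝ) ≤ n := by exact_mod_cast hn0
  refine ⟨u + n * (t - u), 1, g ^ n, by nlinarith, by linarith, by linarith, Or.inl rfl,
    fun v hv' => ?_⟩
  rw [one_mul]
  refine (Y2_iter hU hut hε (by linarith : 0 ≤ C₁) hstar n v).trans ?_
  have h1 : Real.exp (b * (|v| + n * (t - u))) ≤ Real.exp (12 * b) * Real.exp (2 * b * h) := by
    rw [← Real.exp_add]
    refine Real.exp_le_exp.2 ?_
    rw [abs_of_nonneg hv'.1]
    have h2 : b * (v + n * (t - u)) ≤ b * (2 + (2 * h + 10)) :=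
      mul_le_mul_of_nonneg_left (by linarith [hv'.2]) hb.le
    linarith
  have h2 : C₁ * ε * Real.exp (b * (|v| + n * (t - u))) ≤
      C₁ * ε * (Real.exp (12 * b) * Real.exp (2 * b * h)) :=
    mul_le_mul_of_nonneg_left h1 (mul_nonneg (by linarith) hε)
  calc (n : ℝ) * (C₁ * ε * Real.exp (b * (|v| + n * (t - u)))) ≤
      ((10 / r + 1) * (1 + h)) * (C₁ * ε * (Real.exp (12 * b) * Real.exp (2 * b * h))) :=
        mul_le_mul hn4 h2 (by positivity) (by positivity)
    _ = (10 / r + 1) * (K * X * ε) := by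
        rw [hK, hX]
        ring

end E36
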