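import Pool.Agent.LibBE36E.Defs

/-! Row Y3 of BE36E (BE36, part E; architect helper85). Sorting separated data. ONLY the definition of `Dt`, SHORT, 25 min.
Plan. Induction on `k` (or on the finset `I`), generalising `I`: for `k + 1 ≤ I.card` choose `i ∈ I` with the smallest `(d i).t` (`Finset.exists_min_image`), apply the induction hypothesis to `I.erase i`, and put `d i` in front: for every `j ∈ I.erase i`, `(d i).t ≤ (d j).t` and `h ≤ |(d i).t - (d j).t|`, so
`(d i).t + h ≤ (d j).t`; `List.pairwise_cons`. -/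

open Set

namespace E36

theorem sortl {ι : Type} [DecidableEq ι] (I : Finset ι) (d : ι → Dt) {h : ℝ}
    (hsep : ∀ i ∈ I, ∀ j ∈ I, i ≠ j → h ≤ |(d i).t - (d j).t|) (k : ℕ) (hk : k ≤ I.card) :
    ∃ l : List Dt, l.length = k ∧ (∀ x ∈ l, ∃ i ∈ I, x = d i) ∧
      l.Pairwise (fun x y => x.t + h ≤ y.t) := by
  induction k generalizing I with
  | zero => exact ⟨[], rfl, fun x hx => absurd hx (by simp), List.Pairwise.nil⟩
  | succ k ih =>
    have hne : I.Nonempty := by
      rw [← Finset.card_pos]
      omega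
    obtain ⟨i, hi, hmin⟩ := Finset.exists_min_image I (fun i => (d i).t) hne
    obtain ⟨l, hl, hmem, hp⟩ := ih (I.erase i)
      (fun a ha b hb hab => hsep a (Finset.mem_of_mem_erase ha) b (Finset.mem_of_mem_erase hb) hab)
      (by rw [Finset.card_erase_of_mem hi]; omega)
    refine ⟨d i :: l, by rw [List.length_cons, hl], ?_, ?_⟩
    · intro x hx
      rcases List.mem_cons.1 hx with rfl | hx
      · exact ⟨i, hi, rfl⟩
      · obtain ⟨j, hj, hxj⟩ := hmem x hx
        exact ⟨j, Finset.mem_of_mem_erase hj, hxj⟩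
    · rw [List.pairwise_cons]
      refine ⟨fun x hx => ?_, hp⟩
      obtain ⟨j, hj, rfl⟩ := hmem x hx
      have hji : i ≠ j := (Finset.ne_of_mem_erase hj).symm
      have h1 := hsep i hi j (Finset.mem_of_mem_erase hj) hji
      have h2 := hmin j (Finset.mem_of_mem_erase hj)
      rw [abs_sub_comm, abs_of_nonneg (by linarith)] at h1
      linarith

end E36
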